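import Pool.Agent.DT.Complete

/-!
# A criterion for a ring to be the completion of a local ring

* `exists_equiv_compl`: let `S = O_p`, `𝔪 = pS`. `g` extends to `g' : S → B` (`IsLocalization.lift`, `h1`).
  `g'` maps `𝔪^m` into `M^m` (`h2`), `S/𝔪^m → B/M^m` is injective (`h3`: `g'(a/b) ∈ M^m`, then `g a ∈ M^m`,
  `b' a ∈ p^m`) and surjective (`h4`). Hence `AdicCompletion 𝔪 S ≃ AdicCompletion M B ≃ B` (`IsAdicComplete`:
  `AdicCompletion.ofAlgEquiv`/`of` is bijective), compatible with the maps from `O`.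
* `isAdicComplete_quot`: `PS n K` is noetherian (`MvPowerSeries.isNoetherianRing`) and complete; a finite module over a
  complete noetherian ring is complete, or directly: hausdorff by Krull's intersection theorem, precomplete by lifting
  Cauchy sequences.
-/

universe u

namespace DT

/-- a ring hom `S → B` which is an isomorphism modulo all powers induces an isomorphism of the completion with `B` -/
theorem ComplCrit_equiv {S B : Type*} [CommRing S] [CommRing B] (𝔪 : Ideal S) (M : Ideal B)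
    [IsAdicComplete M B] (g' : S →+* B)
    (hinj : ∀ (m : ℕ) (s : S), g' s ∈ M ^ m ↔ s ∈ 𝔪 ^ m)
    (hsur : ∀ (m : ℕ) (x : B), ∃ s : S, x - g' s ∈ M ^ m) :
    ∃ e : AdicCompletion 𝔪 S ≃+* B, ∀ s : S, e (algebraMap S _ s) = g' s := by
  have hle : ∀ m : ℕ, 𝔪 ^ m ≤ (M ^ m).comap g' := fun m s hs => (hinj m s).2 hs
  let q : (m : ℕ) → (S ⧸ 𝔪 ^ m) →+* (B ⧸ M ^ m) := fun m => Ideal.quotientMap (M ^ m) g' (hle m)
  have hq : ∀ (m : ℕ) (s : S), q m (Ideal.Quotient.mk _ s) = Ideal.Quotient.mk _ (g' s) := by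
    intro m s
    exact Ideal.quotientMap_mk
  have hqb : ∀ m, Function.Bijective (q m) := by
    intro m
    constructor
    · rw [injective_iff_map_eq_zero]
      intro x hx
      obtain ⟨s, rfl⟩ := Ideal.Quotient.mk_surjective x
      rw [hq, Ideal.Quotient.eq_zero_iff_mem, hinj] at hx
      exact Ideal.Quotient.eq_zero_iff_mem.2 hx
    · intro y
      obtain ⟨x, rfl⟩ := Ideal.Quotient.mk_surjective y
      obtain ⟨s, hs⟩ := hsur m x
      refine ⟨Ideal.Quotient.mk _ s, ?_⟩
      rw [hq, eq_comm, Ideal.Quotient.eq]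
      exact hs
  let e : (m : ℕ) → (S ⧸ 𝔪 ^ m) ≃+* (B ⧸ M ^ m) := fun m => RingEquiv.ofBijective (q m) (hqb m)
  have he : ∀ (m : ℕ) (s : S), e m (Ideal.Quotient.mk _ s) = Ideal.Quotient.mk _ (g' s) := hq
  -- the map `φ`
  let f : (n : ℕ) → AdicCompletion 𝔪 S →+* B ⧸ M ^ n := fun n =>
    (e n : (S ⧸ 𝔪 ^ n) →+* (B ⧸ M ^ n)).comp (AdicCompletion.evalₐ 𝔪 n : AdicCompletion 𝔪 S →+* _)
  have hcompat : ∀ {m n : ℕ} (hmn : m ≤ n) (y : S ⧸ 𝔪 ^ n),
      Ideal.Quotient.factorPow M hmn (e n y) = e m (Ideal.Quotient.factorPow 𝔪 hmn y) := by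
    intro m n hmn y
    obtain ⟨s, rfl⟩ := Ideal.Quotient.mk_surjective y
    rw [he]
    simp only [Ideal.Quotient.factorPow, Ideal.Quotient.factor_mk]
    rw [he]
  have hev : ∀ {m n : ℕ} (hmn : m ≤ n) (x : AdicCompletion 𝔪 S),
      Ideal.Quotient.factorPow 𝔪 hmn (AdicCompletion.evalₐ 𝔪 n x) = AdicCompletion.evalₐ 𝔪 m x := by
    intro m n hmn x
    induction x using AdicCompletion.induction_on with
    | h a =>
      rw [AdicCompletion.evalₐ_mk, AdicCompletion.evalₐ_mk]
      simp only [Ideal.Quotient.factorPow, Ideal.Quotient.factor_mk]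
      exact AdicCompletion.Ideal.mk_eq_mk 𝔪 hmn a
  have hf : ∀ {m n : ℕ} (hmn : m ≤ n), (Ideal.Quotient.factorPow M hmn).comp (f n) = f m := by
    intro m n hmn
    ext x
    simp only [f, RingHom.comp_apply]
    change Ideal.Quotient.factorPow M hmn (e n (AdicCompletion.evalₐ 𝔪 n x)) = e m (AdicCompletion.evalₐ 𝔪 m x)
    rw [hcompat, hev]
  let φ : AdicCompletion 𝔪 S →+* B := IsAdicComplete.liftRingHom M f hf
  have hφ : ∀ n x, Ideal.Quotient.mk (M ^ n) (φ x) = e n (AdicCompletion.evalₐ 𝔪 n x) := by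
    intro n x
    exact IsAdicComplete.mk_liftRingHom M f hf n x
  -- the map `ψ`
  let f' : (n : ℕ) → B →+* S ⧸ 𝔪 ^ n := fun n =>
    ((e n).symm : (B ⧸ M ^ n) →+* (S ⧸ 𝔪 ^ n)).comp (Ideal.Quotient.mk (M ^ n))
  have hf' : ∀ {m n : ℕ} (hmn : m ≤ n), (Ideal.Quotient.factorPow 𝔪 hmn).comp (f' n) = f' m := by
    intro m n hmn
    ext x
    simp only [f', RingHom.comp_apply]
    change Ideal.Quotient.factorPow 𝔪 hmn ((e n).symm (Ideal.Quotient.mk (M ^ n) x)) =
      (e m).symm (Ideal.Quotient.mk (M ^ m) x)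
    apply (e m).injective
    rw [← hcompat, RingEquiv.apply_symm_apply, RingEquiv.apply_symm_apply]
    simp only [Ideal.Quotient.factorPow, Ideal.Quotient.factor_mk]
  let ψ : B →+* AdicCompletion 𝔪 S := AdicCompletion.liftRingHom 𝔪 f' hf'
  have hψ : ∀ n x, AdicCompletion.evalₐ 𝔪 n (ψ x) = (e n).symm (Ideal.Quotient.mk (M ^ n) x) := by
    intro n x
    exact AdicCompletion.evalₐ_liftRingHom 𝔪 f' hf' n x
  have h1 : ∀ x, φ (ψ x) = x := by
    intro x
    have hh : IsHausdorff M B := inferInstance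
    rw [← sub_eq_zero]
    apply hh.haus
    intro n
    have : Ideal.Quotient.mk (M ^ n) (φ (ψ x)) = Ideal.Quotient.mk (M ^ n) x := by
      rw [hφ, hψ, RingEquiv.apply_symm_apply]
    rw [Ideal.Quotient.eq] at this
    rw [SModEq.zero, smul_eq_mul, Ideal.mul_top]
    exact this
  have h2 : ∀ x, ψ (φ x) = x := by
    intro x
    apply AdicCompletion.ext_evalₐ
    intro n
    rw [hψ, hφ, RingEquiv.symm_apply_apply]
  refine ⟨{ toFun := φ, invFun := ψ, left_inv := h2, right_inv := h1,
            map_mul' := φ.map_mul, map_add' := φ.map_add }, ?_⟩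
  intro s
  change φ (algebraMap S _ s) = g' s
  have hh : IsHausdorff M B := inferInstance
  rw [← sub_eq_zero]
  apply hh.haus
  intro n
  have : Ideal.Quotient.mk (M ^ n) (φ (algebraMap S _ s)) = Ideal.Quotient.mk (M ^ n) (g' s) := by
    rw [hφ, ← he]
    congr 1
  rw [Ideal.Quotient.eq] at this
  rw [SModEq.zero, smul_eq_mul, Ideal.mul_top]
  exact this

theorem exists_equiv_compl {O : Type u} [CommRing O] (p : Ideal O) [p.IsPrime]
    {B : Type u} [CommRing B] (M : Ideal B) [IsAdicComplete M B] (g : O →+* B)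
    (h1 : ∀ a, a ∉ p → IsUnit (g a)) (h2 : ∀ a ∈ p, g a ∈ M)
    (h3 : ∀ (m : ℕ) (a : O), g a ∈ M ^ m → ∃ b, b ∉ p ∧ b * a ∈ p ^ m)
    (h4 : ∀ (m : ℕ) (x : B), ∃ a b, b ∉ p ∧ g b * x - g a ∈ M ^ m) :
    ∃ e : Compl O p ≃+* B, ∀ a, e (toCompl O p a) = g a := by
  let S := Localization.AtPrime p
  let g' : S →+* B := IsLocalization.lift (M := p.primeCompl) (g := g) (fun y => h1 _ y.2)
  have hg' : ∀ a, g' (algebraMap O S a) = g a := fun a => IsLocalization.lift_eq _ a
  have hm : Ideal.map (algebraMap O S) p = IsLocalRing.maximalIdeal S :=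
    Localization.AtPrime.map_eq_maximalIdeal
  have hgM : (IsLocalRing.maximalIdeal S).map g' ≤ M := by
    rw [← hm, Ideal.map_map, Ideal.map_le_iff_le_comap]
    intro a ha
    rw [Ideal.mem_comap, RingHom.comp_apply, hg']
    exact h2 a ha
  have hinj : ∀ (m : ℕ) (s : S), g' s ∈ M ^ m ↔ s ∈ (IsLocalRing.maximalIdeal S) ^ m := by
    intro m s
    constructor
    · intro hs
      obtain ⟨a, b, rfl⟩ := IsLocalization.exists_mk'_eq p.primeCompl s
      have hab : g a ∈ M ^ m := by
        have : g a = g b * g' (IsLocalization.mk' S a b) := by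
          rw [← hg' a, ← hg' b, ← map_mul, IsLocalization.mk'_spec']
        rw [this]
        exact Ideal.mul_mem_left _ _ hs
      obtain ⟨b', hb', hab'⟩ := h3 m a hab
      have hmem : algebraMap O S (b' * a) ∈ (IsLocalRing.maximalIdeal S) ^ m := by
        rw [← hm, ← Ideal.map_pow]
        exact Ideal.mem_map_of_mem _ hab'
      have hu : IsUnit (algebraMap O S b') := IsLocalization.map_units S (⟨b', hb'⟩ : p.primeCompl)
      have hub : IsUnit (algebraMap O S (b : O)) := IsLocalization.map_units S b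
      rw [map_mul] at hmem
      have ha : algebraMap O S a ∈ (IsLocalRing.maximalIdeal S) ^ m :=
        (Ideal.unit_mul_mem_iff_mem _ hu).1 hmem
      rw [← Ideal.unit_mul_mem_iff_mem _ hub, IsLocalization.mk'_spec']
      exact ha
    · intro hs
      have : g' s ∈ ((IsLocalRing.maximalIdeal S) ^ m).map g' := Ideal.mem_map_of_mem _ hs
      rw [Ideal.map_pow] at this
      exact Ideal.pow_right_mono hgM m this
  have hsur : ∀ (m : ℕ) (x : B), ∃ s : S, x - g' s ∈ M ^ m := by
    intro m x
    obtain ⟨a, b, hb, hab⟩ := h4 m x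
    refine ⟨IsLocalization.mk' S a (⟨b, hb⟩ : p.primeCompl), ?_⟩
    have hu : IsUnit (g b) := h1 b hb
    rw [← Ideal.unit_mul_mem_iff_mem _ hu]
    have : g b * (x - g' (IsLocalization.mk' S a (⟨b, hb⟩ : p.primeCompl))) = g b * x - g a := by
      rw [mul_sub, ← hg' b, ← map_mul]
      have := IsLocalization.mk'_spec' S a (⟨b, hb⟩ : p.primeCompl)
      rw [show algebraMap O S b * IsLocalization.mk' S a (⟨b, hb⟩ : p.primeCompl) = algebraMap O S a from this,
        hg' a]
    rw [this]
    exact hab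
  obtain ⟨e, he⟩ := ComplCrit_equiv (IsLocalRing.maximalIdeal S) M g' hinj hsur
  refine ⟨e, fun a => ?_⟩
  rw [← hg' a, ← he]
  rfl

/-- the image of a precomplete ring under a surjection is precomplete -/
theorem ComplCrit_precomplete {A B : Type*} [CommRing A] [CommRing B] (m : Ideal A) [IsPrecomplete m A]
    (q : A →+* B) (hq : Function.Surjective q) : IsPrecomplete (m.map q) B := by
  constructor
  intro f hf
  have hstep : ∀ n, ∃ d ∈ m ^ n, q d = f (n + 1) - f n := by
    intro n
    have h := hf (Nat.le_succ n)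
    rw [SModEq.sub_mem, smul_eq_mul, Ideal.mul_top, ← Ideal.map_pow] at h
    have h' : f (n + 1) - f n ∈ (m ^ n).map q := by
      have := Ideal.neg_mem_iff _ |>.2 h
      rwa [neg_sub] at this
    rw [Ideal.mem_map_iff_of_surjective q hq] at h'
    exact h'
  choose d hd hqd using hstep
  obtain ⟨a₀, ha₀⟩ := hq (f 0)
  let a : ℕ → A := fun n => a₀ + ∑ i ∈ Finset.range n, d i
  have hqa : ∀ n, q (a n) = f n := by
    intro n
    induction n with
    | zero => simp [a, ha₀]
    | succ n ih =>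
      have : a (n + 1) = a n + d n := by
        simp only [a, Finset.sum_range_succ]
        ring
      rw [this, map_add, ih, hqd]
      ring
  have hcau : ∀ {k n}, k ≤ n → a k ≡ a n [SMOD (m ^ k • ⊤ : Ideal A)] := by
    intro k n hkn
    rw [SModEq.sub_mem, smul_eq_mul, Ideal.mul_top]
    induction n, hkn using Nat.le_induction with
    | base => simp
    | succ n hkn ih =>
      have : a k - a (n + 1) = (a k - a n) - d n := by
        simp only [a, Finset.sum_range_succ]
        ring
      rw [this]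
      exact Ideal.sub_mem _ ih (Ideal.pow_le_pow_right hkn (hd n))
  obtain ⟨L, hL⟩ := IsPrecomplete.prec (I := m) (M := A) inferInstance hcau
  refine ⟨q L, fun n => ?_⟩
  have h := hL n
  rw [SModEq.sub_mem, smul_eq_mul, Ideal.mul_top] at h ⊢
  rw [← hqa n, ← map_sub, ← Ideal.map_pow]
  exact Ideal.mem_map_of_mem q h

/-- quotients of power series rings are complete -/
theorem isAdicComplete_quot (n : ℕ) (K : Type u) [Field K] (F : PS n K) :
    IsAdicComplete
      ((IsLocalRing.maximalIdeal (PS n K)).map (Ideal.Quotient.mk (Ideal.span {F})))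
      (PS n K ⧸ Ideal.span {F}) := by
  have hpre : IsPrecomplete
      ((IsLocalRing.maximalIdeal (PS n K)).map (Ideal.Quotient.mk (Ideal.span {F})))
      (PS n K ⧸ Ideal.span {F}) :=
    ComplCrit_precomplete _ _ Ideal.Quotient.mk_surjective
  have hhaus : IsHausdorff
      ((IsLocalRing.maximalIdeal (PS n K)).map (Ideal.Quotient.mk (Ideal.span {F})))
      (PS n K ⧸ Ideal.span {F}) := by
    by_cases hF : Ideal.span {F} = ⊤
    · have : Subsingleton (PS n K ⧸ Ideal.span {F}) := Ideal.Quotient.subsingleton_iff.2 hF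
      infer_instance
    · have hnt : Nontrivial (PS n K ⧸ Ideal.span {F}) := Ideal.Quotient.nontrivial_iff.2 hF
      have hloc : IsLocalRing (PS n K ⧸ Ideal.span {F}) :=
        IsLocalRing.of_surjective' _ Ideal.Quotient.mk_surjective
      have hne : (IsLocalRing.maximalIdeal (PS n K)).map (Ideal.Quotient.mk (Ideal.span {F})) ≠ ⊤ := by
        intro htop
        have h1 : (1 : PS n K ⧸ Ideal.span {F}) ∈
            (IsLocalRing.maximalIdeal (PS n K)).map (Ideal.Quotient.mk (Ideal.span {F})) := by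
          rw [htop]; trivial
        rw [Ideal.mem_map_iff_of_surjective _ Ideal.Quotient.mk_surjective] at h1
        obtain ⟨x, hx, hx1⟩ := h1
        rw [← map_one (Ideal.Quotient.mk (Ideal.span {F})), Ideal.Quotient.eq] at hx1
        have hle : Ideal.span {F} ≤ IsLocalRing.maximalIdeal (PS n K) := IsLocalRing.le_maximalIdeal hF
        have := Ideal.sub_mem _ hx (hle hx1)
        rw [sub_sub_cancel] at this
        exact (Ideal.ne_top_iff_one _).1 (IsLocalRing.maximalIdeal.isMaximal _).ne_top this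
      constructor
      intro x hx
      have hk := Ideal.iInf_pow_eq_bot_of_isLocalRing _ hne
      have : x ∈ ⨅ i : ℕ, ((IsLocalRing.maximalIdeal (PS n K)).map (Ideal.Quotient.mk (Ideal.span {F}))) ^ i := by
        rw [Ideal.mem_iInf]
        intro i
        have := hx i
        rwa [SModEq.zero, smul_eq_mul, Ideal.mul_top] at this
      rw [hk] at this
      exact this
  exact { toIsHausdorff := hhaus, toIsPrecomplete := hpre }

end DT
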