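import Pool.Agent.DT.Pt
import Pool.Agent.DTZ.Ufd

/-!
# Power series rings over a field are complete local noetherian rings
-/

universe u

open MvPowerSeries

namespace DT

instance isAdicComplete_PS (n : ℕ) (K : Type u) [Field K] :
    IsAdicComplete (IsLocalRing.maximalIdeal (PS n K)) (PS n K) := by
  infer_instance

end DT
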