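import Pool.Agent.DT.CongrStar

/-!
# Simple points and projections under isomorphisms

* `isSimplePt_congr`: `s.σ` induces a ring isomorphism of the quotients by `(f)`, `(f')` mapping the image of the complement
  of `p` to the image of the complement of `p'`, hence of the localizations; `IsRegularLocalRing.of_ringEquiv`.
* `proj_congr`: `(p.map ext)` corresponds to `(p'.map ext)` under `t'` (`h3`), then comap along `phi` (`h2`).
-/

universe u

open MvPowerSeries

namespace DT

section
variable {n r : ℕ} {K K' : Type u} [Field K] [Field K']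

private theorem regular_congr {A B : Type u} [CommRing A] [CommRing B] (e : A ≃+* B) {f : A} {f' : B}
    (hf : Associated (e f) f') (p : Ideal A) (p' : Ideal B) [p.IsPrime] [p'.IsPrime]
    (hp : p = p'.comap e)
    (h : IsRegularLocalRing (Localization (p.primeCompl.map (Ideal.Quotient.mk (Ideal.span {f}))))) :
    IsRegularLocalRing
      (Localization (p'.primeCompl.map (Ideal.Quotient.mk (Ideal.span {f'})))) := by
  have hs : Ideal.span {f'} = (Ideal.span {f}).map (e : A →+* B) := by
    rw [Ideal.map_span, Set.image_singleton]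
    exact le_antisymm (Ideal.span_singleton_le_span_singleton.2 hf.dvd)
      (Ideal.span_singleton_le_span_singleton.2 hf.symm.dvd)
  let q : (A ⧸ Ideal.span {f}) ≃+* (B ⧸ Ideal.span {f'}) := Ideal.quotientEquiv _ _ e hs
  have hq : ∀ a, q (Ideal.Quotient.mk _ a) = Ideal.Quotient.mk _ (e a) := fun a =>
    Ideal.quotientEquiv_mk _ _ e hs a
  have hM : Submonoid.map q.toMonoidHom (p.primeCompl.map (Ideal.Quotient.mk (Ideal.span {f}))) =
      p'.primeCompl.map (Ideal.Quotient.mk (Ideal.span {f'})) := by
    ext y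
    simp only [Submonoid.mem_map]
    constructor
    · rintro ⟨_, ⟨a, ha, rfl⟩, rfl⟩
      refine ⟨e a, ?_, (hq a).symm⟩
      intro h1
      apply ha
      change a ∈ p
      rw [hp]
      exact h1
    · rintro ⟨b, hb, rfl⟩
      refine ⟨_, ⟨e.symm b, ?_, rfl⟩, ?_⟩
      · intro h1
        apply hb
        change e.symm b ∈ p at h1
        rw [hp, Ideal.mem_comap] at h1
        simpa using h1
      · change q _ = _
        rw [hq, RingEquiv.apply_symm_apply]
  have e2 := IsLocalization.ringEquivOfRingEquiv
    (Localization (p.primeCompl.map (Ideal.Quotient.mk (Ideal.span {f}))))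
    (Localization (p'.primeCompl.map (Ideal.Quotient.mk (Ideal.span {f'})))) q hM
  exact IsRegularLocalRing.of_ringEquiv e2

theorem isSimplePt_congr (s : Iso n K K') {f : PS n K} {f' : PS n K'}
    (hf' : Associated (s.σ f) f') (p : Ideal (PS n K)) (p' : Ideal (PS n K'))
    (hp : p = p'.comap s.σ) : IsSimplePt f p ↔ IsSimplePt f' p' := by
  have hp2 : p' = p.comap s.σ.symm := by
    ext x
    rw [Ideal.mem_comap, hp, Ideal.mem_comap, RingEquiv.apply_symm_apply]
  have hf2 : Associated (s.σ.symm f') f := by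
    have h1 := (hf'.symm).map (s.σ.symm : PS n K' →+* PS n K)
    simpa using h1
  constructor
  · rintro ⟨h1, h2⟩
    have h3 : p'.IsPrime := by
      rw [hp2]
      exact Ideal.IsPrime.comap _
    exact ⟨h3, regular_congr s.σ hf' p p' hp h2⟩
  · rintro ⟨h1, h2⟩
    have h3 : p.IsPrime := by
      rw [hp]
      exact Ideal.IsPrime.comap _
    exact ⟨h3, regular_congr s.σ.symm hf2 p' p hp2 h2⟩

theorem proj_congr (s : Iso (r + 1) K K') (t : Iso r (KS r K) (KS r K'))
    (t' : Iso (r + 1) (KS r K) (KS r K'))
    (h2 : ∀ a, t'.σ (phi r K a) = phi r K' (t.σ a))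
    (h3 : ∀ f, t'.σ (ext r K (r + 1) f) = ext r K' (r + 1) (s.σ f))
    (p : Ideal (PS (r + 1) K)) (p' : Ideal (PS (r + 1) K')) (hp : p = p'.comap s.σ) :
    proj p = (proj p').comap t.σ := by
  have e1 : (t'.σ : PS (r + 1) (KS r K) →+* PS (r + 1) (KS r K')).comp (ext r K (r + 1)) =
      (ext r K' (r + 1)).comp (s.σ : PS (r + 1) K →+* PS (r + 1) K') := by
    refine RingHom.ext fun f => ?_
    exact h3 f
  have e2 : p.map (s.σ : PS (r + 1) K →+* PS (r + 1) K') = p' := by
    rw [hp]
    exact Ideal.map_comap_of_surjective _ s.σ.surjective _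
  have e3 : (p'.map (ext r K' (r + 1))).comap
      (t'.σ : PS (r + 1) (KS r K) →+* PS (r + 1) (KS r K')) = p.map (ext r K (r + 1)) := by
    rw [← e2, Ideal.map_map, ← e1, ← Ideal.map_map]
    exact Ideal.comap_map_of_bijective _ t'.σ.bijective
  ext a
  simp only [proj, Ideal.mem_comap]
  rw [← e3, Ideal.mem_comap]
  change t'.σ (phi r K a) ∈ _ ↔ phi r K' (t.σ a) ∈ _
  rw [h2]

end

end DT
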