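import Pool.Agent.DT.Pt
import Pool.Agent.DTZ.Inv

/-!
# The inverse function theorem for formal power series

See `Pool/Agent/DTZ/Inv.lean` (helper77): the substitution `a.ev` is bijective (`Inv_bij`); the inverse is a
homomorphism of `K`-algebras which maps the variables to nonunits, hence the evaluation at a point (`Pt.eq_ev`).
-/

universe u

open MvPowerSeries

namespace DT

/-- a point `a : Pt n n K` with invertible linear part has a two-sided inverse -/
theorem exists_inverse {n : ℕ} {K : Type u} [Field K] (a : Pt n n K) (h : a.linMat.det ≠ 0) :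
    ∃ b : Pt n n K, a.comp b = Pt.id n K ∧ b.comp a = Pt.id n K := by
  have hspan : Ideal.span (Set.range a.val) = IsLocalRing.maximalIdeal (PS n K) :=
    Pool.Agent.DTZ.Inv_span a.cc h
  have hbij : Function.Bijective a.ev := Pool.Agent.DTZ.Inv_bij a.cc hspan
  let e : PS n K ≃ₐ[K] PS n K := AlgEquiv.ofBijective a.ev hbij
  have he : ∀ f, a.ev (e.symm f) = f := fun f => e.apply_symm_apply f
  have he' : ∀ f, e.symm (a.ev f) = f := fun f => e.symm_apply_apply f
  have hc : ∀ i, constantCoeff ((e.symm : PS n K →ₐ[K] PS n K) (X i)) = 0 := by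
    intro i
    have h1 : constantCoeff (a.ev (e.symm (X i))) = constantCoeff (e.symm (X i)) := a.constantCoeff_ev _
    rw [he, constantCoeff_X] at h1
    exact h1.symm
  refine ⟨Pt.mk (fun i => (e.symm : PS n K →ₐ[K] PS n K) (X i)) hc, ?_, ?_⟩
  · ext1 i
    show (Pt.mk (fun i => (e.symm : PS n K →ₐ[K] PS n K) (X i)) hc).ev (a.val i) = X i
    rw [← Pt.eq_ev (e.symm : PS n K →ₐ[K] PS n K) hc, ← Pt.ev_X a i]
    exact he' (X i)
  · ext1 i
    exact he (X i)

end DT
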