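import Pool.Agent.DT.Pt

/-!
# Generic minors are nonzero

`lin (xstar r K i) j = u^{(i)}_{e_j}` (`lin_xstar`) are distinct indeterminates.
* `det_genRows_ne_zero`: the determinant is the image of a polynomial in `MvPolynomial (Idx r) K` (the algebra map
  to the fraction field is injective); to see that this polynomial is nonzero evaluate the indeterminates
  `u^{(i)}_{e_j} ↦ A i j` where `A` are `r` rows which complete the nonzero row `ℓ` to an invertible matrix
  (e.g. choose `j₀` with `ℓ j₀ ≠ 0` and let the other rows be the unit vectors `e_j`, `j ≠ j₀`; `Fin.succAbove`).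
* `genRows_indep`: `Matrix.vecMul` by an invertible matrix is injective.
* `exists_kernel_vector`: let `v_j = (-1)^j * minor` obtained by deleting column `j` of the `r × (r+1)` matrix
  (`= ` the cofactors of the last row of `genRows r K ℓ`, independent of `ℓ`). The relations hold by expansion of a
  determinant with a repeated row. `F(v)` is the image of a polynomial in the `u`; `K` is infinite so there is
  `p ∈ K^{r+1}` with `F(p) ≠ 0` (if `F` is a nonzero constant anything works; otherwise choose also `p ≠ 0`, by
  applying this to `F` times a variable); specialize the matrix to one whose signed minors are exactly `p`.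
-/

universe u

open MvPowerSeries

namespace DT

/-- `r+1` rows: the linear parts of the generic `x_i^*`, `i < r`, and (last) a row over `K` -/
noncomputable def genRows (r : ℕ) (K : Type u) [Field K] (ℓ : Fin (r + 1) → K) :
    Matrix (Fin (r + 1)) (Fin (r + 1)) (KS r K) :=
  Matrix.of (Fin.snoc (α := fun _ => Fin (r + 1) → KS r K) (fun i : Fin r => lin (xstar r K i))
    (fun j => algebraMap K (KS r K) (ℓ j)))

/-- the indeterminate `u^{(i)}_{e_j}` -/
private noncomputable def gmU (r : ℕ) (K : Type u) [Field K] :
    Matrix (Fin r) (Fin (r + 1)) (MvPolynomial (Idx r) K) :=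
  Matrix.of fun i j => MvPolynomial.X (i, ⟨Finsupp.single j 1, by simp⟩)

private theorem gm_lin (r : ℕ) (K : Type u) [Field K] (i : Fin r) (j : Fin (r + 1)) :
    lin (xstar r K i) j = algebraMap (MvPolynomial (Idx r) K) (KS r K) (gmU r K i j) :=
  lin_xstar r K i j

private theorem gm_inj (r : ℕ) (K : Type u) [Field K] :
    Function.Injective (algebraMap (MvPolynomial (Idx r) K) (KS r K)) :=
  IsFractionRing.injective _ _

open Classical in
/-- evaluation at a matrix -/
private noncomputable def gmE (r : ℕ) (K : Type u) [Field K]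
    (A : Matrix (Fin r) (Fin (r + 1)) K) : MvPolynomial (Idx r) K →+* K :=
  MvPolynomial.eval fun x => ∑ j, if x.2.1 = Finsupp.single j 1 then A x.1 j else 0

private theorem gmE_U (r : ℕ) (K : Type u) [Field K] (A : Matrix (Fin r) (Fin (r + 1)) K)
    (i : Fin r) (j : Fin (r + 1)) : gmE r K A (gmU r K i j) = A i j := by
  classical
  unfold gmE gmU
  rw [Matrix.of_apply, MvPolynomial.eval_X]
  simp only
  rw [Finset.sum_eq_single j]
  · rw [if_pos rfl]
  · intro b _ hb
    rw [if_neg]
    intro e
    rw [Finsupp.single_left_inj one_ne_zero] at e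
    exact hb e.symm
  · intro h
    exact absurd (Finset.mem_univ j) h

private theorem gmE_C (r : ℕ) (K : Type u) [Field K] (A : Matrix (Fin r) (Fin (r + 1)) K)
    (c : K) : gmE r K A (MvPolynomial.C c) = c := by
  unfold gmE
  rw [MvPolynomial.eval_C]

private theorem gm_algC (r : ℕ) (K : Type u) [Field K] (c : K) :
    algebraMap K (KS r K) c = algebraMap (MvPolynomial (Idx r) K) (KS r K) (MvPolynomial.C c) := by
  rw [IsScalarTower.algebraMap_apply K (MvPolynomial (Idx r) K) (KS r K),
    MvPolynomial.algebraMap_eq]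

theorem det_genRows_ne_zero (r : ℕ) (K : Type u) [Field K] (ℓ : Fin (r + 1) → K) (hℓ : ℓ ≠ 0) :
    (genRows r K ℓ).det ≠ 0 := by
  classical
  set M : Matrix (Fin (r + 1)) (Fin (r + 1)) (MvPolynomial (Idx r) K) :=
    Matrix.of (Fin.snoc (α := fun _ => Fin (r + 1) → MvPolynomial (Idx r) K)
      (fun i : Fin r => gmU r K i) (fun j => MvPolynomial.C (ℓ j))) with hM
  have hMlast : ∀ j, M (Fin.last r) j = MvPolynomial.C (ℓ j) := by
    intro j
    rw [hM, Matrix.of_apply, Fin.snoc_last]
  have hMcast : ∀ (i : Fin r) j, M i.castSucc j = gmU r K i j := by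
    intro i j
    rw [hM, Matrix.of_apply, Fin.snoc_castSucc]
  have e1 : genRows r K ℓ = (algebraMap (MvPolynomial (Idx r) K) (KS r K)).mapMatrix M := by
    ext i j
    rw [RingHom.mapMatrix_apply, Matrix.map_apply]
    refine Fin.lastCases ?_ (fun i => ?_) i
    · rw [hMlast, genRows, Matrix.of_apply, Fin.snoc_last, gm_algC]
    · rw [hMcast, genRows, Matrix.of_apply, Fin.snoc_castSucc, gm_lin]
  rw [e1, ← RingHom.map_det]
  intro h0
  have h1 : M.det = 0 := gm_inj r K (by rw [h0, map_zero])
  obtain ⟨j₀, hj₀⟩ : ∃ j₀, ℓ j₀ ≠ 0 := by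
    by_contra h
    push Not at h
    exact hℓ (funext h)
  set A : Matrix (Fin r) (Fin (r + 1)) K :=
    Matrix.of fun i j => if j = j₀.succAbove i then 1 else 0 with hA
  have h2 : ((gmE r K A).mapMatrix M).det = 0 := by
    rw [← RingHom.map_det, h1, map_zero]
  obtain ⟨v, hv, hv0⟩ := Matrix.exists_mulVec_eq_zero_iff.2 h2
  apply hv
  have h3 : ∀ i : Fin r, v (j₀.succAbove i) = 0 := by
    intro i
    have := congrFun hv0 i.castSucc
    simp only [Matrix.mulVec, dotProduct, RingHom.mapMatrix_apply, Matrix.map_apply, hMcast,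
      gmE_U, Pi.zero_apply] at this
    rw [hA] at this
    simpa using this
  have h4 : v j₀ = 0 := by
    have := congrFun hv0 (Fin.last r)
    simp only [Matrix.mulVec, dotProduct, RingHom.mapMatrix_apply, Matrix.map_apply, hMlast,
      gmE_C, Pi.zero_apply] at this
    rw [Fin.sum_univ_succAbove _ j₀] at this
    simp only [h3, mul_zero, Finset.sum_const_zero, add_zero] at this
    exact (mul_eq_zero.1 this).resolve_left hj₀
  funext j
  by_cases hj : j = j₀
  · rw [hj, h4]
    rfl
  · obtain ⟨i, hi⟩ := Fin.exists_succAbove_eq hj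
    rw [← hi, h3]
    rfl

/-- the generic rows and the row `ℓ` are linearly independent -/
theorem genRows_indep (r : ℕ) (K : Type u) [Field K] (ℓ : Fin (r + 1) → K) (hℓ : ℓ ≠ 0)
    (c : Fin r → KS r K) (d : KS r K)
    (h : ∀ j, ∑ i, c i * lin (xstar r K i) j + d * algebraMap K (KS r K) (ℓ j) = 0) :
    c = 0 ∧ d = 0 := by
  have hdet := det_genRows_ne_zero r K ℓ hℓ
  set w : Fin (r + 1) → KS r K := Fin.snoc (α := fun _ => KS r K) c d with hw
  have h0 : Matrix.vecMul w (genRows r K ℓ) = 0 := by
    funext j
    have := h j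
    simp only [Matrix.vecMul, dotProduct, Pi.zero_apply]
    rw [Fin.sum_univ_castSucc]
    simp only [hw, Fin.snoc_castSucc, Fin.snoc_last, genRows, Matrix.of_apply]
    exact this
  have h1 : w = 0 := Matrix.eq_zero_of_vecMul_eq_zero hdet h0
  constructor
  · funext i
    have := congrFun h1 i.castSucc
    rwa [hw, Fin.snoc_castSucc] at this
  · have := congrFun h1 (Fin.last r)
    rwa [hw, Fin.snoc_last] at this

/-- the signed maximal minors -/
private noncomputable def gmS {S : Type*} [CommRing S] {r : ℕ}
    (L : Matrix (Fin r) (Fin (r + 1)) S) (j : Fin (r + 1)) : S :=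
  (-1) ^ (j : ℕ) * (L.submatrix id j.succAbove).det

private theorem gmS_ker {S : Type*} [CommRing S] {r : ℕ} (L : Matrix (Fin r) (Fin (r + 1)) S)
    (i : Fin r) : ∑ j, L i j * gmS L j = 0 := by
  set N : Matrix (Fin (r + 1)) (Fin (r + 1)) S :=
    Matrix.of (Fin.cons (α := fun _ => Fin (r + 1) → S) (L i) (fun k : Fin r => L k)) with hN
  have h0 : N.det = 0 := by
    refine Matrix.det_zero_of_row_eq (i := 0) (j := i.succ) (Fin.succ_ne_zero i).symm ?_
    funext j
    rw [hN, Matrix.of_apply, Matrix.of_apply, Fin.cons_zero, Fin.cons_succ]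
  rw [Matrix.det_succ_row_zero] at h0
  rw [← h0]
  refine Finset.sum_congr rfl fun j _ => ?_
  have e1 : N 0 j = L i j := by
    rw [hN, Matrix.of_apply, Fin.cons_zero]
  have e2 : N.submatrix Fin.succ j.succAbove = L.submatrix id j.succAbove := by
    ext a b
    rw [Matrix.submatrix_apply, Matrix.submatrix_apply, hN, Matrix.of_apply, Fin.cons_succ]
    rfl
  rw [e1, e2]
  unfold gmS
  ring

private theorem gmS_map {S T : Type*} [CommRing S] [CommRing T] {r : ℕ} (φ : S →+* T)
    (L : Matrix (Fin r) (Fin (r + 1)) S) (j : Fin (r + 1)) :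
    φ (gmS L j) = gmS (L.map φ) j := by
  unfold gmS
  rw [map_mul, map_pow, map_neg, map_one, RingHom.map_det]
  rfl

/-- a nonzero homogeneous form over `K` does not vanish at the vector of signed generic maximal
minors (a vector killed by all the `lin (xstar r K i)`): there is `v` with `lin (x_i^*) v = 0` for
all `i` and `F(v) ≠ 0` for a given nonzero polynomial `F` over an infinite field `K` -/
theorem exists_kernel_vector (r : ℕ) (K : Type u) [Field K] [Infinite K]
    (F : MvPolynomial (Fin (r + 1)) K) (hF : F ≠ 0) :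
    ∃ v : Fin (r + 1) → KS r K, (∀ i : Fin r, ∑ j, lin (xstar r K i) j * v j = 0) ∧
      MvPolynomial.eval₂ (algebraMap K (KS r K)) v F ≠ 0 := by
  classical
  set al := algebraMap (MvPolynomial (Idx r) K) (KS r K) with hal
  by_contra hcon
  push Not at hcon
  -- the candidates
  have h1 : ∀ c : K, MvPolynomial.eval₂ (algebraMap K (KS r K))
      (fun j => al (MvPolynomial.C c * gmS (gmU r K) j)) F = 0 := by
    intro c
    apply hcon
    intro i
    have h2 := gmS_ker (gmU r K) i
    have h3 : ∑ j, lin (xstar r K i) j * al (MvPolynomial.C c * gmS (gmU r K) j) =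
        al (MvPolynomial.C c * ∑ j, gmU r K i j * gmS (gmU r K) j) := by
      rw [Finset.mul_sum, map_sum]
      refine Finset.sum_congr rfl fun j _ => ?_
      rw [gm_lin, ← map_mul]
      congr 1
      ring
    rw [h3, h2, mul_zero, map_zero]
  have h4 : ∀ c : K, MvPolynomial.eval₂ (MvPolynomial.C : K →+* MvPolynomial (Idx r) K)
      (fun j => MvPolynomial.C c * gmS (gmU r K) j) F = 0 := by
    intro c
    apply gm_inj r K
    rw [map_zero, ← h1 c, MvPolynomial.hom_eval₂]
    have e : (algebraMap (MvPolynomial (Idx r) K) (KS r K)).comp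
        (MvPolynomial.C : K →+* MvPolynomial (Idx r) K) = algebraMap K (KS r K) := by
      ext x
      rw [RingHom.comp_apply, ← gm_algC]
    rw [e]
  have h5 : ∀ (c : K) (A : Matrix (Fin r) (Fin (r + 1)) K),
      MvPolynomial.eval (fun j => c * gmS A j) F = 0 := by
    intro c A
    have h6 := congrArg (gmE r K A) (h4 c)
    rw [map_zero, MvPolynomial.hom_eval₂] at h6
    have e : (gmE r K A).comp (MvPolynomial.C : K →+* MvPolynomial (Idx r) K) = RingHom.id K := by
      ext x
      rw [RingHom.comp_apply, gmE_C]
      rfl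
    have e2 : (fun j => gmE r K A (MvPolynomial.C c * gmS (gmU r K) j)) =
        fun j => c * gmS A j := by
      funext j
      rw [map_mul, gmE_C, gmS_map]
      congr 2
      ext a b
      rw [Matrix.map_apply, gmE_U]
    rw [e, e2] at h6
    rw [MvPolynomial.eval, MvPolynomial.coe_eval₂Hom]
    exact h6
  -- every point with nonzero first coordinate is a multiple of the minors of a matrix
  have h6 : ∀ p : Fin (r + 1) → K, p 0 ≠ 0 → MvPolynomial.eval p F = 0 := by
    intro p hp
    set A : Matrix (Fin r) (Fin (r + 1)) K := Matrix.of fun i =>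
      Fin.cons (α := fun _ => K) (-(p i.succ / p 0)) (fun k : Fin r => if k = i then 1 else 0)
      with hA
    have hA0 : ∀ i, A i 0 = -(p i.succ / p 0) := by
      intro i
      rw [hA, Matrix.of_apply, Fin.cons_zero]
    have hAs : ∀ i k : Fin r, A i k.succ = if k = i then 1 else 0 := by
      intro i k
      rw [hA, Matrix.of_apply, Fin.cons_succ]
    have hm0 : gmS A 0 = 1 := by
      unfold gmS
      have e : A.submatrix id (Fin.succAbove 0) = 1 := by
        ext a b
        rw [Matrix.submatrix_apply, Fin.zero_succAbove, id, hAs, Matrix.one_apply]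
        exact if_congr eq_comm rfl rfl
      rw [e, Matrix.det_one]
      simp
    have hms : ∀ i : Fin r, gmS A i.succ = p i.succ / p 0 := by
      intro i
      have h7 := gmS_ker A i
      rw [Fin.sum_univ_succ, hA0, hm0] at h7
      simp only [hAs, ite_mul, one_mul, zero_mul, Finset.sum_ite_eq', Finset.mem_univ,
        if_true] at h7
      linear_combination h7
    have h8 := h5 (p 0) A
    have e : (fun j => p 0 * gmS A j) = p := by
      funext j
      refine Fin.cases ?_ (fun i => ?_) j
      · rw [hm0, mul_one]
      · rw [hms]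
        field_simp
    rwa [e] at h8
  apply hF
  have h9 : F * MvPolynomial.X 0 = 0 := by
    apply MvPolynomial.funext
    intro p
    rw [map_mul, map_zero, MvPolynomial.eval_X]
    by_cases hp : p 0 = 0
    · rw [hp, mul_zero]
    · rw [h6 p hp, zero_mul]
  exact (mul_eq_zero.1 h9).resolve_right (MvPolynomial.X_ne_zero 0)

end DT
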