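import Pool.Agent.DT.SectA
import Pool.Agent.DT.GenMinor

/-!
# Sections of the generic projection

Paper proofs.
* `exists_sect`: the point `Φ = (x_0^*, …, x_{r-1}^*, h)` (`Fin.snoc`) has linear matrix `genRows r K (lin h)`,
  whose determinant is nonzero (`det_genRows_ne_zero`); take the inverse `Φ'` (`exists_inverse`) and
  `σ = Φ'.comp incl`. `σ.ev (x_i^*) = incl.ev (Φ'.ev (Φ.val i)) = incl.ev X_i = X_i`.
* `sect_phi`: `phi = (gen r K).ev`, `(gen).comp (sect h) = Pt.id` by `sect_xstar`.
* `sect_eval₂`: ring homomorphisms commute with `eval₂` (`Polynomial.hom_eval₂`), and `sect_phi`.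
* `associated_root_sub`: put `x = X_last`, `κ_i = root h_i`. The element `x - phi κ_2` is a generator of
  the kernel of `(sect h_2).ev`: it is in the kernel, so `ext h_2 ∣ x - phi κ_2`; conversely it has a nonzero
  linear part... simplest: `ext h_2 * u = x - phi κ_2`; `IsSect` also holds for `x - phi κ_2` with the
  same `σ = sect h_2` (automorphism `(x_0^*,…,x_{r-1}^*, x - phi κ_2)`, determinant `genRows r K (lin x)` up to
  row operations), hence the two equations divide each other; or: any `g` with `(sect h_2).ev g = 0` is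
  divisible by `x - phi κ_2` because `g` = (function of `x_i^*` and `x - phi κ_2`). Then apply
  `(sect h_1).ev` to `ext h_2 ~ x - phi κ_2`: `(sect h_1).ev (x - phi κ_2) = κ_1 - κ_2`.
-/

universe u

open MvPowerSeries

namespace DT

theorem exists_sect {r : ℕ} {K : Type u} [Field K] (h : PS (r + 1) K)
    (h0 : constantCoeff h = 0) (hl : lin h ≠ 0) :
    ∃ σ : Pt (r + 1) r (KS r K), IsSect σ (ext r K (r + 1) h) ∧
      ∀ i, σ.ev (xstar r K i) = X i := by
  classical
  let Φ : Pt (r + 1) (r + 1) (KS r K) :=
    { val := Fin.snoc (α := fun _ => PS (r + 1) (KS r K)) (xstar r K) (DT.ext r K (r + 1) h)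
      cc := by
        intro i
        refine Fin.lastCases ?_ (fun j => ?_) i
        · rw [Fin.snoc_last, DT.ext, constantCoeff_map, h0, map_zero]
        · rw [Fin.snoc_castSucc]
          exact xstar_constantCoeff r K j }
  have hlast : Φ.val (Fin.last r) = DT.ext r K (r + 1) h := Fin.snoc_last (α := fun _ => PS (r + 1) (KS r K)) _ _
  have hcast : ∀ i : Fin r, Φ.val i.castSucc = xstar r K i := fun i =>
    Fin.snoc_castSucc (α := fun _ => PS (r + 1) (KS r K)) _ _ i
  have hmat : Φ.linMat = genRows r K (lin h) := by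
    ext i j
    refine Fin.lastCases ?_ (fun i => ?_) i
    · rw [Pt.linMat, genRows, Matrix.of_apply, Matrix.of_apply, Fin.snoc_last, hlast, DT.ext,
        lin_map]
    · rw [Pt.linMat, genRows, Matrix.of_apply, Matrix.of_apply, Fin.snoc_castSucc, hcast]
  obtain ⟨Φ', h1, h2⟩ := exists_inverse Φ (by rw [hmat]; exact det_genRows_ne_zero r K _ hl)
  refine ⟨Φ'.comp (incl r (KS r K)), ⟨Φ, Φ', h1, h2, hlast, rfl⟩, fun i => ?_⟩
  have h3 : (Φ.comp Φ').val i.castSucc = X i.castSucc := by rw [h1]; rfl
  have h4 : Φ'.ev (xstar r K i) = X i.castSucc := by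
    rw [← hcast i]; exact h3
  rw [Pt.ev_comp, h4, Pt.ev_X]
  exact Fin.snoc_castSucc (α := fun _ => PS r (KS r K)) _ _ i

open Classical in
/-- the section of the generic projection with image `h = 0` -/
noncomputable def sect {r : ℕ} {K : Type u} [Field K] (h : PS (r + 1) K) :
    Pt (r + 1) r (KS r K) :=
  if H : ∃ σ : Pt (r + 1) r (KS r K), IsSect σ (ext r K (r + 1) h) ∧
      ∀ i, σ.ev (xstar r K i) = X i then H.choose else incl r _

section
variable {r : ℕ} {K : Type u} [Field K] {h : PS (r + 1) K}

theorem sect_isSect (h0 : constantCoeff h = 0) (hl : lin h ≠ 0) :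
    IsSect (sect h) (ext r K (r + 1) h) := by
  rw [sect, dif_pos (exists_sect h h0 hl)]
  exact (exists_sect h h0 hl).choose_spec.1

theorem sect_xstar (h0 : constantCoeff h = 0) (hl : lin h ≠ 0) (i : Fin r) :
    (sect h).ev (xstar r K i) = X i := by
  rw [sect, dif_pos (exists_sect h h0 hl)]
  exact (exists_sect h h0 hl).choose_spec.2 i

theorem sect_phi (h0 : constantCoeff h = 0) (hl : lin h ≠ 0) (a : PS r (KS r K)) :
    (sect h).ev (phi r K a) = a := by
  have h1 : (gen r K).comp (sect h) = Pt.id r (KS r K) := by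
    ext1 i
    exact sect_xstar h0 hl i
  rw [phi_eq_ev, ← Pt.ev_comp, h1, Pt.ev_id]

/-- the last coordinate of the section (the root of the Weierstrass polynomial) -/
noncomputable def root {r : ℕ} {K : Type u} [Field K] (h : PS (r + 1) K) : PS r (KS r K) :=
  (sect h).val (Fin.last r)

/-- the linear part of `x_r - phi κ` is nonzero -/
theorem lin_X_sub_phi_ne_zero (κ : PS r (KS r K)) :
    lin (X (Fin.last r) - phi r K κ : PS (r + 1) (KS r K)) ≠ 0 := by
  classical
  intro h0
  have h1 := genRows_indep r K (fun j => if Fin.last r = j then 1 else 0) (by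
    intro h2
    have := congrFun h2 (Fin.last r)
    simp at this) (lin κ) (-1) (by
    intro j
    have h3 := congrFun h0 j
    rw [lin_sub, Pi.sub_apply, lin_X, phi_eq_ev, Pt.lin_ev, Pi.zero_apply, sub_eq_zero] at h3
    have h4 : algebraMap K (KS r K) (if Fin.last r = j then 1 else 0) =
        if Fin.last r = j then 1 else 0 := by
      split_ifs
      · exact map_one _
      · exact map_zero _
    rw [h4, h3]
    simp [gen])
  exact absurd h1.2 (by simp)

/-- the difference of two roots is associated to the value of one equation on the section of the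
other -/
theorem associated_root_sub {h₁ h₂ : PS (r + 1) K} (h10 : constantCoeff h₁ = 0)
    (h1l : lin h₁ ≠ 0) (h20 : constantCoeff h₂ = 0) (h2l : lin h₂ ≠ 0) :
    Associated ((sect h₁).ev (ext r K (r + 1) h₂)) (root h₁ - root h₂) := by
  have h1 : (sect h₂).ev (X (Fin.last r) - phi r K (root h₂)) = 0 := by
    rw [map_sub, sect_phi h20 h2l, Pt.ev_X]
    exact sub_self _
  obtain ⟨u, hu⟩ := ((sect_isSect h20 h2l).ev_eq_zero_iff _).1 h1
  have hcc : constantCoeff (DT.ext r K (r + 1) h₂) = 0 := by
    rw [DT.ext, constantCoeff_map, h20, map_zero]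
  have hu0 : constantCoeff u ≠ 0 := by
    intro h0
    apply lin_X_sub_phi_ne_zero (root h₂)
    rw [hu, lin_mul, hcc, h0, zero_smul, zero_smul, add_zero]
  have hunit : IsUnit u := MvPowerSeries.isUnit_iff_constantCoeff.2 (isUnit_iff_ne_zero.2 hu0)
  have hass : Associated (DT.ext r K (r + 1) h₂) (X (Fin.last r) - phi r K (root h₂)) := by
    obtain ⟨v, rfl⟩ := hunit
    exact ⟨v, hu.symm⟩
  have h2 := hass.map (sect h₁).ev
  rwa [map_sub, sect_phi h10 h1l, Pt.ev_X] at h2

/-- evaluating a polynomial over `A^*` in `x_r` on the section -/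
theorem sect_eval₂ (h0 : constantCoeff h = 0) (hl : lin h ≠ 0)
    (W : Polynomial (PS r (KS r K))) :
    (sect h).ev (W.eval₂ (phi r K).toRingHom (X (Fin.last r))) = W.eval (root h) := by
  have h1 := Polynomial.hom_eval₂ W (phi r K).toRingHom (sect h).ev.toRingHom (X (Fin.last r))
  have h2 : (sect h).ev.toRingHom.comp (phi r K).toRingHom = RingHom.id _ := by
    ext1 a
    exact sect_phi h0 hl a
  have h3 : (sect h).ev.toRingHom (X (Fin.last r)) = root h := Pt.ev_X _ _
  rw [h2, h3] at h1
  exact h1

end

end DT
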