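import Pool.Agent.DT.LastVar
import Pool.Agent.DT.Sect

/-!
# The closed point is simple iff the order is one; the projection of the closed point

* `ringKrullDim_PS`: induction on `n`, with the surjection `X_last ↦ 0`; the maximal ideal is generated by the
  variables.
* `isRegular_quotient_iff`: the ring `B = PS (n+1) K / (f)` is local noetherian of dimension `n`. If `lin f ≠ 0` then
  the maximal ideal of `B` is generated by `n` variables (Nakayama). If `lin f = 0` and `𝔪_B` was generated by `n`
  elements `b_i`, their lifts and `f` generate `𝔪`, but the linear parts of the elements of the ideal generated by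
  `n` elements of `𝔪` and `f` span a space of dimension `≤ n`.
* `isSimplePt_maximalIdeal_iff`: the complement of the maximal ideal consists of units.
* `proj_maximalIdeal`: the extension of the maximal ideal is the maximal ideal, and
  `constantCoeff (phi a) = constantCoeff a`.
-/

universe u

open MvPowerSeries

namespace DT

private lemma smp_comp_id {n : ℕ} {K : Type u} [Field K] : (Pt.id n K).comp (Pt.id n K) = Pt.id n K := by
  ext1 i
  exact Pt.ev_id _

private lemma smp_isSect_incl (n : ℕ) (K : Type u) [Field K] :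
    IsSect (incl n K) (X (Fin.last n)) := by
  refine ⟨Pt.id _ _, Pt.id _ _, smp_comp_id, smp_comp_id, rfl, ?_⟩
  ext1 i
  exact ((incl n K).ev_X i).symm

private lemma smp_dim_le (n : ℕ) (K : Type u) [Field K] : ringKrullDim (PS n K) ≤ n := by
  refine (ringKrullDim_le_spanFinrank_maximalIdeal (PS n K)).trans ?_
  have h : (IsLocalRing.maximalIdeal (PS n K)).spanFinrank ≤ n := by
    rw [maximalIdeal_eq_span]
    refine (Submodule.spanFinrank_span_le_ncard_of_finite (Set.finite_range _)).trans ?_
    rw [← Set.image_univ]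
    refine (Set.ncard_image_le Set.finite_univ).trans ?_
    rw [Set.ncard_univ, Nat.card_eq_fintype_card, Fintype.card_fin]
  exact_mod_cast h

private lemma smp_le_dim (n : ℕ) (K : Type u) [Field K] : (n : WithBot ℕ∞) ≤ ringKrullDim (PS n K) := by
  induction n with
  | zero => exact_mod_cast ringKrullDim_nonneg_of_nontrivial
  | succ n ih =>
    have hs := smp_isSect_incl n K
    have h1 : ringKrullDim (PS n K) + 1 ≤ ringKrullDim (PS (n + 1) K) := by
      refine ringKrullDim_succ_le_of_surjective (incl n K).ev.toRingHom hs.ev_surjective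
        (r := X (Fin.last n)) ?_ ?_
      · exact mem_nonZeroDivisors_of_ne_zero hs.prime.ne_zero
      · exact (hs.ev_eq_zero_iff _).2 dvd_rfl
    refine le_trans ?_ h1
    push_cast
    gcongr

theorem ringKrullDim_PS (n : ℕ) (K : Type u) [Field K] : ringKrullDim (PS n K) = n :=
  le_antisymm (smp_dim_le n K) (smp_le_dim n K)

private lemma smp_mem_sq {n : ℕ} {K : Type u} [Field K] (f : PS n K) (h0 : constantCoeff f = 0)
    (h1 : lin f = 0) : f ∈ IsLocalRing.maximalIdeal (PS n K) ^ 2 := by
  rw [Pool.Agent.DTZ.Ufd_mem_pow]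
  intro d hd
  by_cases hd0 : d = 0
  · rw [hd0, coeff_zero_eq_constantCoeff_apply, h0]
  · have h2 : d.degree = 1 := by
      have : d.degree ≠ 0 := fun h => hd0 ((Finsupp.degree_eq_zero_iff d).1 h)
      omega
    have h3 : d ∈ Set.range (fun a : Fin n => Finsupp.single a 1) := by
      rw [Finsupp.range_single_one]
      exact h2
    obtain ⟨j, rfl⟩ := h3
    exact congrFun h1 j

private lemma smp_lin_sum {n : ℕ} {K : Type u} [Field K] {ι : Type*} (s : Finset ι) (g : ι → PS n K) :
    lin (∑ i ∈ s, g i) = ∑ i ∈ s, lin (g i) := by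
  classical
  induction s using Finset.induction_on with
  | empty =>
    funext j
    simp [lin]
  | insert a s ha ih => rw [Finset.sum_insert ha, Finset.sum_insert ha, lin_add, ih]

/-- Expansion up to terms of order two. -/
private lemma smp_expand {n : ℕ} {K : Type u} [Field K] (f : PS n K) (h0 : constantCoeff f = 0) :
    f - ∑ i, C (lin f i) * X i ∈ IsLocalRing.maximalIdeal (PS n K) ^ 2 := by
  apply smp_mem_sq
  · rw [map_sub, h0, map_sum, zero_sub, neg_eq_zero]
    exact Finset.sum_eq_zero fun i _ => by simp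
  · rw [lin_sub, smp_lin_sum, sub_eq_zero]
    funext j
    rw [Finset.sum_apply]
    rw [Finset.sum_eq_single j]
    · rw [lin_mul_of_cc _ _ (by simp)]
      simp
    · intro i _ hij
      rw [lin_mul_of_cc _ _ (by simp)]
      simp [hij]
    · simp

section
variable {n : ℕ} {K : Type u} [Field K] (f : PS (n + 1) K)

private lemma smp_mem (h0 : constantCoeff f = 0) : f ∈ IsLocalRing.maximalIdeal (PS (n + 1) K) :=
  (mem_maximalIdeal_iff f).2 h0

private lemma smp_nontrivial (h0 : constantCoeff f = 0) : Nontrivial (PS (n + 1) K ⧸ Ideal.span {f}) := by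
  rw [Ideal.Quotient.nontrivial_iff]
  intro h
  have h1 : (1 : PS (n + 1) K) ∈ IsLocalRing.maximalIdeal (PS (n + 1) K) := by
    have h2 : Ideal.span {f} ≤ IsLocalRing.maximalIdeal (PS (n + 1) K) := by
      rw [Ideal.span_singleton_le_iff_mem]
      exact smp_mem f h0
    exact h2 (h ▸ Submodule.mem_top)
  exact (Ideal.ne_top_iff_one _).1 (IsLocalRing.maximalIdeal.isMaximal _).ne_top h1

private lemma smp_local (h0 : constantCoeff f = 0) : IsLocalRing (PS (n + 1) K ⧸ Ideal.span {f}) := by
  have := smp_nontrivial f h0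
  exact IsLocalRing.of_surjective' (Ideal.Quotient.mk _) Ideal.Quotient.mk_surjective

private lemma smp_cancel {d : WithBot ℕ∞} {n : ℕ} (h1 : d + 1 = ((n + 1 : ℕ) : WithBot ℕ∞)) (h2 : 0 ≤ d) :
    d = n := by
  induction d with
  | bot => simp at h2
  | coe d =>
    have h3 : d + 1 = ((n : ℕ∞) + 1) := by exact_mod_cast h1
    have h4 : d = (n : ℕ∞) := ENat.add_left_injective_of_ne_top (n := 1) (by simp) h3
    rw [h4]
    rfl

private lemma smp_dim_quot (hf : f ≠ 0) (h0 : constantCoeff f = 0) :
    ringKrullDim (PS (n + 1) K ⧸ Ideal.span {f}) = n := by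
  have h1 : ringKrullDim (PS (n + 1) K ⧸ Ideal.span {f}) + 1 = ringKrullDim (PS (n + 1) K) := by
    refine le_antisymm
      (ringKrullDim_quotient_succ_le_of_nonZeroDivisor (mem_nonZeroDivisors_of_ne_zero hf)) ?_
    have h := ringKrullDim_le_ringKrullDim_quotient_add_card (R := PS (n + 1) K) {f} (by
      rw [Finset.coe_singleton, Set.singleton_subset_iff]
      rw [SetLike.mem_coe, IsLocalRing.ringJacobson_eq_maximalIdeal]
      exact smp_mem f h0)
    rw [Finset.coe_singleton, Finset.card_singleton, Nat.cast_one] at h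
    exact h
  rw [ringKrullDim_PS] at h1
  have := smp_nontrivial f h0
  exact smp_cancel h1 ringKrullDim_nonneg_of_nontrivial

private lemma smp_max (h0 : constantCoeff f = 0) [IsLocalRing (PS (n + 1) K ⧸ Ideal.span {f})] :
    IsLocalRing.maximalIdeal (PS (n + 1) K ⧸ Ideal.span {f}) =
      (IsLocalRing.maximalIdeal (PS (n + 1) K)).map (Ideal.Quotient.mk (Ideal.span {f})) := by
  have hk : RingHom.ker (Ideal.Quotient.mk (Ideal.span {f})) ≤ IsLocalRing.maximalIdeal (PS (n + 1) K) := by
    rw [Ideal.mk_ker, Ideal.span_singleton_le_iff_mem]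
    exact smp_mem f h0
  exact (IsLocalRing.eq_maximalIdeal
    (Ideal.IsMaximal.map_of_surjective_of_ker_le Ideal.Quotient.mk_surjective hk)).symm

/-- If the coefficient of `X_j` in `f` is not zero, the other variables and `f` generate the maximal ideal. -/
private lemma smp_nak (h0 : constantCoeff f = 0) (j : Fin (n + 1)) (hj : lin f j ≠ 0) :
    IsLocalRing.maximalIdeal (PS (n + 1) K) ≤
      Ideal.span ((X : Fin (n + 1) → PS (n + 1) K) '' {i | i ≠ j}) ⊔ Ideal.span {f} := by
  apply Submodule.le_of_le_smul_of_le_jacobson_bot (I := IsLocalRing.maximalIdeal (PS (n + 1) K))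
    (IsNoetherian.noetherian _) (IsLocalRing.maximalIdeal_le_jacobson _)
  rw [smul_eq_mul, ← pow_two]
  conv_lhs => rw [maximalIdeal_eq_span]
  rw [Ideal.span_le]
  rintro _ ⟨i, rfl⟩
  by_cases hij : i = j
  · subst hij
    have h1 : C (lin f i) * X i =
        f - ∑ k ∈ Finset.univ.erase i, C (lin f k) * X k - (f - ∑ k, C (lin f k) * X k) := by
      rw [← Finset.sum_erase_add _ _ (Finset.mem_univ i)]
      ring
    have h2 : C (lin f i) * X i ∈
        Ideal.span ((X : Fin (n + 1) → PS (n + 1) K) '' {k | k ≠ i}) ⊔ Ideal.span {f} ⊔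
          IsLocalRing.maximalIdeal (PS (n + 1) K) ^ 2 := by
      rw [h1]
      apply Ideal.sub_mem _ _ (Ideal.mem_sup_right (smp_expand f h0))
      apply Ideal.mem_sup_left
      apply Ideal.sub_mem
      · exact Ideal.mem_sup_right (Ideal.mem_span_singleton_self f)
      · apply Ideal.mem_sup_left
        refine Ideal.sum_mem _ fun k hk => Ideal.mul_mem_left _ _ (Ideal.subset_span ⟨k, ?_, rfl⟩)
        exact (Finset.mem_erase.1 hk).1
    have h3 : (X i : PS (n + 1) K) = C (lin f i)⁻¹ * (C (lin f i) * X i) := by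
      rw [← mul_assoc, ← map_mul, inv_mul_cancel₀ hj, map_one, one_mul]
    rw [h3]
    exact Ideal.mul_mem_left _ _ h2
  · exact Ideal.mem_sup_left (Ideal.mem_sup_left (Ideal.subset_span ⟨i, hij, rfl⟩))

private lemma smp_regular (hf : f ≠ 0) (h0 : constantCoeff f = 0) (hl : lin f ≠ 0) :
    IsRegularLocalRing (PS (n + 1) K ⧸ Ideal.span {f}) := by
  have hloc := smp_local f h0
  obtain ⟨j, hj⟩ : ∃ j, lin f j ≠ 0 := by
    by_contra h
    push Not at h
    exact hl (funext h)
  apply IsRegularLocalRing.of_spanFinrank_maximalIdeal_le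
  rw [smp_dim_quot f hf h0]
  have h1 : IsLocalRing.maximalIdeal (PS (n + 1) K ⧸ Ideal.span {f}) =
      Ideal.span (Ideal.Quotient.mk (Ideal.span {f}) ''
        ((X : Fin (n + 1) → PS (n + 1) K) '' {i | i ≠ j})) := by
    rw [smp_max f h0]
    apply le_antisymm
    · refine (Ideal.map_mono (smp_nak f h0 j hj)).trans ?_
      rw [Ideal.map_sup, Ideal.map_span, Ideal.map_span, Set.image_singleton]
      apply sup_le le_rfl
      rw [Ideal.span_singleton_le_iff_mem, Ideal.Quotient.eq_zero_iff_mem.2 (Ideal.mem_span_singleton_self f)]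
      exact Ideal.zero_mem _
    · rw [← Ideal.map_span]
      apply Ideal.map_mono
      rw [Ideal.span_le]
      rintro _ ⟨i, _, rfl⟩
      exact (mem_maximalIdeal_iff _).2 (by simp)
  have h2 : (IsLocalRing.maximalIdeal (PS (n + 1) K ⧸ Ideal.span {f})).spanFinrank ≤ n := by
    rw [h1]
    refine (Submodule.spanFinrank_span_le_ncard_of_finite (Set.toFinite _)).trans ?_
    refine (Set.ncard_image_le (Set.toFinite _)).trans ((Set.ncard_image_le (Set.toFinite _)).trans ?_)
    rw [Set.ncard_eq_toFinset_card', Set.toFinset_ofPred, Finset.filter_ne', Finset.card_erase_of_mem (Finset.mem_univ _),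
      Finset.card_univ, Fintype.card_fin]
    omega
  exact_mod_cast h2

private lemma smp_congr (h0 : constantCoeff f = 0) (hl : lin f = 0) {a b : PS (n + 1) K}
    (h : Ideal.Quotient.mk (Ideal.span {f}) a = Ideal.Quotient.mk (Ideal.span {f}) b) :
    constantCoeff a = constantCoeff b ∧ lin a = lin b := by
  rw [Ideal.Quotient.eq, Ideal.mem_span_singleton'] at h
  obtain ⟨c, hc⟩ := h
  have ha : a = c * f + b := by rw [hc]; ring
  rw [ha]
  constructor
  · rw [map_add, map_mul, h0, mul_zero, zero_add]
  · rw [lin_add, lin_mul_of_cc _ _ h0, hl, smul_zero, zero_add]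

private lemma smp_not_regular (hf : f ≠ 0) (h0 : constantCoeff f = 0) (hl : lin f = 0) :
    ¬ IsRegularLocalRing (PS (n + 1) K ⧸ Ideal.span {f}) := by
  classical
  intro hreg
  have hloc := smp_local f h0
  have hfin := hreg.spanFinrank_maximalIdeal
  rw [smp_dim_quot f hf h0] at hfin
  have hfin' : (IsLocalRing.maximalIdeal (PS (n + 1) K ⧸ Ideal.span {f})).spanFinrank = n := by
    exact_mod_cast hfin
  obtain ⟨s, hs1, hs2⟩ := Submodule.FG.exists_span_finset_card_eq_spanFinrank
    (p := IsLocalRing.maximalIdeal (PS (n + 1) K ⧸ Ideal.span {f})) (IsNoetherian.noetherian _)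
  obtain ⟨g, hg⟩ := Function.Surjective.hasRightInverse
    (Ideal.Quotient.mk_surjective (I := Ideal.span {f}))
  let W : Submodule K (Fin (n + 1) → K) := Submodule.span K ((s.image fun b => lin (g b) : Finset _) : Set _)
  have hW : Module.finrank K W ≤ n :=
    (finrank_span_finset_le_card _).trans (Finset.card_image_le.trans (by omega))
  have hP : ∀ b ∈ Ideal.span (s : Set (PS (n + 1) K ⧸ Ideal.span {f})), ∀ a,
      Ideal.Quotient.mk (Ideal.span {f}) a = b → constantCoeff a = 0 ∧ lin a ∈ W := by
    intro b hb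
    induction hb using Submodule.span_induction with
    | mem b hb =>
      intro a ha
      have h1 := smp_congr f h0 hl (ha.trans (hg b).symm)
      rw [h1.1, h1.2]
      refine ⟨?_, Submodule.subset_span (Finset.mem_coe.2 (Finset.mem_image_of_mem _ hb))⟩
      by_contra h2
      have h3 : IsUnit (g b) := by
        rw [MvPowerSeries.isUnit_iff_constantCoeff]
        exact isUnit_iff_ne_zero.2 h2
      have h4 : IsUnit b := by
        have := h3.map (Ideal.Quotient.mk (Ideal.span {f}))
        rwa [hg b] at this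
      have h5 : b ∈ IsLocalRing.maximalIdeal (PS (n + 1) K ⧸ Ideal.span {f}) := by
        rw [← hs2]
        exact Submodule.subset_span hb
      exact (IsLocalRing.mem_maximalIdeal _).1 h5 h4
    | zero =>
      intro a ha
      have h1 := smp_congr f h0 hl (ha.trans (map_zero _).symm)
      rw [h1.1, h1.2, map_zero]
      refine ⟨rfl, ?_⟩
      have : lin (0 : PS (n + 1) K) = 0 := by
        funext i
        simp [lin]
      rw [this]
      exact W.zero_mem
    | add x y _ _ hx hy =>
      intro a ha
      have h1 := smp_congr f h0 hl (b := g x + g y) (by rw [ha, map_add, hg x, hg y])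
      have hx' := hx (g x) (hg x)
      have hy' := hy (g y) (hg y)
      rw [h1.1, h1.2, map_add, hx'.1, hy'.1, lin_add]
      exact ⟨add_zero _, W.add_mem hx'.2 hy'.2⟩
    | smul r x _ hx =>
      intro a ha
      have h1 := smp_congr f h0 hl (b := g r * g x) (by rw [ha, map_mul, hg r, hg x, smul_eq_mul])
      have hx' := hx (g x) (hg x)
      rw [h1.1, h1.2, map_mul, hx'.1, lin_mul_of_cc _ _ hx'.1]
      exact ⟨mul_zero _, W.smul_mem _ hx'.2⟩
  have hX : ∀ j : Fin (n + 1), Pi.single j (1 : K) ∈ W := by
    intro j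
    have h1 : Ideal.Quotient.mk (Ideal.span {f}) (X j) ∈
        Ideal.span (s : Set (PS (n + 1) K ⧸ Ideal.span {f})) := by
      have h2 : Ideal.span (s : Set (PS (n + 1) K ⧸ Ideal.span {f})) =
          IsLocalRing.maximalIdeal (PS (n + 1) K ⧸ Ideal.span {f}) := hs2
      rw [h2, smp_max f h0]
      exact Ideal.mem_map_of_mem _ ((mem_maximalIdeal_iff _).2 (by simp))
    have h2 := (hP _ h1 (X j) rfl).2
    have h3 : lin (X j : PS (n + 1) K) = Pi.single j (1 : K) := by
      funext i
      rw [lin_X, Pi.single_apply]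
      simp only [eq_comm]
    rwa [h3] at h2
  have hT : W = ⊤ := by
    rw [eq_top_iff]
    intro v _
    have h1 : v = ∑ j, v j • (Pi.single j (1 : K) : Fin (n + 1) → K) := by
      funext i
      rw [Finset.sum_apply]
      simp [Pi.single_apply]
    rw [h1]
    exact W.sum_mem fun j _ => W.smul_mem _ (hX j)
  rw [hT, finrank_top, Module.finrank_fin_fun] at hW
  omega

end

theorem isRegular_quotient_iff {n : ℕ} {K : Type u} [Field K] (f : PS (n + 1) K) (hf : f ≠ 0)
    (h0 : constantCoeff f = 0) :
    IsRegularLocalRing (PS (n + 1) K ⧸ Ideal.span {f}) ↔ lin f ≠ 0 :=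
  ⟨fun h hl => smp_not_regular f hf h0 hl h, fun hl => smp_regular f hf h0 hl⟩

theorem isSimplePt_maximalIdeal_iff {n : ℕ} {K : Type u} [Field K] (f : PS (n + 1) K) (hf : f ≠ 0)
    (h0 : constantCoeff f = 0) :
    IsSimplePt f (IsLocalRing.maximalIdeal (PS (n + 1) K)) ↔ lin f ≠ 0 := by
  rw [← isRegular_quotient_iff f hf h0]
  have hM : (IsLocalRing.maximalIdeal (PS (n + 1) K)).primeCompl.map (Ideal.Quotient.mk (Ideal.span {f})) ≤
      IsUnit.submonoid (PS (n + 1) K ⧸ Ideal.span {f}) := by
    rintro _ ⟨a, ha, rfl⟩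
    have h1 : IsUnit a := by
      by_contra h2
      exact ha ((IsLocalRing.mem_maximalIdeal a).2 h2)
    exact h1.map (Ideal.Quotient.mk (Ideal.span {f}))
  let e := IsLocalization.atUnits (PS (n + 1) K ⧸ Ideal.span {f})
    ((IsLocalRing.maximalIdeal (PS (n + 1) K)).primeCompl.map (Ideal.Quotient.mk (Ideal.span {f})))
    (S := Localization
      ((IsLocalRing.maximalIdeal (PS (n + 1) K)).primeCompl.map (Ideal.Quotient.mk (Ideal.span {f})))) hM
  constructor
  · rintro ⟨_, h⟩
    exact IsRegularLocalRing.of_ringEquiv e.symm.toRingEquiv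
  · intro h
    exact ⟨(IsLocalRing.maximalIdeal.isMaximal _).isPrime, IsRegularLocalRing.of_ringEquiv e.toRingEquiv⟩

theorem proj_maximalIdeal (r : ℕ) (K : Type u) [Field K] :
    proj (IsLocalRing.maximalIdeal (PS (r + 1) K)) = IsLocalRing.maximalIdeal (PS r (KS r K)) := by
  ext a
  have h1 : (IsLocalRing.maximalIdeal (PS (r + 1) K)).map (ext r K (r + 1)) =
      IsLocalRing.maximalIdeal (PS (r + 1) (KS r K)) := by
    rw [maximalIdeal_eq_span, maximalIdeal_eq_span, Ideal.map_span, ← Set.range_comp]
    congr 2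
    funext i
    simp [ext]
  rw [proj, Ideal.mem_comap, h1, mem_maximalIdeal_iff, mem_maximalIdeal_iff]
  have h2 : constantCoeff ((phi r K).toRingHom a) = constantCoeff a := by
    rw [phi_eq_ev]
    exact Pt.constantCoeff_ev _ _
  rw [h2]

/-- unfolding of the dimensionality type at the closed point -/
theorem dt_closed_singular {r : ℕ} {K : Type u} [Field K] (f : PS (r + 2) K) (hf : f ≠ 0)
    (h0 : constantCoeff f = 0) (hl : lin f = 0) :
    dt (r + 1) K f (IsLocalRing.maximalIdeal (PS (r + 2) K)) =
      1 + dt r (KS (r + 1) K) (crit f) (IsLocalRing.maximalIdeal (PS (r + 1) (KS (r + 1) K))) := by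
  rw [dt, if_neg, proj_maximalIdeal]
  rw [isSimplePt_maximalIdeal_iff f hf h0]
  exact fun h => h hl

theorem dt_closed_simple {r : ℕ} {K : Type u} [Field K] (f : PS (r + 1) K) (hf : f ≠ 0)
    (h0 : constantCoeff f = 0) (hl : lin f ≠ 0) :
    dt r K f (IsLocalRing.maximalIdeal (PS (r + 1) K)) = 0 := by
  cases r with
  | zero => rw [dt]
  | succ r => rw [dt, if_pos ((isSimplePt_maximalIdeal_iff f hf h0).2 hl)]

end DT
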