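import Pool.Agent.DT.CongrStar
import Pool.Agent.DT.Simple
import Pool.Agent.DT.IFT

/-!
# Two presentations of the same ring over the same coefficient field

`O` is a local ring: `P.r = ringKrullDim O = P'.r` (`ringKrullDim_PS` and the quotient by one nonzero nonunit of a domain).
`O` is not regular (`isRegular_quotient_iff`, `lin P.f = 0`), so `lin P'.f = 0` as well.  Lift `P.toRing (X_j)` to
`b_j ∈ PS _ K` with `P'.toRing b_j = P.toRing (X_j)`; `b_j` is a nonunit. The point `b` satisfies `P'.toRing (b.ev g) =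
P.toRing g` (both sides: they agree on polynomials in the variables with coefficients in `K` by `coef`; for `g ∈ 𝔪^d` both are in
the `d`-th power of the maximal ideal of `O`; Krull intersection). The linear matrix of `b` is invertible: the classes of
`X_j` form a basis of the cotangent space of `O` (both `f, f' ∈ 𝔪^2`): symmetric construction `b'` with `P.toRing (b'.ev g) =
P'.toRing g`, so `b.comp b' = id` modulo `(f) ⊂ 𝔪^2`, so `b.linMat * b'.linMat = 1`. `exists_inverse`.
-/

universe u

open MvPowerSeries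

namespace DT

private theorem PresIso_cc {n : ℕ} {K : Type u} [Field K] {O : Type u} [CommRing O] [IsLocalRing O]
    (T : PS n K →+* O) (hT : Function.Surjective T) (g : PS n K) :
    T g ∈ IsLocalRing.maximalIdeal O ↔ constantCoeff g = 0 := by
  have h1 : IsLocalHom T := IsLocalHom.of_surjective T hT
  rw [← mem_maximalIdeal_iff, ← IsLocalRing.maximalIdeal_comap T, Ideal.mem_comap]

private theorem PresIso_split {n : ℕ} {K : Type u} [Field K] (g : PS n K) :
    ∃ q : Fin n → PS n K, g = C (constantCoeff g) + ∑ i, q i * X i := by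
  have h1 : g - C (constantCoeff g) ∈ IsLocalRing.maximalIdeal (PS n K) := by
    rw [mem_maximalIdeal_iff, map_sub, constantCoeff_C, sub_self]
  rw [maximalIdeal_eq_span, Ideal.mem_span_range_iff_exists_fun] at h1
  obtain ⟨q, hq⟩ := h1
  refine ⟨q, ?_⟩
  rw [hq]
  ring

/-- two homomorphisms which agree after the evaluation at `b` on the variables and constants -/
private theorem PresIso_ev {n : ℕ} {K : Type u} [Field K] {O : Type u} [CommRing O]
    [IsLocalRing O] [IsNoetherianRing O] (T T' : PS n K →+* O) (hT : Function.Surjective T)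
    (hC : ∀ c, T (C c) = T' (C c)) (b : Pt n n K) (hb : ∀ j, T' (b.val j) = T (X j))
    (g : PS n K) : T' (b.ev g) = T g := by
  have h1 : ∀ d : ℕ, ∀ g : PS n K, T' (b.ev g) - T g ∈ IsLocalRing.maximalIdeal O ^ d := by
    intro d
    induction d with
    | zero =>
      intro g
      rw [pow_zero, Ideal.one_eq_top]
      exact Submodule.mem_top
    | succ d ih =>
      intro g
      obtain ⟨q, hq⟩ := PresIso_split g
      have h2 : T' (b.ev g) - T g = ∑ i, T (X i) * (T' (b.ev (q i)) - T (q i)) := by
        conv_lhs => rw [hq]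
        simp only [map_add, map_sum, map_mul, Pt.ev_C, Pt.ev_X, hb, hC]
        rw [add_sub_add_left_eq_sub, ← Finset.sum_sub_distrib]
        refine Finset.sum_congr rfl fun i _ => ?_
        ring
      rw [h2]
      refine Ideal.sum_mem _ fun i _ => ?_
      rw [pow_succ']
      refine Ideal.mul_mem_mul ?_ (ih (q i))
      rw [PresIso_cc T hT, constantCoeff_X]
  have h3 : T' (b.ev g) - T g ∈ (⊥ : Ideal O) := by
    rw [← Ideal.iInf_pow_eq_bot_of_isLocalRing (IsLocalRing.maximalIdeal O)
      (Ideal.IsPrime.ne_top inferInstance), Ideal.mem_iInf]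
    intro d
    exact h1 d g
  rw [Ideal.mem_bot] at h3
  exact sub_eq_zero.1 h3

private theorem PresIso_lift {n : ℕ} {K : Type u} [Field K] {O : Type u} [CommRing O]
    [IsLocalRing O] (T T' : PS n K →+* O) (hT : Function.Surjective T)
    (hT' : Function.Surjective T') : ∃ b : Pt n n K, ∀ j, T' (b.val j) = T (X j) := by
  choose v hv using fun j : Fin n => hT' (T (X j))
  refine ⟨⟨v, fun j => ?_⟩, hv⟩
  rw [← PresIso_cc T' hT', hv, PresIso_cc T hT, constantCoeff_X]

private theorem PresIso_main {n : ℕ} {K : Type u} [Field K] {O : Type u} [CommRing O]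
    [IsLocalRing O] [IsNoetherianRing O] (T T' : PS n K →+* O) (hT : Function.Surjective T)
    (hT' : Function.Surjective T') (hC : ∀ c, T (C c) = T' (C c)) (f : PS n K)
    (hk : RingHom.ker T = Ideal.span {f}) (h0 : constantCoeff f = 0) (hf : lin f = 0) :
    ∃ s : Iso n K K, s.j = RingEquiv.refl K ∧ ∀ g, T g = T' (s.σ g) := by
  obtain ⟨b, hb⟩ := PresIso_lift T T' hT hT'
  obtain ⟨b', hb'⟩ := PresIso_lift T' T hT' hT
  have h1 := PresIso_ev T T' hT hC b hb
  have h2 := PresIso_ev T' T hT' (fun c => (hC c).symm) b' hb'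
  have h3 : (b.comp b').linMat = 1 := by
    ext i j
    have h4 : (b.comp b').val i - X i ∈ RingHom.ker T := by
      rw [RingHom.mem_ker, map_sub]
      have h5 : T ((b.comp b').val i) = T (X i) := by
        show T (b'.ev (b.val i)) = T (X i)
        rw [h2, hb]
      rw [h5, sub_self]
    rw [hk, Ideal.mem_span_singleton] at h4
    obtain ⟨c, hc⟩ := h4
    have h6 : (b.comp b').val i = X i + f * c := by
      rw [← hc]
      ring
    show lin ((b.comp b').val i) j = (1 : Matrix (Fin n) (Fin n) K) i j
    rw [h6, lin_add, Pi.add_apply, lin_X, lin_mul, hf, h0, smul_zero, zero_smul, add_zero,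
      Pi.zero_apply, add_zero, Matrix.one_apply]
  rw [Pt.linMat_comp] at h3
  have h7 : b.linMat.det ≠ 0 := by
    intro h8
    have h9 := congrArg Matrix.det h3
    rw [Matrix.det_mul, h8, zero_mul, Matrix.det_one] at h9
    exact zero_ne_one h9
  obtain ⟨c, hc1, hc2⟩ := exists_inverse b h7
  have e1 : (b.ev : PS n K →+* PS n K).comp (c.ev : PS n K →+* PS n K) = RingHom.id _ := by
    refine RingHom.ext fun g => ?_
    show b.ev (c.ev g) = g
    rw [← Pt.ev_comp, hc2, Pt.ev_id]
  have e2 : (c.ev : PS n K →+* PS n K).comp (b.ev : PS n K →+* PS n K) = RingHom.id _ := by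
    refine RingHom.ext fun g => ?_
    show c.ev (b.ev g) = g
    rw [← Pt.ev_comp, hc1, Pt.ev_id]
  exact ⟨⟨RingEquiv.ofRingHom _ _ e1 e2, RingEquiv.refl K, fun x => Pt.ev_C b x⟩, rfl,
    fun g => (h1 g).symm⟩

private theorem PresIso_dim {r : ℕ} {K : Type u} [Field K] {O : Type u} [CommRing O]
    (f : PS (r + 1) K) (T : PS (r + 1) K →+* O) (hf0 : f ≠ 0) (h0 : ¬ IsUnit f)
    (hT : Function.Surjective T) (hk : RingHom.ker T = Ideal.span {f}) :
    ringKrullDim O + 1 = ((r + 1 : ℕ) : WithBot ℕ∞) := by
  have e : (PS (r + 1) K ⧸ Ideal.span {f}) ≃+* O :=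
    (Ideal.quotEquivOfEq hk.symm).trans (RingHom.quotientKerEquivOfSurjective hT)
  have h1 := ringKrullDim_quotient_span_singleton_succ_eq_ringKrullDim_of_mem_nonZeroDivisors
    (mem_nonZeroDivisors_of_ne_zero hf0) ((IsLocalRing.mem_maximalIdeal f).2 h0)
  rw [ringKrullDim_PS, ringKrullDim_eq_of_ringEquiv e] at h1
  exact h1

private theorem PresIso_nt {r : ℕ} {K : Type u} [Field K] {O : Type u} [CommRing O]
    (f : PS (r + 1) K) (T : PS (r + 1) K →+* O) (h0 : ¬ IsUnit f)
    (hk : RingHom.ker T = Ideal.span {f}) : Nontrivial O := by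
  refine ⟨0, 1, fun h => h0 ?_⟩
  have h1 : (1 : PS (r + 1) K) ∈ RingHom.ker T := by
    rw [RingHom.mem_ker, map_one, h]
  rw [hk, Ideal.mem_span_singleton] at h1
  exact isUnit_of_dvd_one h1

/-- two presentations of the same ring with the same coefficient field, one of them singular -/
theorem Pres.exists_iso {K : Type u} [Field K] {O : Type u} [CommRing O] {i : K →+* O}
    (P P' : Pres i) (hP : lin P.f = 0) :
    ∃ (h : P.r = P'.r) (s : Iso (P.r + 1) K K), s.j = RingEquiv.refl K ∧
      (∀ g : PS (P.r + 1) K, P.toRing g = P'.toRing (h ▸ s.σ g)) := by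
  have hd : P.r = P'.r := by
    have h1 := PresIso_dim P.f P.toRing P.ne_zero P.not_isUnit P.surj P.ker
    have h2 := PresIso_dim P'.f P'.toRing P'.ne_zero P'.not_isUnit P'.surj P'.ker
    rw [h1] at h2
    have h3 : P.r + 1 = P'.r + 1 := by exact_mod_cast h2
    omega
  refine ⟨hd, ?_⟩
  have hn : Nontrivial O := PresIso_nt P.f P.toRing P.not_isUnit P.ker
  have hl : IsLocalRing O := IsLocalRing.of_surjective' P.toRing P.surj
  have hN : IsNoetherianRing O := isNoetherianRing_of_surjective _ _ P.toRing P.surj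
  obtain ⟨r, f, a1, a2, a3, T, a4, a5, a6⟩ := P
  obtain ⟨r', f', b1, b2, b3, T', b4, b5, b6⟩ := P'
  simp only at hd hP
  subst hd
  have h0 : constantCoeff f = 0 := by
    rw [← mem_maximalIdeal_iff, IsLocalRing.mem_maximalIdeal]
    exact a2
  exact PresIso_main T T' a4 b4 (fun c => by rw [a6, b6]) f a5 h0 hP

end DT
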