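import Pool.Agent.DT.CongrCrit
import Pool.Agent.DT.CongrPt
import Pool.Agent.DT.PresIso

/-!
# The dimensionality type does not depend on the minimal basis

`dt_congr` is proved here from the other files.  `Pres.dtAt_eq`: `Pres.exists_iso` and `dt_congr` (`s.σ P.f` and `P'.f`
generate the same ideal: the kernels); take care of the equality of dimensions (destructure the presentations and
`subst`/`cases`).
-/

universe u

open MvPowerSeries

namespace DT

theorem dt_congr (r : ℕ) {K K' : Type u} [Field K] [Field K'] [CharZero K] [CharZero K']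
    (s : Iso (r + 1) K K') {f : PS (r + 1) K} {f' : PS (r + 1) K'} (hf : f ≠ 0)
    (hsq : Squarefree f) (hf' : Associated (s.σ f) f')
    (p : Ideal (PS (r + 1) K)) (p' : Ideal (PS (r + 1) K')) (hp : p = p'.comap s.σ) :
    dt r K f p = dt r K' f' p' := by
  induction r generalizing K K' with
  | zero => rw [dt, dt]
  | succ r ih =>
    obtain ⟨t, t', -, h1, h2, h3⟩ := exists_star s
    rw [dt, dt]
    by_cases h : IsSimplePt f p
    · rw [if_pos h, if_pos ((isSimplePt_congr s hf' p p' hp).1 h)]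
    · rw [if_neg h, if_neg (fun h' => h ((isSimplePt_congr s hf' p p' hp).2 h'))]
      rw [ih t (crit_ne_zero hf hsq) (crit_squarefree hf hsq)
        (associated_crit s hf hsq hf' t t' h1 h2 h3) (proj p) (proj p')
        (proj_congr s t t' h2 h3 p p' hp)]

/-- the isomorphism of the power series rings, after identification of the dimensions -/
theorem Congr_key {K : Type u} [Field K] {O : Type u} [CommRing O] {i : K →+* O}
    (P P' : Pres i) (hP : lin P.f = 0) :
    ∃ (h : P.r = P'.r) (s : Iso (P.r + 1) K K),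
      Associated (h ▸ s.σ P.f : PS (P'.r + 1) K) P'.f ∧
      ∀ g : PS (P.r + 1) K, P.toRing g = P'.toRing (h ▸ s.σ g) := by
  obtain ⟨h, s, -, hs⟩ := Pres.exists_iso P P' hP
  obtain ⟨r, f, hf, hfu, hsq, φ, hφ, hk, hc⟩ := P
  obtain ⟨r', f', hf', hfu', hsq', φ', hφ', hk', hc'⟩ := P'
  change r = r' at h
  subst h
  refine ⟨rfl, s, ?_, hs⟩
  change Associated (s.σ f) f'
  have hs' : ∀ g : PS (r + 1) K, φ g = φ' (s.σ g) := hs
  change RingHom.ker φ = Ideal.span {f} at hk
  change RingHom.ker φ' = Ideal.span {f'} at hk'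
  refine associated_of_dvd_dvd ?_ ?_
  · have h1 : s.σ.symm f' ∈ RingHom.ker φ := by
      rw [RingHom.mem_ker, hs', RingEquiv.apply_symm_apply, ← RingHom.mem_ker, hk']
      exact Ideal.mem_span_singleton_self f'
    rw [hk, Ideal.mem_span_singleton] at h1
    have h2 := map_dvd s.σ h1
    rwa [RingEquiv.apply_symm_apply] at h2
  · have h1 : s.σ f ∈ RingHom.ker φ' := by
      rw [RingHom.mem_ker, ← hs', ← RingHom.mem_ker, hk]
      exact Ideal.mem_span_singleton_self f
    rwa [hk', Ideal.mem_span_singleton] at h1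

/-- comparison of the dimensionality types, for ideals which correspond to each other -/
theorem Congr_dt {K : Type u} [Field K] [CharZero K] {O : Type u} [CommRing O] {i : K →+* O}
    (P P' : Pres i) (hP : lin P.f = 0) (p : Ideal (PS (P.r + 1) K)) (p' : Ideal (PS (P'.r + 1) K))
    (hp : ∀ (h : P.r = P'.r) (s : Iso (P.r + 1) K K),
      (∀ g : PS (P.r + 1) K, P.toRing g = P'.toRing (h ▸ s.σ g)) →
      ∀ g : PS (P.r + 1) K, g ∈ p ↔ (h ▸ s.σ g : PS (P'.r + 1) K) ∈ p') :
    dt P.r K P.f p = dt P'.r K P'.f p' := by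
  obtain ⟨h, s, h1, h2⟩ := Congr_key P P' hP
  have h3 := hp h s h2
  obtain ⟨r, f, hf, hfu, hsq, φ, hφ, hk, hc⟩ := P
  obtain ⟨r', f', hf', hfu', hsq', φ', hφ', hk', hc'⟩ := P'
  change r = r' at h
  subst h
  exact dt_congr r s hf hsq h1 p p' (Ideal.ext h3)

theorem Pres.dtAt_eq {K : Type u} [Field K] [CharZero K] {O : Type u} [CommRing O] {i : K →+* O}
    (P P' : Pres i) (hP : lin P.f = 0) (p : Ideal O) : P.dtAt p = P'.dtAt p := by
  unfold Pres.dtAt
  refine Congr_dt P P' hP _ _ fun h s hs g => ?_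
  rw [Ideal.mem_comap, Ideal.mem_comap, hs g]

theorem Pres.dtClosed_eq {K : Type u} [Field K] [CharZero K] {O : Type u} [CommRing O]
    {i : K →+* O} (P P' : Pres i) (hP : lin P.f = 0) : P.dtClosed = P'.dtClosed := by
  unfold Pres.dtClosed
  refine Congr_dt P P' hP _ _ fun h s _ g => ?_
  have key : ∀ (r r' : ℕ) (h : r = r') (s : Iso (r + 1) K K) (g : PS (r + 1) K),
      g ∈ IsLocalRing.maximalIdeal (PS (r + 1) K) ↔
        (h ▸ s.σ g : PS (r' + 1) K) ∈ IsLocalRing.maximalIdeal (PS (r' + 1) K) := by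
    intro r r' h s g
    subst h
    rw [IsLocalRing.mem_maximalIdeal, IsLocalRing.mem_maximalIdeal, mem_nonunits_iff,
      mem_nonunits_iff]
    exact not_congr (MulEquiv.isUnit_map s.σ).symm
  exact key _ _ h s g

end DT
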