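import Pool.Agent.DT.Discr

/-!
# The discriminants of two generators

`L` = an algebraic closure of the fraction field of `A`. `W₁, W₂` split in `L`, with distinct roots (`discr ≠ 0`).
`κ ↦ g(κ)` maps roots of `W₁` to roots of `W₂` (`hg`), injective (`hgh`: `h(g(κ)) = κ`), so bijective (same degree).
`discr W₁ = ± ∏_{i ≠ j} (κ_i - κ_j)`, `discr W₂ = ± ∏_{i ≠ j} (g κ_i - g κ_j)` with the same sign, and `g κ_i - g κ_j` is
`(κ_i - κ_j)` times an element integral over `A`; so `discr W₂ / discr W₁` is integral over `A` and in the fraction field,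
so in `A`; by symmetry they are associated.
-/

universe u

open MvPowerSeries

namespace DT

/-- divisibility with an integral quotient -/
private def CDdv (A : Type*) {L : Type*} [CommRing A] [Field L] [Algebra A L] (a b : L) : Prop :=
  ∃ c : L, IsIntegral A c ∧ b = a * c

private theorem CDdv_prod {A L ι : Type*} [CommRing A] [Field L] [Algebra A L]
    (s : Multiset ι) (f f' : ι → L) (h : ∀ x ∈ s, CDdv A (f x) (f' x)) :
    CDdv A (s.map f).prod (s.map f').prod := by
  induction s using Multiset.induction with
  | empty => exact ⟨1, isIntegral_one, by simp⟩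
  | cons a s ih =>
    obtain ⟨c, hc, hc'⟩ := ih (fun x hx => h x (Multiset.mem_cons_of_mem hx))
    obtain ⟨d, hd, hd'⟩ := h a (Multiset.mem_cons_self a s)
    refine ⟨d * c, hd.mul hc, ?_⟩
    rw [Multiset.map_cons, Multiset.prod_cons, Multiset.map_cons, Multiset.prod_cons, hc', hd']
    ring

/-- differences of values of a polynomial over `A` at integral elements -/
private theorem CDdv_eval {A L : Type*} [CommRing A] [Field L] [Algebra A L] (g : Polynomial A)
    {x w : L} (hx : IsIntegral A x) (hw : IsIntegral A w) :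
    CDdv A (x - w) (Polynomial.aeval x g - Polynomial.aeval w g) := by
  let x' : integralClosure A L := ⟨x, hx⟩
  let w' : integralClosure A L := ⟨w, hw⟩
  obtain ⟨c, hc⟩ := Polynomial.sub_dvd_eval_sub x' w' (g.map (algebraMap A (integralClosure A L)))
  rw [Polynomial.eval_map_algebraMap, Polynomial.eval_map_algebraMap] at hc
  refine ⟨(c : L), c.2, ?_⟩
  have h2 := congrArg (fun t : integralClosure A L => (t : L)) hc
  have e1 : ((Polynomial.aeval x' g : integralClosure A L) : L) = Polynomial.aeval x g := by
    exact (Polynomial.aeval_algebraMap_apply L x' g).symm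
  have e2 : ((Polynomial.aeval w' g : integralClosure A L) : L) = Polynomial.aeval w g := by
    exact (Polynomial.aeval_algebraMap_apply L w' g).symm
  rw [← e1, ← e2]
  exact h2

/-- the discriminant of a split monic polynomial, up to sign -/
private theorem CD_prod {L : Type*} [Field L] {P : Polynomial L} (hP : P.Monic) (hs : P.Splits)
    (hd : 0 < P.natDegree) :
    (P.roots.map (fun x => Polynomial.eval x (Polynomial.derivative P))).prod =
      (-1) ^ (P.natDegree * (P.natDegree - 1) / 2) * P.discr := by
  have h1 := Polynomial.resultant_deriv (f := P) (Polynomial.natDegree_pos_iff_degree_pos.mp hd)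
  rw [Polynomial.resultant_eq_prod_eval P _ (P.natDegree - 1)
    (Polynomial.natDegree_derivative_le P) hs, hP.leadingCoeff, one_pow, one_mul, mul_one] at h1
  exact h1

/-- one half of the theorem -/
private theorem CD_dvd {A : Type u} [CommRing A] [IsDomain A] [IsIntegrallyClosed A]
    {W₁ W₂ : Polynomial A} (h₁ : W₁.Monic) (h₂ : W₂.Monic) (hdeg : W₁.natDegree = W₂.natDegree)
    (hd1 : W₁.discr ≠ 0) (g h : Polynomial A)
    (hg : W₁ ∣ W₂.comp g) (hgh : W₁ ∣ h.comp g - Polynomial.X) : W₁.discr ∣ W₂.discr := by
  classical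
  rcases Nat.eq_zero_or_pos W₁.natDegree with h0 | hpos
  · have e1 : W₁ = 1 := h₁.natDegree_eq_zero.mp h0
    have e2 : W₂ = 1 := h₂.natDegree_eq_zero.mp (hdeg ▸ h0)
    rw [e1, e2]
  let K := FractionRing A
  let L := AlgebraicClosure K
  let i : A →+* L := algebraMap A L
  have hi : Function.Injective i := by
    have : (algebraMap A L) = (algebraMap K L).comp (algebraMap A K) :=
      IsScalarTower.algebraMap_eq A K L
    change Function.Injective (algebraMap A L)
    rw [this]
    exact (algebraMap K L).injective.comp (IsFractionRing.injective A K)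
  set P := W₁.map i with hP
  set Q := W₂.map i with hQ
  have hPm : P.Monic := h₁.map i
  have hQm : Q.Monic := h₂.map i
  have hPs : P.Splits := IsAlgClosed.splits P
  have hQs : Q.Splits := IsAlgClosed.splits Q
  have hPn : P.natDegree = W₁.natDegree := h₁.natDegree_map i
  have hQn : Q.natDegree = W₂.natDegree := h₂.natDegree_map i
  have hPd : P.discr = i W₁.discr := discr_map i h₁
  have hQd : Q.discr = i W₂.discr := discr_map i h₂
  have hPd0 : P.discr ≠ 0 := by
    rw [hPd]
    exact (map_ne_zero_iff i hi).mpr hd1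
  have hPsq : Squarefree P := squarefree_of_discr_ne_zero hPm hPd0
  have hPnd : P.roots.Nodup := by
    rw [Multiset.nodup_iff_count_le_one]
    intro x
    rw [Polynomial.count_roots]
    by_contra hcon
    push Not at hcon
    have h2 : (Polynomial.X - Polynomial.C x) ^ 2 ∣ P :=
      (pow_dvd_pow _ hcon).trans (Polynomial.pow_rootMultiplicity_dvd P x)
    rw [pow_two] at h2
    exact Polynomial.not_isUnit_X_sub_C x (hPsq _ h2)
  -- the map on the roots
  have hroot1 : ∀ x ∈ P.roots, Polynomial.aeval x W₁ = 0 := by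
    intro x hx
    have := (Polynomial.mem_roots hPm.ne_zero).mp hx
    rw [Polynomial.IsRoot, hP, Polynomial.eval_map] at this
    exact this
  have hint : ∀ x ∈ P.roots, IsIntegral A x := fun x hx => ⟨W₁, h₁, hroot1 x hx⟩
  have hmaps : ∀ x ∈ P.roots, Polynomial.aeval x g ∈ Q.roots := by
    intro x hx
    rw [Polynomial.mem_roots hQm.ne_zero, Polynomial.IsRoot, hQ, Polynomial.eval_map]
    obtain ⟨q, hq⟩ := hg
    have h3 := congrArg (Polynomial.aeval x) hq
    rw [map_mul, hroot1 x hx, zero_mul, Polynomial.aeval_comp] at h3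
    exact h3
  have hinv : ∀ x ∈ P.roots, Polynomial.aeval (Polynomial.aeval x g) h = x := by
    intro x hx
    obtain ⟨q, hq⟩ := hgh
    have h3 := congrArg (Polynomial.aeval x) hq
    rw [map_mul, hroot1 x hx, zero_mul, map_sub, Polynomial.aeval_comp, Polynomial.aeval_X,
      sub_eq_zero] at h3
    exact h3
  have hinj : ∀ x ∈ P.roots, ∀ w ∈ P.roots, Polynomial.aeval x g = Polynomial.aeval w g → x = w := by
    intro x hx w hw hxw
    rw [← hinv x hx, hxw, hinv w hw]
  have hQroots : P.roots.map (fun x => Polynomial.aeval x g) = Q.roots := by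
    apply Multiset.eq_of_le_of_card_le
    · rw [Multiset.le_iff_subset (Multiset.Nodup.map_on hinj hPnd)]
      intro y hy
      obtain ⟨x, hx, rfl⟩ := Multiset.mem_map.mp hy
      exact hmaps x hx
    · rw [Multiset.card_map, ← hPs.natDegree_eq_card_roots, ← hQs.natDegree_eq_card_roots, hPn, hQn,
        hdeg]
  -- the products
  have hprod : CDdv A (P.roots.map (fun x => Polynomial.eval x (Polynomial.derivative P))).prod
      (Q.roots.map (fun x => Polynomial.eval x (Polynomial.derivative Q))).prod := by
    rw [← hQroots, Multiset.map_map]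
    apply CDdv_prod
    intro x hx
    rw [hPs.eval_root_derivative hPm hx]
    simp only [Function.comp_apply]
    rw [hQs.eval_root_derivative hQm (hmaps x hx), ← hQroots,
      ← Multiset.map_erase_of_mem (fun x => Polynomial.aeval x g) P.roots hx, Multiset.map_map]
    apply CDdv_prod
    intro w hw
    exact CDdv_eval g (hint x hx) (hint w (Multiset.mem_of_mem_erase hw))
  rw [CD_prod hPm hPs (hPn ▸ hpos), CD_prod hQm hQs (hQn ▸ hdeg ▸ hpos), hPn, hQn, ← hdeg] at hprod
  obtain ⟨c, hc, hc'⟩ := hprod
  have hc2 : Q.discr = P.discr * c := by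
    have hs : ((-1 : L) ^ (W₁.natDegree * (W₁.natDegree - 1) / 2)) ≠ 0 := by
      apply pow_ne_zero
      exact neg_ne_zero.mpr one_ne_zero
    apply mul_left_cancel₀ hs
    rw [hc', mul_assoc]
  -- descent
  have hcK : c = algebraMap K L (algebraMap A K W₂.discr / algebraMap A K W₁.discr) := by
    have e : ∀ a : A, i a = algebraMap K L (algebraMap A K a) := fun a =>
      IsScalarTower.algebraMap_apply A K L a
    rw [map_div₀, ← e, ← e, ← hPd, ← hQd, hc2, mul_div_cancel_left₀ _ hPd0]
  rw [hcK] at hc
  have hc3 : IsIntegral A (algebraMap A K W₂.discr / algebraMap A K W₁.discr) :=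
    (isIntegral_algebraMap_iff (algebraMap K L).injective).mp hc
  obtain ⟨a, ha⟩ := IsIntegrallyClosed.isIntegral_iff.mp hc3
  refine ⟨a, ?_⟩
  apply IsFractionRing.injective A K
  have hk0 : algebraMap A K W₁.discr ≠ 0 :=
    (map_ne_zero_iff (algebraMap A K) (IsFractionRing.injective A K)).mpr hd1
  rw [map_mul, ha, mul_div_cancel₀ _ hk0]

/-- the discriminants of two generators of the same algebra are associated: `W₁`, `W₂` monic over an
integrally closed domain `A`, of the same degree; `y = g(x)` and `x = h(y)` modulo the relations -/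
theorem associated_discr {A : Type u} [CommRing A] [IsDomain A] [IsIntegrallyClosed A] [CharZero A]
    {W₁ W₂ : Polynomial A} (h₁ : W₁.Monic) (h₂ : W₂.Monic) (hdeg : W₁.natDegree = W₂.natDegree)
    (hd1 : W₁.discr ≠ 0) (hd2 : W₂.discr ≠ 0) (g h : Polynomial A)
    (hg : W₁ ∣ W₂.comp g) (hh : W₂ ∣ W₁.comp h) (hgh : W₁ ∣ h.comp g - Polynomial.X)
    (hhg : W₂ ∣ g.comp h - Polynomial.X) : Associated W₁.discr W₂.discr :=
  associated_of_dvd_dvd (CD_dvd h₁ h₂ hdeg hd1 g h hg hgh)
    (CD_dvd h₂ h₁ hdeg.symm hd2 h g hh hhg)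

end DT
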