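import Pool.Agent.DT.SqfExt

/-!
# The critical hypersurface exists

* `crit_not_isUnit`: order of `f` is `≥ 2`, so `W.natDegree ≥ 2`, `W` is distinguished (`IsWeier.isDist`), the
  discriminant is in the maximal ideal (`discr_mem_of_coeff_mem`) and divides a power of `crit f`.
* `root_sub_dvd_crit_pow`: `IsWeier f W`: `ext f ∣ atLast W`; `h_i ∣ f` so `ext h_i ∣ atLast W`, so
  `W.eval (root h_i) = (sect h_i).ev (atLast W) = 0` (`sect_eval₂`); `sub_dvd_discr`.
* `dvd_crit_pow`: with `associated_root_sub`.  `dvd_crit`: a prime dividing `crit f ^ n` divides `crit f`.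
-/

universe u

open MvPowerSeries

namespace DT

section
variable {r : ℕ} {K : Type u} [Field K] [CharZero K] {f : PS (r + 1) K}

instance charZero_KS (r : ℕ) (K : Type u) [Field K] [CharZero K] : CharZero (KS r K) :=
  charZero_of_injective_algebraMap (algebraMap K (KS r K)).injective

theorem isCrit_crit (hf : f ≠ 0) (hsq : Squarefree f) : IsCrit f (crit f) := by
  have h : ∃ Δ, IsCrit f Δ := by
    obtain ⟨W, hW⟩ := exists_isWeier f hf
    obtain ⟨Δ, hΔ⟩ := exists_sqfPart W.discr (hW.discr_ne_zero hf hsq)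
    exact ⟨Δ, W, hW, hΔ⟩
  rw [crit, dif_pos h]
  exact h.choose_spec

theorem crit_squarefree (hf : f ≠ 0) (hsq : Squarefree f) : Squarefree (crit f) := by
  obtain ⟨W, _, h⟩ := isCrit_crit hf hsq
  exact h.sqf

theorem crit_ne_zero (hf : f ≠ 0) (hsq : Squarefree f) : crit f ≠ 0 :=
  (crit_squarefree hf hsq).ne_zero

omit [CharZero K] in
private theorem Crit_two_le_order (h0 : constantCoeff f = 0) (hl : lin f = 0) :
    ((2 : ℕ) : ℕ∞) ≤ f.order := by
  refine MvPowerSeries.nat_le_order fun d hd => ?_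
  rcases Nat.lt_or_ge d.degree 1 with h | h
  · have hd0 : d = 0 := (Finsupp.degree_eq_zero_iff d).1 (by omega)
    rw [hd0, coeff_zero_eq_constantCoeff_apply, h0]
  · have hd1 : d.degree = 1 := by omega
    have hm : d ∈ Set.range (fun a : Fin (r + 1) ↦ Finsupp.single a 1) := by
      rw [Finsupp.range_single_one]
      exact hd1
    obtain ⟨j, hj⟩ := hm
    have := congrFun hl j
    rw [← hj]
    exact this

omit [CharZero K] in
private theorem Crit_eval_root {h : PS (r + 1) K} (h0 : constantCoeff h = 0)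
    (hl : lin h ≠ 0) (hd : h ∣ f) {W : Polynomial (PS r (KS r K))} (hW : IsWeier f W) :
    W.eval (root h) = 0 := by
  rw [← sect_eval₂ h0 hl W, (sect_isSect h0 hl).ev_eq_zero_iff]
  exact (map_dvd (ext r K (r + 1)) hd).trans hW.dvd

private theorem Crit_root_sub (hf : f ≠ 0) (hsq : Squarefree f) {h₁ h₂ : PS (r + 1) K}
    (h10 : constantCoeff h₁ = 0) (h1l : lin h₁ ≠ 0) (h20 : constantCoeff h₂ = 0)
    (h2l : lin h₂ ≠ 0) (hd1 : h₁ ∣ f) (hd2 : h₂ ∣ f) (hne : root h₁ ≠ root h₂) :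
    ∃ n : ℕ, (root h₁ - root h₂) ∣ crit f ^ n := by
  obtain ⟨W, hW, hΔ⟩ := isCrit_crit hf hsq
  obtain ⟨n, hn⟩ := hΔ.pow
  have hdom : IsDomain (PS r (KS r K)) := NoZeroDivisors.to_isDomain _
  exact ⟨n, (sub_dvd_discr hW.monic hne (Crit_eval_root h10 h1l hd1 hW)
    (Crit_eval_root h20 h2l hd2 hW)).trans hn⟩

private theorem Crit_dvd_pow (hf : f ≠ 0) (hsq : Squarefree f) {h₁ h₂ : PS (r + 1) K}
    (h10 : constantCoeff h₁ = 0) (h1l : lin h₁ ≠ 0) (h20 : constantCoeff h₂ = 0)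
    (h2l : lin h₂ ≠ 0) (hd1 : h₁ ∣ f) (hd2 : h₂ ∣ f)
    (hne : (sect h₁).ev (ext r K (r + 1) h₂) ≠ 0) :
    ∃ n : ℕ, (sect h₁).ev (ext r K (r + 1) h₂) ∣ crit f ^ n := by
  have ha := associated_root_sub h10 h1l h20 h2l
  have hne' : root h₁ ≠ root h₂ := by
    intro h
    apply hne
    rw [h, sub_self] at ha
    exact (associated_zero_iff_eq_zero _).1 ha
  obtain ⟨n, hn⟩ := Crit_root_sub hf hsq h10 h1l h20 h2l hd1 hd2 hne'
  exact ⟨n, ha.dvd.trans hn⟩

/-- if the closed point is singular then the critical hypersurface is not empty -/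
theorem crit_not_isUnit (hf : f ≠ 0) (hsq : Squarefree f) (h0 : constantCoeff f = 0)
    (hl : lin f = 0) : ¬ IsUnit (crit f) := by
  intro hu
  obtain ⟨W, hW, hΔ⟩ := isCrit_crit hf hsq
  obtain ⟨n, hn⟩ := hΔ.pow
  have hWu : IsUnit W.discr := isUnit_of_dvd_unit hn (hu.pow n)
  have h2 : 2 ≤ W.natDegree := by
    have h3 := Crit_two_le_order h0 hl
    rw [← hW.natDegree] at h3
    exact_mod_cast h3
  have h4 := discr_mem_of_coeff_mem hW.monic (IsLocalRing.maximalIdeal (PS r (KS r K)))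
    (IsLocalRing.maximalIdeal.isMaximal _).ne_top h2
    (fun i hi => (mem_maximalIdeal_iff _).2 ((hW.isDist hf).2 i hi))
  exact (IsLocalRing.mem_maximalIdeal _).1 h4 hWu

/-- two smooth components of `f`: every irreducible divisor of the value of one equation on the
section of the other divides the critical hypersurface -/
theorem dvd_crit (hf : f ≠ 0) (hsq : Squarefree f) {h₁ h₂ : PS (r + 1) K}
    (h10 : constantCoeff h₁ = 0) (h1l : lin h₁ ≠ 0) (h20 : constantCoeff h₂ = 0)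
    (h2l : lin h₂ ≠ 0) (hd1 : h₁ ∣ f) (hd2 : h₂ ∣ f)
    (hne : (sect h₁).ev (ext r K (r + 1) h₂) ≠ 0) {p : PS r (KS r K)} (hp : Prime p)
    (hpd : p ∣ (sect h₁).ev (ext r K (r + 1) h₂)) : p ∣ crit f := by
  obtain ⟨n, hn⟩ := Crit_dvd_pow hf hsq h10 h1l h20 h2l hd1 hd2 hne
  exact hp.dvd_of_dvd_pow (hpd.trans hn)

/-- more precisely the value divides a power of the critical hypersurface -/
theorem dvd_crit_pow (hf : f ≠ 0) (hsq : Squarefree f) {h₁ h₂ : PS (r + 1) K}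
    (h10 : constantCoeff h₁ = 0) (h1l : lin h₁ ≠ 0) (h20 : constantCoeff h₂ = 0)
    (h2l : lin h₂ ≠ 0) (hd1 : h₁ ∣ f) (hd2 : h₂ ∣ f)
    (hne : (sect h₁).ev (ext r K (r + 1) h₂) ≠ 0) :
    ∃ n : ℕ, (sect h₁).ev (ext r K (r + 1) h₂) ∣ crit f ^ n := by
  exact Crit_dvd_pow hf hsq h10 h1l h20 h2l hd1 hd2 hne

/-- the same with the difference of the two roots -/
theorem root_sub_dvd_crit_pow (hf : f ≠ 0) (hsq : Squarefree f) {h₁ h₂ : PS (r + 1) K}
    (h10 : constantCoeff h₁ = 0) (h1l : lin h₁ ≠ 0) (h20 : constantCoeff h₂ = 0)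
    (h2l : lin h₂ ≠ 0) (hd1 : h₁ ∣ f) (hd2 : h₂ ∣ f) (hne : root h₁ ≠ root h₂) :
    ∃ n : ℕ, (root h₁ - root h₂) ∣ crit f ^ n := by
  exact Crit_root_sub hf hsq h10 h1l h20 h2l hd1 hd2 hne

end

end DT
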