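import Pool.Agent.DT.CongrStar
import Pool.Agent.DT.CongrDiscr
import Pool.Agent.DT.Crit

/-!
# The critical hypersurface does not depend on the minimal basis

`W` = Weierstrass polynomial of `f`, `W₁ = W.map t.σ` (monic, `t'.σ (atLast W) = eval₂ phi y W₁` with `y = t'.σ (X_r)`),
`W₂` = Weierstrass polynomial of `f'`; both have degree = order of `f` = order of `f'`. In `B = K'^*[[x]]/(f')`, free over
`A = PS r (KS r K')` with basis `1, x, …, x^{e-1}` (`x = X_r`; every power series is congruent modulo `f'` to the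
value at `x` of a polynomial of degree `< e`: Weierstrass division) and also with basis the powers of `y` (transport of the same
statement for `f` by `t'`): so `y = g(x)`, `x = h(y)` in `B` with polynomials `g, h` over `A`; `P(x) = 0` in `B` iff `W₂ ∣ P`
(division with remainder and `IsWeier.eq_zero_of_dvd`), `P(y) = 0` iff `W₁ ∣ P`. Now `associated_discr`
(`PS r _` is a UFD so integrally closed) and `isCrit_crit`; squarefree parts of associated elements are associated.
-/

universe u

open MvPowerSeries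

namespace DT

section
variable {n r : ℕ} {K K' : Type u} [Field K] [Field K']

/-- Weierstrass division by a distinguished polynomial -/
theorem CongrCrit_div {P : Polynomial (PS n K)} (hP : IsDist P) (q : PS (n + 1) K) :
    ∃ R : Polynomial (PS n K), evalLast P ∣ q - evalLast R := by
  have hg : (P : PowerSeries (PS n K)).map (IsLocalRing.residue (PS n K)) ≠ 0 := by
    intro h
    have h1 := congrArg (PowerSeries.coeff P.natDegree) h
    rw [PowerSeries.coeff_map, Polynomial.coeff_coe, hP.1.coeff_natDegree, map_one, map_zero] at h1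
    exact one_ne_zero h1
  obtain ⟨Q, R, -, h⟩ := PowerSeries.exists_isWeierstrassDivision (lastEquiv n K q) hg
  refine ⟨R, (lastEquiv n K).symm Q, ?_⟩
  apply (lastEquiv n K).injective
  rw [map_sub, map_mul, lastEquiv_evalLast, lastEquiv_evalLast, RingEquiv.apply_symm_apply, h]
  ring

/-- every power series is congruent to the value of a polynomial at `x_r` modulo `f` -/
theorem CongrCrit_divW [Infinite K] {f : PS (r + 1) K} (hf : f ≠ 0)
    {W : Polynomial (PS r (KS r K))} (h : IsWeier f W) (q : PS (r + 1) (KS r K)) :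
    ∃ R : Polynomial (PS r (KS r K)), ext r K (r + 1) f ∣ q - atLast R := by
  obtain ⟨a, b, hab, hba, ha⟩ := exists_coord r K
  obtain ⟨R, hR⟩ := CongrCrit_div (h.isDist hf) (b.ev q)
  refine ⟨R, ?_⟩
  have h1 : a.ev (b.ev q) = q := by rw [← Pt.ev_comp, hba, Pt.ev_id]
  have h2 : a.ev (evalLast W) ∣ a.ev (b.ev q - evalLast R) := map_dvd a.ev hR
  rw [map_sub, ha, ha, h1] at h2
  exact (h.associated hf).dvd.trans h2

theorem CongrCrit_atLast_mul (P Q : Polynomial (PS r (KS r K))) :
    atLast (P * Q) = atLast P * atLast Q := Polynomial.eval₂_mul _ _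

theorem CongrCrit_atLast_add (P Q : Polynomial (PS r (KS r K))) :
    atLast (P + Q) = atLast P + atLast Q := Polynomial.eval₂_add _ _

/-- the polynomials vanishing at `x_r` modulo `f` are the multiples of the Weierstrass polynomial -/
theorem CongrCrit_dvd_iff [Infinite K] {f : PS (r + 1) K} (hf : f ≠ 0)
    {W : Polynomial (PS r (KS r K))} (h : IsWeier f W) (P : Polynomial (PS r (KS r K))) :
    ext r K (r + 1) f ∣ atLast P ↔ W ∣ P := by
  constructor
  · intro hd
    have h0 := Polynomial.modByMonic_add_div P W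
    have hR : P %ₘ W = 0 := by
      refine h.eq_zero_of_dvd hf _ (Polynomial.degree_modByMonic_lt P h.monic) ?_
      rw [← h0, CongrCrit_atLast_add, CongrCrit_atLast_mul] at hd
      exact (dvd_add_left (Dvd.dvd.mul_right h.dvd _)).1 hd
    rw [hR, zero_add] at h0
    exact ⟨_, h0.symm⟩
  · rintro ⟨Q, rfl⟩
    rw [CongrCrit_atLast_mul]
    exact Dvd.dvd.mul_right h.dvd _

theorem CongrCrit_mem (s : Iso n K K') (d : ℕ) (f : PS n K) :
    s.σ f ∈ IsLocalRing.maximalIdeal (PS n K') ^ d ↔
      f ∈ IsLocalRing.maximalIdeal (PS n K) ^ d := by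
  have h : (IsLocalRing.maximalIdeal (PS n K)).map s.σ = IsLocalRing.maximalIdeal (PS n K') := by
    ext y
    rw [Ideal.mem_map_of_equiv]
    constructor
    · rintro ⟨x, hx, rfl⟩
      rw [IsLocalRing.mem_maximalIdeal, mem_nonunits_iff] at hx ⊢
      rwa [MulEquiv.isUnit_map]
    · intro hy
      refine ⟨s.σ.symm y, ?_, s.σ.apply_symm_apply y⟩
      rw [IsLocalRing.mem_maximalIdeal, mem_nonunits_iff] at hy ⊢
      rwa [MulEquiv.isUnit_map]
  rw [← h, ← Ideal.map_pow, Ideal.mem_map_of_equiv]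
  constructor
  · rintro ⟨x, hx, hxf⟩
    rwa [← s.σ.injective hxf]
  · intro hf
    exact ⟨f, hf, rfl⟩

theorem CongrCrit_order (s : Iso n K K') {f : PS n K} {f' : PS n K'}
    (hf' : Associated (s.σ f) f') : f'.order = f.order := by
  apply ENat.eq_of_forall_natCast_le_iff
  intro d
  rw [← mem_maximalIdeal_pow_iff, ← mem_maximalIdeal_pow_iff, ← CongrCrit_mem s]
  constructor
  · intro h
    exact Ideal.mem_of_dvd _ hf'.symm.dvd h
  · intro h
    exact Ideal.mem_of_dvd _ hf'.dvd h

/-- squarefree parts of associated elements are associated -/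
theorem CongrCrit_sqf {A : Type*} [CommRing A] [IsDomain A] [UniqueFactorizationMonoid A]
    {a b c d : A} (h1 : IsSqfPart a c) (h2 : IsSqfPart b d) (h : Associated c d) :
    Associated a b := by
  obtain ⟨m, hm⟩ := h1.pow
  obtain ⟨k, hk⟩ := h2.pow
  apply associated_of_dvd_dvd
  · have := (h1.dvd.trans h.dvd).trans hk
    exact h1.sqf.isRadical k b this
  · have := (h2.dvd.trans h.symm.dvd).trans hm
    exact h2.sqf.isRadical m a this

theorem CongrCrit_sqfPart_map {A B : Type*} [CommRing A] [CommRing B] (e : A ≃+* B) {a c : A}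
    (h : IsSqfPart a c) : IsSqfPart (e a) (e c) where
  sqf := by
    intro x hx
    have h1 : e.symm x * e.symm x ∣ a := by
      have := map_dvd e.symm hx
      rwa [map_mul, e.symm_apply_apply] at this
    have h2 := (h.sqf _ h1).map e
    rwa [e.apply_symm_apply] at h2
  dvd := map_dvd e h.dvd
  pow := by
    obtain ⟨m, hm⟩ := h.pow
    exact ⟨m, by rw [← map_pow]; exact map_dvd e hm⟩

/-- the critical hypersurfaces correspond -/
theorem associated_crit [CharZero K] [CharZero K'] (s : Iso (r + 1) K K') {f : PS (r + 1) K}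
    {f' : PS (r + 1) K'} (hf : f ≠ 0) (hsq : Squarefree f) (hf' : Associated (s.σ f) f')
    (t : Iso r (KS r K) (KS r K')) (t' : Iso (r + 1) (KS r K) (KS r K'))
    (h1 : ∀ i, t.σ (X i) = X i) (h2 : ∀ a, t'.σ (phi r K a) = phi r K' (t.σ a))
    (h3 : ∀ f, t'.σ (ext r K (r + 1) f) = ext r K' (r + 1) (s.σ f)) :
    Associated (t.σ (crit f)) (crit f') := by
  have hf0' : f' ≠ 0 := by
    intro h
    rw [h, associated_zero_iff_eq_zero] at hf'
    exact hf (s.σ.injective (by rw [hf', map_zero]))
  have hsq' : Squarefree f' := by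
    intro x hx
    have h4 : x * x ∣ s.σ f := hx.trans hf'.symm.dvd
    have h5 : s.σ.symm x * s.σ.symm x ∣ f := by
      have := map_dvd s.σ.symm h4
      rwa [map_mul, s.σ.symm_apply_apply] at this
    have h6 := (hsq _ h5).map s.σ
    rwa [s.σ.apply_symm_apply] at h6
  obtain ⟨W, hW, hWc⟩ := isCrit_crit hf hsq
  obtain ⟨W₂, hW₂, hW₂c⟩ := isCrit_crit hf0' hsq'
  have : CharZero (KS r K) := charZero_KS r K
  have : CharZero (KS r K') := charZero_KS r K'
  have : IsDomain (PS r (KS r K')) := NoZeroDivisors.to_isDomain _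
  have : UniqueFactorizationMonoid (PS r (KS r K')) := ufd_PS r (KS r K')
  have : CharZero (PS r (KS r K')) :=
    charZero_of_injective_algebraMap (algebraMap (KS r K') (PS r (KS r K'))).injective
  set W₁ := W.map t.σ.toRingHom with hW₁
  have hW₁m : W₁.Monic := hW.monic.map _
  have hdisc : W₁.discr = t.σ W.discr := discr_map t.σ.toRingHom hW.monic
  -- associated equations
  have hass : Associated (t'.σ (ext r K (r + 1) f)) (ext r K' (r + 1) f') := by
    rw [h3]
    exact hf'.map (ext r K' (r + 1))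
  -- the element `y`
  set x : PS (r + 1) (KS r K') := X (Fin.last r) with hx
  set y : PS (r + 1) (KS r K') := t'.σ (X (Fin.last r)) with hy
  set φ : PS r (KS r K') →+* PS (r + 1) (KS r K') := (phi r K').toRingHom with hφ
  have hev : ∀ P : Polynomial (PS r (KS r K)),
      t'.σ (atLast P) = (P.map t.σ.toRingHom).eval₂ φ y := by
    intro P
    rw [Polynomial.eval₂_map]
    have h4 : t'.σ (atLast P) = t'.σ.toRingHom (P.eval₂ (phi r K).toRingHom (X (Fin.last r))) := rfl
    rw [h4, Polynomial.hom_eval₂]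
    congr 1
    ext1 a
    exact h2 a
  have hpre : ∀ P : Polynomial (PS r (KS r K')), ∃ P₀ : Polynomial (PS r (KS r K)),
      P₀.map t.σ.toRingHom = P := by
    intro P
    refine ⟨P.map t.σ.symm.toRingHom, ?_⟩
    rw [Polynomial.map_map]
    have : t.σ.toRingHom.comp t.σ.symm.toRingHom = RingHom.id _ := by
      ext1 a
      exact t.σ.apply_symm_apply a
    rw [this, Polynomial.map_id]
  have hxi : ∀ P : Polynomial (PS r (KS r K')),
      ext r K' (r + 1) f' ∣ P.eval₂ φ x ↔ W₂ ∣ P := fun P => CongrCrit_dvd_iff hf0' hW₂ P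
  have hyi : ∀ P : Polynomial (PS r (KS r K')),
      ext r K' (r + 1) f' ∣ P.eval₂ φ y ↔ W₁ ∣ P := by
    intro P
    obtain ⟨P₀, rfl⟩ := hpre P
    rw [← hev, ← hass.dvd_iff_dvd_left]
    constructor
    · intro h
      have h4 : ext r K (r + 1) f ∣ atLast P₀ := (map_dvd_iff t'.σ).1 h
      exact Polynomial.map_dvd _ ((CongrCrit_dvd_iff hf hW P₀).1 h4)
    · rintro ⟨Q, hQ⟩
      obtain ⟨Q₀, rfl⟩ := hpre Q
      have h4 : P₀ = W * Q₀ := by
        apply Polynomial.map_injective t.σ.toRingHom t.σ.injective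
        rw [hQ, Polynomial.map_mul]
      exact map_dvd t'.σ ((CongrCrit_dvd_iff hf hW P₀).2 ⟨Q₀, h4⟩)
  -- `y = G(x)`, `x = H(y)`
  obtain ⟨G, hG⟩ := CongrCrit_divW hf0' hW₂ y
  obtain ⟨H, hH⟩ : ∃ H : Polynomial (PS r (KS r K')),
      ext r K' (r + 1) f' ∣ x - H.eval₂ φ y := by
    obtain ⟨R, hR⟩ := CongrCrit_divW hf hW (t'.σ.symm x)
    refine ⟨R.map t.σ.toRingHom, ?_⟩
    rw [← hev, ← hass.dvd_iff_dvd_left]
    have := map_dvd t'.σ hR
    rwa [map_sub, t'.σ.apply_symm_apply] at this
  have hG' : ext r K' (r + 1) f' ∣ y - G.eval₂ φ x := hG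
  -- congruences
  have hcong : ∀ (P : Polynomial (PS r (KS r K'))) (a b : PS (r + 1) (KS r K')),
      ext r K' (r + 1) f' ∣ a - b → ext r K' (r + 1) f' ∣ P.eval₂ φ a - P.eval₂ φ b := by
    intro P a b hab
    have h4 : a - b ∣ P.eval₂ φ a - P.eval₂ φ b := by
      rw [Polynomial.eval₂_eq_eval_map, Polynomial.eval₂_eq_eval_map]
      exact Polynomial.sub_dvd_eval_sub _ _ _
    exact hab.trans h4
  have hW₁y : ext r K' (r + 1) f' ∣ W₁.eval₂ φ y := (hyi W₁).2 dvd_rfl
  have hW₂x : ext r K' (r + 1) f' ∣ W₂.eval₂ φ x := (hxi W₂).2 dvd_rfl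
  have hsymm : ∀ a b : PS (r + 1) (KS r K'), ext r K' (r + 1) f' ∣ a - b →
      ext r K' (r + 1) f' ∣ b - a := by
    intro a b h
    rw [← neg_sub]
    exact (dvd_neg).2 h
  have hdeg : W₁.natDegree = W₂.natDegree := by
    have h4 : (W₁.natDegree : ℕ∞) = W₂.natDegree := by
      rw [hW₂.natDegree, CongrCrit_order s hf', ← hW.natDegree, hW₁, hW.monic.natDegree_map]
    exact_mod_cast h4
  have hd1 : W₁.discr ≠ 0 := by
    rw [hdisc]
    exact fun h => hW.discr_ne_zero hf hsq (t.σ.injective (by rw [h, map_zero]))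
  have hd2 : W₂.discr ≠ 0 := hW₂.discr_ne_zero hf0' hsq'
  have hA : Associated W₁.discr W₂.discr := by
    refine associated_discr hW₁m hW₂.monic hdeg hd1 hd2 H G ?_ ?_ ?_ ?_
    · rw [← hyi, Polynomial.eval₂_comp]
      have h4 := hcong W₂ _ _ (hsymm _ _ hH)
      exact (dvd_sub_left hW₂x).1 h4
    · rw [← hxi, Polynomial.eval₂_comp]
      have h4 := hcong W₁ _ _ (hsymm _ _ hG')
      exact (dvd_sub_left hW₁y).1 h4
    · rw [← hyi, Polynomial.eval₂_sub, Polynomial.eval₂_comp, Polynomial.eval₂_X]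
      have h4 := hcong G _ _ (hsymm _ _ hH)
      have h5 := hsymm _ _ hG'
      have h6 := dvd_add h4 h5
      rwa [sub_add_sub_cancel] at h6
    · rw [← hxi, Polynomial.eval₂_sub, Polynomial.eval₂_comp, Polynomial.eval₂_X]
      have h4 := hcong H _ _ (hsymm _ _ hG')
      have h5 := hsymm _ _ hH
      have h6 := dvd_add h4 h5
      rwa [sub_add_sub_cancel] at h6
  have hS1 : IsSqfPart (t.σ (crit f)) (t.σ W.discr) := CongrCrit_sqfPart_map t.σ hWc
  rw [← hdisc] at hS1
  exact CongrCrit_sqf hS1 hW₂c hA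

end

end DT
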