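import Pool.Agent.DT.Pt

/-!
# Isomorphisms of power series rings act on the generic coordinates

`exists_star`: `m_{αβ}` = coefficient of `X^β` in `s.σ (X^α)` (zero if `|β| < |α|`, so for given `β` only finitely many
`α ≠ 0` matter). The homomorphism `ψ : K'[u'] → K[u]`-fraction field, `c ↦ s.j⁻¹ c`,
`u'^{(i)}_β ↦ ∑_α u^{(i)}_α s.j⁻¹(m_{αβ})`, and the one in the other direction built in the same way from the inverse
isomorphism, are inverse to each other on the polynomial rings (the coefficients of `s.σ (s.σ⁻¹ (X^β))`); they extend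
to the fraction fields: `j' : KS r K ≃ KS r K'`, `j'(u^{(i)}_α) = ∑_β u'^{(i)}_β s.j(…)`. `t'` = coefficients by `j'` and
`X_i ↦ s.σ X_i` (base change of `s`), `t` = coefficients by `j'`, `X_i ↦ X_i`. `t'.σ (x_i^*) = x_i'^*` by construction,
so the third relation holds on variables and constants, hence everywhere (both sides are local homomorphisms: after
identifying the constants by `j'` use `Pt.eq_ev`). The isomorphism `s.σ` itself is coefficients by `s.j`, then evaluation
at the point `(s.σ X_i)` (`Pt.eq_ev`).
-/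

universe u

open MvPowerSeries

namespace DT

/-- an isomorphism of power series rings mapping constants to constants -/
structure Iso (n : ℕ) (K K' : Type u) [Field K] [Field K'] where
  σ : PS n K ≃+* PS n K'
  j : K ≃+* K'
  comm : ∀ c, σ (C c) = C (j c)

section
variable {n r : ℕ} {K K' : Type u} [Field K] [Field K']

/-- the inverse isomorphism -/
private noncomputable def isoSymm (s : Iso n K K') : Iso n K' K where
  σ := s.σ.symm
  j := s.j.symm
  comm c := by
    apply s.σ.injective
    rw [RingEquiv.apply_symm_apply, s.comm, RingEquiv.apply_symm_apply]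

private theorem isoSymm_isoSymm (s : Iso n K K') : isoSymm (isoSymm s) = s := rfl

private theorem iso_cc (s : Iso n K K') (k : Fin n) : constantCoeff (s.σ (X k)) = 0 := by
  by_contra h
  have h1 : IsUnit (s.σ (X k)) := by
    rw [MvPowerSeries.isUnit_iff_constantCoeff]
    exact isUnit_iff_ne_zero.2 h
  have h2 : IsUnit (X k : PS n K) := by
    have h3 := h1.map (s.σ.symm : PS n K' →+* PS n K)
    simpa using h3
  rw [MvPowerSeries.isUnit_iff_constantCoeff, constantCoeff_X] at h2
  exact not_isUnit_zero h2

/-- the isomorphism is: coefficients by `j`, then evaluation -/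
private theorem iso_eq (s : Iso n K K') (f : PS n K) :
    s.σ f = subst (fun k => s.σ (X k)) (MvPowerSeries.map (s.j : K →+* K') f) := by
  let φ₀ : PS n K' →+* PS n K' :=
    (s.σ : PS n K →+* PS n K').comp (MvPowerSeries.map (s.j.symm : K' →+* K))
  have hφ₀ : ∀ c, φ₀ (C c) = C c := by
    intro c
    simp only [φ₀, RingHom.comp_apply, map_C, RingHom.coe_coe, s.comm, RingEquiv.apply_symm_apply]
  let φ : PS n K' →ₐ[K'] PS n K' :=
    { φ₀ with
      commutes' := fun c => by
        have h := hφ₀ c
        simpa [MvPowerSeries.algebraMap_apply] using h }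
  have hφX : ∀ i, φ (X i) = s.σ (X i) := by
    intro i
    change s.σ (MvPowerSeries.map (s.j.symm : K' →+* K) (X i)) = s.σ (X i)
    rw [map_X]
  have h1 : ∀ i, constantCoeff (φ (X i)) = 0 := by
    intro i
    rw [hφX]
    exact iso_cc s i
  have h2 := Pt.eq_ev φ h1 (MvPowerSeries.map (s.j : K →+* K') f)
  rw [Pt.ev_apply] at h2
  have h3 : φ (MvPowerSeries.map (s.j : K →+* K') f) = s.σ f := by
    change s.σ (MvPowerSeries.map (s.j.symm : K' →+* K)
      (MvPowerSeries.map (s.j : K →+* K') f)) = s.σ f
    congr 1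
    ext d
    simp
  rw [← h3, h2]
  congr 1
  funext i
  exact hφX i

private theorem iso_hasSubst {R : Type u} [CommRing R] (s : Iso n K K') (ι : K' →+* R) :
    HasSubst (fun k => MvPowerSeries.map ι (s.σ (X k))) := by
  refine hasSubst_of_constantCoeff_zero fun k => ?_
  rw [constantCoeff_map, iso_cc, map_zero]

/-- base change of `iso_eq` -/
private theorem iso_bc {R : Type u} [CommRing R] (s : Iso n K K') (ι : K' →+* R) (f : PS n K) :
    subst (fun k => MvPowerSeries.map ι (s.σ (X k)))
      (MvPowerSeries.map ι (MvPowerSeries.map (s.j : K →+* K') f)) =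
      MvPowerSeries.map ι (s.σ f) := by
  rw [iso_eq s f, MvPowerSeries.map_subst (hasSubst_of_constantCoeff_zero (iso_cc s))]

private theorem iso_bc_symm {R : Type u} [CommRing R] (s : Iso n K K') (ι : K' →+* R) (k : Fin n) :
    subst (fun k => MvPowerSeries.map ι (s.σ (X k)))
      (MvPowerSeries.map ι (MvPowerSeries.map (s.j : K →+* K') (s.σ.symm (X k)))) = X k := by
  rw [iso_bc, RingEquiv.apply_symm_apply, map_X]

/-- the base changes of `s` and of its inverse are inverse to each other -/
private theorem iso_cancel {R R' : Type u} [CommRing R] [CommRing R'] (s : Iso n K K')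
    (ι : K →+* R) (ι' : K' →+* R') (J : R →+* R') (J₁ : R' →+* R) (hJ : J₁.comp J = RingHom.id R)
    (hι : J₁.comp ι' = ι.comp (s.j.symm : K' →+* K)) (f : PS n R) :
    subst (fun k => MvPowerSeries.map ι (s.σ.symm (X k))) (MvPowerSeries.map J₁
      (subst (fun k => MvPowerSeries.map ι' (s.σ (X k))) (MvPowerSeries.map J f))) = f := by
  have h0 := iso_hasSubst s ι'
  have h1 : HasSubst (fun k => MvPowerSeries.map ι (s.σ.symm (X k))) :=
    iso_hasSubst (isoSymm s) ι
  rw [MvPowerSeries.map_subst h0, MvPowerSeries.map_map, hJ, MvPowerSeries.map_id, RingHom.id_apply,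
    subst_comp_subst_apply (h0.map J₁) h1]
  have h2 : (fun k => subst (fun k => MvPowerSeries.map ι (s.σ.symm (X k)))
      (MvPowerSeries.map J₁ (MvPowerSeries.map ι' (s.σ (X k))))) = (X : Fin n → PS n R) := by
    funext k
    have h3 : MvPowerSeries.map J₁ (MvPowerSeries.map ι' (s.σ (X k))) =
        MvPowerSeries.map ι (MvPowerSeries.map (s.j.symm : K' →+* K) (s.σ (X k))) := by
      rw [MvPowerSeries.map_map, hι, ← MvPowerSeries.map_map]
    rw [h3]
    exact iso_bc_symm (isoSymm s) ι k
  rw [h2, subst_self]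
  rfl

open Classical in
/-- the generic coordinates, over the polynomial ring -/
private noncomputable def xg (r : ℕ) (K : Type u) [Field K] (i : Fin r) :
    MvPowerSeries (Fin (r + 1)) (MvPolynomial (Idx r) K) :=
  fun α => if h : α = 0 then 0 else MvPolynomial.X (i, ⟨α, h⟩)

open Classical in
private theorem coeff_xg (r : ℕ) (K : Type u) [Field K] (i : Fin r) (α : Fin (r + 1) →₀ ℕ) :
    coeff α (xg r K i) = if h : α = 0 then 0 else MvPolynomial.X (i, ⟨α, h⟩) := rfl

private theorem coeff_xg_zero (r : ℕ) (K : Type u) [Field K] (i : Fin r) :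
    coeff 0 (xg r K i) = 0 := by
  rw [coeff_xg]
  simp

private theorem coeff_xg_ne (r : ℕ) (K : Type u) [Field K] (i : Fin r)
    (α : {α : Fin (r + 1) →₀ ℕ // α ≠ 0}) :
    coeff α.1 (xg r K i) = MvPolynomial.X (i, α) := by
  rw [coeff_xg, dif_neg α.2]

private theorem xg_cc (r : ℕ) (K : Type u) [Field K] (i : Fin r) :
    constantCoeff (xg r K i) = 0 := by
  rw [← coeff_zero_eq_constantCoeff_apply, coeff_xg_zero]

private theorem xg_hasSubst (r : ℕ) (K : Type u) [Field K] : HasSubst (xg r K) :=
  hasSubst_of_constantCoeff_zero (xg_cc r K)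

private theorem map_xg (r : ℕ) (K : Type u) [Field K] (i : Fin r) :
    MvPowerSeries.map (algebraMap (MvPolynomial (Idx r) K) (KS r K)) (xg r K i) = xstar r K i := by
  ext α
  rw [coeff_map, coeff_xg, coeff_xstar]
  split_ifs with h
  · rw [map_zero]
  · rfl

/-- the point `(s.σ⁻¹ X_k)` over the polynomial ring, constants by `j` -/
private noncomputable def rho (s : Iso (r + 1) K K') (k : Fin (r + 1)) :
    MvPowerSeries (Fin (r + 1)) (MvPolynomial (Idx r) K') :=
  MvPowerSeries.map (MvPolynomial.C : K' →+* MvPolynomial (Idx r) K')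
    (MvPowerSeries.map (s.j : K →+* K') (s.σ.symm (X k)))

private theorem rho_cc (s : Iso (r + 1) K K') (k : Fin (r + 1)) : constantCoeff (rho s k) = 0 := by
  have h : constantCoeff (s.σ.symm (X k)) = 0 := iso_cc (isoSymm s) k
  rw [rho, constantCoeff_map, constantCoeff_map, h, map_zero, map_zero]

private theorem rho_hasSubst (s : Iso (r + 1) K K') : HasSubst (rho s) :=
  hasSubst_of_constantCoeff_zero (rho_cc s)

/-- the action on the polynomial rings -/
private noncomputable def Jp (s : Iso (r + 1) K K') :
    MvPolynomial (Idx r) K →+* MvPolynomial (Idx r) K' :=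
  MvPolynomial.eval₂Hom
    ((MvPolynomial.C : K' →+* MvPolynomial (Idx r) K').comp (s.j : K →+* K'))
    (fun p => coeff p.2.1 (subst (rho s) (xg r K' p.1)))

private theorem Jp_C (s : Iso (r + 1) K K') (c : K) :
    Jp s (MvPolynomial.C c) = MvPolynomial.C (s.j c) := by
  simp [Jp]

private theorem Jp_X (s : Iso (r + 1) K K') (p : Idx r) :
    Jp s (MvPolynomial.X p) = coeff p.2.1 (subst (rho s) (xg r K' p.1)) := by
  simp [Jp]

private theorem map_Jp_xg (s : Iso (r + 1) K K') (i : Fin r) :
    MvPowerSeries.map (Jp s) (xg r K i) = subst (rho s) (xg r K' i) := by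
  ext1 α
  rw [coeff_map]
  by_cases h : α = 0
  · rw [h, coeff_xg_zero, map_zero, coeff_zero_eq_constantCoeff_apply,
      constantCoeff_subst_eq_zero (rho_hasSubst s) (rho_cc s) (xg_cc r K' i)]
  · rw [coeff_xg_ne r K i ⟨α, h⟩, Jp_X]

private theorem Jp_comp (s : Iso (r + 1) K K') :
    (Jp (isoSymm s)).comp (Jp s) = RingHom.id (MvPolynomial (Idx r) K) := by
  have key : ∀ i, MvPowerSeries.map ((Jp (isoSymm s)).comp (Jp s)) (xg r K i) = xg r K i := by
    intro i
    rw [← MvPowerSeries.map_map, map_Jp_xg, MvPowerSeries.map_subst (rho_hasSubst s), map_Jp_xg,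
      subst_comp_subst_apply (rho_hasSubst (isoSymm s)) ((rho_hasSubst s).map _)]
    have h1 : (fun i => MvPowerSeries.map (Jp (isoSymm s)) (rho s i)) =
        fun k => MvPowerSeries.map (MvPolynomial.C : K →+* MvPolynomial (Idx r) K)
          ((isoSymm s).σ (X k)) := by
      funext k
      rw [rho, MvPowerSeries.map_map, MvPowerSeries.map_map]
      have h2 : ((Jp (isoSymm s)).comp
          (MvPolynomial.C : K' →+* MvPolynomial (Idx r) K')).comp (s.j : K →+* K') =
          (MvPolynomial.C : K →+* MvPolynomial (Idx r) K) := by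
        ext1 c
        simp only [RingHom.comp_apply, RingHom.coe_coe, Jp_C]
        congr 1
        exact s.j.symm_apply_apply c
      rw [h2]
      rfl
    rw [h1]
    have h3 : (fun k => subst (fun k => MvPowerSeries.map
        (MvPolynomial.C : K →+* MvPolynomial (Idx r) K) ((isoSymm s).σ (X k)))
        (rho (isoSymm s) k)) =
        (X : Fin (r + 1) → MvPowerSeries (Fin (r + 1)) (MvPolynomial (Idx r) K)) := by
      funext k
      exact iso_bc_symm (isoSymm s) (MvPolynomial.C : K →+* MvPolynomial (Idx r) K) k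
    rw [h3, subst_self]
    rfl
  refine MvPolynomial.ringHom_ext (fun c => ?_) (fun p => ?_)
  · simp only [RingHom.comp_apply, Jp_C, RingHom.id_apply]
    congr 1
    exact s.j.symm_apply_apply c
  · have h := congrArg (coeff p.2.1) (key p.1)
    rw [coeff_map, coeff_xg_ne] at h
    exact h

/-- the isomorphism of polynomial rings -/
private noncomputable def Jr (s : Iso (r + 1) K K') :
    MvPolynomial (Idx r) K ≃+* MvPolynomial (Idx r) K' :=
  RingEquiv.ofRingHom (Jp s) (Jp (isoSymm s)) (Jp_comp (isoSymm s)) (Jp_comp s)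

/-- the isomorphism of fraction fields -/
private noncomputable def Jf (s : Iso (r + 1) K K') : KS r K ≃+* KS r K' :=
  IsFractionRing.ringEquivOfRingEquiv (Jr s)

private theorem Jf_algebraMap (s : Iso (r + 1) K K') (p : MvPolynomial (Idx r) K) :
    Jf s (algebraMap (MvPolynomial (Idx r) K) (KS r K) p) =
      algebraMap (MvPolynomial (Idx r) K') (KS r K') (Jp s p) :=
  IsFractionRing.ringEquivOfRingEquiv_algebraMap (Jr s) p

private theorem algebraMap_KS (r : ℕ) (K : Type u) [Field K] (c : K) :
    algebraMap K (KS r K) c =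
      algebraMap (MvPolynomial (Idx r) K) (KS r K) (MvPolynomial.C c) := by
  rw [IsScalarTower.algebraMap_apply K (MvPolynomial (Idx r) K) (KS r K),
    MvPolynomial.algebraMap_eq]

private theorem Jf_const (s : Iso (r + 1) K K') (c : K) :
    Jf s (algebraMap K (KS r K) c) = algebraMap K' (KS r K') (s.j c) := by
  rw [algebraMap_KS, Jf_algebraMap, Jp_C, algebraMap_KS]

private theorem Jf_symm_const (s : Iso (r + 1) K K') (c : K') :
    (Jf s).symm (algebraMap K' (KS r K') c) = algebraMap K (KS r K) (s.j.symm c) := by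
  rw [RingEquiv.symm_apply_eq, Jf_const, RingEquiv.apply_symm_apply]

private theorem map_Jf_xstar (s : Iso (r + 1) K K') (i : Fin r) :
    subst (fun k => MvPowerSeries.map (algebraMap K' (KS r K')) (s.σ (X k)))
      (MvPowerSeries.map (Jf s : KS r K →+* KS r K') (xstar r K i)) = xstar r K' i := by
  have h1 : MvPowerSeries.map (Jf s : KS r K →+* KS r K') (xstar r K i) =
      MvPowerSeries.map (algebraMap (MvPolynomial (Idx r) K') (KS r K'))
        (MvPowerSeries.map (Jp s) (xg r K i)) := by
    rw [← map_xg, MvPowerSeries.map_map, MvPowerSeries.map_map]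
    congr 2
    exact RingHom.ext fun p => Jf_algebraMap s p
  rw [h1, map_Jp_xg, MvPowerSeries.map_subst (rho_hasSubst s), map_xg,
    subst_comp_subst_apply ((rho_hasSubst s).map _) (iso_hasSubst s (algebraMap K' (KS r K')))]
  have h2 : (fun k => subst (fun k => MvPowerSeries.map (algebraMap K' (KS r K')) (s.σ (X k)))
      (MvPowerSeries.map (algebraMap (MvPolynomial (Idx r) K') (KS r K')) (rho s k))) =
      (X : Fin (r + 1) → PS (r + 1) (KS r K')) := by
    funext k
    have h3 : MvPowerSeries.map (algebraMap (MvPolynomial (Idx r) K') (KS r K')) (rho s k) =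
        MvPowerSeries.map (algebraMap K' (KS r K'))
          (MvPowerSeries.map (s.j : K →+* K') (s.σ.symm (X k))) := by
      rw [rho, MvPowerSeries.map_map]
      congr 2
    rw [h3]
    exact iso_bc_symm s (algebraMap K' (KS r K')) k
  rw [h2, subst_self]
  rfl

/-- the isomorphism `K^* → K'^*` which maps the generic `x_i^*` to each other -/
theorem exists_star (s : Iso (r + 1) K K') :
    ∃ (t : Iso r (KS r K) (KS r K')) (t' : Iso (r + 1) (KS r K) (KS r K')), t.j = t'.j ∧
      (∀ i, t.σ (X i) = X i) ∧
      (∀ a, t'.σ (phi r K a) = phi r K' (t.σ a)) ∧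
      (∀ f, t'.σ (ext r K (r + 1) f) = ext r K' (r + 1) (s.σ f)) := by
  have hJ1 : ((Jf s).symm : KS r K' →+* KS r K).comp (Jf s : KS r K →+* KS r K') =
      RingHom.id _ := by
    ext1 x
    exact (Jf s).symm_apply_apply x
  have hJ2 : (Jf s : KS r K →+* KS r K').comp ((Jf s).symm : KS r K' →+* KS r K) =
      RingHom.id _ := by
    ext1 x
    exact (Jf s).apply_symm_apply x
  have hι1 : ((Jf s).symm : KS r K' →+* KS r K).comp (algebraMap K' (KS r K')) =
      (algebraMap K (KS r K)).comp (s.j.symm : K' →+* K) := by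
    ext1 c
    exact Jf_symm_const s c
  have hι2 : (Jf s : KS r K →+* KS r K').comp (algebraMap K (KS r K)) =
      (algebraMap K' (KS r K')).comp (s.j : K →+* K') := by
    ext1 c
    exact Jf_const s c
  have hs := iso_hasSubst s (algebraMap K' (KS r K'))
  have hs' : HasSubst (fun k => MvPowerSeries.map (algebraMap K (KS r K)) (s.σ.symm (X k))) :=
    iso_hasSubst (isoSymm s) (algebraMap K (KS r K))
  let t : Iso r (KS r K) (KS r K') :=
    { σ := RingEquiv.ofRingHom (MvPowerSeries.map (Jf s : KS r K →+* KS r K'))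
        (MvPowerSeries.map ((Jf s).symm : KS r K' →+* KS r K))
        (by rw [← MvPowerSeries.map_comp, hJ2, MvPowerSeries.map_id])
        (by rw [← MvPowerSeries.map_comp, hJ1, MvPowerSeries.map_id])
      j := Jf s
      comm := fun c => by
        change MvPowerSeries.map (Jf s : KS r K →+* KS r K') (C c) = C (Jf s c)
        rw [map_C]
        rfl }
  let F : PS (r + 1) (KS r K) →+* PS (r + 1) (KS r K') :=
    (substAlgHom (R := KS r K') hs).toRingHom.comp
      (MvPowerSeries.map (Jf s : KS r K →+* KS r K'))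
  let G : PS (r + 1) (KS r K') →+* PS (r + 1) (KS r K) :=
    (substAlgHom (R := KS r K) hs').toRingHom.comp
      (MvPowerSeries.map ((Jf s).symm : KS r K' →+* KS r K))
  have hF : ∀ f, F f = subst (fun k => MvPowerSeries.map (algebraMap K' (KS r K')) (s.σ (X k)))
      (MvPowerSeries.map (Jf s : KS r K →+* KS r K') f) := fun f => substAlgHom_apply hs _
  have hG : ∀ f, G f = subst (fun k => MvPowerSeries.map (algebraMap K (KS r K)) (s.σ.symm (X k)))
      (MvPowerSeries.map ((Jf s).symm : KS r K' →+* KS r K) f) := fun f => substAlgHom_apply hs' _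
  have hGF : ∀ f, G (F f) = f := by
    intro f
    rw [hG, hF]
    exact iso_cancel s (algebraMap K (KS r K)) (algebraMap K' (KS r K')) _ _ hJ1 hι1 f
  have hFG : ∀ f, F (G f) = f := by
    intro f
    rw [hF, hG]
    exact iso_cancel (isoSymm s) (algebraMap K' (KS r K')) (algebraMap K (KS r K)) _ _ hJ2 hι2 f
  let t' : Iso (r + 1) (KS r K) (KS r K') :=
    { σ := RingEquiv.ofRingHom F G (RingHom.ext hFG) (RingHom.ext hGF)
      j := Jf s
      comm := fun c => by
        change F (C c) = C (Jf s c)
        rw [hF, map_C, subst_C]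
        rfl }
  have ht' : ∀ f, t'.σ f = F f := fun f => rfl
  have ht : ∀ f, t.σ f = MvPowerSeries.map (Jf s : KS r K →+* KS r K') f := fun f => rfl
  refine ⟨t, t', rfl, fun i => ?_, fun a => ?_, fun f => ?_⟩
  · rw [ht, map_X]
  · rw [ht', hF, ht]
    have h1 : phi r K a = subst (xstar r K) a := substAlgHom_apply _ a
    have h2 : phi r K' (MvPowerSeries.map (Jf s : KS r K →+* KS r K') a) =
        subst (xstar r K') (MvPowerSeries.map (Jf s : KS r K →+* KS r K') a) :=
      substAlgHom_apply _ _
    rw [h1, h2, MvPowerSeries.map_subst (xstar_hasSubst r K),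
      subst_comp_subst_apply ((xstar_hasSubst r K).map _) hs]
    congr 1
    funext i
    exact map_Jf_xstar s i
  · rw [ht', hF]
    change subst _ (MvPowerSeries.map _ (MvPowerSeries.map _ f)) = MvPowerSeries.map _ (s.σ f)
    rw [MvPowerSeries.map_map, hι2, ← MvPowerSeries.map_map]
    exact iso_bc s (algebraMap K' (KS r K')) f

end

end DT
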