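import Pool.Agent.DT.Pt

/-!
# The third level, in abstract form

For `g : PS 5 L`: `g - y.ev ((ξ 0).ev g)` is killed by `ξ 0` (`hy 0`: `y.comp (ξ 0) = id`), so it is `ep a + em b`
(`hker`).  Apply this to `w` with `S0 = (ξ 0).ev w`.  Apply `ξ j` to the relation for `g` (`y.comp (ξ j) = id`):
`(ξ j).ev g - (ξ 0).ev g = (ξ j).ev ep * _ + (ξ j).ev em * _`, and `(ξ j).ev ep`, `(ξ j).ev em ∈ 𝔪^4` by `h1p … h2m`
(products of four nonunits), `0` for `j = 0`.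
`Ψ₁ = (ξ 1).ev (S1 xp + S2 ε^3 xm)`, `Ψ₂ = (ξ 2).ev (C τ S1 xp + (C τ + sm u3) S2 ε^3 xm)`, using `u3 = ε u5`.
Elements of `𝔪^2` have no linear part.
-/

universe u

open MvPowerSeries

namespace DT

private lemma lin_of_mem_pow {n : ℕ} {K : Type u} [Field K] (f : PS n K)
    (hf : f ∈ IsLocalRing.maximalIdeal (PS n K) ^ 4) : lin f = 0 := by
  rw [mem_maximalIdeal_pow_iff] at hf
  funext j
  rw [lin, Pi.zero_apply]
  apply coeff_of_lt_order
  refine lt_of_lt_of_le ?_ hf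
  rw [Finsupp.degree_single]
  norm_num

private lemma four_mem {n : ℕ} {K : Type u} [Field K] (a b : PS n K)
    (ha : constantCoeff a = 0) (hb : constantCoeff b = 0) :
    a * b ^ 3 ∈ IsLocalRing.maximalIdeal (PS n K) ^ 4 := by
  have h1 : a ∈ IsLocalRing.maximalIdeal (PS n K) ^ 1 := by
    rw [pow_one]
    exact (mem_maximalIdeal_iff a).2 ha
  have h3 : b ^ 3 ∈ IsLocalRing.maximalIdeal (PS n K) ^ 3 :=
    Ideal.pow_mem_pow ((mem_maximalIdeal_iff b).2 hb) 3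
  have := Ideal.mul_mem_mul h1 h3
  rwa [← pow_add] at this

theorem core3 {L : Type u} [Field L] (τ : L) (w ep em xp xm sm u5 u3 ε : PS 5 L)
    (y : Pt 3 5 L) (ξ : Fin 3 → Pt 5 3 L)
    (hy : ∀ j i, (ξ j).ev (y.val i) = X i) (hu : u3 = ε * u5)
    (hep : constantCoeff ep = 0) (hem : constantCoeff em = 0) (hxp : constantCoeff xp = 0)
    (hxm : constantCoeff xm = 0) (hsm : constantCoeff sm = 0) (hu5 : constantCoeff u5 = 0)
    (hu3 : constantCoeff u3 = 0)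
    (hker : ∀ g, (ξ 0).ev g = 0 → ∃ a b, g = ep * a + em * b)
    (h0p : (ξ 0).ev ep = 0) (h0m : (ξ 0).ev em = 0)
    (h1p : (ξ 1).ev ep = (ξ 1).ev (xp * u5 ^ 3)) (h1m : (ξ 1).ev em = (ξ 1).ev (xm * u3 ^ 3))
    (h2p : (ξ 2).ev ep = (ξ 2).ev (C τ * (xp * u5 ^ 3)))
    (h2m : (ξ 2).ev em = (ξ 2).ev ((C τ + sm * u3) * (xm * u3 ^ 3))) :
    ∃ (S0 : PS 3 L) (S1 S2 : PS 5 L) (Ψ₁ Ψ₂ : PS 3 L),
      w = y.ev S0 + ep * S1 + em * S2 ∧
      (ξ 1).ev w - (ξ 0).ev w = (ξ 1).ev u5 ^ 3 * Ψ₁ ∧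
      (ξ 2).ev w - (ξ 0).ev w = (ξ 2).ev u5 ^ 3 * Ψ₂ ∧
      constantCoeff Ψ₁ = 0 ∧ constantCoeff Ψ₂ = 0 ∧
      lin Ψ₁ = constantCoeff S1 • lin ((ξ 0).ev xp) +
        (constantCoeff S2 * constantCoeff ε ^ 3) • lin ((ξ 0).ev xm) ∧
      lin Ψ₂ = τ • lin Ψ₁ ∧
      (∀ j g, (ξ j).ev g - (ξ 0).ev g ∈ IsLocalRing.maximalIdeal (PS 3 L) ^ 4) ∧
      Ψ₂ - C τ * Ψ₁ - (ξ 0).ev (S2 * ε ^ 3) * (ξ 0).ev xm * (ξ 0).ev sm * (ξ 0).ev u3 ∈
        IsLocalRing.maximalIdeal (PS 3 L) ^ 4 := by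
  classical
  -- y followed by ξ j is the identity
  have hid : ∀ j f, (ξ j).ev (y.ev f) = f := by
    intro j f
    have h : y.comp (ξ j) = Pt.id 3 L := Pt.ext (fun i => hy j i)
    rw [← Pt.ev_comp, h, Pt.ev_id]
  -- decomposition of an arbitrary g
  have hdec : ∀ g, ∃ a b, g = y.ev ((ξ 0).ev g) + ep * a + em * b := by
    intro g
    obtain ⟨a, b, h⟩ := hker (g - y.ev ((ξ 0).ev g)) (by rw [map_sub, hid, sub_self])
    exact ⟨a, b, by rw [add_assoc, ← h]; ring⟩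
  have hdiff : ∀ j g a b, g = y.ev ((ξ 0).ev g) + ep * a + em * b →
      (ξ j).ev g - (ξ 0).ev g = (ξ j).ev ep * (ξ j).ev a + (ξ j).ev em * (ξ j).ev b := by
    intro j g a b h
    have h2 : (ξ j).ev g = (ξ 0).ev g + (ξ j).ev ep * (ξ j).ev a + (ξ j).ev em * (ξ j).ev b := by
      conv_lhs => rw [h]
      rw [map_add, map_add, map_mul, map_mul, hid]
    rw [h2]; ring
  have hcc : ∀ (j : Fin 3) (f : PS 5 L), constantCoeff f = 0 → constantCoeff ((ξ j).ev f) = 0 := by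
    intro j f hf
    rw [Pt.constantCoeff_ev, hf]
  have hepm : ∀ j, (ξ j).ev ep ∈ IsLocalRing.maximalIdeal (PS 3 L) ^ 4 := by
    intro j
    fin_cases j
    · show (ξ 0).ev ep ∈ _
      rw [h0p]; exact Ideal.zero_mem _
    · show (ξ 1).ev ep ∈ _
      rw [h1p, map_mul, map_pow]
      exact four_mem _ _ (hcc _ _ hxp) (hcc _ _ hu5)
    · show (ξ 2).ev ep ∈ _
      rw [h2p, map_mul, map_mul, map_pow]
      exact Ideal.mul_mem_left _ _ (four_mem _ _ (hcc _ _ hxp) (hcc _ _ hu5))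
  have hemm : ∀ j, (ξ j).ev em ∈ IsLocalRing.maximalIdeal (PS 3 L) ^ 4 := by
    intro j
    fin_cases j
    · show (ξ 0).ev em ∈ _
      rw [h0m]; exact Ideal.zero_mem _
    · show (ξ 1).ev em ∈ _
      rw [h1m, map_mul, map_pow]
      exact four_mem _ _ (hcc _ _ hxm) (hcc _ _ hu3)
    · show (ξ 2).ev em ∈ _
      rw [h2m, map_mul, map_mul, map_pow]
      exact Ideal.mul_mem_left _ _ (four_mem _ _ (hcc _ _ hxm) (hcc _ _ hu3))
  have hall : ∀ j g, (ξ j).ev g - (ξ 0).ev g ∈ IsLocalRing.maximalIdeal (PS 3 L) ^ 4 := by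
    intro j g
    obtain ⟨a, b, h⟩ := hdec g
    rw [hdiff j g a b h]
    exact Ideal.add_mem _ (Ideal.mul_mem_right _ _ (hepm j)) (Ideal.mul_mem_right _ _ (hemm j))
  have hlin : ∀ j g, lin ((ξ j).ev g) = lin ((ξ 0).ev g) := by
    intro j g
    have h := lin_of_mem_pow _ (hall j g)
    rw [lin_sub] at h
    exact sub_eq_zero.1 h
  obtain ⟨S1, S2, hw⟩ := hdec w
  -- linear part of (ξ j).ev (a * x) for x without constant coefficient
  have hlm : ∀ j (a x : PS 5 L), constantCoeff x = 0 →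
      lin ((ξ j).ev (a * x)) = constantCoeff a • lin ((ξ 0).ev x) := by
    intro j a x hx
    rw [map_mul, lin_mul_of_cc _ _ (hcc j x hx), Pt.constantCoeff_ev, hlin]
  have hL1 : lin ((ξ 1).ev (S1 * xp + (S2 * ε ^ 3) * xm)) =
      constantCoeff S1 • lin ((ξ 0).ev xp) +
        (constantCoeff S2 * constantCoeff ε ^ 3) • lin ((ξ 0).ev xm) := by
    rw [map_add, lin_add, hlm 1 S1 xp hxp, hlm 1 (S2 * ε ^ 3) xm hxm]
    simp only [map_mul, map_pow]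
  have hL2 : lin ((ξ 2).ev ((C τ * S1) * xp + ((C τ + sm * u3) * (S2 * ε ^ 3)) * xm)) =
      (τ * constantCoeff S1) • lin ((ξ 0).ev xp) +
        (τ * (constantCoeff S2 * constantCoeff ε ^ 3)) • lin ((ξ 0).ev xm) := by
    rw [map_add, lin_add, hlm 2 (C τ * S1) xp hxp,
      hlm 2 ((C τ + sm * u3) * (S2 * ε ^ 3)) xm hxm]
    have e1 : constantCoeff (C τ * S1) = τ * constantCoeff S1 := by
      rw [map_mul, constantCoeff_C]
    have e2 : constantCoeff ((C τ + sm * u3) * (S2 * ε ^ 3)) =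
        τ * (constantCoeff S2 * constantCoeff ε ^ 3) := by
      simp only [map_mul, map_add, map_pow, constantCoeff_C, hsm, hu3, zero_mul, add_zero]
    rw [e1, e2]
  refine ⟨(ξ 0).ev w, S1, S2, (ξ 1).ev (S1 * xp + (S2 * ε ^ 3) * xm),
    (ξ 2).ev ((C τ * S1) * xp + ((C τ + sm * u3) * (S2 * ε ^ 3)) * xm), hw, ?_, ?_, ?_, ?_, hL1, ?_,
    hall, ?_⟩
  · rw [hdiff 1 w S1 S2 hw, h1p, h1m, hu]
    simp only [map_add, map_mul, map_pow]
    ring
  · rw [hdiff 2 w S1 S2 hw, h2p, h2m]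
    simp only [hu, map_add, map_mul, map_pow]
    ring
  · rw [Pt.constantCoeff_ev]
    simp only [map_add, map_mul, hxp, hxm, mul_zero, add_zero]
  · rw [Pt.constantCoeff_ev]
    simp only [map_add, map_mul, hxp, hxm, mul_zero, add_zero]
  · rw [hL1, hL2, smul_add, smul_smul, smul_smul]
  · have h1 := hall 1 (S1 * xp + (S2 * ε ^ 3) * xm)
    have h2 := hall 2 (S1 * xp + (S2 * ε ^ 3) * xm)
    have h3 := hall 2 (S2 * ε ^ 3 * xm * sm * u3)
    have h12 := Ideal.mul_mem_left _ (C τ) (Ideal.sub_mem _ h2 h1)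
    have hs := Ideal.add_mem _ h12 h3
    refine cast (congrArg (fun z => z ∈ IsLocalRing.maximalIdeal (PS 3 L) ^ 4) ?_) hs
    simp only [map_add, map_mul, map_pow, Pt.ev_C]
    ring

end DT
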