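import Pool.Agent.DT.Deriv
import Pool.Agent.DT.Crit
import Pool.Agent.DT.Simple

/-!
# Stability under a derivation bounds the dimensionality type

* `deriv_discr`: take `δ', c'` from `exists_DD_gen`, `D = DD δ' (c)` on `K^*[[x]]`, `D' = DD δ' c'` on `A^*`;
  `D (phi a) = phi (D' a)` (`DD_ev` for `gen`), `ext f ∣ D (ext f)` (`DD_map`). `ext f ~ atLast W`
  (`IsWeier.associated`) so `atLast W ∣ D (atLast W)`. `D (atLast W) = atLast (W^{D'}) + c_r atLast W'` where `W^{D'}` has
  the coefficients `D'(coeff)`: it is `atLast R`, `R = W^{D'} + C(c_r) W'` of degree `< deg W` (`W` monic), so `R = 0` by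
  `IsWeier.eq_zero_of_dvd`, and `deriv_discr_eq_zero` applies (with `D'`, `c = C (c_r)`).
* `dvd_DD_of_isSqfPart`: UFD, characteristic `0`. For a prime `p ∣ Δ`: `d = p^e q`, `p ∤ q`, `e ≥ 1`;
  `0 = e p^{e-1} D(p) q + p^e D(q)` gives `p ∣ D(p)`; so `p ∣ D(Δ)`; `Δ` squarefree with all prime divisors dividing
  `D(Δ)` divides `D(Δ)`.
* `DStab.crit`: from the two previous ones and `isCrit_crit`, `IsWeier.discr_ne_zero`.
* `lin_ne_zero`: `f : PS 2 K` of order `≥ 2`; `W` over `PS 1 K^*`, `DD δ' c' W.discr = 0`, `W.discr ≠ 0` of order `m`: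
  in one variable, if `m ≥ 1` the coefficient of `Y^{m-1}` in `DD δ' c' d` is `m c' d_m ≠ 0`; so `m = 0`, but the
  discriminant is in the maximal ideal as `W.natDegree ≥ 2` (see `crit_not_isUnit`).
* `dt_le`: induction on `r`: if `lin f ≠ 0` use `dt_closed_simple`; otherwise `dt_closed_singular`, and `r = 0` is excluded
  by `lin_ne_zero`; `crit f` satisfies all the hypotheses.
-/

universe u

open MvPowerSeries

namespace DT

/-- `f` is stable under a derivation of `K[[X]]` which maps `K` to `K`, the variables to constants,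
not all zero -/
def DStab {n : ℕ} {K : Type u} [Field K] (f : PS n K) : Prop :=
  ∃ (δ : K → K) (c : Fin n → K), IsDer δ ∧ c ≠ 0 ∧ f ∣ DD δ c f

section Aux

/-- a power rule -/
private lemma DStab_pow {A : Type*} [CommRing A] {D : A → A} (hD : IsDer D) (a : A) (k : ℕ) :
    D (a ^ k) = (k : A) * a ^ (k - 1) * D a := by
  induction k with
  | zero => rw [pow_zero, hD.one, Nat.cast_zero, zero_mul, zero_mul]
  | succ k ih =>
    rw [pow_succ, hD.mul, ih, Nat.add_sub_cancel]
    rcases k with _ | k
    · simp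
    · rw [Nat.add_sub_cancel]
      push_cast
      ring

/-- a derivation along a ring homomorphism acts on a value of a polynomial by the coefficients and
by the derivative -/
private lemma DStab_eval₂ {A B : Type*} [CommRing A] [CommRing B] (φ : A →+* B) {D' : A → A}
    {D : B → B} (hD : IsDer D) (h : ∀ a, D (φ a) = φ (D' a)) (x : B)
    (P : Polynomial A) :
    D (P.eval₂ φ x) = (∑ i ∈ Finset.range (P.natDegree + 1), Polynomial.monomial i
      (D' (P.coeff i))).eval₂ φ x + D x * (Polynomial.derivative P).eval₂ φ x := by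
  have h1 : Polynomial.derivative P = ∑ i ∈ Finset.range (P.natDegree + 1),
      Polynomial.monomial (i - 1) (P.coeff i * (i : A)) := by
    conv_lhs => rw [P.as_sum_range]
    rw [Polynomial.derivative_sum]
    exact Finset.sum_congr rfl fun i _ => Polynomial.derivative_monomial _ _
  rw [h1, Polynomial.eval₂_finsetSum, Polynomial.eval₂_finsetSum, Polynomial.eval₂_eq_sum_range,
    hD.sum, Finset.mul_sum, ← Finset.sum_add_distrib]
  refine Finset.sum_congr rfl fun i _ => ?_
  rw [Polynomial.eval₂_monomial, Polynomial.eval₂_monomial, hD.mul, h, DStab_pow hD, map_mul,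
    map_natCast]
  ring

end Aux

section
variable {r : ℕ} {K : Type u} [Field K] [CharZero K]

/-- the data at the next level: the discriminant is killed by the induced derivation -/
theorem DStab.deriv_discr {f : PS (r + 1) K} (hf : f ≠ 0) (hst : DStab f) :
    ∃ (δ' : KS r K → KS r K) (c' : Fin r → KS r K), IsDer δ' ∧ (∀ i, c' i ≠ 0) ∧
      ∀ W, IsWeier f W → DD δ' c' W.discr = 0 := by
  obtain ⟨δ, c, hδ, hc, hd⟩ := hst
  obtain ⟨δ', c', hδ', hc', hext, hgen⟩ := exists_DD_gen hδ c hc
  refine ⟨δ', c', hδ', hc', fun W hW => ?_⟩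
  have hD' : IsDer (DD δ' c') := isDer_DD hδ' c'
  have hD : IsDer (DD (n := r + 1) δ' (fun j => algebraMap K (KS r K) (c j))) := isDer_DD hδ' _
  have hφ : ∀ a, DD δ' (fun j => algebraMap K (KS r K) (c j)) ((phi r K).toRingHom a) =
      (phi r K).toRingHom (DD δ' c' a) := by
    intro a
    exact DD_ev (gen r K) hδ' _ c' hgen a
  set P : Polynomial (PS r (KS r K)) := ∑ i ∈ Finset.range (W.natDegree + 1),
    Polynomial.monomial i (DD δ' c' (W.coeff i)) with hP
  set R : Polynomial (PS r (KS r K)) :=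
    P + Polynomial.C (C (algebraMap K (KS r K) (c (Fin.last r)))) * Polynomial.derivative W with hR
  have hPc : ∀ i, P.coeff i = DD δ' c' (W.coeff i) := by
    intro i
    rw [hP, Polynomial.finsetSum_coeff]
    by_cases hi : i ∈ Finset.range (W.natDegree + 1)
    · rw [Finset.sum_eq_single i]
      · rw [Polynomial.coeff_monomial, if_pos rfl]
      · intro j _ hj
        rw [Polynomial.coeff_monomial, if_neg hj]
      · intro h
        exact absurd hi h
    · rw [Finset.sum_eq_zero]
      · rw [Polynomial.coeff_eq_zero_of_natDegree_lt, hD'.zero]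
        rw [Finset.mem_range, not_lt] at hi
        omega
      · intro j hj
        rw [Polynomial.coeff_monomial, if_neg]
        rintro rfl
        exact hi hj
  have hWne : W ≠ 0 := hW.monic.ne_zero
  have hPdeg : P.degree < W.degree := by
    rw [Polynomial.degree_eq_natDegree hWne, Polynomial.degree_lt_iff_coeff_zero]
    intro m hm
    rw [hPc]
    rcases hm.eq_or_lt with h | h
    · rw [← h, Polynomial.coeff_natDegree, hW.monic.leadingCoeff, hD'.one]
    · rw [Polynomial.coeff_eq_zero_of_natDegree_lt h, hD'.zero]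
  have hRdeg : R.degree < W.degree := by
    refine (Polynomial.degree_add_le _ _).trans_lt (max_lt hPdeg ?_)
    refine lt_of_le_of_lt ?_ (Polynomial.degree_derivative_lt hWne)
    rw [← Polynomial.smul_eq_C_mul]
    exact Polynomial.degree_smul_le _ _
  have hval : DD δ' (fun j => algebraMap K (KS r K) (c j)) (atLast W) = atLast R := by
    have h1 := DStab_eval₂ (phi r K).toRingHom hD hφ (X (Fin.last r)) W
    rw [atLast, h1, atLast, hR, Polynomial.eval₂_add, Polynomial.eval₂_mul, Polynomial.eval₂_C,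
      DD_X hδ']
    congr 2
    exact (Pt.ev_C (gen r K) _).symm
  have hdvd : ext r K (r + 1) f ∣ atLast R := by
    obtain ⟨q, hq⟩ := hW.dvd
    rw [← hval]
    have h2 : atLast W = ext r K (r + 1) f * q := hq
    rw [h2, hD.mul]
    refine dvd_add (Dvd.intro _ rfl) (Dvd.dvd.mul_right ?_ _)
    have h3 := DD_map (algebraMap K (KS r K)) δ δ' hext c f
    have h4 : DD δ' (fun j => algebraMap K (KS r K) (c j)) (ext r K (r + 1) f) =
        ext r K (r + 1) (DD δ c f) := h3
    rw [h4]
    exact map_dvd _ hd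
  have hR0 : R = 0 := hW.eq_zero_of_dvd hf R hRdeg hdvd
  refine deriv_discr_eq_zero hD' hW.monic (C (algebraMap K (KS r K) (c (Fin.last r)))) fun i => ?_
  have h5 := congrArg (fun Q : Polynomial (PS r (KS r K)) => Q.coeff i) hR0
  simp only [hR, Polynomial.coeff_add, Polynomial.coeff_C_mul, Polynomial.coeff_zero] at h5
  rw [hPc] at h5
  exact h5

/-- a squarefree divisor of `d` with the same prime divisors is stable if the derivation kills
`d` -/
theorem dvd_DD_of_isSqfPart {n : ℕ} {Δ d : PS n K} (hd : d ≠ 0) (h : IsSqfPart Δ d)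
    {D : PS n K → PS n K} (hD : IsDer D) (h0 : D d = 0) : Δ ∣ D Δ := by
  have hU : UniqueFactorizationMonoid (PS n K) := ufd_PS n K
  have hdom : IsDomain (PS n K) := NoZeroDivisors.to_isDomain _
  have hΔ0 : Δ ≠ 0 := h.sqf.ne_zero
  -- a prime divisor of `Δ` divides its derivative
  have key : ∀ p : PS n K, Prime p → p ∣ Δ → p ∣ D Δ := by
    intro p hp hpd
    obtain ⟨e, q, hq, hpq⟩ : ∃ (e : ℕ) (q : PS n K), d = p ^ e * q ∧ ¬ p ∣ q :=
      ⟨_, (FiniteMultiplicity.of_prime_left hp hd).exists_eq_pow_mul_and_not_dvd⟩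
    have he1 : 1 ≤ e := by
      by_contra hcon
      have he0 : e = 0 := by omega
      rw [he0, pow_zero, one_mul] at hq
      exact hpq (hq ▸ hpd.trans h.dvd)
    have hpp : p ∣ D p := by
      obtain ⟨k, rfl⟩ : ∃ k, e = k + 1 := ⟨e - 1, by omega⟩
      have h1 : p ^ k * (p * D q + ((k + 1 : ℕ) : PS n K) * (D p * q)) = 0 := by
        rw [← h0, hq, hD.mul, DStab_pow hD, Nat.add_sub_cancel]
        ring
      have h2 := (mul_eq_zero.1 h1).resolve_left (pow_ne_zero _ hp.ne_zero)
      have h3 : p ∣ ((k + 1 : ℕ) : PS n K) * (D p * q) :=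
        (dvd_add_right (Dvd.intro _ rfl)).1 (h2 ▸ dvd_zero p)
      have hu : IsUnit ((k + 1 : ℕ) : PS n K) := by
        have h4 : IsUnit ((k + 1 : ℕ) : K) := isUnit_iff_ne_zero.2 (Nat.cast_ne_zero.2 (by omega))
        have h5 := h4.map (C : K →+* PS n K)
        rwa [map_natCast] at h5
      rcases hp.dvd_or_dvd h3 with h4 | h4
      · exact absurd (isUnit_of_dvd_unit h4 hu) hp.not_isUnit
      · exact (hp.dvd_or_dvd h4).resolve_right hpq
    obtain ⟨m, rfl⟩ := hpd
    rw [hD.mul]
    exact dvd_add (Dvd.intro _ rfl) (hpp.mul_right _)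
  have hrad : IsRadical Δ := (isRadical_iff_squarefree_of_ne_zero hΔ0).2 h.sqf
  obtain ⟨s, hs, hsΔ⟩ := UniqueFactorizationMonoid.exists_prime_factors Δ hΔ0
  have h6 : ∀ t : Multiset (PS n K), (∀ b ∈ t, b ∣ D Δ) → t.prod ∣ D Δ ^ t.card := by
    intro t
    induction t using Multiset.induction_on with
    | empty => intro _; simp
    | cons a t ih =>
      intro ht
      rw [Multiset.prod_cons, Multiset.card_cons, pow_succ']
      exact mul_dvd_mul (ht a (Multiset.mem_cons_self a t))
        (ih fun b hb => ht b (Multiset.mem_cons_of_mem hb))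
  refine hrad s.card _ (hsΔ.symm.dvd.trans (h6 s fun b hb => key b (hs b hb) ?_))
  exact (Multiset.dvd_prod hb).trans hsΔ.dvd

theorem DStab.crit {f : PS (r + 2) K} (hf : f ≠ 0) (hsq : Squarefree f) (hst : DStab f) :
    DStab (DT.crit f) := by
  obtain ⟨W, hW, hΔ⟩ := isCrit_crit hf hsq
  obtain ⟨δ', c', hδ', hc', h⟩ := DStab.deriv_discr hf hst
  refine ⟨δ', c', hδ', fun h0 => hc' 0 (congrFun h0 0), ?_⟩
  exact dvd_DD_of_isSqfPart (hW.discr_ne_zero hf hsq) hΔ (isDer_DD hδ' c') (h W hW)

/-- stable and singular is impossible in two variables -/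
theorem DStab.lin_ne_zero {f : PS 2 K} (hf : f ≠ 0) (hsq : Squarefree f) (hst : DStab f)
    (h0 : constantCoeff f = 0) : lin f ≠ 0 := by
  intro hl
  obtain ⟨W, hW, hΔ⟩ := isCrit_crit hf hsq
  obtain ⟨δ', c', hδ', hc', h⟩ := DStab.deriv_discr hf hst
  have hker := h W hW
  have hne := hW.discr_ne_zero hf hsq
  apply crit_not_isUnit hf hsq h0 hl
  refine isUnit_of_dvd_unit hΔ.dvd ?_
  obtain ⟨β, hβ, hβo⟩ := exists_coeff_ne_zero_and_order (ne_zero_iff_order_finite.1 hne)
  by_cases hβ0 : β = 0
  · rw [MvPowerSeries.isUnit_iff_constantCoeff, isUnit_iff_ne_zero]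
    rw [hβ0, coeff_zero_eq_constantCoeff_apply] at hβ
    exact hβ
  exfalso
  have hβ1 : β = Finsupp.single 0 (β 0) := Finsupp.ext fun i => by
    rw [Subsingleton.elim i 0, Finsupp.single_eq_same]
  obtain ⟨m, hm⟩ : ∃ m, β 0 = m + 1 := by
    refine ⟨β 0 - 1, ?_⟩
    have h1 : β 0 ≠ 0 := by
      intro h2
      apply hβ0
      rw [hβ1, h2, Finsupp.single_zero]
    omega
  rw [hm] at hβ1
  have h3 := congrArg (coeff (Finsupp.single (0 : Fin 1) m)) hker
  rw [coeff_DD, map_zero, Fin.sum_univ_one] at h3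
  have h4 : coeff (Finsupp.single (0 : Fin 1) m) W.discr = 0 := by
    refine coeff_of_lt_order ?_
    rw [← hβo, hβ1, Finsupp.degree_single, Finsupp.degree_single]
    exact_mod_cast Nat.lt_succ_self m
  rw [h4, hδ'.zero, zero_add, ← Finsupp.single_add, ← hβ1, Finsupp.single_eq_same] at h3
  rcases mul_eq_zero.1 h3 with h5 | h5
  · exact hc' 0 h5
  · rcases mul_eq_zero.1 h5 with h6 | h6
    · exact hβ h6
    · exact absurd h6 (Nat.cast_ne_zero.2 (Nat.succ_ne_zero m))

end

theorem DStab.dt_le (r : ℕ) (K : Type u) [Field K] [CharZero K] (f : PS (r + 2) K) (hf : f ≠ 0)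
    (hsq : Squarefree f) (h0 : constantCoeff f = 0) (hst : DStab f) :
    dt (r + 1) K f (IsLocalRing.maximalIdeal (PS (r + 2) K)) ≤ r := by
  induction r generalizing K with
  | zero =>
    rw [dt_closed_simple f hf h0 (DStab.lin_ne_zero hf hsq hst h0)]
  | succ r ih =>
    by_cases hl : lin f = 0
    · rw [dt_closed_singular f hf h0 hl]
      have h1 := ih (KS (r + 2) K) (DT.crit f) (crit_ne_zero hf hsq) (crit_squarefree hf hsq) (by
        by_contra hcon
        apply crit_not_isUnit hf hsq h0 hl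
        rw [MvPowerSeries.isUnit_iff_constantCoeff, isUnit_iff_ne_zero]
        exact hcon) (DStab.crit hf hsq hst)
      exact (Nat.add_le_add_left h1 1).trans (add_comm 1 r).le
    · rw [dt_closed_simple f hf h0 hl]
      omega

end DT
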