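import Mathlib

/-!
# Dimensionality type of an algebroid hypersurface (Zariski)

`K[[x_0, …, x_r]]` is `MvPowerSeries (Fin (r+1)) K`.  An algebroid hypersurface of dimension `r` is
given by a power series `f` in `r+1` variables (nonzero, nonunit, squarefree); a point is a prime
ideal of `K[[x]]` containing `f`.
-/

universe u

open MvPowerSeries

namespace DT

/-- indices `(i, α)` of the indeterminates `u^{(i)}_α`: `i < r`, `α ≠ 0` an exponent in `r+1`
variables -/
abbrev Idx (r : ℕ) : Type := Fin r × {α : Fin (r + 1) →₀ ℕ // α ≠ 0}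

/-- `K^* = K({u})`: the field of rational functions in the indeterminates `u^{(i)}_α` -/
abbrev KS (r : ℕ) (K : Type u) [Field K] : Type u := FractionRing (MvPolynomial (Idx r) K)

/-- the indeterminate `u^{(i)}_α` as an element of `K^*` -/
noncomputable def uu (r : ℕ) (K : Type u) [Field K] (i : Fin r)
    (α : {α : Fin (r + 1) →₀ ℕ // α ≠ 0}) : KS r K :=
  algebraMap (MvPolynomial (Idx r) K) (KS r K) (MvPolynomial.X (i, α))

open Classical in
/-- `x_i^* = ∑_{α ≠ 0} u^{(i)}_α x^α ∈ K^*[[x_0, …, x_r]]`, `i < r` -/
noncomputable def xstar (r : ℕ) (K : Type u) [Field K] (i : Fin r) :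
    MvPowerSeries (Fin (r + 1)) (KS r K) :=
  fun α => if h : α = 0 then 0 else uu r K i ⟨α, h⟩

open Classical in
lemma coeff_xstar (r : ℕ) (K : Type u) [Field K] (i : Fin r) (α : Fin (r + 1) →₀ ℕ) :
    coeff α (xstar r K i) = if h : α = 0 then 0 else uu r K i ⟨α, h⟩ := rfl

lemma xstar_constantCoeff (r : ℕ) (K : Type u) [Field K] (i : Fin r) :
    constantCoeff (xstar r K i) = 0 := by
  rw [← coeff_zero_eq_constantCoeff_apply, coeff_xstar]
  simp

lemma xstar_hasSubst (r : ℕ) (K : Type u) [Field K] :
    HasSubst (xstar r K) := hasSubst_of_constantCoeff_zero (xstar_constantCoeff r K)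

/-- the inclusion `A^* = K^*[[x_0^*, …, x_{r-1}^*]] → K^*[[x_0, …, x_r]]` (substitution of the
`x_i^*` for the variables) -/
noncomputable def phi (r : ℕ) (K : Type u) [Field K] :
    MvPowerSeries (Fin r) (KS r K) →ₐ[KS r K] MvPowerSeries (Fin (r + 1)) (KS r K) :=
  substAlgHom (xstar_hasSubst r K)

/-- extension of the coefficients `K[[x]] → K^*[[x]]` -/
noncomputable def ext (r : ℕ) (K : Type u) [Field K] (n : ℕ) :
    MvPowerSeries (Fin n) K →+* MvPowerSeries (Fin n) (KS r K) :=
  MvPowerSeries.map (algebraMap K (KS r K))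

/-- `W` is the monic polynomial over `A^*`, of degree the multiplicity of the closed point (the
order of `f`), satisfied in `𝔬^* = K^*[[x]]/(f)` by the last element `x_r` of the minimal basis -/
structure IsWeier {r : ℕ} {K : Type u} [Field K] (f : MvPowerSeries (Fin (r + 1)) K)
    (W : Polynomial (MvPowerSeries (Fin r) (KS r K))) : Prop where
  monic : W.Monic
  natDegree : (W.natDegree : ℕ∞) = f.order
  dvd : ext r K (r + 1) f ∣ W.eval₂ (phi r K).toRingHom (X (Fin.last r))

/-- `Δ` is the product of the distinct irreducible factors of `d` (up to a unit) -/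
structure IsSqfPart {A : Type*} [CommRing A] (Δ d : A) : Prop where
  sqf : Squarefree Δ
  dvd : Δ ∣ d
  pow : ∃ n : ℕ, d ∣ Δ ^ n

/-- `Δ` defines the critical hypersurface of `f`: it is the product of the distinct irreducible
factors of the discriminant of the monic polynomial of `x_r` over `A^*` -/
def IsCrit {r : ℕ} {K : Type u} [Field K] (f : MvPowerSeries (Fin (r + 1)) K)
    (Δ : MvPowerSeries (Fin r) (KS r K)) : Prop :=
  ∃ W, IsWeier f W ∧ IsSqfPart Δ W.discr

open Classical in
/-- the critical hypersurface `Δ_u^*` (for `f` nonzero and squarefree it exists and is unique up to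
a unit) -/
noncomputable def crit {r : ℕ} {K : Type u} [Field K] (f : MvPowerSeries (Fin (r + 1)) K) :
    MvPowerSeries (Fin r) (KS r K) :=
  if h : ∃ Δ, IsCrit f Δ then h.choose else 1

/-- the generic projection `π_u(𝔭) = 𝔬^*𝔭 ∩ A^*` -/
noncomputable def proj {r : ℕ} {K : Type u} [Field K] (p : Ideal (MvPowerSeries (Fin (r + 1)) K)) :
    Ideal (MvPowerSeries (Fin r) (KS r K)) :=
  (p.map (ext r K (r + 1))).comap (phi r K).toRingHom

/-- the point `p` of the hypersurface `f = 0` is simple: the local ring of `K[[x]]/(f)` at (the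
image of) `p` is regular -/
def IsSimplePt {n : ℕ} {K : Type u} [Field K] (f : MvPowerSeries (Fin n) K)
    (p : Ideal (MvPowerSeries (Fin n) K)) : Prop :=
  ∃ _ : p.IsPrime, IsRegularLocalRing
    (Localization (p.primeCompl.map (Ideal.Quotient.mk (Ideal.span {f}))))

open Classical in
/-- the dimensionality type over `K` of the point `p` of the hypersurface `f = 0` of dimension `r` -/
noncomputable def dt : (r : ℕ) → (K : Type u) → [Field K] → MvPowerSeries (Fin (r + 1)) K →
    Ideal (MvPowerSeries (Fin (r + 1)) K) → ℕ
  | 0, _, _, _, _ => 0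
  | r + 1, K, _, f, p => if IsSimplePt f p then 0 else
      1 + dt r (KS (r + 1) K) (crit f) (proj p)

/-- a presentation over the field `K` (embedded by `i`) of the ring `O` as an algebroid hypersurface
`K[[x_0, …, x_r]]/(f)` of dimension `r`.  When the closed point is singular, the images of the
variables are a minimal basis of the maximal ideal of `O`, and every minimal basis arises so. -/
structure Pres {K : Type u} [Field K] {O : Type u} [CommRing O] (i : K →+* O) where
  /-- the dimension -/
  r : ℕ
  /-- the equation -/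
  f : MvPowerSeries (Fin (r + 1)) K
  ne_zero : f ≠ 0
  not_isUnit : ¬ IsUnit f
  squarefree : Squarefree f
  /-- the map from the power series ring -/
  toRing : MvPowerSeries (Fin (r + 1)) K →+* O
  surj : Function.Surjective toRing
  ker : RingHom.ker toRing = Ideal.span {f}
  coef : ∀ c, toRing (C c) = i c

/-- `d.t._K(V, R)` for `V = Spec O` and the point `R` with prime `p`, computed with the presentation
(minimal basis) `P` -/
noncomputable def Pres.dtAt {K : Type u} [Field K] {O : Type u} [CommRing O] {i : K →+* O}
    (P : Pres i) (p : Ideal O) : ℕ :=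
  dt P.r K P.f (p.comap P.toRing)

/-- `d.t._K(V, P)` for the closed point `P` -/
noncomputable def Pres.dtClosed {K : Type u} [Field K] {O : Type u} [CommRing O] {i : K →+* O}
    (P : Pres i) : ℕ :=
  dt P.r K P.f (IsLocalRing.maximalIdeal (MvPowerSeries (Fin (P.r + 1)) K))

/-- `𝔬'`: the completion of the local ring `O_p` -/
abbrev Compl (O : Type u) [CommRing O] (p : Ideal O) [p.IsPrime] : Type u :=
  AdicCompletion (IsLocalRing.maximalIdeal (Localization.AtPrime p)) (Localization.AtPrime p)

/-- the canonical map `O → 𝔬'` -/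
noncomputable def toCompl (O : Type u) [CommRing O] (p : Ideal O) [p.IsPrime] :
    O →+* Compl O p :=
  (algebraMap (Localization.AtPrime p) (Compl O p)).comp (algebraMap O (Localization.AtPrime p))

end DT
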