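import Pool.Agent.DT.Defs

/-!
# Discriminants of monic polynomials over commutative rings

Mathlib: `Mathlib/RingTheory/Polynomial/Resultant/Basic.lean`: `resultant_deriv` (relation with
`resultant W W' n (n-1)`), `resultant_map_map`, `resultant_taylor`, `exists_mul_add_mul_eq_C_resultant`,
`resultant_ne_zero`, `resultant_eq_zero_iff`.  (`W = 1` has discriminant `1`.)
* `discr_map`, `discr_taylor`: from the resultant formula (monic, sign is a unit); degree `0` separately.
* `sub_dvd_discr`: `discr` is in the ideal `(W, W')`; evaluate at `a`: `discr = q(a) W'(a)`; `W = (X-a)(X-b)Q`,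
  `W'(a) = (a-b) Q(a)`.
* `discr_mem_of_coeff_mem`: in `A/I`, `W = X^e`, `e ≥ 2`, discriminant `0`.
* `discr_ne_zero_of_squarefree`: `W` is squarefree over the fraction field (a monic factor of `W` over the fraction
  field of the integrally closed `A` has coefficients in `A`: `IsIntegrallyClosed.eq_map_mul_C_of_dvd`), hence
  separable (characteristic zero), coprime to its derivative.
* `squarefree_of_discr_ne_zero`: a square factor `P^2 ∣ W`: `P` has unit leading coefficient; if `P` is not constant
  then `W` and `W'` have the common factor `P`, over the fraction field the resultant vanishes.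
* `deriv_discr_eq_zero`: the ring homomorphism `φ : A → A[ε]` (`TrivSqZeroExt A A` or `DualNumber A`),
  `a ↦ a + D(a) ε`, maps `W` to `W - c ε W' = W(X - cε)` (a translate, `Polynomial.taylor`), so
  `φ (discr W) = discr (W.map φ) = discr (taylor (-cε) W) = discr W` and the `ε`-part `D (discr W)` is `0`.
-/

universe u

open Polynomial

namespace DT

/-- additive and Leibniz -/
structure IsDer {A : Type*} [CommRing A] (D : A → A) : Prop where
  add : ∀ a b, D (a + b) = D a + D b
  mul : ∀ a b, D (a * b) = a * D b + D a * b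

section
variable {A : Type*} [CommRing A]

theorem resultant_monic_deriv {W : A[X]} (hW : W.Monic) :
    resultant W (derivative W) W.natDegree (W.natDegree - 1) = resultant W (derivative W) := by
  obtain ⟨k, hk⟩ := Nat.exists_eq_add_of_le (natDegree_derivative_le W)
  rw [hk, resultant_add_right_deg _ _ _ _ k le_rfl, coeff_natDegree, hW.leadingCoeff, one_pow,
    one_mul]

theorem discr_monic {W : A[X]} (hW : W.Monic) :
    W.discr = (-1) ^ (W.natDegree * (W.natDegree - 1) / 2) * resultant W (derivative W) := by
  nontriviality A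
  rw [← resultant_monic_deriv hW]
  by_cases h0 : W.natDegree = 0
  · obtain rfl := hW.natDegree_eq_zero.mp h0
    have h1 : (1 : A[X]).discr = 1 := by
      rw [← C_1, discr_C]
    rw [h1]
    simp
  · have hd : 0 < W.degree := natDegree_pos_iff_degree_pos.mp (Nat.pos_of_ne_zero h0)
    rw [resultant_deriv hd, hW.leadingCoeff, mul_one, ← mul_assoc, ← pow_add, ← two_mul, pow_mul]
    simp

theorem discr_map {B : Type*} [CommRing B] [Nontrivial B] (φ : A →+* B) {W : A[X]} (hW : W.Monic) :
    (W.map φ).discr = φ W.discr := by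
  rw [discr_monic hW, discr_monic (hW.map φ), ← resultant_monic_deriv hW,
    ← resultant_monic_deriv (hW.map φ), derivative_map, hW.natDegree_map, resultant_map_map,
    map_mul, map_pow, map_neg, map_one]

theorem taylor_monic' {W : A[X]} (hW : W.Monic) (c : A) : (W.taylor c).Monic := by
  nontriviality A
  rw [taylor_apply]
  exact hW.comp (monic_X_add_C c) (by rw [natDegree_X_add_C]; exact one_ne_zero)

theorem derivative_taylor' (W : A[X]) (c : A) :
    derivative (W.taylor c) = (derivative W).taylor c := by
  rw [taylor_apply, taylor_apply, derivative_comp]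
  simp

/-- translation invariance -/
theorem discr_taylor {W : A[X]} (hW : W.Monic) (c : A) : (W.taylor c).discr = W.discr := by
  rw [discr_monic hW, discr_monic (taylor_monic' hW c), derivative_taylor', resultant_taylor,
    natDegree_taylor]

theorem sub_dvd_discr [IsDomain A] {W : A[X]} (hW : W.Monic) {a b : A} (hab : a ≠ b)
    (ha : W.eval a = 0) (hb : W.eval b = 0) : (a - b) ∣ W.discr := by
  have hn : W.natDegree ≠ 0 := by
    intro h
    rw [hW.natDegree_eq_zero.mp h] at ha
    simp at ha
  obtain ⟨p, q, -, -, hpq⟩ := exists_mul_add_mul_eq_C_resultant W (derivative W) le_rfl le_rfl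
    (Or.inl hn)
  obtain ⟨V, hV⟩ := dvd_iff_isRoot.mpr (show IsRoot W a from ha)
  have hVb : V.eval b = 0 := by
    have h1 : (b - a) * V.eval b = 0 := by
      have := hb
      rw [hV] at this
      simpa using this
    exact (mul_eq_zero.mp h1).resolve_left (sub_ne_zero.mpr hab.symm)
  obtain ⟨Q, hQ⟩ := dvd_iff_isRoot.mpr (show IsRoot V b from hVb)
  have h2 : (derivative W).eval a = (a - b) * Q.eval a := by
    have h3 : (derivative W).eval a = V.eval a := by
      rw [hV]; simp
    rw [h3, hQ]
    simp
  have h4 := congrArg (eval a) hpq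
  simp only [eval_add, eval_mul, eval_C, ha, zero_mul, zero_add, h2] at h4
  rw [discr_monic hW, ← h4]
  exact ⟨(-1) ^ (W.natDegree * (W.natDegree - 1) / 2) * (Q.eval a * q.eval a), by ring⟩

theorem discr_mem_of_coeff_mem {W : A[X]} (hW : W.Monic) (I : Ideal A) (hI : I ≠ ⊤)
    (h2 : 2 ≤ W.natDegree) (h : ∀ i < W.natDegree, W.coeff i ∈ I) : W.discr ∈ I := by
  have : Nontrivial (A ⧸ I) := Ideal.Quotient.nontrivial_iff.mpr hI
  have h1 : W.map (Ideal.Quotient.mk I) = X ^ W.natDegree := by
    ext i
    rw [coeff_map, coeff_X_pow]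
    split_ifs with hi
    · rw [hi, coeff_natDegree, hW.leadingCoeff, map_one]
    · rcases lt_or_gt_of_ne hi with h3 | h3
      · exact Ideal.Quotient.eq_zero_iff_mem.mpr (h i h3)
      · rw [coeff_eq_zero_of_natDegree_lt h3, map_zero]
  have hm := discr_monic (hW.map (Ideal.Quotient.mk I))
  rw [← Ideal.Quotient.eq_zero_iff_mem, ← discr_map _ hW, hm, h1]
  have h3 : resultant ((X : (A ⧸ I)[X]) ^ W.natDegree) (derivative (X ^ W.natDegree)) = 0 := by
    rw [natDegree_X_pow, resultant_X_pow_left _ _ _ le_rfl, coeff_derivative, coeff_X_pow,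
      if_neg (by omega), zero_mul, zero_pow (by omega)]
  rw [h3, mul_zero]

theorem discr_ne_zero_iff_isCoprime [IsDomain A] (K : Type*) [Field K] [Algebra A K]
    [IsFractionRing A K] {W : A[X]} (hW : W.Monic) :
    W.discr ≠ 0 ↔ IsCoprime (W.map (algebraMap A K)) (derivative (W.map (algebraMap A K))) := by
  have h1 : W.discr = 0 ↔ (W.map (algebraMap A K)).discr = 0 := by
    rw [discr_map _ hW]
    exact ((injective_iff_map_eq_zero' _).mp (IsFractionRing.injective A K) _).symm
  have hne : W.map (algebraMap A K) ≠ 0 := (hW.map _).ne_zero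
  rw [Ne, h1, discr_monic (hW.map _), mul_eq_zero, resultant_eq_zero_iff]
  have h2 : ((-1 : K) ^ ((W.map (algebraMap A K)).natDegree *
      ((W.map (algebraMap A K)).natDegree - 1) / 2)) ≠ 0 :=
    pow_ne_zero _ (neg_ne_zero.mpr one_ne_zero)
  simp [h2, hne]

theorem discr_ne_zero_of_squarefree [IsDomain A] [IsIntegrallyClosed A] [CharZero A] {W : A[X]}
    (hW : W.Monic) (hsq : Squarefree W) : W.discr ≠ 0 := by
  set K := FractionRing A with hK
  have : CharZero K := charZero_of_injective_algebraMap (IsFractionRing.injective A K)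
  rw [discr_ne_zero_iff_isCoprime K hW]
  change (W.map (algebraMap A K)).Separable
  rw [PerfectField.separable_iff_squarefree]
  intro P hP
  have hP1 : P ∣ W.map (algebraMap A K) := (Dvd.intro _ rfl).trans hP
  have hP0 : P ≠ 0 := ne_zero_of_dvd_ne_zero (hW.map _).ne_zero hP1
  obtain ⟨g, hg⟩ := IsIntegrallyClosed.eq_map_mul_C_of_dvd K hW hP1
  have hlc : P.leadingCoeff ≠ 0 := leadingCoeff_ne_zero.mpr hP0
  have hgm' : (g.map (algebraMap A K)).Monic := by
    have h1 := congrArg leadingCoeff hg
    rw [leadingCoeff_mul, leadingCoeff_C] at h1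
    exact mul_right_cancel₀ hlc (by rw [h1, one_mul])
  have hgm : g.Monic := monic_of_injective (IsFractionRing.injective A K) hgm'
  have hgg : (g * g).map (algebraMap A K) ∣ W.map (algebraMap A K) := by
    rw [Polynomial.map_mul]
    refine dvd_trans ?_ hP
    conv_rhs => rw [← hg]
    exact mul_dvd_mul (Dvd.intro _ rfl) (Dvd.intro _ rfl)
  have hgg' : g * g ∣ W :=
    (map_dvd_map (algebraMap A K) (IsFractionRing.injective A K) (hgm.mul hgm)).mp hgg
  have hu : IsUnit g := hsq g hgg'
  rw [← hg]
  exact (hu.map (mapRingHom (algebraMap A K))).mul (isUnit_C.mpr hlc.isUnit)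

theorem squarefree_of_discr_ne_zero [IsDomain A] {W : A[X]}
    (hW : W.Monic) (h : W.discr ≠ 0) : Squarefree W := by
  intro P hP
  obtain ⟨Q, hQ⟩ := hP
  have hu : IsUnit P.leadingCoeff := by
    have h1 := hW.leadingCoeff
    rw [hQ, leadingCoeff_mul, leadingCoeff_mul, mul_assoc] at h1
    exact IsUnit.of_mul_eq_one _ h1
  set K := FractionRing A with hK
  have hcop := (discr_ne_zero_iff_isCoprime K hW).mp h
  have hd1 : P.map (algebraMap A K) ∣ W.map (algebraMap A K) := by
    rw [hQ, mul_assoc, Polynomial.map_mul]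
    exact Dvd.intro _ rfl
  have hd2 : P.map (algebraMap A K) ∣ derivative (W.map (algebraMap A K)) := by
    rw [hQ, Polynomial.map_mul, Polynomial.map_mul, derivative_mul, derivative_mul]
    refine dvd_add (Dvd.dvd.mul_right (dvd_add ?_ ?_) _) ?_
    · exact Dvd.intro_left _ rfl
    · exact Dvd.intro _ rfl
    · rw [mul_assoc]
      exact Dvd.intro _ rfl
  have hPu : IsUnit (P.map (algebraMap A K)) := hcop.isUnit_of_dvd' hd1 hd2
  have hdeg : P.natDegree = 0 := by
    rw [← natDegree_map_eq_of_injective (IsFractionRing.injective A K) P]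
    exact natDegree_eq_zero_of_isUnit hPu
  rw [eq_C_of_natDegree_eq_zero hdeg, isUnit_C]
  have : P.leadingCoeff = P.coeff 0 := by rw [leadingCoeff, hdeg]
  rwa [← this]

theorem taylor_sq_zero (W : A[X]) {r : A} (hr : r ^ 2 = 0) :
    W.taylor r = W + derivative W * C r := by
  obtain ⟨k, hk⟩ := binomExpansion (W.map C) X (C r)
  have h1 : W.taylor r = (W.map C).eval (X + C r) := by
    rw [taylor_apply, comp, eval_map]
  have h2 : (W.map (C : A →+* A[X])).eval X = W := by
    rw [eval_map, eval₂_C_X]
  have h3 : (derivative (W.map (C : A →+* A[X]))).eval X = derivative W := by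
    rw [derivative_map, eval_map, eval₂_C_X]
  rw [h1, hk, h2, h3, ← C_pow, hr, C_0, mul_zero, add_zero]

/-- if a derivation `D` of `A` acts on the coefficients of the monic polynomial `W` like `-c d/dT`
then it kills the discriminant -/
theorem deriv_discr_eq_zero {D : A → A} (hD : IsDer D) {W : A[X]} (hW : W.Monic) (c : A)
    (h : ∀ i, D (W.coeff i) + c * (derivative W).coeff i = 0) : D W.discr = 0 := by
  nontriviality A
  have hD1 : D 1 = 0 := by
    have := hD.mul 1 1
    simpa using this
  have hD0 : D 0 = 0 := by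
    have := hD.add 0 0
    simpa using this
  let φ : A →+* TrivSqZeroExt A A :=
    { toFun := fun a => TrivSqZeroExt.inl a + TrivSqZeroExt.inr (D a)
      map_one' := by ext <;> simp [hD1]
      map_zero' := by ext <;> simp [hD0]
      map_add' := fun a b => by ext <;> simp [hD.add]
      map_mul' := fun a b => by
        ext <;> simp [hD.mul, mul_comm] }
  have hφ : ∀ a, φ a = TrivSqZeroExt.inl a + TrivSqZeroExt.inr (D a) := fun a => rfl
  let ι : A →+* TrivSqZeroExt A A := TrivSqZeroExt.inlHom A A
  have hι : ∀ a, ι a = TrivSqZeroExt.inl a := fun a => rfl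
  let r : TrivSqZeroExt A A := TrivSqZeroExt.inr (-c)
  have hr : r ^ 2 = 0 := by
    rw [sq]; exact TrivSqZeroExt.inr_mul_inr _ _ _
  have key : W.map φ = (W.map ι).taylor r := by
    rw [taylor_sq_zero _ hr]
    ext i
    · rw [coeff_map, coeff_add, coeff_mul_C, derivative_map, coeff_map, coeff_map, hφ, hι, hι]
      simp [r]
    · rw [coeff_map, coeff_add, coeff_mul_C, derivative_map, coeff_map, coeff_map, hφ, hι, hι]
      have := h i
      simp [r]
      linear_combination this
  have h1 : φ W.discr = ι W.discr := by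
    rw [← discr_map φ hW, ← discr_map ι hW, key, discr_taylor (hW.map ι)]
  have h2 := congrArg TrivSqZeroExt.snd h1
  rw [hφ, hι] at h2
  simpa using h2

end

end DT
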