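import Pool.Agent.DT.Pt
import Pool.Agent.DT.Discr

/-!
# Derivations of power series rings acting on the coefficients

* `DD_ev`: both sides are additive and satisfy the Leibniz rule along `a.ev`; they agree on constants (`DD_C`) and on
  variables, hence on polynomials; modulo `𝔪^d` (`DD_mem_pow`, `Pt.ev_mem_pow`, truncation) on everything.
* `exists_isDer_fractionRing`: the ring homomorphism `MvPolynomial σ K → TrivSqZeroExt F F` (`F` the fraction field),
  `c ↦ c + δ(c) ε`, `X_i ↦ X_i + a_i ε`, maps nonzero elements to units (first component nonzero), so it extends to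
  `F` (`IsLocalization.lift`); `δ'` is its second component. (Or the direct quotient rule.)
* `exists_DD_gen`: the values on the indeterminates are
  `δ'(u^{(i)}_α) = - ∑_j (α_j + 1) c_j u^{(i)}_{α + e_j}`; then the coefficient of `x^α` in `DD δ' c (x_i^*)` is
  `δ'(u_α) + ∑_j c_j (α_j+1) u_{α+e_j} = 0` for `α ≠ 0` and `∑_j c_j u^{(i)}_{e_j} =: c'_i` for `α = 0`
  (nonzero: the `u^{(i)}_{e_j}` are linearly independent over `K`).
-/

universe u

open MvPowerSeries

namespace DT

section IsDerLemmas
variable {A : Type*} [CommRing A] {D : A → A}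

lemma IsDer.zero (hD : IsDer D) : D 0 = 0 := by
  have h := hD.add 0 0
  rw [add_zero] at h
  exact left_eq_add.mp h

lemma IsDer.one (hD : IsDer D) : D 1 = 0 := by
  have h := hD.mul 1 1
  rw [one_mul, one_mul, mul_one] at h
  exact left_eq_add.mp h

lemma IsDer.neg (hD : IsDer D) (a : A) : D (-a) = - D a := by
  have h := hD.add a (-a)
  rw [add_neg_cancel, hD.zero] at h
  exact (neg_eq_of_add_eq_zero_right h.symm).symm

lemma IsDer.sub (hD : IsDer D) (a b : A) : D (a - b) = D a - D b := by
  rw [sub_eq_add_neg, hD.add, hD.neg, sub_eq_add_neg]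

lemma IsDer.sum (hD : IsDer D) {ι : Type*} (s : Finset ι) (f : ι → A) :
    D (∑ i ∈ s, f i) = ∑ i ∈ s, D (f i) := by
  classical
  induction s using Finset.induction_on with
  | empty => simpa using hD.zero
  | insert a s ha ih => rw [Finset.sum_insert ha, hD.add, ih, Finset.sum_insert ha]

end IsDerLemmas

section
variable {n : ℕ} {K : Type u} [Field K]

/-- the derivation of `K[[X]]` which is `δ` on the coefficients and maps `X_i` to `c_i ∈ K` -/
noncomputable def DD (δ : K → K) (c : Fin n → K) (f : PS n K) : PS n K :=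
  (show PS n K from fun α => δ (coeff α f)) + ∑ i, C (c i) * pderiv K i f

lemma coeff_DD (δ : K → K) (c : Fin n → K) (f : PS n K) (α : Fin n →₀ ℕ) :
    coeff α (DD δ c f) = δ (coeff α f) +
      ∑ i, c i * (coeff (α + Finsupp.single i 1) f * ((α i + 1 : ℕ) : K)) := by
  have h : coeff α (show PS n K from fun α => δ (coeff α f)) = δ (coeff α f) := rfl
  rw [DD, map_add, h, map_sum]
  congr 1
  refine Finset.sum_congr rfl fun i _ => ?_
  rw [coeff_C_mul, coeff_pderiv]
  push_cast
  rfl

lemma isDer_coeffwise {δ : K → K} (hδ : IsDer δ) :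
    IsDer (fun f : PS n K => (show PS n K from fun α => δ (coeff α f))) := by
  constructor
  · intro f g
    ext α
    rw [map_add]
    change δ (coeff α (f + g)) = δ (coeff α f) + δ (coeff α g)
    rw [map_add, hδ.add]
  · intro f g
    ext α
    rw [map_add]
    change δ (coeff α (f * g)) = _
    classical
    rw [coeff_mul, coeff_mul, coeff_mul, hδ.sum, ← Finset.sum_add_distrib]
    exact Finset.sum_congr rfl fun p _ => hδ.mul _ _

lemma isDer_DD {δ : K → K} (hδ : IsDer δ) (c : Fin n → K) : IsDer (DD δ c) := by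
  constructor
  · intro f g
    have h := (isDer_coeffwise (n := n) hδ).add f g
    simp only at h
    rw [DD, DD, DD, h]
    have h2 : ∑ i, C (c i) * pderiv K i (f + g) =
        ∑ i, C (c i) * pderiv K i f + ∑ i, C (c i) * pderiv K i g := by
      rw [← Finset.sum_add_distrib]
      refine Finset.sum_congr rfl fun i _ => ?_
      rw [map_add, mul_add]
    rw [h2]
    abel
  · intro f g
    have h := (isDer_coeffwise (n := n) hδ).mul f g
    simp only at h
    rw [DD, DD, DD, h]
    have h2 : ∑ i, C (c i) * pderiv K i (f * g) =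
        f * ∑ i, C (c i) * pderiv K i g + (∑ i, C (c i) * pderiv K i f) * g := by
      rw [Finset.mul_sum, Finset.sum_mul, ← Finset.sum_add_distrib]
      refine Finset.sum_congr rfl fun i _ => ?_
      rw [Derivation.leibniz, smul_eq_mul, smul_eq_mul]
      ring
    rw [h2]
    ring

@[simp] lemma DD_C {δ : K → K} (hδ : IsDer δ) (c : Fin n → K) (a : K) :
    DD δ c (C a) = C (δ a) := by
  classical
  rw [DD]
  have h2 : ∑ i, C (c i) * pderiv K i (C a : PS n K) = 0 :=
    Finset.sum_eq_zero fun i _ => by rw [pderiv_C, mul_zero]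
  rw [h2, add_zero]
  ext α
  change δ (coeff α (C a : PS n K)) = _
  rw [coeff_C, coeff_C]
  split_ifs with h
  · rfl
  · exact hδ.zero

@[simp] lemma DD_X {δ : K → K} (hδ : IsDer δ) (c : Fin n → K) (i : Fin n) :
    DD δ c (X i) = C (c i) := by
  classical
  rw [DD]
  have h2 : ∑ j, C (c j) * pderiv K j (X i : PS n K) = C (c i) := by
    rw [Finset.sum_eq_single i]
    · rw [pderiv_X_self, mul_one]
    · intro j _ hj
      rw [pderiv_X_of_ne (Ne.symm hj), mul_zero]
    · intro h
      exact absurd (Finset.mem_univ i) h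
  rw [h2]
  have h1 : (show PS n K from fun α => δ (coeff α (X i : PS n K))) = 0 := by
    ext α
    change δ (coeff α (X i : PS n K)) = _
    rw [coeff_X, map_zero]
    split_ifs with h
    · exact hδ.one
    · exact hδ.zero
  rw [h1, zero_add]

/-- the order drops by at most one -/
lemma DD_mem_pow {δ : K → K} (hδ : IsDer δ) (c : Fin n → K) (f : PS n K) (d : ℕ)
    (hf : f ∈ IsLocalRing.maximalIdeal (PS n K) ^ (d + 1)) :
    DD δ c f ∈ IsLocalRing.maximalIdeal (PS n K) ^ d := by
  rw [mem_maximalIdeal_pow_iff] at hf ⊢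
  refine nat_le_order fun α hα => ?_
  rw [coeff_DD]
  have h0 : ∀ β : Fin n →₀ ℕ, β.degree ≤ d → coeff β f = 0 := by
    intro β hβ
    refine coeff_of_lt_order (lt_of_lt_of_le ?_ hf)
    exact_mod_cast Nat.lt_succ_of_le hβ
  rw [h0 α hα.le, hδ.zero, zero_add]
  refine Finset.sum_eq_zero fun i _ => ?_
  rw [h0, zero_mul, mul_zero]
  rw [map_add, Finsupp.degree_single]
  omega

/-- two derivations which agree, through a point `a`, on the constants and on the variables,
agree -/
theorem DD_ev {m : ℕ} (a : Pt m n K) {δ : K → K} (hδ : IsDer δ) (c : Fin n → K) (c' : Fin m → K)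
    (h : ∀ i, DD δ c (a.val i) = C (c' i)) (f : PS m K) :
    DD δ c (a.ev f) = a.ev (DD δ c' f) := by
  have hD := isDer_DD (n := n) hδ c
  have hD' := isDer_DD (n := m) hδ c'
  set M := IsLocalRing.maximalIdeal (PS n K) with hM
  have key : ∀ d : ℕ, ∀ f : PS m K, DD δ c (a.ev f) - a.ev (DD δ c' f) ∈ M ^ d := by
    intro d
    induction d with
    | zero => intro f; rw [pow_zero, Ideal.one_eq_top]; exact Submodule.mem_top
    | succ d ih =>
      intro f
      have hf : f - C (constantCoeff f) ∈ IsLocalRing.maximalIdeal (PS m K) := by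
        rw [mem_maximalIdeal_iff, map_sub, constantCoeff_C, sub_self]
      rw [maximalIdeal_eq_span, Ideal.mem_span_range_iff_exists_fun] at hf
      obtain ⟨g, hg⟩ := hf
      have hf2 : f = C (constantCoeff f) + ∑ i, g i * X i := by
        rw [hg]; ring
      have e1 : DD δ c (a.ev f) = C (δ (constantCoeff f)) +
          ∑ i, (a.ev (g i) * C (c' i) + DD δ c (a.ev (g i)) * a.val i) := by
        conv_lhs => rw [hf2]
        rw [map_add, hD.add, Pt.ev_C, DD_C hδ, map_sum, hD.sum]
        congr 1
        refine Finset.sum_congr rfl fun i _ => ?_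
        rw [map_mul, hD.mul, Pt.ev_X, h]
      have e2 : a.ev (DD δ c' f) = C (δ (constantCoeff f)) +
          ∑ i, (a.ev (g i) * C (c' i) + a.ev (DD δ c' (g i)) * a.val i) := by
        conv_lhs => rw [hf2]
        rw [hD'.add, DD_C hδ, map_add, Pt.ev_C, hD'.sum, map_sum]
        congr 1
        refine Finset.sum_congr rfl fun i _ => ?_
        rw [hD'.mul, map_add, map_mul, map_mul, Pt.ev_X, DD_X hδ, Pt.ev_C]
      have e3 : DD δ c (a.ev f) - a.ev (DD δ c' f) =
          ∑ i, (DD δ c (a.ev (g i)) - a.ev (DD δ c' (g i))) * a.val i := by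
        rw [e1, e2, add_sub_add_left_eq_sub, ← Finset.sum_sub_distrib]
        refine Finset.sum_congr rfl fun i _ => ?_
        ring
      rw [e3, pow_succ]
      refine Ideal.sum_mem _ fun i _ => Ideal.mul_mem_mul (ih (g i)) ?_
      rw [hM, mem_maximalIdeal_iff]
      exact a.cc i
  rw [← sub_eq_zero, ← order_eq_top_iff]
  rw [ENat.eq_top_iff_forall_ge]
  intro d
  exact (mem_maximalIdeal_pow_iff d _).mp (key d f)

/-- extension of coefficients -/
theorem DD_map {L : Type u} [Field L] (ι : K →+* L) (δ : K → K) (δ' : L → L)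
    (hδ : ∀ a, δ' (ι a) = ι (δ a)) (c : Fin n → K) (f : PS n K) :
    DD δ' (fun i => ι (c i)) (MvPowerSeries.map ι f) = MvPowerSeries.map ι (DD δ c f) := by
  ext α
  rw [coeff_DD, coeff_map, coeff_map, coeff_DD, map_add, hδ, map_sum]
  congr 1
  refine Finset.sum_congr rfl fun i _ => ?_
  rw [coeff_map, map_mul, map_mul, map_natCast]

end

/-- a derivation of a field extends to a field of rational functions, with arbitrary values on the
indeterminates -/
theorem exists_isDer_fractionRing {σ : Type} {K : Type u} [Field K] {δ : K → K} (hδ : IsDer δ)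
    (a : σ → FractionRing (MvPolynomial σ K)) :
    ∃ δ' : FractionRing (MvPolynomial σ K) → FractionRing (MvPolynomial σ K), IsDer δ' ∧
      (∀ c, δ' (algebraMap K _ c) = algebraMap K _ (δ c)) ∧
      ∀ i, δ' (algebraMap (MvPolynomial σ K) _ (MvPolynomial.X i)) = a i := by
  classical
  -- constants
  let g : K →+* TrivSqZeroExt (FractionRing (MvPolynomial σ K)) (FractionRing (MvPolynomial σ K)) :=
    { toFun := fun c => TrivSqZeroExt.inl (algebraMap K (FractionRing (MvPolynomial σ K)) c) + TrivSqZeroExt.inr (algebraMap K (FractionRing (MvPolynomial σ K)) (δ c))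
      map_one' := by
        rw [hδ.one, map_one, map_zero, TrivSqZeroExt.inr_zero, add_zero, TrivSqZeroExt.inl_one]
      map_zero' := by
        rw [hδ.zero, map_zero, TrivSqZeroExt.inr_zero, add_zero, TrivSqZeroExt.inl_zero]
      map_mul' := by
        intro x y
        ext
        · simp
        · simp only [hδ.mul, map_add, map_mul, TrivSqZeroExt.snd_add, TrivSqZeroExt.snd_inl,
            TrivSqZeroExt.snd_inr, TrivSqZeroExt.snd_mul, TrivSqZeroExt.fst_add,
            TrivSqZeroExt.fst_inl, TrivSqZeroExt.fst_inr, smul_eq_mul, MulOpposite.smul_eq_mul_unop,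
            MulOpposite.unop_op]
          ring
      map_add' := by
        intro x y
        ext
        · simp only [map_add, TrivSqZeroExt.fst_add, TrivSqZeroExt.fst_inl, TrivSqZeroExt.fst_inr]
          ring
        · simp only [hδ.add, map_add, TrivSqZeroExt.snd_add, TrivSqZeroExt.snd_inl,
            TrivSqZeroExt.snd_inr]
          ring }
  let φ : MvPolynomial σ K →+* TrivSqZeroExt (FractionRing (MvPolynomial σ K)) (FractionRing (MvPolynomial σ K)) :=
    MvPolynomial.eval₂Hom g (fun i => TrivSqZeroExt.inl (algebraMap (MvPolynomial σ K) (FractionRing (MvPolynomial σ K)) (MvPolynomial.X i)) +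
      TrivSqZeroExt.inr (a i))
  have hfst : ((TrivSqZeroExt.fstHom (FractionRing (MvPolynomial σ K)) (FractionRing (MvPolynomial σ K)) (FractionRing (MvPolynomial σ K))).toRingHom).comp φ = algebraMap (MvPolynomial σ K) (FractionRing (MvPolynomial σ K)) := by
    apply MvPolynomial.ringHom_ext
    · intro r
      simp [φ, g, TrivSqZeroExt.fstHom]
      rfl
    · intro i
      simp [φ, TrivSqZeroExt.fstHom]
  have hfst' : ∀ p, (φ p).fst = algebraMap (MvPolynomial σ K) (FractionRing (MvPolynomial σ K)) p := fun p => by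
    have := RingHom.congr_fun hfst p
    simpa using this
  have hu : ∀ y : nonZeroDivisors (MvPolynomial σ K), IsUnit (φ y) := by
    intro y
    rw [TrivSqZeroExt.isUnit_iff_isUnit_fst, hfst']
    exact IsLocalization.map_units (FractionRing (MvPolynomial σ K)) y
  let ψ : (FractionRing (MvPolynomial σ K)) →+* TrivSqZeroExt (FractionRing (MvPolynomial σ K)) (FractionRing (MvPolynomial σ K)) := IsLocalization.lift (M := nonZeroDivisors (MvPolynomial σ K)) hu
  have hψ : ∀ p, ψ (algebraMap (MvPolynomial σ K) (FractionRing (MvPolynomial σ K)) p) = φ p := fun p =>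
    IsLocalization.lift_eq (M := nonZeroDivisors (MvPolynomial σ K)) hu p
  have hψfst : ∀ x, (ψ x).fst = x := by
    have h1 : ((TrivSqZeroExt.fstHom (FractionRing (MvPolynomial σ K)) (FractionRing (MvPolynomial σ K)) (FractionRing (MvPolynomial σ K))).toRingHom).comp ψ = RingHom.id (FractionRing (MvPolynomial σ K)) := by
      apply IsLocalization.ringHom_ext (nonZeroDivisors (MvPolynomial σ K))
      refine RingHom.ext fun p => ?_
      simp [hψ, hfst']
    intro x
    have := RingHom.congr_fun h1 x
    simpa using this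
  refine ⟨fun x => (ψ x).snd, ⟨?_, ?_⟩, ?_, ?_⟩
  · intro x y
    change (ψ (x + y)).snd = _
    rw [map_add, TrivSqZeroExt.snd_add]
  · intro x y
    change (ψ (x * y)).snd = x * (ψ y).snd + (ψ x).snd * y
    rw [map_mul, TrivSqZeroExt.snd_mul, hψfst, hψfst]
    simp
  · intro c
    change (ψ (algebraMap K (FractionRing (MvPolynomial σ K)) c)).snd = _
    rw [IsScalarTower.algebraMap_apply K (MvPolynomial σ K) (FractionRing (MvPolynomial σ K)), hψ]
    simp only [φ, g, MvPolynomial.algebraMap_eq, MvPolynomial.coe_eval₂Hom,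
      MvPolynomial.eval₂_C, RingHom.coe_mk, MonoidHom.coe_mk, OneHom.coe_mk,
      TrivSqZeroExt.snd_add, TrivSqZeroExt.snd_inl, TrivSqZeroExt.snd_inr, zero_add]
  · intro i
    change (ψ (algebraMap (MvPolynomial σ K) (FractionRing (MvPolynomial σ K)) (MvPolynomial.X i))).snd = _
    rw [hψ]
    simp [φ]

/-- extension of the derivation to `K^*` such that it descends to `A^*` -/
theorem exists_DD_gen {r : ℕ} {K : Type u} [Field K] {δ : K → K} (hδ : IsDer δ)
    (c : Fin (r + 1) → K) (hc : c ≠ 0) :
    ∃ (δ' : KS r K → KS r K) (c' : Fin r → KS r K), IsDer δ' ∧ (∀ i, c' i ≠ 0) ∧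
      (∀ a, δ' (algebraMap K (KS r K) a) = algebraMap K (KS r K) (δ a)) ∧
      (∀ i, DD δ' (fun j => algebraMap K (KS r K) (c j)) (xstar r K i) = C (c' i)) := by
  classical
  have hne : ∀ (α : Fin (r + 1) →₀ ℕ) (j : Fin (r + 1)), α + Finsupp.single j 1 ≠ 0 := by
    intro α j h
    have := DFunLike.congr_fun h j
    simp at this
  obtain ⟨δ', hδ', h1, h2⟩ := exists_isDer_fractionRing (σ := Idx r) hδ
    (fun p => - ∑ j, algebraMap K (KS r K) (c j) *
      (uu r K p.1 ⟨p.2.1 + Finsupp.single j 1, hne _ _⟩ * ((p.2.1 j + 1 : ℕ) : KS r K)))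
  refine ⟨δ', fun i => ∑ j, algebraMap K (KS r K) (c j) *
    uu r K i ⟨Finsupp.single j 1, by simp⟩, hδ', ?_, h1, ?_⟩
  · intro i h0
    obtain ⟨j0, hj0⟩ := Function.ne_iff.mp hc
    have h3 : algebraMap (MvPolynomial (Idx r) K) (KS r K)
        (∑ j, MvPolynomial.C (c j) * MvPolynomial.X (i, ⟨Finsupp.single j 1, by simp⟩)) = 0 := by
      rw [map_sum]
      rw [← h0]
      refine Finset.sum_congr rfl fun j _ => ?_
      rw [map_mul, uu, IsScalarTower.algebraMap_apply K (MvPolynomial (Idx r) K) (KS r K),
        MvPolynomial.algebraMap_eq]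
    have h4 := (IsFractionRing.injective (MvPolynomial (Idx r) K) (KS r K)) (h3.trans (map_zero _).symm)
    have h5 := congrArg (MvPolynomial.coeff (Finsupp.single ((i, ⟨Finsupp.single j0 1, by simp⟩) : Idx r) 1)) h4
    rw [MvPolynomial.coeff_sum, MvPolynomial.coeff_zero, Finset.sum_eq_single j0] at h5
    · rw [MvPolynomial.coeff_C_mul, MvPolynomial.coeff_X, if_pos rfl, mul_one] at h5
      exact hj0 h5
    · intro j _ hj
      rw [MvPolynomial.coeff_C_mul, MvPolynomial.coeff_X]
      rw [if_neg, mul_zero]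
      intro h6
      have h7 := (Finsupp.single_left_inj one_ne_zero).mp h6
      have h8 : (Finsupp.single j 1 : Fin (r + 1) →₀ ℕ) = Finsupp.single j0 1 := by
        have := congrArg (fun p : Idx r => (p.2 : Fin (r + 1) →₀ ℕ)) h7
        simpa using this
      exact hj ((Finsupp.single_left_inj one_ne_zero).mp h8)
    · intro h
      exact absurd (Finset.mem_univ _) h
  · intro i
    ext α
    rw [coeff_DD, coeff_C]
    by_cases hα : α = 0
    · subst hα
      rw [if_pos rfl, coeff_xstar, dif_pos rfl, hδ'.zero, zero_add]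
      refine Finset.sum_congr rfl fun j _ => ?_
      rw [coeff_xstar, dif_neg (hne _ _)]
      simp
    · rw [if_neg hα, coeff_xstar, dif_neg hα, uu]
      have := h2 (i, ⟨α, hα⟩)
      rw [this, neg_add_eq_zero]
      refine Finset.sum_congr rfl fun j _ => ?_
      rw [coeff_xstar, dif_neg (hne _ _)]

end DT
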