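import Pool.Agent.DT.Example

/-!
# Squarefreeness of the equations

The eight factors have order one, so they are prime (`prime_of_lin_ne_zero`), and they are pairwise not associated;
a product of pairwise non associated primes is squarefree.  Non association: different linear parts up to scalars
(`X_2`, `X_3`, `X_4`, `X_5`), and `X_2 - ρ X_1 X_5^3`, `X_2 - ρ' X_1 X_5^3`: if associated the first divides
`(ρ' - ρ) X_1 X_5^3`, hence (prime) one of `ρ' - ρ`, `X_1`, `X_5`; linear parts exclude `X_1`, `X_5`; `ρ' - ρ` is a unit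
if its constant coefficient is nonzero (`τ ≠ 0, 1`; in `eqn7` the difference `X_0 - 0` is prime with another linear
part and `X_0 - 1` is a unit).
-/

universe u

open MvPowerSeries

namespace DT

section
variable {K : Type u} [Field K]

lemma squarefree_prime_mul {R : Type*} [CommRing R] [IsDomain R] {p b : R} (hp : Prime p)
    (hb : Squarefree b) (hpb : ¬ p ∣ b) : Squarefree (p * b) := by
  intro x hx
  obtain ⟨y, hy⟩ := hx
  by_cases hpx : p ∣ x
  · exfalso
    obtain ⟨z, rfl⟩ := hpx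
    apply hpb
    refine ⟨z * z * y, ?_⟩
    apply mul_left_cancel₀ hp.ne_zero
    rw [hy]; ring
  · have h1 : p ∣ x * x * y := ⟨b, hy.symm⟩
    rcases hp.dvd_or_dvd h1 with h2 | h2
    · rcases hp.dvd_or_dvd h2 with h3 | h3 <;> exact absurd h3 hpx
    · obtain ⟨z, rfl⟩ := h2
      apply hb x
      refine ⟨z, ?_⟩
      apply mul_left_cancel₀ hp.ne_zero
      rw [hy]; ring

lemma squarefree_finset_prod {R : Type*} [CommRing R] [IsDomain R] {ι : Type*} (s : Finset ι)
    (f : ι → R) (hf : ∀ i ∈ s, Prime (f i)) (hd : ∀ i ∈ s, ∀ j ∈ s, i ≠ j → ¬ f i ∣ f j) :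
    Squarefree (∏ i ∈ s, f i) := by
  classical
  induction s using Finset.induction_on with
  | empty => rw [Finset.prod_empty]; exact squarefree_one
  | @insert a s ha ih =>
    rw [Finset.prod_insert ha]
    refine squarefree_prime_mul (hf a (Finset.mem_insert_self a s))
      (ih (fun i hi => hf i (Finset.mem_insert_of_mem hi))
        (fun i hi j hj => hd i (Finset.mem_insert_of_mem hi) j (Finset.mem_insert_of_mem hj))) ?_
    intro h
    obtain ⟨j, hj, hdj⟩ := (Prime.dvd_finsetProd_iff (hf a (Finset.mem_insert_self a s)) f).1 h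
    exact hd a (Finset.mem_insert_self a s) j (Finset.mem_insert_of_mem hj)
      (fun h => ha (h ▸ hj)) hdj

lemma not_dvd_of_lin {n : ℕ} {p q : PS n K} (hp : constantCoeff p = 0) (i : Fin n)
    (hpi : lin p i = 0) (hqi : lin q i ≠ 0) : ¬ p ∣ q := by
  rintro ⟨c, rfl⟩
  apply hqi
  rw [lin_mul, hp]
  simp [hpi]

/-- the factor `X_a - ρ X_x X_d^3` -/
noncomputable def fac {n : ℕ} (a d x : Fin n) (ρ : PS n K) : PS n K :=
  X a - ρ * (X x * X d ^ 3)

lemma fac_cc {n : ℕ} (a d x : Fin n) (ρ : PS n K) : constantCoeff (fac a d x ρ) = 0 := by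
  simp [fac]

lemma lin_fac {n : ℕ} (a d x : Fin n) (ρ : PS n K) : lin (fac a d x ρ) = lin (X a : PS n K) := by
  have h : constantCoeff (X x * X d ^ 3 : PS n K) = 0 := by simp
  have h2 : lin (X x * X d ^ 3 : PS n K) = 0 := by
    rw [lin_mul]; simp [pow_succ, lin_mul]
  rw [fac, lin_sub, lin_mul, h, h2]
  simp

lemma lin_X_ne {n : ℕ} (a : Fin n) : lin (X a : PS n K) ≠ 0 := by
  intro h
  have := congrFun h a
  simp at this

lemma fac_prime {n : ℕ} (a d x : Fin n) (ρ : PS n K) : Prime (fac a d x ρ) :=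
  prime_of_lin_ne_zero _ (fac_cc a d x ρ) (by rw [lin_fac]; exact lin_X_ne a)

lemma X_prime' {n : ℕ} (a : Fin n) : Prime (X a : PS n K) :=
  prime_of_lin_ne_zero _ (by simp) (lin_X_ne a)

lemma fac_not_dvd {n : ℕ} {a d x : Fin n} (had : a ≠ d) (hax : a ≠ x) {ρ ρ' : PS n K}
    (h : constantCoeff (ρ - ρ') ≠ 0 ∨ ∃ e, e ≠ a ∧ lin (ρ - ρ') e ≠ 0) :
    ¬ fac a d x ρ ∣ fac a d x ρ' := by
  intro hdv
  have hp := fac_prime (K := K) a d x ρ
  have h1 : fac a d x ρ ∣ (ρ - ρ') * (X x * X d ^ 3) := by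
    have : (ρ - ρ') * (X x * X d ^ 3) = fac a d x ρ' - fac a d x ρ := by
      simp only [fac]; ring
    rw [this]
    exact dvd_sub hdv dvd_rfl
  have hX : ∀ e : Fin n, a ≠ e → ¬ fac a d x ρ ∣ (X e : PS n K) := by
    intro e he
    apply not_dvd_of_lin (fac_cc a d x ρ) e
    · rw [lin_fac, lin_X, if_neg he]
    · rw [lin_X, if_pos rfl]; exact one_ne_zero
  rcases hp.dvd_or_dvd h1 with h2 | h2
  · rcases h with h | ⟨e, he, h⟩
    · have hu : IsUnit (ρ - ρ') := by
        rw [MvPowerSeries.isUnit_iff_constantCoeff]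
        exact isUnit_iff_ne_zero.2 h
      exact hp.not_isUnit (isUnit_of_dvd_unit h2 hu)
    · exact not_dvd_of_lin (fac_cc a d x ρ) e (by rw [lin_fac, lin_X, if_neg (Ne.symm he)]) h h2
  · rcases hp.dvd_or_dvd h2 with h3 | h3
    · exact hX x hax h3
    · exact hX d had (hp.dvd_of_dvd_pow h3)

theorem squarefree_gen {n : ℕ} (a b c d x : Fin n) (hab : a ≠ b) (hac : a ≠ c) (had : a ≠ d)
    (hax : a ≠ x) (hbc : b ≠ c) (hbd : b ≠ d) (hcd : c ≠ d) (hcx : c ≠ x) (ρ : Fin 3 → PS n K)
    (h : ∀ i j, i ≠ j → constantCoeff (ρ i - ρ j) ≠ 0 ∨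
      ∃ e, e ≠ a ∧ e ≠ c ∧ lin (ρ i - ρ j) e ≠ 0) :
    Squarefree (X b * X d * ∏ j, (fac a d x (ρ j) * fac c b x (ρ j)) : PS n K) := by
  classical
  haveI : IsDomain (PS n K) := NoZeroDivisors.to_isDomain _
  set f : (Fin 2 ⊕ (Fin 3 ⊕ Fin 3)) → PS n K :=
    Sum.elim ![X b, X d] (Sum.elim (fun j => fac a d x (ρ j)) (fun j => fac c b x (ρ j))) with hf
  have hprod : (X b * X d * ∏ j, (fac a d x (ρ j) * fac c b x (ρ j)) : PS n K) = ∏ i, f i := by
    rw [Fintype.prod_sum_type, Fintype.prod_sum_type, Finset.prod_mul_distrib]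
    simp [hf, Fin.prod_univ_two]
  rw [hprod]
  set idx : (Fin 2 ⊕ (Fin 3 ⊕ Fin 3)) → Fin n :=
    Sum.elim ![b, d] (Sum.elim (fun _ => a) (fun _ => c)) with hidx
  have hcc : ∀ i, constantCoeff (f i) = 0 := by
    rintro (i | i | i)
    · fin_cases i <;> simp [hf]
    · simp [hf, fac_cc]
    · simp [hf, fac_cc]
  have hlin : ∀ i, lin (f i) = lin (X (idx i) : PS n K) := by
    rintro (i | i | i)
    · fin_cases i <;> simp [hf, hidx]
    · simp [hf, hidx, lin_fac]
    · simp [hf, hidx, lin_fac]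
  have hneq : ∀ i j, idx i ≠ idx j → ¬ f i ∣ f j := by
    intro i j hij
    apply not_dvd_of_lin (hcc i) (idx j)
    · rw [hlin, lin_X, if_neg hij]
    · rw [hlin, lin_X, if_pos rfl]; exact one_ne_zero
  apply squarefree_finset_prod
  · intro i _
    exact prime_of_lin_ne_zero _ (hcc i) (by rw [hlin]; exact lin_X_ne _)
  · intro i _ j _ hij
    rcases i with i | i | i <;> rcases j with j | j | j
    · have hij' : i ≠ j := fun h => hij (by rw [h])
      apply hneq
      fin_cases i <;> fin_cases j <;> simp [hidx, hbd, hbd.symm] at hij' ⊢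
    · apply hneq; fin_cases i <;> simp [hidx, hab.symm, had.symm]
    · apply hneq; fin_cases i <;> simp [hidx, hbc, hcd.symm]
    · apply hneq; fin_cases j <;> simp [hidx, hab, had]
    · have hij' : i ≠ j := fun h => hij (by rw [h])
      refine fac_not_dvd had hax ?_
      rcases h i j hij' with h1 | ⟨e, h1, _, h2⟩
      · exact Or.inl h1
      · exact Or.inr ⟨e, h1, h2⟩
    · apply hneq; simp [hidx, hac]
    · apply hneq; fin_cases j <;> simp [hidx, hbc.symm, hcd]
    · apply hneq; simp [hidx, hac.symm]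
    · have hij' : i ≠ j := fun h => hij (by rw [h])
      refine fac_not_dvd hbc.symm hcx ?_
      rcases h i j hij' with h1 | ⟨e, _, h1, h2⟩
      · exact Or.inl h1
      · exact Or.inr ⟨e, h1, h2⟩

theorem squarefree_eqn (τ t : K) (h0 : τ ≠ 0) (h1 : τ ≠ 1) : Squarefree (eqn τ t) := by
  have h := squarefree_gen (K := K) (n := 6) 2 3 4 5 1 (by decide) (by decide) (by decide)
    (by decide) (by decide) (by decide) (by decide) (by decide) (rho τ t) (by
      intro i j hij
      left
      fin_cases i <;> fin_cases j <;>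
        first
          | exact absurd rfl hij
          | (simp [rho, h0, h1, sub_eq_zero, Ne.symm h1]))
  exact h

/-- `ρ = 0, 1, τ` with `τ = X_0` (seven variables `τ = X_0`, `s = X_1`, old `X_i = X_{i+1}`) -/
noncomputable def rho7 (K : Type u) [Field K] : Fin 3 → PS 7 K := ![0, 1, X 0]

/-- the equation of the counterexample in `k[[τ, s, X_1, …, X_5]]` -/
noncomputable def eqn7 (K : Type u) [Field K] : PS 7 K :=
  X 4 * X 6 * ∏ j, ((X 3 - rho7 K j * (X 2 * X 6 ^ 3)) * (X 5 - rho7 K j * (X 2 * X 4 ^ 3)))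

theorem squarefree_eqn7 : Squarefree (eqn7 K) := by
  have h := squarefree_gen (K := K) (n := 7) 3 4 5 6 2 (by decide) (by decide) (by decide)
    (by decide) (by decide) (by decide) (by decide) (by decide) (rho7 K) (by
      intro i j hij
      fin_cases i <;> fin_cases j <;>
        first
          | exact absurd rfl hij
          | (left; simp [rho7]; done)
          | (right; exact ⟨0, by decide, by decide, by simp [rho7, lin_neg]⟩))
  exact h

lemma eqn7_ne_zero : eqn7 K ≠ 0 := squarefree_eqn7.ne_zero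

lemma eqn7_cc : constantCoeff (eqn7 K) = 0 := by
  simp [eqn7]

lemma lin_eqn7 : lin (eqn7 K) = 0 := by
  rw [eqn7, lin_mul]
  have h1 : constantCoeff (X 4 * X 6 : PS 7 K) = 0 := by simp
  have h2 : lin (X 4 * X 6 : PS 7 K) = 0 := by rw [lin_mul]; simp
  rw [h1, h2]; simp

end

end DT
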