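import Pool.Agent.DT.GenMinor

/-!
# Generic nonvanishing on two consecutive levels

* `gen_rel`: over the top field, by `genRows_indep` for `(4, K, ℓ)` (mapped by the injective field homomorphism; linear
  independence is preserved: e.g. the determinant of `genRows 4 K ℓ` is mapped to a nonzero element) the rows
  `M_0..M_3, ℓ` are independent, so comparing coefficients `d = 0` and `e_3 = ∑_i b_i N_i` where `e_3 = (0,0,0,1)` and
  `N_i = lin (xstar 3 (KS 4 K) i)`: this contradicts `genRows_indep` for `(3, KS 4 K, e_3)`.
* `exists_kernel_vector_coord`: `exists_kernel_vector` for the product of all variables (infinite field; if `K` is finite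
  use directly the signed minors, each of which is a nonzero polynomial), and the space of vectors killed by the `r`
  independent rows is one-dimensional.
-/

universe u

open MvPowerSeries

namespace DT

lemma genRows_castSucc (r : ℕ) (K : Type u) [Field K] (ℓ : Fin (r + 1) → K) (i : Fin r)
    (j : Fin (r + 1)) : genRows r K ℓ i.castSucc j = lin (xstar r K i) j := by
  simp [genRows]

lemma genRows_last (r : ℕ) (K : Type u) [Field K] (ℓ : Fin (r + 1) → K)
    (j : Fin (r + 1)) : genRows r K ℓ (Fin.last r) j = algebraMap K (KS r K) (ℓ j) := by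
  simp [genRows]

/-- independence of the generic rows and of `ℓ` after extension of the field -/
lemma genRows_indep_map (r : ℕ) (K : Type u) [Field K] (ℓ : Fin (r + 1) → K) (hℓ : ℓ ≠ 0)
    {L : Type*} [Field L] (ι : KS r K →+* L) (c : Fin r → L) (d : L)
    (h : ∀ j, ∑ i, c i * ι (lin (xstar r K i) j) + d * ι (algebraMap K (KS r K) (ℓ j)) = 0) :
    c = 0 ∧ d = 0 := by
  have hdet : ((genRows r K ℓ).map ι).det ≠ 0 := by
    have h1 : ((genRows r K ℓ).map ι).det = ι (genRows r K ℓ).det := by
      rw [RingHom.map_det, RingHom.mapMatrix_apply]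
    rw [h1]
    intro h2
    exact det_genRows_ne_zero r K ℓ hℓ (ι.injective (by rw [h2, map_zero]))
  have hv : Matrix.vecMul (Fin.snoc (α := fun _ => L) c d) ((genRows r K ℓ).map ι) = 0 := by
    funext j
    rw [Matrix.vecMul, dotProduct, Fin.sum_univ_castSucc]
    simp only [Fin.snoc_castSucc, Fin.snoc_last, Matrix.map_apply, genRows_castSucc,
      genRows_last, Pi.zero_apply]
    exact h j
  have h0 := Matrix.eq_zero_of_vecMul_eq_zero hdet hv
  constructor
  · funext i
    have := congrFun h0 i.castSucc
    simpa using this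
  · have := congrFun h0 (Fin.last r)
    simpa using this

/-- `M` = linear parts of the generic `w_0..w_3` over `K` (level 5 → 4), `N` = linear parts of the
generic `y_0..y_2` over `K^*` (level 4 → 3): the last row of `M` is not a combination of the rows of
`N M` and of a nonzero row `ℓ` over `K` -/
theorem gen_rel (K : Type u) [Field K] (ℓ : Fin 5 → K) (hℓ : ℓ ≠ 0)
    (b : Fin 3 → KS 3 (KS 4 K)) (d : KS 3 (KS 4 K))
    (h : ∀ j, algebraMap (KS 4 K) (KS 3 (KS 4 K)) (lin (xstar 4 K 3) j) =
      ∑ i, b i * ∑ k, lin (xstar 3 (KS 4 K) i) k *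
        algebraMap (KS 4 K) (KS 3 (KS 4 K)) (lin (xstar 4 K k) j) +
      d * algebraMap (KS 4 K) (KS 3 (KS 4 K)) (algebraMap K (KS 4 K) (ℓ j))) : False := by
  have h1 := genRows_indep_map 4 K ℓ hℓ (algebraMap (KS 4 K) (KS 3 (KS 4 K)))
    (fun k => ∑ i, b i * lin (xstar 3 (KS 4 K) i) k - if k = 3 then 1 else 0) d (by
      intro j
      have hj := h j
      have e1 : ∑ k : Fin 4, (∑ i, b i * lin (xstar 3 (KS 4 K) i) k - if k = 3 then 1 else 0) *
          algebraMap (KS 4 K) (KS 3 (KS 4 K)) (lin (xstar 4 K k) j) =
          ∑ i, b i * ∑ k, lin (xstar 3 (KS 4 K) i) k *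
            algebraMap (KS 4 K) (KS 3 (KS 4 K)) (lin (xstar 4 K k) j) -
          algebraMap (KS 4 K) (KS 3 (KS 4 K)) (lin (xstar 4 K 3) j) := by
        simp only [sub_mul, Finset.sum_sub_distrib, ite_mul, one_mul, zero_mul,
          Finset.sum_ite_eq', Finset.mem_univ, if_true, Finset.sum_mul, Finset.mul_sum]
        congr 1
        rw [Finset.sum_comm]
        refine Finset.sum_congr rfl fun i _ => Finset.sum_congr rfl fun k _ => ?_
        ring
      rw [e1, hj]
      ring)
  have h2 := genRows_indep 3 (KS 4 K) (Pi.single 3 1) (by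
    intro h0
    have := congrFun h0 3
    simp at this) b (-1) (by
      intro k
      have hk := congrFun h1.1 k
      simp only [Pi.zero_apply] at hk
      rw [sub_eq_zero] at hk
      rw [hk, Pi.single_apply]
      split_ifs <;> simp)
  have h3 := h2.2
  simp at h3

/-- a vector killed by the generic rows, all of whose coordinates are nonzero -/
theorem exists_kernel_vector_coord (r : ℕ) (K : Type u) [Field K] :
    ∃ v : Fin (r + 1) → KS r K, (∀ i : Fin r, ∑ j, lin (xstar r K i) j * v j = 0) ∧
      (∀ j, v j ≠ 0) ∧
      ∀ w : Fin (r + 1) → KS r K, (∀ i : Fin r, ∑ j, lin (xstar r K i) j * w j = 0) →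
        ∃ c : KS r K, w = c • v := by
  have hupd : ∀ j : Fin (r + 1), (genRows r K 0).updateRow (Fin.last r) (Pi.single j 1) =
      genRows r K (Pi.single j 1) := by
    intro j
    ext a b
    refine Fin.lastCases ?_ (fun i => ?_) a
    · rw [Matrix.updateRow_self, genRows_last]
      by_cases hb : b = j
      · subst hb; simp
      · simp [hb]
    · rw [Matrix.updateRow_ne (Fin.castSucc_lt_last i).ne, genRows_castSucc, genRows_castSucc]
  have hv0 : ∀ j, (genRows r K (Pi.single j (1 : K))).det ≠ 0 := fun j =>
    det_genRows_ne_zero r K _ (by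
      intro h0
      have := congrFun h0 j
      simp at this)
  have hker : ∀ i : Fin r, ∑ j, lin (xstar r K i) j *
      (genRows r K (Pi.single j (1 : K))).det = 0 := by
    intro i
    have h1 := congrFun (congrFun (Matrix.mul_adjugate (genRows r K 0)) i.castSucc) (Fin.last r)
    rw [Matrix.mul_apply] at h1
    have h2 : ((genRows r K 0).det • (1 : Matrix (Fin (r + 1)) (Fin (r + 1)) (KS r K)))
        i.castSucc (Fin.last r) = 0 := by
      rw [Matrix.smul_apply, Matrix.one_apply_ne (Fin.castSucc_lt_last i).ne, smul_zero]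
    rw [h2] at h1
    rw [← h1]
    refine Finset.sum_congr rfl fun j _ => ?_
    rw [genRows_castSucc, Matrix.adjugate_apply, hupd]
  refine ⟨fun j => (genRows r K (Pi.single j (1 : K))).det, hker, hv0, ?_⟩
  intro w hw
  set v : Fin (r + 1) → KS r K := fun j => (genRows r K (Pi.single j (1 : K))).det with hvdef
  refine ⟨w 0 / v 0, ?_⟩
  have h3 : Matrix.mulVec (genRows r K (Pi.single 0 1)) (w - (w 0 / v 0) • v) = 0 := by
    funext a
    rw [Matrix.mulVec, dotProduct]
    refine Fin.lastCases ?_ (fun i => ?_) a
    · simp only [genRows_last, Pi.zero_apply, Pi.sub_apply, Pi.smul_apply, smul_eq_mul]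
      rw [Finset.sum_eq_single (0 : Fin (r + 1))]
      · have : v 0 ≠ 0 := hv0 0
        simp only [Pi.single_eq_same, map_one, one_mul]
        field_simp
        ring
      · intro b _ hb
        rw [Pi.single_eq_of_ne hb, map_zero, zero_mul]
      · intro h
        exact absurd (Finset.mem_univ _) h
    · simp only [genRows_castSucc, Pi.zero_apply, Pi.sub_apply, Pi.smul_apply, smul_eq_mul]
      have e : ∀ j, lin (xstar r K i) j * (w j - w 0 / v 0 * v j) =
          lin (xstar r K i) j * w j - w 0 / v 0 * (lin (xstar r K i) j * v j) := by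
        intro j; ring
      rw [Finset.sum_congr rfl (fun j _ => e j), Finset.sum_sub_distrib, hw i, ← Finset.mul_sum,
        hker i, mul_zero, sub_zero]
  have h4 := Matrix.eq_zero_of_mulVec_eq_zero (hv0 0) h3
  exact sub_eq_zero.mp h4

end DT
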