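import Pool.Agent.DT.Sect
import Pool.Agent.DT.GenRel

/-!
# The equation of the counterexample (over the coefficient fields of the completion)

All lemmas are short.  Hints.
* `lin (f * g) = 0` if both constant coefficients vanish (`lin_mul`); `lin_mul_of_cc`.
* `sp_val_three`: `(sect h).ev (ext h) = 0` (`sect_isSect`, `IsSect.ev_eq_zero_iff`), `ext (X 3) = X 3`.
* `linMat_sub`: `gen.linMat * sp.linMat = 1 = gen.linMat * sm.linMat` (`sect_xstar`), so the columns of the difference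
  are killed by the generic rows; `exists_kernel_vector_coord` (file GenRel). `μ ≠ 0`: otherwise row 3 and row 5 of
  `sp.linMat` vanish, and `sp.linMat` (6 × 5) has rank 5.
* `exists_eps`: `associated_root_sub` twice: `(sect (X 3)).ev (X 5) ~ root (X 3) - root (X 5)` and
  `(sect (X 5)).ev (X 3) ~ root (X 5) - root (X 3)`.
* `lin_ep_em`: by `linMat_sub`, if `a lin(e_+) + b lin(e_-) = 0`: choose a vector `z` with `sp.linMat z = ` prescribed:
  `sp.linMat` is a bijection from 5-vectors to the 6-vectors with third coordinate (index 3) zero;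
  `e_+(z) = z_2`, `e_-(z) = z_4 - v_4 μ(z)`, `μ(z) = z_5 / v_5`.
-/

universe u

open MvPowerSeries

namespace DT

section
variable {K : Type u} [Field K]

/-- `ρ = 0, 1, τ + t s X_3` (`s = X_0`) -/
noncomputable def rho (τ t : K) : Fin 3 → PS 6 K := ![0, 1, C τ + C t * (X 0 * X 3)]

/-- the components `X_2 = ρ X_1 X_5^3` -/
noncomputable def hp (τ t : K) (j : Fin 3) : PS 6 K := X 2 - rho τ t j * (X 1 * X 5 ^ 3)

/-- the components `X_4 = ρ X_1 X_3^3` -/
noncomputable def hm (τ t : K) (j : Fin 3) : PS 6 K := X 4 - rho τ t j * (X 1 * X 3 ^ 3)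

/-- the equation `X_2 X_3 X_4 X_5 (X_2 - X_1 X_5^3) (X_4 - X_1 X_3^3) (X_2 - (τ + t s X_3) X_1 X_5^3)
(X_4 - (τ + t s X_3) X_1 X_3^3)` -/
noncomputable def eqn (τ t : K) : PS 6 K := X 3 * X 5 * ∏ j, (hp τ t j * hm τ t j)

lemma Example_ext_X (i : Fin 6) : ext 5 K 6 (X i) = X i := by
  simp [ext]

lemma Example_ext_C (c : K) : ext 5 K 6 (C c) = C (algebraMap K (KS 5 K) c) := by
  simp [ext]

lemma Example_lin_zero {n : ℕ} {L : Type u} [Field L] : lin (0 : PS n L) = 0 := by
  funext j; simp [lin]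

lemma Example_lin_mul₂ {n : ℕ} {L : Type u} [Field L] (f g : PS n L)
    (hf : constantCoeff f = 0) (hg : constantCoeff g = 0) : lin (f * g) = 0 := by
  rw [lin_mul, hf, hg, zero_smul, zero_smul, add_zero]

lemma hp_cc (τ t : K) (j : Fin 3) : constantCoeff (hp τ t j) = 0 := by
  simp [hp]

lemma hm_cc (τ t : K) (j : Fin 3) : constantCoeff (hm τ t j) = 0 := by
  simp [hm]

lemma lin_hp (τ t : K) (j : Fin 3) : lin (hp τ t j) = lin (X 2 : PS 6 K) := by
  rw [hp, lin_sub, lin_mul_of_cc _ _ (by simp), Example_lin_mul₂ (X 1) (X 5 ^ 3) (by simp) (by simp),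
    smul_zero, sub_zero]

lemma lin_hm (τ t : K) (j : Fin 3) : lin (hm τ t j) = lin (X 4 : PS 6 K) := by
  rw [hm, lin_sub, lin_mul_of_cc _ _ (by simp), Example_lin_mul₂ (X 1) (X 3 ^ 3) (by simp) (by simp),
    smul_zero, sub_zero]

lemma lin_X_ne_zero {n : ℕ} (i : Fin n) : lin (X i : PS n K) ≠ 0 := by
  intro h
  have h1 := congrFun h i
  rw [lin_X, if_pos rfl] at h1
  exact one_ne_zero h1

lemma eqn_ne_zero (τ t : K) : eqn τ t ≠ 0 := by
  have h1 : ∀ i : Fin 6, (X i : PS 6 K) ≠ 0 := fun i h => lin_X_ne_zero (K := K) i (by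
    rw [h, Example_lin_zero])
  have h2 : ∀ j, hp τ t j ≠ 0 := fun j h => lin_X_ne_zero (K := K) (2 : Fin 6) (by
    rw [← lin_hp τ t j, h, Example_lin_zero])
  have h3 : ∀ j, hm τ t j ≠ 0 := fun j h => lin_X_ne_zero (K := K) (4 : Fin 6) (by
    rw [← lin_hm τ t j, h, Example_lin_zero])
  exact mul_ne_zero (mul_ne_zero (h1 3) (h1 5))
    (Finset.prod_ne_zero_iff.2 fun j _ => mul_ne_zero (h2 j) (h3 j))

lemma eqn_cc (τ t : K) : constantCoeff (eqn τ t) = 0 := by
  simp [eqn]

lemma lin_eqn (τ t : K) : lin (eqn τ t) = 0 := by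
  rw [eqn]
  refine Example_lin_mul₂ _ _ (by simp) ?_
  rw [map_prod]
  refine Finset.prod_eq_zero (Finset.mem_univ (0 : Fin 3)) ?_
  rw [map_mul, hp_cc, zero_mul]

/-! ## The first level -/

/-- the section `X_3 = 0` -/
noncomputable def sp (K : Type u) [Field K] : Pt 6 5 (KS 5 K) := sect (X 3)

/-- the section `X_5 = 0` -/
noncomputable def sm (K : Type u) [Field K] : Pt 6 5 (KS 5 K) := sect (X 5)

/-- `G_+^ρ` -/
noncomputable def Gp (τ t : K) (j : Fin 3) : PS 5 (KS 5 K) := (sp K).ev (ext 5 K 6 (hp τ t j))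

/-- `G_-^ρ` -/
noncomputable def Gm (τ t : K) (j : Fin 3) : PS 5 (KS 5 K) := (sm K).ev (ext 5 K 6 (hm τ t j))

lemma sp_val_three : (sp K).val 3 = 0 := by
  have h := (sect_isSect (h := (X 3 : PS (5 + 1) K)) (by simp) (lin_X_ne_zero 3)).ev_eq_zero_iff
    (ext 5 K (5 + 1) (X 3))
  have h1 := h.2 dvd_rfl
  have h2 : ext 5 K (5 + 1) (X 3) = X 3 := Example_ext_X 3
  rw [h2, Pt.ev_X] at h1
  exact h1

lemma sm_val_five : (sm K).val 5 = 0 := by
  have h := (sect_isSect (h := (X 5 : PS (5 + 1) K)) (by simp) (lin_X_ne_zero 5)).ev_eq_zero_iff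
    (ext 5 K (5 + 1) (X 5))
  have h1 := h.2 dvd_rfl
  have h2 : ext 5 K (5 + 1) (X 5) = X 5 := Example_ext_X 5
  rw [h2, Pt.ev_X] at h1
  exact h1

lemma Example_gen_sect (i : Fin 6) :
    (gen 5 K).linMat * (sect (K := K) (r := 5) (X i)).linMat = 1 := by
  rw [← Pt.linMat_comp]
  have h : (gen 5 K).comp (sect (K := K) (r := 5) (X i)) = Pt.id 5 (KS 5 K) := by
    ext1 k
    exact sect_xstar (h := (X i : PS (5 + 1) K)) (by simp) (lin_X_ne_zero i) k
  rw [h, Pt.linMat_id]

lemma Example_gen_sp : (gen 5 K).linMat * (sp K).linMat = 1 := Example_gen_sect 3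

lemma Example_gen_sm : (gen 5 K).linMat * (sm K).linMat = 1 := Example_gen_sect 5

/-- the rows of `sp.linMat` other than the third are independent -/
lemma Example_indep (c : Fin 6 → KS 5 K) (h3 : c 3 = 0)
    (h : ∀ j, ∑ i, c i * (sp K).linMat i j = 0) : c = 0 := by
  have hrow : ∀ j, (sp K).linMat 3 j = 0 := by
    intro j
    change lin ((sp K).val 3) j = 0
    rw [sp_val_three, Example_lin_zero]
    rfl
  let G' : Matrix (Fin 5) (Fin 5) (KS 5 K) := Matrix.of fun i k => (gen 5 K).linMat i (Fin.succAbove 3 k)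
  let S' : Matrix (Fin 5) (Fin 5) (KS 5 K) := Matrix.of fun k j => (sp K).linMat (Fin.succAbove 3 k) j
  have hGS : G' * S' = 1 := by
    ext i j
    have h1 := congrFun (congrFun (Example_gen_sp (K := K)) i) j
    rw [Matrix.mul_apply, Fin.sum_univ_succAbove _ (3 : Fin 6), hrow j, mul_zero, zero_add] at h1
    rw [Matrix.mul_apply, ← h1]
    rfl
  have hSG : S' * G' = 1 := mul_eq_one_comm.1 hGS
  let c' : Fin 5 → KS 5 K := fun k => c (Fin.succAbove 3 k)
  have hc : Matrix.vecMul c' S' = 0 := by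
    funext j
    have h1 := h j
    rw [Fin.sum_univ_succAbove _ (3 : Fin 6), hrow j, mul_zero, zero_add] at h1
    exact h1
  have hc' : c' = 0 := by
    calc c' = Matrix.vecMul c' (1 : Matrix (Fin 5) (Fin 5) (KS 5 K)) := (Matrix.vecMul_one c').symm
      _ = Matrix.vecMul (Matrix.vecMul c' S') G' := by rw [← hSG, Matrix.vecMul_vecMul]
      _ = 0 := by rw [hc, Matrix.zero_vecMul]
  funext i
  by_cases hi : i = 3
  · rw [hi, h3]
    rfl
  · obtain ⟨k, rfl⟩ := Fin.exists_succAbove_eq hi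
    exact congrFun hc' k

/-- the two sections differ, in first order, by a multiple of the kernel vector `v` of the generic
projection; `v_i` does not vanish -/
theorem linMat_sub :
    ∃ (v : Fin 6 → KS 5 K) (μ : Fin 5 → KS 5 K), (∀ i, v i ≠ 0) ∧ μ ≠ 0 ∧
      ∀ i j, (sp K).linMat i j - (sm K).linMat i j = v i * μ j := by
  obtain ⟨v, -, hv0, hv1⟩ := exists_kernel_vector_coord 5 K
  have hker : ∀ j : Fin 5, ∃ c : KS 5 K,
      (fun i => (sp K).linMat i j - (sm K).linMat i j) = c • v := by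
    intro j
    refine hv1 _ fun k => ?_
    have h1 := congrFun (congrFun (Example_gen_sp (K := K)) k) j
    have h2 := congrFun (congrFun (Example_gen_sm (K := K)) k) j
    rw [Matrix.mul_apply] at h1 h2
    calc ∑ i, lin (xstar 5 K k) i * ((sp K).linMat i j - (sm K).linMat i j)
        = ∑ i, (gen 5 K).linMat k i * (sp K).linMat i j -
          ∑ i, (gen 5 K).linMat k i * (sm K).linMat i j := by
          rw [← Finset.sum_sub_distrib]
          exact Finset.sum_congr rfl fun i _ => mul_sub _ _ _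
      _ = 0 := by rw [h1, h2, sub_self]
  choose μ hμ using hker
  have hdiff : ∀ i j, (sp K).linMat i j - (sm K).linMat i j = v i * μ j := by
    intro i j
    have h1 := congrFun (hμ j) i
    rw [Pi.smul_apply, smul_eq_mul, mul_comm] at h1
    exact h1
  refine ⟨v, μ, hv0, ?_, hdiff⟩
  intro h0
  have hrow5 : ∀ j, (sm K).linMat 5 j = 0 := by
    intro j
    change lin ((sm K).val 5) j = 0
    rw [sm_val_five, Example_lin_zero]
    rfl
  have h5 : ∀ j, (sp K).linMat 5 j = 0 := by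
    intro j
    have h1 := hdiff 5 j
    rw [hrow5 j, sub_zero, h0, Pi.zero_apply, mul_zero] at h1
    exact h1
  have h6 := Example_indep (K := K) (Pi.single 5 1) (by
    rw [Pi.single_eq_of_ne]
    decide) (fun j => by
      rw [Finset.sum_eq_single (5 : Fin 6)]
      · rw [h5 j, mul_zero]
      · intro i _ hi
        rw [Pi.single_eq_of_ne hi, zero_mul]
      · intro hi
        exact absurd (Finset.mem_univ _) hi)
  have h7 := congrFun h6 5
  rw [Pi.single_eq_same, Pi.zero_apply] at h7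
  exact one_ne_zero h7

/-- `X_3` on the section `X_5 = 0` is a unit times `X_5` on the section `X_3 = 0` -/
theorem exists_eps : ∃ ε : PS 5 (KS 5 K), constantCoeff ε ≠ 0 ∧ (sm K).val 3 = ε * (sp K).val 5 := by
  have h1 := associated_root_sub (h₁ := (X 3 : PS (5 + 1) K)) (h₂ := (X 5 : PS (5 + 1) K))
    (by simp) (lin_X_ne_zero 3) (by simp) (lin_X_ne_zero 5)
  have h2 := associated_root_sub (h₁ := (X 5 : PS (5 + 1) K)) (h₂ := (X 3 : PS (5 + 1) K))
    (by simp) (lin_X_ne_zero 5) (by simp) (lin_X_ne_zero 3)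
  have e3 : ext 5 K (5 + 1) (X 3) = X 3 := Example_ext_X 3
  have e5 : ext 5 K (5 + 1) (X 5) = X 5 := Example_ext_X 5
  rw [e5, Pt.ev_X] at h1
  rw [e3, Pt.ev_X] at h2
  have h3 : Associated (root (X 5 : PS (5 + 1) K) - root (X 3 : PS (5 + 1) K))
      (root (X 3 : PS (5 + 1) K) - root (X 5 : PS (5 + 1) K)) := by
    rw [← neg_sub]
    exact (Associated.refl _).neg_left
  obtain ⟨u, hu⟩ := h1.trans (h2.trans h3).symm
  refine ⟨u, ?_, ?_⟩
  · have h4 : IsUnit (constantCoeff (u : PS 5 (KS 5 K))) := u.isUnit.map constantCoeff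
    exact h4.ne_zero
  · rw [mul_comm]
    exact hu.symm

lemma Gp_cc (τ t : K) (j : Fin 3) : constantCoeff (Gp τ t j) = 0 := by
  rw [Gp, Pt.constantCoeff_ev, ext, constantCoeff_map, hp_cc, map_zero]

lemma Gm_cc (τ t : K) (j : Fin 3) : constantCoeff (Gm τ t j) = 0 := by
  rw [Gm, Pt.constantCoeff_ev, ext, constantCoeff_map, hm_cc, map_zero]

lemma lin_Gp (τ t : K) (j : Fin 3) : lin (Gp τ t j) = lin ((sp K).val 2) := by
  have h1 : lin (ext 5 K 6 (hp τ t j)) = lin (X 2 : PS 6 (KS 5 K)) := by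
    funext k
    rw [ext, lin_map, lin_hp, lin_X, lin_X]
    split_ifs <;> simp
  rw [Gp, Pt.lin_ev', h1, ← Pt.lin_ev', Pt.ev_X]

lemma lin_Gm (τ t : K) (j : Fin 3) : lin (Gm τ t j) = lin ((sm K).val 4) := by
  have h1 : lin (ext 5 K 6 (hm τ t j)) = lin (X 4 : PS 6 (KS 5 K)) := by
    funext k
    rw [ext, lin_map, lin_hm, lin_X, lin_X]
    split_ifs <;> simp
  rw [Gm, Pt.lin_ev', h1, ← Pt.lin_ev', Pt.ev_X]

/-- the linear parts of `e_+ = X_2(P_+)` and `e_- = X_4(P_-)` are independent -/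
theorem lin_ep_em (a b : KS 5 K) (h : a • lin ((sp K).val 2) + b • lin ((sm K).val 4) = 0) :
    a = 0 ∧ b = 0 := by
  obtain ⟨v, μ, hv, -, hdiff⟩ := linMat_sub (K := K)
  have hrow5 : ∀ j, (sm K).linMat 5 j = 0 := by
    intro j
    change lin ((sm K).val 5) j = 0
    rw [sm_val_five, Example_lin_zero]
    rfl
  have h5 : ∀ j, (sp K).linMat 5 j = v 5 * μ j := by
    intro j
    have h1 := hdiff 5 j
    rwa [hrow5 j, sub_zero] at h1
  have hsum : ∀ j, a * (sp K).linMat 2 j + b * (sm K).linMat 4 j = 0 := fun j => congrFun h j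
  have hc := Example_indep (K := K)
    (Pi.single 2 a + Pi.single 4 b + Pi.single 5 (-(b * (v 4 / v 5)))) (by
      have e1 : (3 : Fin 6) ≠ 2 := by decide
      have e2 : (3 : Fin 6) ≠ 4 := by decide
      have e3 : (3 : Fin 6) ≠ 5 := by decide
      simp only [Pi.add_apply, Pi.single_eq_of_ne e1, Pi.single_eq_of_ne e2, Pi.single_eq_of_ne e3,
        add_zero]) (fun j => by
      simp only [Pi.add_apply, add_mul, Finset.sum_add_distrib]
      have hs : ∀ (k : Fin 6) (x : KS 5 K),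
          ∑ i, (Pi.single k x : Fin 6 → KS 5 K) i * (sp K).linMat i j = x * (sp K).linMat k j := by
        intro k x
        rw [Finset.sum_eq_single k]
        · rw [Pi.single_eq_same]
        · intro i _ hi
          rw [Pi.single_eq_of_ne hi, zero_mul]
        · intro hi
          exact absurd (Finset.mem_univ _) hi
      rw [hs, hs, hs, h5 j]
      have h6 : (sm K).linMat 4 j = (sp K).linMat 4 j - v 4 * μ j := by
        rw [← hdiff 4 j]
        ring
      have h7 := hsum j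
      rw [h6] at h7
      have hv5 := hv 5
      calc a * (sp K).linMat 2 j + b * (sp K).linMat 4 j + -(b * (v 4 / v 5)) * (v 5 * μ j)
          = a * (sp K).linMat 2 j + b * ((sp K).linMat 4 j - v 4 * μ j) := by
            field_simp
            ring
        _ = 0 := h7)
  have e24 : (2 : Fin 6) ≠ 4 := by decide
  have e25 : (2 : Fin 6) ≠ 5 := by decide
  have e42 : (4 : Fin 6) ≠ 2 := by decide
  have e45 : (4 : Fin 6) ≠ 5 := by decide
  constructor
  · have h2 := congrFun hc 2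
    simpa only [Pi.add_apply, Pi.single_eq_same, Pi.single_eq_of_ne e24, Pi.single_eq_of_ne e25,
      add_zero, Pi.zero_apply] using h2
  · have h4 := congrFun hc 4
    simpa only [Pi.add_apply, Pi.single_eq_same, Pi.single_eq_of_ne e42, Pi.single_eq_of_ne e45,
      add_zero, zero_add, Pi.zero_apply] using h4

lemma Gp_eq (τ t : K) (j : Fin 3) : Gp τ t j =
    (sp K).val 2 - (sp K).ev (ext 5 K 6 (rho τ t j)) * ((sp K).val 1 * (sp K).val 5 ^ 3) := by
  simp only [Gp, hp, map_sub, map_mul, map_pow, Example_ext_X, Pt.ev_X]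

lemma Gm_eq (τ t : K) (j : Fin 3) : Gm τ t j =
    (sm K).val 4 - (sm K).ev (ext 5 K 6 (rho τ t j)) * ((sm K).val 1 * (sm K).val 3 ^ 3) := by
  simp only [Gm, hm, map_sub, map_mul, map_pow, Example_ext_X, Pt.ev_X]

lemma sp_rho (τ t : K) : (sp K).ev (ext 5 K 6 (rho τ t 2)) = C (algebraMap K (KS 5 K) τ) := by
  have h : rho τ t 2 = C τ + C t * (X 0 * X 3) := rfl
  rw [h]
  simp only [map_add, map_mul, Example_ext_X, Example_ext_C, Pt.ev_X, Pt.ev_C, sp_val_three,
    mul_zero, add_zero]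

lemma sm_rho (τ : K) : (sm K).ev (ext 5 K 6 (rho τ 1 2)) =
    C (algebraMap K (KS 5 K) τ) + (sm K).val 0 * (sm K).val 3 := by
  have h : rho τ 1 2 = C τ + C 1 * (X 0 * X 3) := rfl
  rw [h]
  simp only [map_add, map_mul, Example_ext_X, Example_ext_C, Pt.ev_X, Pt.ev_C, map_one, one_mul]

end

end DT
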