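import Pool.Agent.DT.Tower1
import Pool.Agent.DT.Core3
import Pool.Agent.DT.GenRel

/-!
# The third level

Apply `core3` over `L = K3 K` with (everything mapped by `up K`) `w = (ww K).val 3`, `ep = (sp).val 2`, `em = (sm).val 4`,
`xp = (sp).val 1`, `xm = (sm).val 1`, `sm = (sm).val 0`, `u5 = (sp).val 5`, `u3 = (sm).val 3`, `ε` from `exists_eps`,
`y = yy K`, `ξ j = xi τ 1 j`.  (`Gp 0 = e_+`, `Gm 0 = e_-` since `ρ = 0`; `Gp_eq`, `Gm_eq`, `sp_rho`, `sm_rho`.)
`c_+ = constantCoeff S1`, `c_- = constantCoeff S2`, `ε₀ = constantCoeff ε`. From `w = y.ev S0 + ep S1 + em S2`: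
`lin w = ∑_i (lin S0)_i lin (y_i) + c_+ lin ep + c_- lin em` and `gen_rel` (with `ℓ = lin e_-`, `lin e_+`,
`lin e_- - ε₀^3 lin e_+` over `KS 5 K`, nonzero by `lin_ep_em`) gives `c_+ ≠ 0`, `c_- ≠ 0`, `α = c_+ + c_- ε₀^3 ≠ 0`
(`ε₀` comes from `KS 5 K`).
Linear algebra on 3-space: `P_± = (sp/sm).map.comp (ξ 0)`, `Π_± = P_±.linMat` (6 × 3), `Π_+ - Π_- = v ⊗ λ`
(`linMat_sub`, `λ = μ * (ξ 0).linMat`); rows 2, 3 of `Π_+` and rows 4, 5 of `Π_-` vanish; `Π_+` is injective (the composite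
`PS 3 → PS 5 → PS 6 → PS 3`, `(yy ∘ gen 5).comp P_+ = id`). So for `t : Fin 3 → L`: if `Π_+ 0 t = Π_+ 1 t = λ t = 0` then
`t = 0`; and these three covectors form a basis.
`lin Ψ₁ = c_+ x_+ + c_- ε₀^3 x_- = α x_+ - c_- ε₀^3 v_1 λ`, `x_- = x_+ - v_1 λ`, `s_- = s_+ - v_0 λ`, `u3 = - v_3 λ`.
`a₁ = (ξ 0).ev xm`, `a₂ = (ξ 0).ev sm`, `a₃ = (ξ 0).ev u3`, `c = (ξ 0).ev (S2 ε^3)`.
Last condition: take `t` with `λ t = 1`, `x_+ t = c_- ε₀^3 v_1 / α`: then `lin Ψ₁ t = 0` and
`x_- t = - c_+ v_1 / α ≠ 0`.  `u_j = (ξ j).ev u5`: its linear part is that of `(ξ 0).ev u5`, i.e. `v_5 λ ≠ 0`.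
-/

universe u

open MvPowerSeries

set_option linter.all false

namespace DT

section
variable {K : Type u} [Field K] [CharZero K]

private lemma T3_lin_zero {n : ℕ} {L : Type u} [Field L] (f : PS n L)
    (h : f ∈ IsLocalRing.maximalIdeal (PS n L) ^ 4) : lin f = 0 := by
  rw [mem_maximalIdeal_pow_iff] at h
  funext j
  refine coeff_of_lt_order ?_
  refine lt_of_lt_of_le ?_ h
  rw [Finsupp.degree_single]
  norm_num

omit [CharZero K] in
private lemma T3_rel (S0 : PS 3 (K3 K)) (S1 S2 : PS 5 (K3 K))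
    (hw : (ww K).val 3 = (yy K).ev S0 + MvPowerSeries.map (up K) ((sp K).val 2) * S1 +
      MvPowerSeries.map (up K) ((sm K).val 4) * S2)
    (ℓ : Fin 5 → KS 5 K) (hℓ : ℓ ≠ 0) (d : K3 K)
    (h : ∀ j, constantCoeff S1 * up K (lin ((sp K).val 2) j) +
      constantCoeff S2 * up K (lin ((sm K).val 4) j) = d * up K (ℓ j)) : False := by
  refine gen_rel (KS 5 K) ℓ hℓ (fun i => lin S0 i) d (fun j => ?_)
  have h1 := congrArg (fun f => lin f j) hw
  simp only [lin_add, Pi.add_apply] at h1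
  have h2 : lin ((ww K).val 3) j =
      algebraMap (KS 4 (KS 5 K)) (KS 3 (KS 4 (KS 5 K))) (lin (xstar 4 (KS 5 K) 3) j) :=
    lin_map _ _ _
  have h3 : ∀ i : Fin 3, lin ((yy K).val i) j = ∑ k, lin (xstar 3 (KS 4 (KS 5 K)) i) k *
        algebraMap (KS 4 (KS 5 K)) (KS 3 (KS 4 (KS 5 K))) (lin (xstar 4 (KS 5 K) k) j) := by
    intro i
    have e : (yy K).val i = (ww K).ev (xstar 3 (KS 4 (KS 5 K)) i) := rfl
    rw [e, Pt.lin_ev]
    refine Finset.sum_congr rfl fun k _ => ?_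
    exact congrArg _ (lin_map _ _ _)
  have h4 : lin (MvPowerSeries.map (up K) ((sp K).val 2) * S1) j =
      constantCoeff S1 * up K (lin ((sp K).val 2) j) := by
    rw [lin_mul, constantCoeff_map, (sp K).cc, map_zero, zero_smul, zero_add, Pi.smul_apply,
      smul_eq_mul, lin_map]
  have h5 : lin (MvPowerSeries.map (up K) ((sm K).val 4) * S2) j =
      constantCoeff S2 * up K (lin ((sm K).val 4) j) := by
    rw [lin_mul, constantCoeff_map, (sm K).cc, map_zero, zero_smul, zero_add, Pi.smul_apply,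
      smul_eq_mul, lin_map]
  rw [h2, Pt.lin_ev, h4, h5, add_assoc, h j] at h1
  rw [h1]
  congr 1
  refine Finset.sum_congr rfl fun i _ => ?_
  rw [h3 i]

omit [CharZero K] in
private lemma T3_sp_id : (gen 5 K).comp (sp K) = Pt.id 5 (KS 5 K) := by
  ext1 i
  exact sect_xstar (by simp) (lin_X_ne_zero 3) i

omit [CharZero K] in
/-- the three covectors form a basis -/
private lemma T3_inj (τ : K) (t : Fin 3 → K3 K)
    (h : ∀ i, ∑ j, lin ((xi τ 1 0).ev (MvPowerSeries.map (up K) ((sp K).val i))) j * t j = 0) :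
    t = 0 := by
  have e1 : ((gen 5 K).map (up K)).linMat * ((sp K).map (up K)).linMat = 1 := by
    rw [← Pt.linMat_comp, ← Pt.map_comp, T3_sp_id]
    have : (Pt.id 5 (KS 5 K)).map (up K) = Pt.id 5 (K3 K) := by
      ext1 i
      exact MvPowerSeries.map_X _ _
    rw [this, Pt.linMat_id]
  have e2 : (yy K).linMat * (xi τ 1 0).linMat = 1 := by
    rw [← Pt.linMat_comp]
    have : (yy K).comp (xi τ 1 0) = Pt.id 3 (K3 K) := by
      ext1 i
      exact xi_yy τ 1 0 i
    rw [this, Pt.linMat_id]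
  have e3 : (((sp K).map (up K)).linMat * (xi τ 1 0).linMat).mulVec t = 0 := by
    rw [← Pt.linMat_comp]
    funext i
    exact h i
  have e4 : (1 : Matrix (Fin 3) (Fin 3) (K3 K)).mulVec t = 0 := by
    have : (1 : Matrix (Fin 3) (Fin 3) (K3 K)) = (yy K).linMat *
        (((gen 5 K).map (up K)).linMat * (((sp K).map (up K)).linMat * (xi τ 1 0).linMat)) := by
      rw [← Matrix.mul_assoc ((gen 5 K).map (up K)).linMat, e1, Matrix.one_mul, e2]
    rw [this, ← Matrix.mulVec_mulVec, ← Matrix.mulVec_mulVec, e3, Matrix.mulVec_zero,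
      Matrix.mulVec_zero]
  rwa [Matrix.one_mulVec] at e4

/-- the outcome of the third level -/
theorem level3 (τ : K) (h0 : τ ≠ 0) (h1 : τ ≠ 1) :
    ∃ (Ψ₁ Ψ₂ c a₁ a₂ a₃ : PS 3 (K3 K)) (u₁ u₂ : PS 3 (K3 K)),
      root (HH τ 1 1) - root (HH τ 1 0) = u₁ ^ 3 * Ψ₁ ∧
      root (HH τ 1 2) - root (HH τ 1 0) = u₂ ^ 3 * Ψ₂ ∧ u₁ ≠ 0 ∧ u₂ ≠ 0 ∧
      constantCoeff Ψ₁ = 0 ∧ constantCoeff Ψ₂ = 0 ∧ lin Ψ₁ ≠ 0 ∧ lin Ψ₂ ≠ 0 ∧
      constantCoeff c ≠ 0 ∧ constantCoeff a₁ = 0 ∧ constantCoeff a₂ = 0 ∧ constantCoeff a₃ = 0 ∧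
      Ψ₂ - C (up K (algebraMap K (KS 5 K) τ)) * Ψ₁ - c * a₁ * a₂ * a₃ ∈
        IsLocalRing.maximalIdeal (PS 3 (K3 K)) ^ 4 ∧
      (∀ t : Fin 3 → K3 K, ∑ j, lin Ψ₁ j * t j = 0 → ∑ j, lin a₂ j * t j = 0 →
        ∑ j, lin a₃ j * t j = 0 → t = 0) ∧
      (∃ t : Fin 3 → K3 K, ∑ j, lin Ψ₁ j * t j = 0 ∧ ∑ j, lin a₁ j * t j ≠ 0) := by
  obtain ⟨ε, hε0, hε⟩ := exists_eps (K := K)
  -- the relations for `Gp`, `Gm`
  have gp0 : Gp τ 1 0 = (sp K).val 2 := by
    rw [Gp_eq]
    have : rho τ 1 0 = 0 := rfl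
    rw [this, map_zero, map_zero, zero_mul, sub_zero]
  have gm0 : Gm τ 1 0 = (sm K).val 4 := by
    rw [Gm_eq]
    have : rho τ 1 0 = 0 := rfl
    rw [this, map_zero, map_zero, zero_mul, sub_zero]
  have gp1 : Gp τ 1 1 = (sp K).val 2 - (sp K).val 1 * (sp K).val 5 ^ 3 := by
    rw [Gp_eq]
    have : rho τ 1 1 = 1 := rfl
    rw [this, map_one, map_one, one_mul]
  have gm1 : Gm τ 1 1 = (sm K).val 4 - (sm K).val 1 * (sm K).val 3 ^ 3 := by
    rw [Gm_eq]
    have : rho τ 1 1 = 1 := rfl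
    rw [this, map_one, map_one, one_mul]
  have gp2 : Gp τ 1 2 = (sp K).val 2 -
      C (algebraMap K (KS 5 K) τ) * ((sp K).val 1 * (sp K).val 5 ^ 3) := by
    rw [Gp_eq, sp_rho]
  have gm2 : Gm τ 1 2 = (sm K).val 4 - (C (algebraMap K (KS 5 K) τ) +
      (sm K).val 0 * (sm K).val 3) * ((sm K).val 1 * (sm K).val 3 ^ 3) := by
    rw [Gm_eq, sm_rho]
  have ccm : ∀ (f : PS 5 (KS 5 K)), constantCoeff f = 0 →
      constantCoeff (MvPowerSeries.map (up K) f) = 0 := by
    intro f hf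
    rw [constantCoeff_map, hf, map_zero]
  obtain ⟨S0, S1, S2, Ψ₁, Ψ₂, hw, hA, hB, hc1, hc2, hl1, hl2, hcl, hm⟩ :=
    core3 (up K (algebraMap K (KS 5 K) τ)) ((ww K).val 3)
      (MvPowerSeries.map (up K) ((sp K).val 2)) (MvPowerSeries.map (up K) ((sm K).val 4))
      (MvPowerSeries.map (up K) ((sp K).val 1)) (MvPowerSeries.map (up K) ((sm K).val 1))
      (MvPowerSeries.map (up K) ((sm K).val 0)) (MvPowerSeries.map (up K) ((sp K).val 5))
      (MvPowerSeries.map (up K) ((sm K).val 3)) (MvPowerSeries.map (up K) ε)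
      (yy K) (fun j => xi τ 1 j) (fun j i => xi_yy τ 1 j i) (by rw [hε, map_mul])
      (ccm _ ((sp K).cc _)) (ccm _ ((sm K).cc _)) (ccm _ ((sp K).cc _)) (ccm _ ((sm K).cc _))
      (ccm _ ((sm K).cc _)) (ccm _ ((sp K).cc _)) (ccm _ ((sm K).cc _))
      (fun g hg => by
        have := xi_ker τ 1 0 g hg
        rwa [gp0, gm0] at this)
      (by have := xi_Gp τ 1 0; rwa [gp0] at this)
      (by have := xi_Gm τ 1 0; rwa [gm0] at this)
      (by
        have := xi_Gp τ 1 1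
        rw [gp1, map_sub, map_sub, sub_eq_zero] at this
        rw [this, map_mul (MvPowerSeries.map (up K)), map_pow (MvPowerSeries.map (up K))])
      (by
        have := xi_Gm τ 1 1
        rw [gm1, map_sub, map_sub, sub_eq_zero] at this
        rw [this, map_mul (MvPowerSeries.map (up K)), map_pow (MvPowerSeries.map (up K))])
      (by
        have := xi_Gp τ 1 2
        rw [gp2, map_sub, map_sub, sub_eq_zero] at this
        rw [this, map_mul (MvPowerSeries.map (up K)), map_mul (MvPowerSeries.map (up K)),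
          map_pow (MvPowerSeries.map (up K)), MvPowerSeries.map_C])
      (by
        have := xi_Gm τ 1 2
        rw [gm2, map_sub, map_sub, sub_eq_zero] at this
        rw [this, map_mul (MvPowerSeries.map (up K)), map_add (MvPowerSeries.map (up K)),
          map_mul (MvPowerSeries.map (up K)), map_mul (MvPowerSeries.map (up K)),
          map_pow (MvPowerSeries.map (up K)), MvPowerSeries.map_C])
  obtain ⟨v, μ, hv, hμ, hvm⟩ := linMat_sub (K := K)
  have hinj : Function.Injective (up K) := (up K).injective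
  have hv' : ∀ i, up K (v i) ≠ 0 := fun i h => hv i (hinj (by rw [h, map_zero]))
  -- the constants
  have hcp : constantCoeff S1 ≠ 0 := by
    intro h
    refine T3_rel S0 S1 S2 hw (lin ((sm K).val 4)) ?_ (constantCoeff S2) fun j => ?_
    · intro h'
      have := (lin_ep_em (K := K) 0 1 (by rw [h']; simp)).2
      exact one_ne_zero this
    · rw [h, zero_mul, zero_add]
  have hcm : constantCoeff S2 ≠ 0 := by
    intro h
    refine T3_rel S0 S1 S2 hw (lin ((sp K).val 2)) ?_ (constantCoeff S1) fun j => ?_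
    · intro h'
      have := (lin_ep_em (K := K) 1 0 (by rw [h']; simp)).1
      exact one_ne_zero this
    · rw [h, zero_mul, add_zero]
  obtain ⟨cp, hcpe⟩ : ∃ x, x = constantCoeff S1 := ⟨_, rfl⟩
  obtain ⟨cm, hcme⟩ : ∃ x, x = constantCoeff S2 := ⟨_, rfl⟩
  obtain ⟨e0, he0⟩ : ∃ x, x = up K (constantCoeff ε) := ⟨_, rfl⟩
  have he0n : e0 ≠ 0 := by
    rw [he0]
    exact fun h => hε0 (hinj (by rw [h, map_zero]))
  have hal : cp + cm * e0 ^ 3 ≠ 0 := by
    intro h
    refine T3_rel S0 S1 S2 hw (lin ((sm K).val 4) - (constantCoeff ε) ^ 3 • lin ((sp K).val 2)) ?_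
      (constantCoeff S2) fun j => ?_
    · intro h'
      have := (lin_ep_em (K := K) (-(constantCoeff ε) ^ 3) 1 (by
        rw [one_smul, neg_smul, neg_add_eq_sub]; exact h')).2
      exact one_ne_zero this
    · rw [Pi.sub_apply, Pi.smul_apply, smul_eq_mul, map_sub, map_mul, map_pow, ← he0, ← hcpe, ← hcme]
      linear_combination (up K (lin ((sp K).val 2) j)) * h
  rw [← hcpe] at hcp
  rw [← hcme] at hcm
  -- the covectors
  obtain ⟨p, hp⟩ : ∃ p : Fin 6 → Fin 3 → K3 K,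
      p = fun i => lin ((xi τ 1 0).ev (MvPowerSeries.map (up K) ((sp K).val i))) := ⟨_, rfl⟩
  obtain ⟨m, hmm⟩ : ∃ m : Fin 6 → Fin 3 → K3 K,
      m = fun i => lin ((xi τ 1 0).ev (MvPowerSeries.map (up K) ((sm K).val i))) := ⟨_, rfl⟩
  obtain ⟨l, hl⟩ : ∃ l : Fin 3 → K3 K,
      l = fun j => ∑ k, up K (μ k) * lin ((xi τ 1 0).val k) j := ⟨_, rfl⟩
  have hpm : ∀ i j, p i j = m i j + up K (v i) * l j := by
    intro i j
    rw [hp, hmm, hl]
    simp only
    rw [Pt.lin_ev, Pt.lin_ev, Finset.mul_sum, ← Finset.sum_add_distrib]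
    refine Finset.sum_congr rfl fun k _ => ?_
    have h3 : lin ((sp K).val i) k = lin ((sm K).val i) k + v i * μ k := by
      have := hvm i k
      rw [sub_eq_iff_eq_add] at this
      rw [add_comm]
      exact this
    rw [lin_map, lin_map, h3, map_add, map_mul]
    ring
  have hp2 : p 2 = 0 := by
    rw [hp]
    have := xi_Gp τ 1 0
    rw [gp0] at this
    simp only
    rw [this]
    funext j
    simp [lin]
  have hm4 : m 4 = 0 := by
    rw [hmm]
    have := xi_Gm τ 1 0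
    rw [gm0] at this
    simp only
    rw [this]
    funext j
    simp [lin]
  have hp3 : p 3 = 0 := by
    rw [hp]
    simp only
    rw [sp_val_three, map_zero, map_zero]
    funext j
    simp [lin]
  have hm5 : m 5 = 0 := by
    rw [hmm]
    simp only
    rw [sm_val_five, map_zero, map_zero]
    funext j
    simp [lin]
  have hbas : ∀ t : Fin 3 → K3 K, ∑ j, p 0 j * t j = 0 → ∑ j, p 1 j * t j = 0 →
      ∑ j, l j * t j = 0 → t = 0 := by
    intro t t0 t1 tl
    refine T3_inj τ t fun i => ?_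
    have e : ∀ i, lin ((xi τ 1 0).ev (MvPowerSeries.map (up K) ((sp K).val i))) = p i := by
      intro i; rw [hp]
    rw [e]
    have hsc : ∀ c : K3 K, ∑ j, (c * l j) * t j = 0 := by
      intro c
      have : ∑ j, (c * l j) * t j = c * ∑ j, l j * t j := by
        rw [Finset.mul_sum]
        exact Finset.sum_congr rfl fun j _ => by ring
      rw [this, tl, mul_zero]
    fin_cases i
    · exact t0
    · exact t1
    · show ∑ j, p 2 j * t j = 0
      rw [hp2]
      simp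
    · show ∑ j, p 3 j * t j = 0
      rw [hp3]
      simp
    · show ∑ j, p 4 j * t j = 0
      have : ∀ j, p 4 j = up K (v 4) * l j := by
        intro j
        rw [hpm, hm4]
        simp
      simp only [this]
      exact hsc _
    · show ∑ j, p 5 j * t j = 0
      have : ∀ j, p 5 j = up K (v 5) * l j := by
        intro j
        rw [hpm, hm5]
        simp
      simp only [this]
      exact hsc _
  have hsur : ∀ a b c : K3 K, ∃ t : Fin 3 → K3 K, ∑ j, p 0 j * t j = a ∧ ∑ j, p 1 j * t j = b ∧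
      ∑ j, l j * t j = c := by
    intro a b c
    have hi : Function.Injective (Matrix.mulVecLin (Matrix.of ![p 0, p 1, l])) := by
      rw [injective_iff_map_eq_zero]
      intro t ht
      refine hbas t ?_ ?_ ?_
      · exact congrFun ht 0
      · exact congrFun ht 1
      · exact congrFun ht 2
    obtain ⟨t, ht⟩ := (LinearMap.injective_iff_surjective.1 hi) ![a, b, c]
    exact ⟨t, congrFun ht 0, congrFun ht 1, congrFun ht 2⟩
  -- the linear part of `Ψ₁`
  have hL1 : ∀ j, lin Ψ₁ j = (cp + cm * e0 ^ 3) * p 1 j - cm * e0 ^ 3 * up K (v 1) * l j := by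
    intro j
    rw [hl1, Pi.add_apply, Pi.smul_apply, Pi.smul_apply, smul_eq_mul, smul_eq_mul, ← hcpe, ← hcme,
      constantCoeff_map, ← he0]
    have e1 : lin ((xi τ 1 0).ev (MvPowerSeries.map (up K) ((sp K).val 1))) j = p 1 j := by rw [hp]
    have e2 : lin ((xi τ 1 0).ev (MvPowerSeries.map (up K) ((sm K).val 1))) j = m 1 j := by rw [hmm]
    rw [e1, e2, hpm 1 j]
    ring
  have hS1 : ∀ t : Fin 3 → K3 K, ∑ j, lin Ψ₁ j * t j =
      (cp + cm * e0 ^ 3) * ∑ j, p 1 j * t j - cm * e0 ^ 3 * up K (v 1) * ∑ j, l j * t j := by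
    intro t
    rw [Finset.mul_sum, Finset.mul_sum, ← Finset.sum_sub_distrib]
    refine Finset.sum_congr rfl fun j _ => ?_
    rw [hL1 j]
    ring
  have hSm : ∀ (i : Fin 6) (t : Fin 3 → K3 K),
      ∑ j, lin ((xi τ 1 0).ev (MvPowerSeries.map (up K) ((sm K).val i))) j * t j =
        ∑ j, p i j * t j - up K (v i) * ∑ j, l j * t j := by
    intro i t
    rw [Finset.mul_sum, ← Finset.sum_sub_distrib]
    refine Finset.sum_congr rfl fun j _ => ?_
    have e2 : lin ((xi τ 1 0).ev (MvPowerSeries.map (up K) ((sm K).val i))) j = m i j := by rw [hmm]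
    rw [e2, hpm i j]
    ring
  have hne1 : lin Ψ₁ ≠ 0 := by
    intro h
    obtain ⟨t, -, t1, tl⟩ := hsur 0 1 0
    have := hS1 t
    rw [t1, tl, h] at this
    simp at this
    exact hal this.symm
  have hτ : up K (algebraMap K (KS 5 K) τ) ≠ 0 := by
    intro h
    refine h0 ((algebraMap K (KS 5 K)).injective (hinj ?_))
    rw [h, map_zero, map_zero]
  have hune : ∀ j : Fin 3, (xi τ 1 j).ev (MvPowerSeries.map (up K) ((sp K).val 5)) ≠ 0 := by
    intro j h
    have h2 := T3_lin_zero _ (hcl j (MvPowerSeries.map (up K) ((sp K).val 5)))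
    rw [lin_sub] at h2
    obtain ⟨t, -, -, tl⟩ := hsur 0 0 1
    have h3 : ∑ i, lin ((xi τ 1 0).ev (MvPowerSeries.map (up K) ((sp K).val 5))) i * t i = 0 := by
      have h4 : lin ((xi τ 1 0).ev (MvPowerSeries.map (up K) ((sp K).val 5))) = 0 := by
        have h5 : lin ((xi τ 1 j).ev (MvPowerSeries.map (up K) ((sp K).val 5))) = 0 := by
          rw [h]
          funext i
          simp [lin]
        have h6 : lin ((xi τ 1 j).ev (MvPowerSeries.map (up K) ((sp K).val 5))) -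
            lin ((xi τ 1 0).ev (MvPowerSeries.map (up K) ((sp K).val 5))) = 0 := h2
        rw [h5, zero_sub, neg_eq_zero] at h6
        exact h6
      rw [h4]
      simp
    have e2 : lin ((xi τ 1 0).ev (MvPowerSeries.map (up K) ((sp K).val 5))) = p 5 := by rw [hp]
    rw [e2] at h3
    have h5 : ∀ j, p 5 j = up K (v 5) * l j := by
      intro j
      rw [hpm, hm5]
      simp
    have h6 : ∑ i, p 5 i * t i = up K (v 5) * ∑ i, l i * t i := by
      rw [Finset.mul_sum]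
      exact Finset.sum_congr rfl fun i _ => by rw [h5 i]; ring
    rw [h6, tl, mul_one] at h3
    exact hv' 5 h3
  refine ⟨Ψ₁, Ψ₂, (xi τ 1 0).ev (S2 * (MvPowerSeries.map (up K) ε) ^ 3),
    (xi τ 1 0).ev (MvPowerSeries.map (up K) ((sm K).val 1)),
    (xi τ 1 0).ev (MvPowerSeries.map (up K) ((sm K).val 0)),
    (xi τ 1 0).ev (MvPowerSeries.map (up K) ((sm K).val 3)),
    (xi τ 1 1).ev (MvPowerSeries.map (up K) ((sp K).val 5)),
    (xi τ 1 2).ev (MvPowerSeries.map (up K) ((sp K).val 5)), ?_, ?_, hune 1, hune 2, hc1, hc2,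
    hne1, ?_, ?_, ?_, ?_, ?_, hm, ?_, ?_⟩
  · rw [root_HH, root_HH]
    exact hA
  · rw [root_HH, root_HH]
    exact hB
  · rw [hl2]
    exact smul_ne_zero hτ hne1
  · rw [Pt.constantCoeff_ev, map_mul, map_pow, constantCoeff_map, ← hcme, ← he0]
    exact mul_ne_zero hcm (pow_ne_zero 3 he0n)
  · rw [Pt.constantCoeff_ev]
    exact ccm _ ((sm K).cc _)
  · rw [Pt.constantCoeff_ev]
    exact ccm _ ((sm K).cc _)
  · rw [Pt.constantCoeff_ev]
    exact ccm _ ((sm K).cc _)
  · intro t t1 t2 t3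
    rw [hSm] at t2 t3
    have t3' : ∑ j, p 3 j * t j = 0 := by
      rw [hp3]
      simp
    rw [t3', zero_sub, neg_eq_zero] at t3
    have tl : ∑ j, l j * t j = 0 := (mul_eq_zero.1 t3).resolve_left (hv' 3)
    rw [tl, mul_zero, sub_zero] at t2
    rw [hS1, tl, mul_zero, sub_zero] at t1
    exact hbas t t2 ((mul_eq_zero.1 t1).resolve_left hal) tl
  · obtain ⟨t, -, t1, tl⟩ := hsur 0 (cm * e0 ^ 3 * up K (v 1) / (cp + cm * e0 ^ 3)) 1
    refine ⟨t, ?_, ?_⟩
    · rw [hS1, t1, tl]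
      field_simp
      ring
    · rw [hSm, t1, tl]
      intro h
      have h2 : cp * up K (v 1) = 0 := by
        field_simp at h
        linear_combination -h
      exact (mul_ne_zero hcp (hv' 1)) h2

end

end DT
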