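import Pool.Agent.DT.Tower2
import Pool.Agent.DT.Tower3
import Pool.Agent.DT.Simple

/-!
# The lower bound

Write `D5 = crit (eqn τ 1)`, `D4 = crit D5`, `D3 = crit D4`, `D2 = crit D3`; all are nonzero and squarefree
(`crit_ne_zero`, `crit_squarefree`).
* `HH 0 ≁ HH j` (`j = 1, 2`): `root (HH j) - root (HH 0) = u^3 Ψ ≠ 0` (`level3`), `associated_root_sub`.
* `crit2_sing`: `lin_eq_zero_of_two` for `HH 0`, `HH 1` and `D4`.
* `Ψ_j ∣ D3`: `root_sub_dvd_crit_pow` for `D4`, `HH j`, `HH 0`; `Ψ_j` is prime.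
* `crit34_sing`: first part: `lin_eq_zero_of_two` for `Ψ₁, Ψ₂` and `D3` (`level4` gives that the section value is
  nonzero); second part: `dvd_crit_pow` for `D3` and `level4`. (`constantCoeff (crit f) = 0` : `crit_not_isUnit`.)
* `dt_twisted`: `dt_closed_singular` five times and `dt 0 = 0`.
-/

universe u

open MvPowerSeries

namespace DT


section
variable {L : Type u} [Field L] [CharZero L]

omit [CharZero L] in
private lemma tw4_ne_zero {n : ℕ} {f : PS n L} (h : lin f ≠ 0) : f ≠ 0 := by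
  rintro rfl
  apply h
  funext j
  simp [lin]

private lemma tw4_crit {r : ℕ} {f : PS (r + 1) L} (hf : f ≠ 0) (hsq : Squarefree f) :
    crit f ≠ 0 ∧ Squarefree (crit f) :=
  ⟨crit_ne_zero hf hsq, crit_squarefree hf hsq⟩

omit [CharZero L] in
private lemma tw4_dt1 (D : PS 2 L) (hD : D ≠ 0) (h0 : constantCoeff D = 0) (hl : lin D = 0) :
    dt 1 L D (IsLocalRing.maximalIdeal (PS 2 L)) = 1 := by
  rw [dt_closed_singular D hD h0 hl, dt]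

/-- the last two levels -/
private theorem tw4_last (D : PS 3 L) (hD : D ≠ 0) (hsq : Squarefree D) (τ : L)
    (Ψ₁ Ψ₂ c a₁ a₂ a₃ : PS 3 L)
    (hp1 : constantCoeff Ψ₁ = 0) (hp2 : constantCoeff Ψ₂ = 0) (hl1 : lin Ψ₁ ≠ 0)
    (hl2 : lin Ψ₂ ≠ 0) (hc : constantCoeff c ≠ 0) (ha1 : constantCoeff a₁ = 0)
    (ha2 : constantCoeff a₂ = 0) (ha3 : constantCoeff a₃ = 0)
    (hm : Ψ₂ - C τ * Ψ₁ - c * a₁ * a₂ * a₃ ∈ IsLocalRing.maximalIdeal (PS 3 L) ^ 4)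
    (hi : ∀ t : Fin 3 → L, ∑ j, lin Ψ₁ j * t j = 0 → ∑ j, lin a₂ j * t j = 0 →
      ∑ j, lin a₃ j * t j = 0 → t = 0)
    (hi1 : ∃ t : Fin 3 → L, ∑ j, lin Ψ₁ j * t j = 0 ∧ ∑ j, lin a₁ j * t j ≠ 0)
    (d1 : Ψ₁ ∣ D) (d2 : Ψ₂ ∣ D) :
    (constantCoeff D = 0 ∧ lin D = 0) ∧ (constantCoeff (crit D) = 0 ∧ lin (crit D) = 0) ∧
      dt 2 L D (IsLocalRing.maximalIdeal (PS 3 L)) = 2 := by
  obtain ⟨h4n, h4⟩ := level4 τ Ψ₁ Ψ₂ c a₁ a₂ a₃ hc ha1 ha2 ha3 hp1 hl1 hm hi hi1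
  have s3 : constantCoeff D = 0 ∧ lin D = 0 := lin_eq_zero_of_two hp1 hl1 hp2 hl2 d1 d2 h4n
  have hnu := crit_not_isUnit hD hsq s3.1 s3.2
  have hcc : constantCoeff (crit D) = 0 := by
    by_contra h
    exact hnu (MvPowerSeries.isUnit_iff_constantCoeff.2 (isUnit_iff_ne_zero.2 h))
  obtain ⟨n, hn⟩ := dvd_crit_pow hD hsq hp1 hl1 hp2 hl2 d1 d2 h4n
  have hl := h4 (crit D) n hcc hn
  refine ⟨s3, ⟨hcc, hl⟩, ?_⟩
  rw [dt_closed_singular D hD s3.1 s3.2, tw4_dt1 (crit D) (crit_ne_zero hD hsq) hcc hl]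

private lemma tw4_psi (D : PS 4 L) (hD : D ≠ 0) (hsq : Squarefree D) (H H0 : PS 4 L)
    (hc : constantCoeff H = 0) (hl : lin H ≠ 0) (hc0 : constantCoeff H0 = 0) (hl0 : lin H0 ≠ 0)
    (hd : H ∣ D) (hd0 : H0 ∣ D) (Ψ u : PS 3 (KS 3 L)) (hr : root H - root H0 = u ^ 3 * Ψ)
    (hu : u ≠ 0) (hp : constantCoeff Ψ = 0) (hlp : lin Ψ ≠ 0) :
    root H ≠ root H0 ∧ Ψ ∣ crit D := by
  have hdom : IsDomain (PS 3 (KS 3 L)) := NoZeroDivisors.to_isDomain _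
  have hne : root H ≠ root H0 := by
    intro h
    rw [h, sub_self] at hr
    rcases mul_eq_zero.1 hr.symm with h4 | h4
    · exact hu ((pow_eq_zero_iff three_ne_zero).1 h4)
    · exact tw4_ne_zero hlp h4
  refine ⟨hne, ?_⟩
  obtain ⟨n, hn⟩ := root_sub_dvd_crit_pow hD hsq hc hl hc0 hl0 hd hd0 hne
  rw [hr] at hn
  exact (prime_of_lin_ne_zero Ψ hp hlp).dvd_of_dvd_pow ((dvd_mul_left _ _).trans hn)

/-- the last three levels -/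
private theorem tw4_mid (D : PS 4 L) (hD : D ≠ 0) (hsq : Squarefree D) (H : Fin 3 → PS 4 L)
    (hH0 : ∀ j, constantCoeff (H j) = 0) (hHl : ∀ j, lin (H j) ≠ 0) (hHd : ∀ j, H j ∣ D)
    (τ : KS 3 L)
    (h : ∃ (Ψ₁ Ψ₂ c a₁ a₂ a₃ : PS 3 (KS 3 L)) (u₁ u₂ : PS 3 (KS 3 L)),
      root (H 1) - root (H 0) = u₁ ^ 3 * Ψ₁ ∧
      root (H 2) - root (H 0) = u₂ ^ 3 * Ψ₂ ∧ u₁ ≠ 0 ∧ u₂ ≠ 0 ∧
      constantCoeff Ψ₁ = 0 ∧ constantCoeff Ψ₂ = 0 ∧ lin Ψ₁ ≠ 0 ∧ lin Ψ₂ ≠ 0 ∧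
      constantCoeff c ≠ 0 ∧ constantCoeff a₁ = 0 ∧ constantCoeff a₂ = 0 ∧ constantCoeff a₃ = 0 ∧
      Ψ₂ - C τ * Ψ₁ - c * a₁ * a₂ * a₃ ∈ IsLocalRing.maximalIdeal (PS 3 (KS 3 L)) ^ 4 ∧
      (∀ t : Fin 3 → KS 3 L, ∑ j, lin Ψ₁ j * t j = 0 → ∑ j, lin a₂ j * t j = 0 →
        ∑ j, lin a₃ j * t j = 0 → t = 0) ∧
      (∃ t : Fin 3 → KS 3 L, ∑ j, lin Ψ₁ j * t j = 0 ∧ ∑ j, lin a₁ j * t j ≠ 0)) :
    (constantCoeff D = 0 ∧ lin D = 0) ∧ (constantCoeff (crit D) = 0 ∧ lin (crit D) = 0) ∧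
    (constantCoeff (crit (crit D)) = 0 ∧ lin (crit (crit D)) = 0) ∧
      dt 3 L D (IsLocalRing.maximalIdeal (PS 4 L)) = 3 := by
  obtain ⟨Ψ₁, Ψ₂, c, a₁, a₂, a₃, u₁, u₂, hr1, hr2, hu1, hu2, hp1, hp2, hl1, hl2, hc, ha1, ha2,
    ha3, hm, hi, hi1⟩ := h
  obtain ⟨hne1, d1⟩ := tw4_psi D hD hsq (H 1) (H 0) (hH0 1) (hHl 1) (hH0 0) (hHl 0) (hHd 1)
    (hHd 0) Ψ₁ u₁ hr1 hu1 hp1 hl1
  obtain ⟨-, d2⟩ := tw4_psi D hD hsq (H 2) (H 0) (hH0 2) (hHl 2) (hH0 0) (hHl 0) (hHd 2)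
    (hHd 0) Ψ₂ u₂ hr2 hu2 hp2 hl2
  have s2 : constantCoeff D = 0 ∧ lin D = 0 := by
    refine lin_eq_zero_of_two (hH0 0) (hHl 0) (hH0 1) (hHl 1) (hHd 0) (hHd 1) ?_
    intro h
    have ha := associated_root_sub (hH0 0) (hHl 0) (hH0 1) (hHl 1)
    rw [h] at ha
    exact hne1 (sub_eq_zero.1 ((associated_zero_iff_eq_zero _).1 ha.symm)).symm
  obtain ⟨hD', hsq'⟩ := tw4_crit hD hsq
  obtain ⟨s3, s4, hdt⟩ := tw4_last (crit D) hD' hsq' τ Ψ₁ Ψ₂ c a₁ a₂ a₃ hp1 hp2 hl1 hl2 hc ha1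
    ha2 ha3 hm hi hi1 d1 d2
  refine ⟨s2, s3, s4, ?_⟩
  rw [dt_closed_singular D hD s2.1 s2.2, hdt]

private lemma tw4_top (f : PS 6 L) (hf : f ≠ 0) (hsq : Squarefree f)
    (s0 : constantCoeff f = 0 ∧ lin f = 0) (s1 : constantCoeff (crit f) = 0 ∧ lin (crit f) = 0) :
    dt 5 L f (IsLocalRing.maximalIdeal (PS 6 L)) = 1 + (1 + dt 3 (KS 4 (KS 5 L)) (crit (crit f))
      (IsLocalRing.maximalIdeal (PS 4 (KS 4 (KS 5 L))))) := by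
  rw [dt_closed_singular f hf s0.1 s0.2,
    dt_closed_singular (crit f) (crit_ne_zero hf hsq) s1.1 s1.2]

end

section
variable {K : Type u} [Field K] [CharZero K]

/-- the outcome for `D4` -/
private def tw4_R {L : Type u} [Field L] (D : PS 4 L) : Prop :=
  (constantCoeff D = 0 ∧ lin D = 0) ∧ (constantCoeff (crit D) = 0 ∧ lin (crit D) = 0) ∧
    (constantCoeff (crit (crit D)) = 0 ∧ lin (crit (crit D)) = 0) ∧
      dt 3 L D (IsLocalRing.maximalIdeal (PS 4 L)) = 3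

private theorem tw4_out {L : Type u} [Field L] (D : PS 4 L) (h : tw4_R D) :
    (constantCoeff (crit D) = 0 ∧ lin (crit D) = 0) ∧
    (constantCoeff (crit (crit D)) = 0 ∧ lin (crit (crit D)) = 0) := ⟨h.2.1, h.2.2.1⟩

private theorem tw4_all (τ : K) (h0 : τ ≠ 0) (h1 : τ ≠ 1) :
    tw4_R (L := K4 K) (crit (crit (eqn τ 1))) := by
  have a := tw4_crit (eqn_ne_zero τ 1) (squarefree_eqn τ 1 h0 h1)
  have hA := tw4_crit a.1 a.2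
  exact tw4_mid (L := K4 K) (crit (crit (eqn τ 1))) hA.1 hA.2 (HH τ 1) (HH_cc τ 1) (lin_HH τ 1)
    (HH_dvd τ h0 h1) (up K (algebraMap K (KS 5 K) τ)) (level3 τ h0 h1)

lemma crit2_sing (τ : K) (h0 : τ ≠ 0) (h1 : τ ≠ 1) :
    constantCoeff (crit (crit (eqn τ 1))) = 0 ∧ lin (crit (crit (eqn τ 1))) = 0 :=
  (tw4_all τ h0 h1).1

lemma crit34_sing (τ : K) (h0 : τ ≠ 0) (h1 : τ ≠ 1) :
    (constantCoeff (crit (crit (crit (eqn τ 1)))) = 0 ∧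
      lin (crit (crit (crit (eqn τ 1)))) = 0) ∧
    (constantCoeff (crit (crit (crit (crit (eqn τ 1))))) = 0 ∧
      lin (crit (crit (crit (crit (eqn τ 1))))) = 0) := by
  have b := tw4_all τ h0 h1
  -- the implicit dimensions are written as in the statement: `3 + 1`, … (otherwise unification is very slow)
  have c : tw4_R (crit (r := 3 + 1) (crit (r := 3 + 1 + 1) (eqn τ 1))) := by exact b
  have d := tw4_out (crit (r := 3 + 1) (crit (r := 3 + 1 + 1) (eqn τ 1))) c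
  have c' : tw4_R (crit (r := 2 + 1 + 1) (crit (r := 2 + 1 + 1 + 1) (eqn τ 1))) := by exact b
  have d' := tw4_out (crit (r := 2 + 1 + 1) (crit (r := 2 + 1 + 1 + 1) (eqn τ 1))) c'
  have e := d.1
  have f := d'.2
  have e2 : constantCoeff (crit (crit (crit (eqn τ 1)))) = 0 ∧
      lin (crit (crit (crit (eqn τ 1)))) = 0 := by exact e
  have f2 : (constantCoeff (crit (crit (crit (crit (eqn τ 1))))) = 0 ∧
      lin (crit (crit (crit (crit (eqn τ 1))))) = 0) := by exact f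
  exact ⟨e2, f2⟩

/-- the lower bound -/
theorem dt_twisted (τ : K) (h0 : τ ≠ 0) (h1 : τ ≠ 1) :
    dt 5 K (eqn τ 1) (IsLocalRing.maximalIdeal (PS 6 K)) = 5 := by
  rw [tw4_top (eqn τ 1) (eqn_ne_zero τ 1) (squarefree_eqn τ 1 h0 h1)
    ⟨eqn_cc τ 1, lin_eqn τ 1⟩ (crit1_sing τ h0 h1), (tw4_all τ h0 h1).2.2.2]

end

end DT
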