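import Pool.Agent.DT.TwoFields
import Pool.Agent.DT.Congr
import Pool.Agent.DT.DStab
import Pool.Agent.DT.Tower4

/-! # The counterexample -/

universe u

open MvPowerSeries

namespace DT

/-- constants of a derivation -/
lemma IsDer.zero' {A : Type*} [CommRing A] {D : A → A} (hD : IsDer D) : D 0 = 0 := by
  have := hD.add 0 0
  simpa using this

lemma IsDer.neg' {A : Type*} [CommRing A] {D : A → A} (hD : IsDer D) (a : A) : D (-a) = - D a := by
  have := hD.add a (-a)
  rw [add_neg_cancel, hD.zero'] at this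
  exact (neg_eq_of_add_eq_zero_right this.symm).symm

/-- constants of a derivation form a subring -/
def IsDer.consts {A : Type*} [CommRing A] {D : A → A} (hD : IsDer D) : Subring A where
  carrier := {a | D a = 0}
  mul_mem' {a b} ha hb := by
    have h := hD.mul a b
    rw [Set.mem_ofPred_eq] at ha hb ⊢
    rw [h, ha, hb]; simp
  one_mem' := by
    have := hD.mul 1 1
    simpa using this
  add_mem' {a b} ha hb := by
    have h := hD.add a b
    rw [Set.mem_ofPred_eq] at ha hb ⊢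
    rw [h, ha, hb]; simp
  zero_mem' := hD.zero'
  neg_mem' {a} ha := by
    rw [Set.mem_ofPred_eq] at ha ⊢
    rw [hD.neg', ha, neg_zero]

/-- the untwisted equation does not involve `s = X_0` -/
theorem dstab_eqn {K : Type u} [Field K] (τ : K) : DStab (eqn τ 0) := by
  have hδ : IsDer (fun _ : K => (0 : K)) := ⟨by simp, by simp⟩
  refine ⟨fun _ => 0, Pi.single 0 1, hδ, by simp, ?_⟩
  have hD := isDer_DD (n := 6) hδ (Pi.single 0 1)
  suffices h : DD (fun _ : K => (0 : K)) (Pi.single 0 1) (eqn τ 0) = 0 by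
    rw [h]; exact dvd_zero _
  have hC : ∀ a : K, (C a : PS 6 K) ∈ hD.consts := fun a => by
    change DD _ _ _ = 0
    rw [DD_C hδ]; simp
  have hX : ∀ i : Fin 6, i ≠ 0 → (X i : PS 6 K) ∈ hD.consts := fun i hi => by
    change DD _ _ _ = 0
    rw [DD_X hδ, Pi.single_eq_of_ne hi]; simp
  have hr : ∀ j, rho τ 0 j ∈ hD.consts := by
    intro j
    fin_cases j
    · exact hD.consts.zero_mem
    · exact hD.consts.one_mem
    · change (C τ + C 0 * (X 0 * X 3) : PS 6 K) ∈ _
      rw [map_zero, zero_mul, add_zero]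
      exact hC τ
  have h1 := hX 1 (by decide)
  have h2 := hX 2 (by decide)
  have h3 := hX 3 (by decide)
  have h4 := hX 4 (by decide)
  have h5 := hX 5 (by decide)
  change eqn τ 0 ∈ hD.consts
  refine hD.consts.mul_mem (hD.consts.mul_mem h3 h5) (Subring.prod_mem _ fun j _ => ?_)
  refine hD.consts.mul_mem (hD.consts.sub_mem h2 (hD.consts.mul_mem (hr j) ?_))
    (hD.consts.sub_mem h4 (hD.consts.mul_mem (hr j) ?_))
  · exact hD.consts.mul_mem h1 (hD.consts.pow_mem h5 3)
  · exact hD.consts.mul_mem h1 (hD.consts.pow_mem h3 3)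

instance (k : Type u) [Field k] [CharZero k] : CharZero (LaurentSeries k) :=
  charZero_of_injective_ringHom (HahnSeries.C (Γ := ℤ) (R := k)).injective

theorem counterexample (k : Type u) [Field k] [CharZero k] :
    ∃ (O : Type u) (_ : CommRing O) (i : k →+* O) (p : Ideal O) (_ : p.IsPrime)
      (k' : Type u) (_ : Field k') (i' : k' →+* Compl O p),
      Nonempty (Pres i) ∧ ¬ p.IsMaximal ∧ Nonempty (Pres i') ∧
      (∀ c, toCompl O p (i c) ∈ i'.range) ∧
      ∀ (P : Pres i) (P' : Pres i'), P.dtAt p ≠ P'.dtClosed := by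
  obtain ⟨P₀, hP₀⟩ := exists_presV k
  obtain ⟨i₁, P₁, hl₁, hd₁, hr₁⟩ := exists_pres_one k
  obtain ⟨i₂, P₂, hl₂, hd₂, hr₂⟩ := exists_pres_two k
  have hle : P₁.dtClosed ≤ 4 := by
    rw [hd₁]
    exact DStab.dt_le 4 _ _ (eqn_ne_zero _ _) (squarefree_eqn _ _ (tau_ne_zero k) (tau_ne_one k))
      (eqn_cc _ _) (dstab_eqn _)
  have heq : P₂.dtClosed = 5 := by
    rw [hd₂]
    exact dt_twisted _ (tau_ne_zero k) (tau_ne_one k)
  by_cases h : P₀.dtAt (pV k) ≤ 4
  · refine ⟨OV k, inferInstance, iV k, pV k, inferInstance, LaurentSeries k, inferInstance, i₂,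
      ⟨P₀⟩, pV_not_isMaximal k, ⟨P₂⟩, hr₂, fun P P' he => ?_⟩
    rw [← Pres.dtAt_eq P₀ P hP₀, ← Pres.dtClosed_eq P₂ P' hl₂] at he
    omega
  · refine ⟨OV k, inferInstance, iV k, pV k, inferInstance, LaurentSeries k, inferInstance, i₁,
      ⟨P₀⟩, pV_not_isMaximal k, ⟨P₁⟩, hr₁, fun P P' he => ?_⟩
    rw [← Pres.dtAt_eq P₀ P hP₀, ← Pres.dtClosed_eq P₁ P' hl₁] at he
    omega

end DT
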