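import Pool.Agent.DT.Complete

/-!
# Power series in the last variable: `K[[X_0..X_n]] = K[[X_0..X_{n-1}]][[T]]`, `T = X_n`

`exists_lastEquiv`: Mathlib has `MvPowerSeries.finSuccEquiv` (first variable) and
`MvPowerSeries.optionEquivLeft`; compose with a renaming of the variables
(`MvPowerSeries.rename`/`renameEquiv` along `Fin (n+1) ≃ Option (Fin n)`, `Fin.last n ↦ none`), or define it
by coefficients. `(inl n K).ev f` has coefficients `coeff α f` at the exponents with last entry `0`.
`lastEquiv_evalLast`: ring homomorphisms commute with `eval₂`.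
-/

universe u

open MvPowerSeries

namespace DT

/-- the embedding `K[[X_0..X_{n-1}]] → K[[X_0..X_n]]` -/
noncomputable def inl (n : ℕ) (K : Type u) [Field K] : Pt n (n + 1) K where
  val i := X i.castSucc
  cc i := by simp

private lemma LastEquiv_some {σ : Type*} {R : Type*} [CommRing R] (f : MvPowerSeries σ R) :
    optionEquivLeft σ R (rename (Function.Embedding.some : σ ↪ Option σ) f) = PowerSeries.C f := by
  ext k x
  rw [coeff_coeff_optionEquivLeft, PowerSeries.coeff_C]
  split_ifs with hk
  · have h1 : x.optionElim k = Finsupp.embDomain (Function.Embedding.some : σ ↪ Option σ) x := by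
      ext a
      cases a with
      | none =>
        rw [Finsupp.embDomain_of_notMem_range _ _ _ (by simp)]
        simp [hk]
      | some a =>
        have h2 := Finsupp.embDomain_apply_self (Function.Embedding.some : σ ↪ Option σ) x a
        simpa only [Function.Embedding.some_apply, Finsupp.optionElim_apply_some] using h2.symm
    rw [h1, coeff_embDomain_rename]
  · rw [coeff_zero]
    refine coeff_rename_eq_zero _ _ ?_
    rintro ⟨y, hy⟩
    apply hk
    have h3 := DFunLike.congr_fun hy none
    rw [Finsupp.mapDomain_of_notMem_range _ _ (by simp)] at h3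
    simpa using h3.symm

/-- `K[[X_0..X_n]] ≃ K[[X_0..X_{n-1}]][[T]]`, `X_i ↦ X_i` (`i < n`), `X_n ↦ T` -/
theorem exists_lastEquiv (n : ℕ) (K : Type u) [Field K] :
    ∃ e : PS (n + 1) K ≃+* PowerSeries (PS n K),
      (∀ f : PS n K, e ((inl n K).ev f) = PowerSeries.C f) ∧ e (X (Fin.last n)) = PowerSeries.X := by
  refine ⟨((renameEquiv K (finSuccEquivLast (n := n))).trans (optionEquivLeft (Fin n) K)).toRingEquiv,
    fun f => ?_, ?_⟩
  · have h1 : (inl n K).ev f = rename (Fin.castSucc : Fin n → Fin (n + 1)) f := by
      rw [rename_eq_subst, Pt.ev_apply]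
      rfl
    have h2 : rename (finSuccEquivLast (n := n)) (rename (Fin.castSucc : Fin n → Fin (n + 1)) f) =
        rename (Function.Embedding.some : Fin n ↪ Option (Fin n)) f := by
      rw [rename_rename]
      congr 1
      congr 1
      funext i
      simp
    have h3 : ((renameEquiv K (finSuccEquivLast (n := n))).trans
        (optionEquivLeft (Fin n) K)).toRingEquiv ((inl n K).ev f) =
        optionEquivLeft (Fin n) K (rename (finSuccEquivLast (n := n)) ((inl n K).ev f)) := rfl
    rw [h3, h1, h2, LastEquiv_some]
  · have h3 : ((renameEquiv K (finSuccEquivLast (n := n))).trans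
        (optionEquivLeft (Fin n) K)).toRingEquiv (X (Fin.last n)) =
        optionEquivLeft (Fin n) K (rename (finSuccEquivLast (n := n)) (X (Fin.last n))) := rfl
    rw [h3, rename_X]
    simp

noncomputable def lastEquiv (n : ℕ) (K : Type u) [Field K] : PS (n + 1) K ≃+* PowerSeries (PS n K) :=
  (exists_lastEquiv n K).choose

lemma lastEquiv_inl (n : ℕ) (K : Type u) [Field K] (f : PS n K) :
    lastEquiv n K ((inl n K).ev f) = PowerSeries.C f := (exists_lastEquiv n K).choose_spec.1 f

lemma lastEquiv_X (n : ℕ) (K : Type u) [Field K] :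
    lastEquiv n K (X (Fin.last n)) = PowerSeries.X := (exists_lastEquiv n K).choose_spec.2

/-- a polynomial in `X_n` over `K[[X_0..X_{n-1}]]` -/
noncomputable def evalLast {n : ℕ} {K : Type u} [Field K] (P : Polynomial (PS n K)) : PS (n + 1) K :=
  P.eval₂ (inl n K).ev.toRingHom (X (Fin.last n))

lemma lastEquiv_evalLast {n : ℕ} {K : Type u} [Field K] (P : Polynomial (PS n K)) :
    lastEquiv n K (evalLast P) = (P : PowerSeries (PS n K)) := by
  have h1 := Polynomial.hom_eval₂ P (inl n K).ev.toRingHom (lastEquiv n K).toRingHom (X (Fin.last n))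
  have h2 : (lastEquiv n K).toRingHom.comp (inl n K).ev.toRingHom = PowerSeries.C := by
    ext1 f
    exact lastEquiv_inl n K f
  have h3 : (lastEquiv n K).toRingHom (X (Fin.last n)) = PowerSeries.X := lastEquiv_X n K
  rw [h2, h3, Polynomial.eval₂_C_X_eq_coe] at h1
  exact h1

end DT
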