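import Pool.Agent.DT.LastEquiv

/-!
# Weierstrass preparation for power series in several variables (last variable)

Everything is transported from Mathlib's `PowerSeries` over the complete local ring `PS n K`
(`Mathlib/RingTheory/PowerSeries/WeierstrassPreparation.lean`, `isAdicComplete_PS`) by `lastEquiv`:
* `exists_weierstrass`: `coeff (single (last n) i) f` is the constant coefficient of the `i`-th coefficient of
  `lastEquiv n K f`; `PowerSeries.exists_isWeierstrassFactorization`.
* `IsDist.eq_zero_of_dvd`: uniqueness of the Weierstrass division by the distinguished polynomial `P`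
  (`PowerSeries.IsWeierstrassDivision...`, `Polynomial.IsDistinguishedAt`): `R = P h` and `R = P 0 + R`.
* `IsDist.dvd_iff`: divide `Q` by the monic `P` in the polynomial ring, `Q = P S + R`.
* `IsDist.prime`, `IsDist.of_mul`: see also `Pool/Agent/DTZ/Ufd.lean` (helper77): `Ufd_prime_dist`,
  `Ufd_dist_dvd`, `Ufd_factor` (you may import it).
-/

universe u

open MvPowerSeries

namespace DT

/-- distinguished (Weierstrass) polynomial -/
def IsDist {n : ℕ} {K : Type u} [Field K] (P : Polynomial (PS n K)) : Prop :=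
  P.Monic ∧ ∀ i < P.natDegree, constantCoeff (P.coeff i) = 0

private noncomputable def LastVar_h {n : ℕ} {K : Type u} [Field K] (f : PS (n + 1) K) : PS (n + 1) K :=
  Pool.Agent.DTZ.Ufd_mk (fun d => if ∀ j : Fin n, d j.castSucc = 0 then coeff d f else 0)

private noncomputable def LastVar_p {n : ℕ} {K : Type u} [Field K] (f : PS (n + 1) K) (j : Fin n) : PS (n + 1) K :=
  Pool.Agent.DTZ.Ufd_mk (fun d => if (∀ i < j, d i.castSucc = 0) ∧ d j.castSucc ≠ 0 then coeff d f else 0)

private theorem LastVar_split {n : ℕ} {K : Type u} [Field K] (f : PS (n + 1) K) :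
    f = LastVar_h f + ∑ j, LastVar_p f j := by
  classical
  ext d
  rw [map_add, map_sum]
  simp only [LastVar_h, LastVar_p, Pool.Agent.DTZ.Ufd_coeff_mk]
  by_cases hd : ∀ j : Fin n, d j.castSucc = 0
  · rw [if_pos hd, Finset.sum_eq_zero, add_zero]
    intro j _
    rw [if_neg]
    rintro ⟨_, h⟩
    exact h (hd j)
  · rw [if_neg hd, zero_add]
    push Not at hd
    let s : Finset (Fin n) := Finset.univ.filter (fun i => d i.castSucc ≠ 0)
    have hs : s.Nonempty := by
      obtain ⟨i, hi⟩ := hd
      exact ⟨i, by simp [s, hi]⟩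
    have h0 : d (s.min' hs).castSucc ≠ 0 := by
      have := s.min'_mem hs
      simpa [s] using this
    have hmin : ∀ j < s.min' hs, d j.castSucc = 0 := by
      intro j hj
      by_contra h
      exact absurd hj (not_lt.2 (s.min'_le j (by simp [s, h])))
    rw [Finset.sum_eq_single (s.min' hs)]
    · rw [if_pos ⟨hmin, h0⟩]
    · intro i _ hi
      rw [if_neg]
      rintro ⟨h1, h2⟩
      rcases lt_trichotomy i (s.min' hs) with h | h | h
      · exact h2 (hmin i h)
      · exact hi h
      · exact h0 (h1 _ h)
    · intro h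
      exact absurd (Finset.mem_univ _) h

private theorem LastVar_p_dvd {n : ℕ} {K : Type u} [Field K] (f : PS (n + 1) K) (j : Fin n) :
    X j.castSucc ∣ LastVar_p f j := by
  classical
  rw [X_dvd_iff]
  intro m hm
  rw [LastVar_p, Pool.Agent.DTZ.Ufd_coeff_mk, if_neg]
  rintro ⟨_, h⟩
  exact h hm

private theorem LastVar_h_dvd {n : ℕ} {K : Type u} [Field K] (f : PS (n + 1) K) (N : ℕ) :
    X (Fin.last n) ^ N ∣ LastVar_h f -
      ∑ k ∈ Finset.range N, C (coeff (Finsupp.single (Fin.last n) k) f) * X (Fin.last n) ^ k := by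
  classical
  rw [X_pow_dvd_iff]
  intro m hm
  rw [map_sub, map_sum, sub_eq_zero, LastVar_h, Pool.Agent.DTZ.Ufd_coeff_mk]
  simp only [coeff_C_mul, coeff_X_pow]
  by_cases h : ∀ j : Fin n, m j.castSucc = 0
  · have h1 : m = Finsupp.single (Fin.last n) (m (Fin.last n)) := by
      ext i
      refine Fin.lastCases ?_ (fun j => ?_) i
      · simp
      · rw [h j, Finsupp.single_apply, if_neg (Fin.castSucc_lt_last j).ne']
    rw [if_pos h, Finset.sum_eq_single (m (Fin.last n))]
    · rw [if_pos h1, mul_one, ← h1]
    · intro b _ hb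
      rw [if_neg, mul_zero]
      intro h2
      apply hb
      rw [h2, Finsupp.single_eq_same]
    · intro h2
      exact absurd (Finset.mem_range.2 hm) h2
  · rw [if_neg h, Finset.sum_eq_zero]
    intro b _
    rw [if_neg, mul_zero]
    intro h2
    apply h
    intro j
    rw [h2, Finsupp.single_apply, if_neg (Fin.castSucc_lt_last j).ne']

/-- the coefficients of `f` at the powers of the last variable -/
theorem constantCoeff_coeff_lastEquiv {n : ℕ} {K : Type u} [Field K] (f : PS (n + 1) K) (k : ℕ) :
    constantCoeff (PowerSeries.coeff k (lastEquiv n K f)) = coeff (Finsupp.single (Fin.last n) k) f := by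
  have hC : ∀ c : K, lastEquiv n K (C c) = PowerSeries.C (C c) := by
    intro c
    rw [← lastEquiv_inl, Pt.ev_C]
  have hX : ∀ j : Fin n, lastEquiv n K (X j.castSucc) = PowerSeries.C (X j) := by
    intro j
    rw [← lastEquiv_inl, Pt.ev_X]
    rfl
  have h1 : ∀ j : Fin n, constantCoeff (PowerSeries.coeff k (lastEquiv n K (LastVar_p f j))) = 0 := by
    intro j
    obtain ⟨g, hg⟩ := LastVar_p_dvd f j
    rw [hg, map_mul, hX, PowerSeries.coeff_C_mul, map_mul, constantCoeff_X, zero_mul]
  have h2 : constantCoeff (PowerSeries.coeff k (lastEquiv n K (LastVar_h f))) =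
      coeff (Finsupp.single (Fin.last n) k) f := by
    obtain ⟨g, hg⟩ := LastVar_h_dvd f (k + 1)
    have h3 : LastVar_h f = ∑ i ∈ Finset.range (k + 1), C (coeff (Finsupp.single (Fin.last n) i) f) *
        X (Fin.last n) ^ i + X (Fin.last n) ^ (k + 1) * g := by
      rw [← hg]
      ring
    rw [h3, map_add, map_mul, map_pow, lastEquiv_X, map_add, PowerSeries.coeff_X_pow_mul', if_neg (by omega), add_zero,
      map_sum, map_sum, Finset.sum_eq_single k]
    · rw [map_mul, hC, map_pow, lastEquiv_X, PowerSeries.coeff_C_mul, PowerSeries.coeff_X_pow, if_pos rfl, mul_one,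
        constantCoeff_C]
    · intro i _ hi
      rw [map_mul, hC, map_pow, lastEquiv_X, PowerSeries.coeff_C_mul, PowerSeries.coeff_X_pow, if_neg (Ne.symm hi),
        mul_zero]
    · intro h
      exact absurd (Finset.mem_range.2 (Nat.lt_succ_self k)) h
  conv_lhs => rw [LastVar_split f]
  rw [map_add, map_add, map_add, h2, map_sum, map_sum, map_sum, Finset.sum_eq_zero (fun j _ => h1 j), add_zero]

theorem isDist_iff {n : ℕ} {K : Type u} [Field K] {P : Polynomial (PS n K)} :
    IsDist P ↔ P.IsDistinguishedAt (IsLocalRing.maximalIdeal (PS n K)) := by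
  constructor
  · rintro ⟨h1, h2⟩
    exact ⟨⟨fun {i} hi => (mem_maximalIdeal_iff _).2 (h2 i hi)⟩, h1⟩
  · intro h
    exact ⟨h.monic, fun i hi => (mem_maximalIdeal_iff _).1 (h.mem hi)⟩

theorem evalLast_eq {n : ℕ} {K : Type u} [Field K] (P : Polynomial (PS n K)) :
    evalLast P = (lastEquiv n K).symm (P : PowerSeries (PS n K)) := by
  rw [← lastEquiv_evalLast, RingEquiv.symm_apply_apply]

theorem evalLast_mul {n : ℕ} {K : Type u} [Field K] (P Q : Polynomial (PS n K)) :
    evalLast (P * Q) = evalLast P * evalLast Q := by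
  rw [evalLast, Polynomial.eval₂_mul]
  rfl

theorem evalLast_add {n : ℕ} {K : Type u} [Field K] (P Q : Polynomial (PS n K)) :
    evalLast (P + Q) = evalLast P + evalLast Q := by
  rw [evalLast, Polynomial.eval₂_add]
  rfl

/-- Weierstrass preparation: if `f(0,..,0,X_n)` has order `e` then `f` is a unit times a
distinguished polynomial of degree `e` -/
theorem exists_weierstrass {n : ℕ} {K : Type u} [Field K] (f : PS (n + 1) K) (e : ℕ)
    (h0 : ∀ i < e, coeff (Finsupp.single (Fin.last n) i) f = 0)
    (he : coeff (Finsupp.single (Fin.last n) e) f ≠ 0) :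
    ∃ P : Polynomial (PS n K), IsDist P ∧ P.natDegree = e ∧ Associated f (evalLast P) := by
  have hc : ∀ k, PowerSeries.coeff k ((lastEquiv n K f).map (IsLocalRing.residue (PS n K))) = 0 ↔
      coeff (Finsupp.single (Fin.last n) k) f = 0 := by
    intro k
    rw [PowerSeries.coeff_map, ← constantCoeff_coeff_lastEquiv, ← mem_maximalIdeal_iff]
    exact IsLocalRing.residue_eq_zero_iff _
  have hg : (lastEquiv n K f).map (IsLocalRing.residue (PS n K)) ≠ 0 := by
    intro h
    apply he
    rw [← hc, h, map_zero]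
  obtain ⟨P, h, H⟩ := (lastEquiv n K f).exists_isWeierstrassFactorization hg
  refine ⟨P, isDist_iff.2 H.isDistinguishedAt, ?_, ?_⟩
  · rw [H.natDegree_eq_toNat_order_map]
    have h1 : ((lastEquiv n K f).map (IsLocalRing.residue (PS n K))).order = e := by
      rw [PowerSeries.order_eq_nat]
      refine ⟨fun h => he ((hc e).1 h), fun i hi => (hc i).2 (h0 i hi)⟩
    rw [h1]
    rfl
  · rw [evalLast_eq]
    have h1 : f = (lastEquiv n K).symm ((P : PowerSeries (PS n K)) * h) := by
      rw [← H.eq_mul, RingEquiv.symm_apply_apply]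
    conv_lhs => rw [h1]
    rw [map_mul]
    exact associated_mul_unit_left _ _ (H.isUnit.map _)

/-- uniqueness in the Weierstrass division: no nonzero remainder is divisible -/
theorem IsDist.eq_zero_of_dvd {n : ℕ} {K : Type u} [Field K] {P : Polynomial (PS n K)}
    (hP : IsDist P) (R : Polynomial (PS n K)) (hR : R.degree < P.degree)
    (hd : evalLast P ∣ evalLast R) : R = 0 := by
  have hP' := isDist_iff.1 hP
  have h1 : (P : PowerSeries (PS n K)) ∣ (R : PowerSeries (PS n K)) := by
    rw [← lastEquiv_evalLast, ← lastEquiv_evalLast]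
    exact map_dvd _ hd
  obtain ⟨q, hq⟩ := h1
  have H : (P : PowerSeries (PS n K)).IsWeierstrassFactorization P 1 := ⟨hP', isUnit_one, by rw [mul_one]⟩
  have h2 : P.natDegree = ((P : PowerSeries (PS n K)).map (Ideal.Quotient.mk
      (IsLocalRing.maximalIdeal (PS n K)))).order.toNat := H.natDegree_eq_toNat_order_map
  refine (hP'.isWeierstrassDivisorAt'.eq_zero_of_mul_eq (q := q) (r := R) ?_ hq.symm).2
  rw [← h2, ← Polynomial.degree_eq_natDegree hP.1.ne_zero]
  exact hR

/-- divisibility of polynomials by a distinguished polynomial, in the power series ring and in the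
polynomial ring -/
theorem IsDist.dvd_iff {n : ℕ} {K : Type u} [Field K] {P : Polynomial (PS n K)}
    (hP : IsDist P) (Q : Polynomial (PS n K)) : evalLast P ∣ evalLast Q ↔ P ∣ Q := by
  constructor
  · intro h
    rw [← Polynomial.modByMonic_eq_zero_iff_dvd hP.1]
    apply hP.eq_zero_of_dvd _ (Polynomial.degree_modByMonic_lt Q hP.1)
    have h1 : Q = Q %ₘ P + P * (Q /ₘ P) := (Polynomial.modByMonic_add_div Q P).symm
    have h2 : evalLast Q = evalLast (Q %ₘ P) + evalLast P * evalLast (Q /ₘ P) := by
      conv_lhs => rw [h1]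
      rw [evalLast_add, evalLast_mul]
    rw [h2] at h
    exact (dvd_add_left (Dvd.intro _ rfl)).1 h
  · rintro ⟨S, rfl⟩
    rw [evalLast_mul]
    exact Dvd.intro _ rfl

/-- a distinguished polynomial which is prime in the polynomial ring is prime in the power series
ring -/
theorem IsDist.prime {n : ℕ} {K : Type u} [Field K] {P : Polynomial (PS n K)}
    (hP : IsDist P) (h : Prime P) : Prime (evalLast P) := by
  rw [evalLast_eq]
  exact (MulEquiv.prime_iff (lastEquiv n K).symm).2 (Pool.Agent.DTZ.Ufd_prime_dist (isDist_iff.1 hP) h)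

/-- a monic factor of a distinguished polynomial is distinguished -/
theorem IsDist.of_mul {n : ℕ} {K : Type u} [Field K] {P Q : Polynomial (PS n K)}
    (h : IsDist (P * Q)) (hP : P.Monic) : IsDist P :=
  isDist_iff.2 (Pool.Agent.DTZ.Ufd_dist_dvd (isDist_iff.1 h) hP (Dvd.intro _ rfl))

end DT
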