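import Pool.Agent.DT.Complete

/-!
# The map `k[[X_0, …, X_n]] → k((τ))[[X_0, …, X_{n-1}]]`, `X_0 ↦ τ`, `X_{i+1} ↦ X_i`

* `exists_lau`: `MvPowerSeries.finSuccEquiv`-like; or by coefficients; multiplicativity: antidiagonal of
  `Finsupp.cons m α` = pairs (`Finsupp.cons i β`, `Finsupp.cons j γ`) (compare `optionFunLeft_mul` in
  `Mathlib/RingTheory/MvPowerSeries/Equiv.lean`); `HahnSeries.ofPowerSeries` is a ring homomorphism.
* `isUnit_lau`: the constant coefficient is nonzero (`MvPowerSeries.isUnit_iff_constantCoeff`, field).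
* `lau_mem_pow`: `𝔪^m` = order `≥ m` (`mem_maximalIdeal_pow_iff`); `a ∈ PP^m` iff all coefficients at exponents whose
  last `n` entries have sum `< m` vanish (`PP` is generated by `X_1..X_n`: write such an `a` as `∑ X_i a_i` and induct).
* `exists_lau_approx`: truncate `x` to total degree `< m` (finitely many coefficients in `k((τ))`), multiply by a large
  power of `τ` to get coefficients in `k[[τ]]`.
-/

universe u

open MvPowerSeries

namespace DT

/-- the variable `τ` of `k((τ))` -/
noncomputable def tau (k : Type u) [Field k] : LaurentSeries k := HahnSeries.single 1 1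

section aux

variable {n : ℕ} {k : Type u} [Field k]

/-- the coefficient of `X^α` as a power series in `X_0` -/
noncomputable def LauMap_row (f : PS (n + 1) k) (α : Fin n →₀ ℕ) : PowerSeries k :=
  PowerSeries.mk fun m => coeff (Finsupp.cons m α) f

lemma LauMap_row_add (f g : PS (n + 1) k) (α : Fin n →₀ ℕ) :
    LauMap_row (f + g) α = LauMap_row f α + LauMap_row g α := by
  ext m
  simp [LauMap_row]

lemma LauMap_row_zero (α : Fin n →₀ ℕ) : LauMap_row (0 : PS (n + 1) k) α = 0 := by
  ext m
  simp [LauMap_row]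

lemma LauMap_row_C (c : k) (α : Fin n →₀ ℕ) :
    LauMap_row (C c : PS (n + 1) k) α = if α = 0 then PowerSeries.C c else 0 := by
  classical
  ext m
  rw [LauMap_row, PowerSeries.coeff_mk, coeff_C]
  split_ifs with h1 h2 h2
  · rw [PowerSeries.coeff_C]
    rw [if_pos]
    have := DFunLike.congr_fun h1 0
    simpa using this
  · exfalso
    apply h2
    rw [← Finsupp.cons_zero_zero, Finsupp.cons_injective2.eq_iff] at h1
    exact h1.2
  · rw [PowerSeries.coeff_C, if_neg]
    rintro rfl
    apply h1
    rw [h2, Finsupp.cons_zero_zero]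
  · simp

lemma LauMap_row_one (α : Fin n →₀ ℕ) :
    LauMap_row (1 : PS (n + 1) k) α = if α = 0 then 1 else 0 := by
  have h := LauMap_row_C (n := n) (1 : k) α
  rw [map_one, map_one] at h
  exact h

lemma LauMap_row_mul (f g : PS (n + 1) k) (α : Fin n →₀ ℕ) :
    LauMap_row (f * g) α =
      ∑ p ∈ Finset.HasAntidiagonal.antidiagonal α, LauMap_row f p.1 * LauMap_row g p.2 := by
  classical
  ext m
  rw [map_sum]
  simp only [PowerSeries.coeff_mul, LauMap_row, PowerSeries.coeff_mk, coeff_mul]
  rw [Finset.sum_sigma']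
  refine Finset.sum_bij' (fun y _ => ⟨(y.1.tail, y.2.tail), (y.1 0, y.2 0)⟩)
    (fun z _ => (Finsupp.cons z.2.1 z.1.1, Finsupp.cons z.2.2 z.1.2)) ?_ ?_ ?_ ?_ ?_
  · rintro ⟨a, b⟩ hab
    rw [Finset.HasAntidiagonal.mem_antidiagonal] at hab
    simp only at hab
    rw [Finset.mem_sigma, Finset.HasAntidiagonal.mem_antidiagonal, Finset.HasAntidiagonal.mem_antidiagonal]
    constructor
    · ext i
      have := DFunLike.congr_fun hab i.succ
      simpa [Finsupp.tail_apply] using this
    · have := DFunLike.congr_fun hab 0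
      simpa using this
  · rintro ⟨⟨a, b⟩, ⟨i, j⟩⟩ h
    rw [Finset.mem_sigma, Finset.HasAntidiagonal.mem_antidiagonal, Finset.HasAntidiagonal.mem_antidiagonal] at h
    obtain ⟨h1, h2⟩ := h
    simp only at h1 h2
    rw [Finset.HasAntidiagonal.mem_antidiagonal]
    ext l
    refine Fin.cases ?_ (fun l => ?_) l
    · simp [h2]
    · simp [← h1]
  · rintro ⟨a, b⟩ _
    simp
  · rintro ⟨⟨a, b⟩, ⟨i, j⟩⟩ _
    simp
  · rintro ⟨a, b⟩ _
    simp

end aux

/-- `k[[X_0, …, X_n]] → k((τ))[[X_0, …, X_{n-1}]]`, `X_0 ↦ τ`, `X_{i+1} ↦ X_i`: the coefficient of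
`X^α` is `∑_m (coefficient of X_0^m X^α) τ^m` -/
theorem exists_lau (n : ℕ) (k : Type u) [Field k] :
    ∃ Λ : PS (n + 1) k →+* PS n (LaurentSeries k), ∀ (f : PS (n + 1) k) (α : Fin n →₀ ℕ),
      coeff α (Λ f) =
        HahnSeries.ofPowerSeries ℤ k (PowerSeries.mk fun m => coeff (Finsupp.cons m α) f) := by
  classical
  let F : PS (n + 1) k → PS n (LaurentSeries k) := fun f =>
    (fun α => HahnSeries.ofPowerSeries ℤ k (LauMap_row f α) : (Fin n →₀ ℕ) → LaurentSeries k)
  have hF : ∀ f α, coeff α (F f) = HahnSeries.ofPowerSeries ℤ k (LauMap_row f α) := fun f α => rfl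
  refine ⟨{ toFun := F, map_one' := ?_, map_mul' := ?_, map_zero' := ?_, map_add' := ?_ },
    fun f α => rfl⟩
  · ext1 α
    rw [hF, LauMap_row_one, coeff_one]
    split_ifs
    · rw [map_one]
    · rw [map_zero]
  · intro f g
    ext1 α
    rw [hF, LauMap_row_mul, map_sum, coeff_mul]
    refine Finset.sum_congr rfl fun p _ => ?_
    rw [map_mul, hF, hF]
  · ext1 α
    rw [hF, LauMap_row_zero, map_zero]
    rfl
  · intro f g
    ext1 α
    rw [hF, LauMap_row_add, map_add, map_add, hF, hF]

noncomputable def lau (n : ℕ) (k : Type u) [Field k] : PS (n + 1) k →+* PS n (LaurentSeries k) :=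
  (exists_lau n k).choose

lemma coeff_lau (n : ℕ) (k : Type u) [Field k] (f : PS (n + 1) k) (α : Fin n →₀ ℕ) :
    coeff α (lau n k f) =
      HahnSeries.ofPowerSeries ℤ k (PowerSeries.mk fun m => coeff (Finsupp.cons m α) f) :=
  (exists_lau n k).choose_spec f α

lemma lau_C (n : ℕ) (k : Type u) [Field k] (c : k) : lau n k (C c) = C (HahnSeries.C c) := by
  classical
  ext1 α
  have h := LauMap_row_C (n := n) c α
  rw [LauMap_row] at h
  rw [coeff_lau, h, coeff_C]
  split_ifs
  · rw [HahnSeries.ofPowerSeries_C]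
  · rw [map_zero]

lemma lau_X_zero (n : ℕ) (k : Type u) [Field k] : lau n k (X 0) = C (tau k) := by
  classical
  ext1 α
  have h : (PowerSeries.mk fun m => coeff (Finsupp.cons m α) (X 0 : PS (n + 1) k)) =
      if α = 0 then PowerSeries.X else 0 := by
    ext m
    rw [PowerSeries.coeff_mk, coeff_X]
    split_ifs with h1 h2 h2
    · rw [Finsupp.cons_eq_single_zero_iff] at h1
      rw [PowerSeries.coeff_X, if_pos h1.2]
    · rw [Finsupp.cons_eq_single_zero_iff] at h1
      exact absurd h1.1 h2
    · rw [Finsupp.cons_eq_single_zero_iff] at h1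
      rw [PowerSeries.coeff_X, if_neg]
      intro h3
      exact h1 ⟨h2, h3⟩
    · simp
  rw [coeff_lau, h, coeff_C]
  split_ifs
  · rw [HahnSeries.ofPowerSeries_X]
    rfl
  · rw [map_zero]

lemma lau_X_succ (n : ℕ) (k : Type u) [Field k] (i : Fin n) : lau n k (X i.succ) = X i := by
  classical
  ext1 α
  have h : (PowerSeries.mk fun m => coeff (Finsupp.cons m α) (X i.succ : PS (n + 1) k)) =
      if α = Finsupp.single i 1 then 1 else 0 := by
    ext m
    rw [PowerSeries.coeff_mk, coeff_X]
    split_ifs with h1 h2 h2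
    · rw [Finsupp.cons_eq_single_succ_iff] at h1
      rw [PowerSeries.coeff_one, if_pos h1.2]
    · rw [Finsupp.cons_eq_single_succ_iff] at h1
      exact absurd h1.1 h2
    · rw [Finsupp.cons_eq_single_succ_iff] at h1
      rw [PowerSeries.coeff_one, if_neg]
      intro h3
      exact h1 ⟨h2, h3⟩
    · simp
  rw [coeff_lau, h, coeff_X]
  split_ifs
  · rw [map_one]
  · rw [map_zero]

/-- the prime ideal `(X_1, …, X_n)` of `k[[X_0, …, X_n]]` -/
noncomputable def PP (n : ℕ) (k : Type u) [Field k] : Ideal (PS (n + 1) k) :=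
  (IsLocalRing.maximalIdeal (PS n (LaurentSeries k))).comap (lau n k)

instance (n : ℕ) (k : Type u) [Field k] : (PP n k).IsPrime :=
  Ideal.IsPrime.comap _

section aux2

variable {n : ℕ} {k : Type u} [Field k]

lemma LauMap_coeff_lau_eq_zero (a : PS (n + 1) k) (α : Fin n →₀ ℕ) :
    coeff α (lau n k a) = 0 ↔ ∀ m, coeff (Finsupp.cons m α) a = 0 := by
  rw [coeff_lau]
  constructor
  · intro h m
    have h1 : (PowerSeries.mk fun m => coeff (Finsupp.cons m α) a) = 0 := by
      apply HahnSeries.ofPowerSeries_injective (Γ := ℤ)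
      rw [h, map_zero]
    have h2 := congrArg (PowerSeries.coeff m) h1
    rw [PowerSeries.coeff_mk, map_zero] at h2
    exact h2
  · intro h
    have h1 : (PowerSeries.mk fun m => coeff (Finsupp.cons m α) a) = 0 := by
      ext m
      rw [PowerSeries.coeff_mk, h m, map_zero]
    rw [h1, map_zero]

private theorem LauMap_coeff_X_mul (i : Fin (n + 1)) (d : Fin (n + 1) →₀ ℕ) (g : PS (n + 1) k) :
    coeff d (X i * g) = if Finsupp.single i 1 ≤ d then coeff (d - Finsupp.single i 1) g else 0 := by
  rw [X, coeff_monomial_mul]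
  simp

/-- a series without terms of degree at most `N` in the last `n` variables is a combination of
them -/
lemma LauMap_split (N : ℕ) (f : PS (n + 1) k)
    (hf : ∀ d : Fin (n + 1) →₀ ℕ, d.tail.degree < N + 1 → coeff d f = 0) :
    ∃ g : Fin n → PS (n + 1) k, f = ∑ i : Fin n, X i.succ * g i ∧
      ∀ i, ∀ d : Fin (n + 1) →₀ ℕ, d.tail.degree < N → coeff d (g i) = 0 := by
  classical
  let G : Fin n → PS (n + 1) k := fun i => (fun e => if (∀ j < i, e j.succ = 0) then
    coeff (e + Finsupp.single i.succ 1) f else 0 : (Fin (n + 1) →₀ ℕ) → k)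
  have hG : ∀ i e, coeff e (G i) = if (∀ j < i, e j.succ = 0) then
    coeff (e + Finsupp.single i.succ 1) f else 0 := fun i e => rfl
  refine ⟨G, ?_, ?_⟩
  · ext d
    rw [map_sum]
    by_cases hd : d.tail = 0
    · rw [hf d (by rw [hd]; simp)]
      symm
      apply Finset.sum_eq_zero
      intro i _
      rw [LauMap_coeff_X_mul, if_neg]
      rw [Finsupp.single_le_iff]
      have := DFunLike.congr_fun hd i
      rw [Finsupp.tail_apply] at this
      simp [this]
    · have hex : ∃ i : Fin n, d i.succ ≠ 0 := by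
        by_contra h
        push Not at h
        exact hd (Finsupp.ext h)
      have hi0 : ∃ i0 : Fin n, d i0.succ ≠ 0 ∧ ∀ j < i0, d j.succ = 0 := by
        let s : Finset (Fin n) := Finset.univ.filter (fun i => d i.succ ≠ 0)
        have hs : s.Nonempty := by
          obtain ⟨i, hi⟩ := hex
          exact ⟨i, by simp [s, hi]⟩
        refine ⟨s.min' hs, ?_, ?_⟩
        · have := s.min'_mem hs
          simpa [s] using this
        · intro j hj
          by_contra h
          have : s.min' hs ≤ j := s.min'_le j (by simp [s, h])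
          exact absurd hj (not_lt.2 this)
      obtain ⟨i0, h0, hmin⟩ := hi0
      rw [Finset.sum_eq_single i0]
      · rw [LauMap_coeff_X_mul, if_pos]
        · rw [hG, if_pos]
          · rw [tsub_add_cancel_of_le]
            rw [Finsupp.single_le_iff]
            omega
          · intro j hj
            rw [Finsupp.tsub_apply, hmin j hj]
            simp
        · rw [Finsupp.single_le_iff]
          omega
      · intro i _ hi
        rw [LauMap_coeff_X_mul]
        split_ifs with h1
        · rw [hG, if_neg]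
          intro h2
          rw [Finsupp.single_le_iff] at h1
          have h3 : i0 < i := by
            rcases lt_trichotomy i0 i with h | h | h
            · exact h
            · exact absurd h.symm hi
            · have := hmin i h
              omega
          have h4 := h2 i0 h3
          rw [Finsupp.tsub_apply, Finsupp.single_apply, if_neg (by
            intro h5
            exact hi (Fin.succ_injective _ h5))] at h4
          omega
        · rfl
      · intro h
        exact absurd (Finset.mem_univ _) h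
  · intro i d hd
    rw [hG]
    split_ifs
    · apply hf
      have : (d + Finsupp.single i.succ 1).tail = d.tail + Finsupp.single i 1 := by
        ext j
        simp [Finsupp.tail_apply, Finsupp.single_apply, Fin.succ_inj]
      rw [this, map_add, Finsupp.degree_single]
      omega
    · rfl

lemma LauMap_X_succ_mem (i : Fin n) : (X i.succ : PS (n + 1) k) ∈ PP n k := by
  rw [PP, Ideal.mem_comap, lau_X_succ, Pool.Agent.DTZ.Ufd_mem_max]
  exact constantCoeff_X i

/-- elements of the powers of `PP` -/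
lemma LauMap_mem_pow (N : ℕ) (f : PS (n + 1) k)
    (hf : ∀ d : Fin (n + 1) →₀ ℕ, d.tail.degree < N → coeff d f = 0) :
    f ∈ (Ideal.span (Set.range fun i : Fin n => (X i.succ : PS (n + 1) k))) ^ N := by
  induction N generalizing f with
  | zero => simp
  | succ N ih =>
    obtain ⟨g, hg, hg2⟩ := LauMap_split N f hf
    rw [hg]
    apply Ideal.sum_mem
    intro i _
    rw [pow_succ']
    apply Ideal.mul_mem_mul
    · exact Ideal.subset_span ⟨i, rfl⟩
    · exact ih (g i) (hg2 i)

lemma LauMap_coeff_of_mem (N : ℕ) (a : PS (n + 1) k)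
    (ha : lau n k a ∈ IsLocalRing.maximalIdeal (PS n (LaurentSeries k)) ^ N) :
    ∀ d : Fin (n + 1) →₀ ℕ, d.tail.degree < N → coeff d a = 0 := by
  intro d hd
  rw [Pool.Agent.DTZ.Ufd_mem_pow] at ha
  have h1 := ha d.tail hd
  rw [LauMap_coeff_lau_eq_zero] at h1
  have h2 := h1 (d 0)
  rwa [Finsupp.cons_tail] at h2

end aux2

/-- `(X_1, …, X_n)` -/
lemma PP_eq_span (n : ℕ) (k : Type u) [Field k] :
    PP n k = Ideal.span (Set.range fun i : Fin n => (X i.succ : PS (n + 1) k)) := by
  apply le_antisymm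
  · intro a ha
    have h1 : lau n k a ∈ IsLocalRing.maximalIdeal (PS n (LaurentSeries k)) ^ 1 := by
      rw [pow_one]
      exact ha
    have h2 := LauMap_mem_pow 1 a (LauMap_coeff_of_mem 1 a h1)
    rwa [pow_one] at h2
  · rw [Ideal.span_le]
    rintro _ ⟨i, rfl⟩
    exact LauMap_X_succ_mem i

lemma X_zero_notMem_PP (n : ℕ) (k : Type u) [Field k] : (X 0 : PS (n + 1) k) ∉ PP n k := by
  rw [PP, Ideal.mem_comap, lau_X_zero, Pool.Agent.DTZ.Ufd_mem_max, constantCoeff_C, tau]
  intro h
  have h1 : (1 : k) = 0 := by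
    have h2 := congrArg (fun x : LaurentSeries k => x.coeff 1) h
    simp at h2
  exact one_ne_zero h1

lemma isUnit_lau (n : ℕ) (k : Type u) [Field k] (a : PS (n + 1) k) (ha : a ∉ PP n k) :
    IsUnit (lau n k a) := by
  by_contra h
  exact ha ((IsLocalRing.mem_maximalIdeal _).2 h)

lemma lau_mem_pow (n : ℕ) (k : Type u) [Field k] (m : ℕ) (a : PS (n + 1) k) :
    lau n k a ∈ IsLocalRing.maximalIdeal (PS n (LaurentSeries k)) ^ m ↔ a ∈ PP n k ^ m := by
  constructor
  · intro h
    rw [PP_eq_span]
    exact LauMap_mem_pow m a (LauMap_coeff_of_mem m a h)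
  · intro h
    have h1 : (PP n k).map (lau n k) ≤ IsLocalRing.maximalIdeal (PS n (LaurentSeries k)) :=
      Ideal.map_comap_le
    have h2 := Ideal.pow_right_mono h1 m
    rw [← Ideal.map_pow] at h2
    exact h2 (Ideal.mem_map_of_mem _ h)

lemma exists_lau_approx (n : ℕ) (k : Type u) [Field k] (m : ℕ) (x : PS n (LaurentSeries k)) :
    ∃ (a : PS (n + 1) k) (e : ℕ), lau n k (X 0 ^ e) * x - lau n k a ∈
      IsLocalRing.maximalIdeal (PS n (LaurentSeries k)) ^ m := by
  classical
  have htau : HahnSeries.ofPowerSeries ℤ k PowerSeries.X = tau k := HahnSeries.ofPowerSeries_X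
  have h1 : ∀ y : LaurentSeries k, ∃ e0 : ℕ, ∀ e ≥ e0, ∃ p : PowerSeries k,
      tau k ^ e * y = HahnSeries.ofPowerSeries ℤ k p := by
    intro y
    obtain ⟨⟨p, s⟩, hs⟩ := IsLocalization.surj (Submonoid.powers (PowerSeries.X : PowerSeries k)) y
    obtain ⟨s, e0, rfl⟩ := s
    rw [LaurentSeries.coe_algebraMap] at hs
    simp only [map_pow] at hs
    rw [htau] at hs
    refine ⟨e0, fun e he => ⟨PowerSeries.X ^ (e - e0) * p, ?_⟩⟩
    rw [map_mul, map_pow, htau, ← hs]
    have : tau k ^ e = tau k ^ (e - e0) * tau k ^ e0 := by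
      rw [← pow_add, Nat.sub_add_cancel he]
    rw [this]
    ring
  choose e0 he0 using h1
  have hfin : {α : Fin n →₀ ℕ | α.degree < m}.Finite := Finsupp.finite_of_degree_lt m
  let E : ℕ := hfin.toFinset.sup (fun α => e0 (coeff α x))
  have hE : ∀ α : Fin n →₀ ℕ, α.degree < m → e0 (coeff α x) ≤ E := fun α hα =>
    Finset.le_sup (f := fun α => e0 (coeff α x)) (hfin.mem_toFinset.2 hα)
  have h2 : ∀ α : Fin n →₀ ℕ, ∃ p : PowerSeries k, α.degree < m →
      tau k ^ E * coeff α x = HahnSeries.ofPowerSeries ℤ k p := by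
    intro α
    by_cases hα : α.degree < m
    · obtain ⟨p, hp⟩ := he0 (coeff α x) E (hE α hα)
      exact ⟨p, fun _ => hp⟩
    · exact ⟨0, fun h => absurd h hα⟩
  choose p hp using h2
  let a : PS (n + 1) k := (fun d => PowerSeries.coeff (d 0) (p d.tail) : (Fin (n + 1) →₀ ℕ) → k)
  have ha : ∀ d, coeff d a = PowerSeries.coeff (d 0) (p d.tail) := fun d => rfl
  refine ⟨a, E, ?_⟩
  rw [Pool.Agent.DTZ.Ufd_mem_pow]
  intro α hα
  have h3 : (PowerSeries.mk fun m => coeff (Finsupp.cons m α) a) = p α := by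
    ext j
    rw [PowerSeries.coeff_mk, ha, Finsupp.cons_zero, Finsupp.tail_cons]
  rw [map_sub, coeff_lau, h3, map_pow, lau_X_zero, ← map_pow, coeff_C_mul, hp α hα, sub_self]

end DT
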