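import Pool.Agent.DT.LauMap
import Pool.Agent.DT.ComplCrit

/-!
# The completion of a hypersurface ring along `(X_1, …, X_n)`

* `lauQ_mem_pow`: lift `a`; `lau a ∈ 𝔪^m + (lau F)`, `lau a = x · lau F + (element of 𝔪^m)`, `x ∈ k((τ))[[X]]`;
  approximate `x` by `exists_lau_approx`: `τ^e x - lau c ∈ 𝔪^m`; so `lau (X_0^e a - c F) ∈ 𝔪^m`, `lau_mem_pow`.
* `lauQ_approx`: `exists_lau_approx`.
-/

universe u

open MvPowerSeries

namespace DT

/-- the induced map of hypersurface rings -/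
noncomputable def lauQ (n : ℕ) (k : Type u) [Field k] (F : PS (n + 1) k) :
    (PS (n + 1) k ⧸ Ideal.span {F}) →+* (PS n (LaurentSeries k) ⧸ Ideal.span {lau n k F}) :=
  Ideal.quotientMap _ (lau n k) (by
    rw [Ideal.span_le, Set.singleton_subset_iff]
    exact Ideal.mem_comap.2 (Ideal.subset_span rfl))

/-- the prime of the hypersurface ring -/
noncomputable def PQ (n : ℕ) (k : Type u) [Field k] (F : PS (n + 1) k) :
    Ideal (PS (n + 1) k ⧸ Ideal.span {F}) := (PP n k).map (Ideal.Quotient.mk _)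

/-- the maximal ideal of the target -/
noncomputable def MQ (n : ℕ) (k : Type u) [Field k] (F : PS (n + 1) k) :
    Ideal (PS n (LaurentSeries k) ⧸ Ideal.span {lau n k F}) :=
  (IsLocalRing.maximalIdeal (PS n (LaurentSeries k))).map (Ideal.Quotient.mk _)

section
variable (n : ℕ) (k : Type u) [Field k] (F : PS (n + 1) k) (hF : F ∈ PP n k)
include hF

lemma PQ_isPrime : (PQ n k F).IsPrime := by
  refine Ideal.map_isPrime_of_surjective Ideal.Quotient.mk_surjective ?_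
  rw [Ideal.mk_ker, Ideal.span_le, Set.singleton_subset_iff]
  exact hF

lemma mk_mem_PQ (a : PS (n + 1) k) :
    Ideal.Quotient.mk (Ideal.span {F}) a ∈ PQ n k F ↔ a ∈ PP n k := by
  refine Ideal.mem_quotient_iff_mem ?_
  rw [Ideal.span_le, Set.singleton_subset_iff]
  exact hF

lemma lauQ_isUnit (a) (ha : a ∉ PQ n k F) : IsUnit (lauQ n k F a) := by
  obtain ⟨a, rfl⟩ := Ideal.Quotient.mk_surjective a
  rw [mk_mem_PQ n k F hF] at ha
  exact (isUnit_lau n k a ha).map (Ideal.Quotient.mk (Ideal.span {lau n k F}))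

lemma lauQ_mem (a) (ha : a ∈ PQ n k F) : lauQ n k F a ∈ MQ n k F := by
  obtain ⟨a, rfl⟩ := Ideal.Quotient.mk_surjective a
  rw [mk_mem_PQ n k F hF] at ha
  exact Ideal.mem_map_of_mem (Ideal.Quotient.mk (Ideal.span {lau n k F})) (Ideal.mem_comap.1 ha)

lemma lauQ_mem_pow (m : ℕ) (a) (ha : lauQ n k F a ∈ MQ n k F ^ m) :
    ∃ b, b ∉ PQ n k F ∧ b * a ∈ PQ n k F ^ m := by
  obtain ⟨a, rfl⟩ := Ideal.Quotient.mk_surjective a
  have h1 : lauQ n k F (Ideal.Quotient.mk (Ideal.span {F}) a) =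
      Ideal.Quotient.mk (Ideal.span {lau n k F}) (lau n k a) := rfl
  rw [h1, MQ, ← Ideal.map_pow,
    Ideal.mem_map_iff_of_surjective _ Ideal.Quotient.mk_surjective] at ha
  obtain ⟨y, hy, hya⟩ := ha
  rw [Ideal.Quotient.mk_eq_mk_iff_sub_mem, Ideal.mem_span_singleton'] at hya
  obtain ⟨x, hx⟩ := hya
  obtain ⟨c, e, hce⟩ := exists_lau_approx n k m x
  have h2 : lau n k (X 0 ^ e * a + c * F) ∈
      IsLocalRing.maximalIdeal (PS n (LaurentSeries k)) ^ m := by
    have h3 : lau n k (X 0 ^ e * a + c * F) = lau n k (X 0 ^ e) * y -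
        lau n k F * (lau n k (X 0 ^ e) * x - lau n k c) := by
      rw [map_add, map_mul, map_mul]
      linear_combination (lau n k (X 0 ^ e)) * hx
    rw [h3]
    exact Ideal.sub_mem _ (Ideal.mul_mem_left _ _ hy) (Ideal.mul_mem_left _ _ hce)
  rw [lau_mem_pow] at h2
  refine ⟨Ideal.Quotient.mk _ (X 0 ^ e), ?_, ?_⟩
  · rw [mk_mem_PQ n k F hF]
    exact fun h => X_zero_notMem_PP n k (Ideal.IsPrime.mem_of_pow_mem inferInstance e h)
  · have h4 : Ideal.Quotient.mk (Ideal.span {F}) (X 0 ^ e) * Ideal.Quotient.mk (Ideal.span {F}) a =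
        Ideal.Quotient.mk (Ideal.span {F}) (X 0 ^ e * a + c * F) := by
      rw [map_add, map_mul, map_mul (Ideal.Quotient.mk (Ideal.span {F})) c F,
        Ideal.Quotient.eq_zero_iff_mem.2 (Ideal.mem_span_singleton_self F), mul_zero, add_zero]
    rw [h4, PQ, ← Ideal.map_pow]
    exact Ideal.mem_map_of_mem _ h2

lemma lauQ_approx (m : ℕ) (x) :
    ∃ a b, b ∉ PQ n k F ∧ lauQ n k F b * x - lauQ n k F a ∈ MQ n k F ^ m := by
  obtain ⟨x, rfl⟩ := Ideal.Quotient.mk_surjective x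
  obtain ⟨c, e, hce⟩ := exists_lau_approx n k m x
  refine ⟨Ideal.Quotient.mk _ c, Ideal.Quotient.mk _ (X 0 ^ e), ?_, ?_⟩
  · rw [mk_mem_PQ n k F hF]
    exact fun h => X_zero_notMem_PP n k (Ideal.IsPrime.mem_of_pow_mem inferInstance e h)
  · have h1 : ∀ a, lauQ n k F (Ideal.Quotient.mk (Ideal.span {F}) a) =
        Ideal.Quotient.mk (Ideal.span {lau n k F}) (lau n k a) := fun a => rfl
    rw [h1, h1, ← map_mul, ← map_sub, MQ, ← Ideal.map_pow]
    exact Ideal.mem_map_of_mem _ hce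

end

end DT
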