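import Pool.Agent.DT.Crit

/-!
# Tools for the lower bound

* `lin_sect_ne_zero`: `σ = sect h₁`, `lin (σ.ev g) = vecMul (lin g) σ.linMat`; `σ.linMat` is injective on the right
  (as `gen.linMat * σ.linMat = 1`) and kills `lin (ext h₁)`; if it kills also `lin (ext h₂)`: the kernel of
  `vecMul · σ.linMat` on `(r+1)`-rows is one-dimensional, so `lin h₂` is proportional to `lin h₁` over `K^*`, hence
  over `K`.
* `lin_eq_zero_of_two`: `f = h₁ a`; if `lin f ≠ 0` then `constantCoeff a ≠ 0`, `a` is a unit, `h₂ ∣ h₁`, both prime, so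
  associated, so `(sect h₁).ev (ext h₂) = 0`, contradiction.
* `lin_eq_zero_of_dvd_pow`: suppose `lin D ≠ 0`; `D` is prime so `E ~ D^k` for some `k` (`(dvd_prime_pow _ _).1`).
  For a vector `v` let `v.ev : PS 2 L → PS 1 L`, `X_i ↦ v_i T`. `K` infinite: choose `v` with all the
  `lin (m i) · v ≠ 0` and `lin D · v ≠ 0`: then the order of `E(vT)` is `d` and of `D(vT)` is `1`, so `k = d`. For
  `v = a`: the order of `E(aT)` is `> d` (one factor has order `≥ 2`), so the order of `D(aT)` is `≥ 2`, i.e.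
  `lin D · a = 0`; the same for `b`; so `lin D = 0`.
* `level4`: `σ = sect Ψ₁`, `E = σ.ev Ψ₂ = σ.ev (Ψ₂ - τΨ₁) = σ(c) σ(a₁) σ(a₂) σ(a₃) mod 𝔪^4`. On the plane
  `lin Ψ₁ = 0` (the image of `σ.linMat`) the linear forms `a₁, a₂, a₃` are nonzero, and `a₂, a₃` are independent: take
  `a` = the direction of `a₂ = 0`, `b` the direction of `a₃ = 0` (in the two coordinates of level 2).
-/

universe u

open MvPowerSeries

namespace DT

section
variable {r : ℕ} {K : Type u} [Field K]

private lemma Levels_incl_linMat_castSucc (L : Type u) [Field L] (j k : Fin r) :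
    (incl r L).linMat k.castSucc j = if k = j then 1 else 0 := by
  change lin ((incl r L).val k.castSucc) j = _
  simp only [incl, Fin.snoc_castSucc]
  exact lin_X k j

private lemma Levels_incl_linMat_last (L : Type u) [Field L] (j : Fin r) :
    (incl r L).linMat (Fin.last r) j = 0 := by
  change lin ((incl r L).val (Fin.last r)) j = _
  simp only [incl, Fin.snoc_last]
  simp [lin]

/-- the rows killed by a section are the multiples of the linear part of its equation -/
theorem Levels_ker {L : Type u} [Field L] {σ : Pt (r + 1) r L} {h : PS (r + 1) L}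
    (hs : IsSect σ h) (w : Fin (r + 1) → L) (hw : Matrix.vecMul w σ.linMat = 0) :
    ∃ γ : L, w = γ • lin h := by
  obtain ⟨Φ, Φ', h1, h2, h3, h4⟩ := hs
  have h5 : Φ'.linMat * Φ.linMat = 1 := by rw [← Pt.linMat_comp, h2, Pt.linMat_id]
  rw [h4, Pt.linMat_comp, ← Matrix.vecMul_vecMul] at hw
  have hv : ∀ j : Fin r, Matrix.vecMul w Φ'.linMat j.castSucc = 0 := by
    intro j
    have h6 := congrFun hw j
    rw [Matrix.vecMul, dotProduct, Fin.sum_univ_castSucc, Levels_incl_linMat_last, mul_zero,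
      add_zero, Pi.zero_apply] at h6
    rw [← h6, Finset.sum_eq_single j]
    · rw [Levels_incl_linMat_castSucc, if_pos rfl, mul_one]
    · intro b _ hb
      rw [Levels_incl_linMat_castSucc, if_neg hb, mul_zero]
    · intro hj
      exact absurd (Finset.mem_univ _) hj
  refine ⟨Matrix.vecMul w Φ'.linMat (Fin.last r), ?_⟩
  have h7 : w = Matrix.vecMul (Matrix.vecMul w Φ'.linMat) Φ.linMat := by
    rw [Matrix.vecMul_vecMul, h5, Matrix.vecMul_one]
  funext j
  have h8 := congrFun h7 j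
  rw [h8, Matrix.vecMul, dotProduct, Fin.sum_univ_castSucc]
  simp only [hv, zero_mul, Finset.sum_const_zero, zero_add]
  rw [Pi.smul_apply, smul_eq_mul, ← h3]
  rfl

/-- transversality: independent linear parts -/
theorem lin_sect_ne_zero {h₁ h₂ : PS (r + 1) K} (h10 : constantCoeff h₁ = 0)
    (h1l : lin h₁ ≠ 0)
    (hind : ∀ a b : K, a • lin h₁ + b • lin h₂ = 0 → a = 0 ∧ b = 0) :
    lin ((sect h₁).ev (ext r K (r + 1) h₂)) ≠ 0 := by
  intro h0
  rw [Pt.lin_ev'] at h0
  obtain ⟨γ, hγ⟩ := Levels_ker (sect_isSect h10 h1l) _ h0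
  obtain ⟨j0, hj0⟩ : ∃ j, lin h₁ j ≠ 0 := by
    by_contra hcon
    push Not at hcon
    exact h1l (funext hcon)
  have hg : ∀ j, algebraMap K (KS r K) (lin h₂ j) = γ * algebraMap K (KS r K) (lin h₁ j) := by
    intro j
    have h1 := congrFun hγ j
    rw [Pi.smul_apply, smul_eq_mul, DT.ext, lin_map, lin_map] at h1
    exact h1
  have hinj := (algebraMap K (KS r K)).injective
  have hne : algebraMap K (KS r K) (lin h₁ j0) ≠ 0 := by
    rw [Ne, _root_.map_eq_zero]
    exact hj0
  have h2 : ∀ j, lin h₂ j * lin h₁ j0 = lin h₂ j0 * lin h₁ j := by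
    intro j
    apply hinj
    rw [map_mul, map_mul, hg j, hg j0]
    ring
  have h3 := (hind (lin h₂ j0) (-(lin h₁ j0)) (by
    funext j
    rw [Pi.add_apply, Pi.smul_apply, Pi.smul_apply, smul_eq_mul, smul_eq_mul, Pi.zero_apply,
      ← h2 j]
    ring)).2
  exact hj0 (neg_eq_zero.1 h3)

/-- two different smooth components make the closed point singular -/
theorem lin_eq_zero_of_two {f h₁ h₂ : PS (r + 1) K} (h10 : constantCoeff h₁ = 0)
    (h1l : lin h₁ ≠ 0) (h20 : constantCoeff h₂ = 0) (h2l : lin h₂ ≠ 0) (hd1 : h₁ ∣ f)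
    (hd2 : h₂ ∣ f) (hne : (sect h₁).ev (ext r K (r + 1) h₂) ≠ 0) :
    constantCoeff f = 0 ∧ lin f = 0 := by
  have hdom : IsDomain (PS (r + 1) K) := NoZeroDivisors.to_isDomain _
  obtain ⟨a, ha⟩ := hd1
  have h0 : constantCoeff f = 0 := by rw [ha, map_mul, h10, zero_mul]
  refine ⟨h0, ?_⟩
  by_cases hca : constantCoeff a = 0
  · rw [ha, lin_mul, h10, hca, zero_smul, zero_smul, add_zero]
  · exfalso
    apply hne
    have hu : IsUnit a := MvPowerSeries.isUnit_iff_constantCoeff.2 (isUnit_iff_ne_zero.2 hca)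
    have h3 : h₂ ∣ h₁ := by
      rw [ha] at hd2
      exact (hu.dvd_mul_right).1 hd2
    have p1 := prime_of_lin_ne_zero h₁ h10 h1l
    have p2 := prime_of_lin_ne_zero h₂ h20 h2l
    have h4 : h₁ ∣ h₂ := ((p2.associated_of_dvd p1 h3).symm).dvd
    rw [(sect_isSect h10 h1l).ev_eq_zero_iff]
    exact map_dvd (ext r K (r + 1)) h4

end

section
variable {n : ℕ} {L : Type u} [Field L]

private lemma Levels_order_eq_one {g : PS n L} (h0 : constantCoeff g = 0) (hl : lin g ≠ 0) :
    g.order = 1 := by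
  refine le_antisymm ?_ (one_le_order_iff_constCoeff_eq_zero.2 h0)
  obtain ⟨j, hj⟩ : ∃ j, lin g j ≠ 0 := by
    by_contra hcon
    push Not at hcon
    exact hl (funext hcon)
  have h1 := order_le (f := g) (d := Finsupp.single j 1) hj
  simpa using h1

private lemma Levels_two_le_order {g : PS n L} (h0 : constantCoeff g = 0) (hl : lin g = 0) :
    ((2 : ℕ) : ℕ∞) ≤ g.order := by
  refine MvPowerSeries.nat_le_order fun d hd => ?_
  rcases Nat.lt_or_ge d.degree 1 with h | h
  · have hd0 : d = 0 := (Finsupp.degree_eq_zero_iff d).1 (by omega)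
    rw [hd0, coeff_zero_eq_constantCoeff_apply, h0]
  · have hd1 : d.degree = 1 := by omega
    have hm : d ∈ Set.range (fun a : Fin n ↦ Finsupp.single a 1) := by
      rw [Finsupp.range_single_one]
      exact hd1
    obtain ⟨j, hj⟩ := hm
    have := congrFun hl j
    rw [← hj]
    exact this

private lemma Levels_order_unit {c : PS n L} (hc : constantCoeff c ≠ 0) : c.order = 0 := by
  by_contra h
  exact hc (order_ne_zero_iff_constCoeff_eq_zero.1 h)

private lemma Levels_order_assoc {f g : PS n L} (h : Associated f g) : f.order = g.order := by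
  obtain ⟨u, rfl⟩ := h
  have hu : constantCoeff (u : PS n L) ≠ 0 :=
    isUnit_iff_ne_zero.1 (MvPowerSeries.isUnit_iff_constantCoeff.1 u.isUnit)
  rw [order_mul, Levels_order_unit hu, add_zero]

private lemma Levels_order_pow (f : PS n L) (k : ℕ) : (f ^ k).order = k * f.order := by
  have h := order_prod (R := L) (fun _ : Fin k => f) Finset.univ
  simpa using h

/-- the line `X_i ↦ v_i T` -/
private noncomputable def Levels_line (v : Fin 2 → L) : Pt 2 1 L where
  val i := C (v i) * X 0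
  cc i := by simp

private lemma Levels_lin_line (v : Fin 2 → L) (g : PS 2 L) :
    lin ((Levels_line v).ev g) 0 = ∑ i, lin g i * v i := by
  rw [Pt.lin_ev]
  refine Finset.sum_congr rfl fun i _ => ?_
  congr 1
  change lin (C (v i) * X 0) 0 = v i
  rw [lin_mul]
  simp

private lemma Levels_line_one {v : Fin 2 → L} {g : PS 2 L} (h0 : constantCoeff g = 0)
    (h : ∑ i, lin g i * v i ≠ 0) : ((Levels_line v).ev g).order = 1 := by
  refine Levels_order_eq_one (by rw [Pt.constantCoeff_ev, h0]) fun hl => h ?_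
  rw [← Levels_lin_line, hl, Pi.zero_apply]

private lemma Levels_line_two {v : Fin 2 → L} {g : PS 2 L} (h0 : constantCoeff g = 0)
    (h : ∑ i, lin g i * v i = 0) : ((2 : ℕ) : ℕ∞) ≤ ((Levels_line v).ev g).order := by
  refine Levels_two_le_order (by rw [Pt.constantCoeff_ev, h0]) ?_
  funext i
  have hi : i = 0 := Subsingleton.elim _ _
  rw [hi, Levels_lin_line, h, Pi.zero_apply]

private lemma Levels_line_ge {v : Fin 2 → L} {g : PS 2 L} (h0 : constantCoeff g = 0) :
    1 ≤ ((Levels_line v).ev g).order :=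
  one_le_order_iff_constCoeff_eq_zero.2 (by rw [Pt.constantCoeff_ev, h0])

end

/-- the leading form of `E` is a product of linear forms which are not all proportional, so `E` is
not, up to a unit, a power of a power series of order one -/
theorem lin_eq_zero_of_dvd_pow {L : Type u} [Field L] [Infinite L] (E D : PS 2 L)
    (a b : Fin 2 → L) (d : ℕ)
    (hab : ∀ ℓ : Fin 2 → L, ∑ i, ℓ i * a i = 0 → ∑ i, ℓ i * b i = 0 → ℓ = 0)
    (c : PS 2 L) (m : Fin d → PS 2 L) (hc : constantCoeff c ≠ 0)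
    (hm0 : ∀ i, constantCoeff (m i) = 0) (hml : ∀ i, lin (m i) ≠ 0)
    (hma : ∃ i, ∑ j, lin (m i) j * a j = 0) (hmb : ∃ i, ∑ j, lin (m i) j * b j = 0)
    (hE : E - c * ∏ i, m i ∈ IsLocalRing.maximalIdeal (PS 2 L) ^ (d + 1))
    (hD0 : constantCoeff D = 0) (n : ℕ) (hdvd : E ∣ D ^ n) : lin D = 0 := by
  classical
  by_contra hl
  have hdom : IsDomain (PS 2 L) := NoZeroDivisors.to_isDomain _
  have hp := prime_of_lin_ne_zero D hD0 hl
  obtain ⟨k, _, hk⟩ := (dvd_prime_pow hp n).1 hdvd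
  -- the value of `E` on a line
  have hEv : ∀ v : Fin 2 → L, ((d + 1 : ℕ) : ℕ∞) ≤
      ((Levels_line v).ev E - (Levels_line v).ev c * ∏ i, (Levels_line v).ev (m i)).order := by
    intro v
    rw [← map_prod, ← map_mul, ← map_sub]
    exact (mem_maximalIdeal_pow_iff _ _).1 (Pt.ev_mem_pow _ _ _ hE)
  have hcv : ∀ v : Fin 2 → L, ((Levels_line v).ev c).order = 0 := fun v =>
    Levels_order_unit (by rwa [Pt.constantCoeff_ev])
  have hkv : ∀ v : Fin 2 → L, ((Levels_line v).ev E).order = k * ((Levels_line v).ev D).order := by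
    intro v
    rw [Levels_order_assoc (hk.map (Levels_line v).ev), map_pow, Levels_order_pow]
  -- a generic line
  obtain ⟨t, ht⟩ := Infinite.exists_notMem_finset
    (insert (-(lin D 1) / lin D 0) (Finset.univ.image fun i => -(lin (m i) 1) / lin (m i) 0))
  have hgen : ∀ ℓ : Fin 2 → L, ℓ ≠ 0 → t ≠ -(ℓ 1) / ℓ 0 → ∑ i, ℓ i * ![t, 1] i ≠ 0 := by
    intro ℓ hℓ htl h0
    rw [Fin.sum_univ_two] at h0
    simp only [Matrix.cons_val_zero, Matrix.cons_val_one, mul_one] at h0
    by_cases h1 : ℓ 0 = 0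
    · rw [h1, zero_mul, zero_add] at h0
      apply hℓ
      funext i
      fin_cases i
      · exact h1
      · exact h0
    · apply htl
      rw [eq_div_iff h1]
      linear_combination h0
  have hkd : k = d := by
    have h1 : ((Levels_line ![t, 1]).ev D).order = 1 := by
      refine Levels_line_one hD0 (hgen _ hl fun h => ht ?_)
      rw [h]
      exact Finset.mem_insert_self _ _
    have h2 : ∀ i, ((Levels_line ![t, 1]).ev (m i)).order = 1 := by
      intro i
      refine Levels_line_one (hm0 i) (hgen _ (hml i) fun h => ht ?_)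
      rw [h]
      exact Finset.mem_insert_of_mem (Finset.mem_image_of_mem _ (Finset.mem_univ i))
    have h3 : ((Levels_line ![t, 1]).ev c * ∏ i, (Levels_line ![t, 1]).ev (m i)).order = (d : ℕ∞) := by
      rw [order_mul, hcv, zero_add, order_prod]
      simp [h2]
    have h4 : ((Levels_line ![t, 1]).ev E).order = (d : ℕ∞) := by
      have h5 := hEv ![t, 1]
      set P := (Levels_line ![t, 1]).ev c * ∏ i, (Levels_line ![t, 1]).ev (m i) with hP
      have h6 : (Levels_line ![t, 1]).ev E = P + ((Levels_line ![t, 1]).ev E - P) := by ring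
      have h7 : P.order ≠ ((Levels_line ![t, 1]).ev E - P).order := by
        rw [h3]
        intro h8
        rw [← h8] at h5
        have : d + 1 ≤ d := by exact_mod_cast h5
        omega
      rw [h6, order_add_of_order_ne h7, h3]
      refine min_eq_left (le_trans ?_ h5)
      exact_mod_cast Nat.le_succ d
    have h5 := hkv ![t, 1]
    rw [h4, h1, mul_one] at h5
    exact_mod_cast h5.symm
  -- the special lines
  have hspec : ∀ v : Fin 2 → L, (∃ i, ∑ j, lin (m i) j * v j = 0) → ∑ j, lin D j * v j = 0 := by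
    rintro v ⟨i, hi⟩
    by_contra hne
    have h1 : ((Levels_line v).ev D).order = 1 := Levels_line_one hD0 hne
    have h2 := hkv v
    rw [h1, mul_one, hkd] at h2
    have h3 : ((d + 1 : ℕ) : ℕ∞) ≤
        ((Levels_line v).ev c * ∏ i, (Levels_line v).ev (m i)).order := by
      rw [order_mul, hcv, zero_add, order_prod,
        ← Finset.add_sum_erase _ _ (Finset.mem_univ i)]
      have h4 : ∑ x ∈ Finset.univ.erase i, (1 : ℕ∞) ≤
          ∑ x ∈ Finset.univ.erase i, ((Levels_line v).ev (m x)).order :=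
        Finset.sum_le_sum fun x _ => Levels_line_ge (hm0 x)
      have h5 : ∑ x ∈ Finset.univ.erase i, (1 : ℕ∞) = ((d - 1 : ℕ) : ℕ∞) := by
        rw [Finset.sum_const, Finset.card_erase_of_mem (Finset.mem_univ i), Finset.card_univ,
          Fintype.card_fin, nsmul_eq_mul, mul_one]
      rw [h5] at h4
      have h6 := add_le_add (Levels_line_two (hm0 i) hi) h4
      refine le_trans ?_ h6
      have hd : 0 < d := i.pos
      have h7 : d + 1 ≤ 2 + (d - 1) := by omega
      exact_mod_cast h7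
    have h4 : ((d + 1 : ℕ) : ℕ∞) ≤ ((Levels_line v).ev E).order := by
      set P := (Levels_line v).ev c * ∏ i, (Levels_line v).ev (m i) with hP
      have h6 : (Levels_line v).ev E = P + ((Levels_line v).ev E - P) := by ring
      rw [h6]
      exact le_trans (le_min h3 (hEv v)) min_order_le_add
    rw [h2] at h4
    have : d + 1 ≤ d := by exact_mod_cast h4
    omega
  exact hl (hab _ (hspec a hma) (hspec b hmb))

/-- the last level: `Ψ₂ - τ Ψ₁` has leading form a product of three linear forms -/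
theorem level4 {L : Type u} [Field L] [CharZero L] (τ : L) (Ψ₁ Ψ₂ c a₁ a₂ a₃ : PS 3 L)
    (hc : constantCoeff c ≠ 0) (ha1 : constantCoeff a₁ = 0) (ha2 : constantCoeff a₂ = 0)
    (ha3 : constantCoeff a₃ = 0) (h10 : constantCoeff Ψ₁ = 0) (h1l : lin Ψ₁ ≠ 0)
    (h : Ψ₂ - C τ * Ψ₁ - c * a₁ * a₂ * a₃ ∈ IsLocalRing.maximalIdeal (PS 3 L) ^ 4)
    (hind : ∀ t : Fin 3 → L, ∑ j, lin Ψ₁ j * t j = 0 → ∑ j, lin a₂ j * t j = 0 →
      ∑ j, lin a₃ j * t j = 0 → t = 0)
    (hind1 : ∃ t : Fin 3 → L, ∑ j, lin Ψ₁ j * t j = 0 ∧ ∑ j, lin a₁ j * t j ≠ 0) :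
    (sect Ψ₁).ev (ext 2 L 3 Ψ₂) ≠ 0 ∧
    ∀ (D : PS 2 (KS 2 L)) (n : ℕ), constantCoeff D = 0 →
      (sect Ψ₁).ev (ext 2 L 3 Ψ₂) ∣ D ^ n → lin D = 0 := by
  classical
  have hs := sect_isSect h10 h1l
  set σ := sect Ψ₁ with hσ
  have hinf : Infinite (KS 2 L) := CharZero.infinite _
  -- the matrix of the three linear parts
  let M : Matrix (Fin 3) (Fin 3) L := Matrix.of ![lin Ψ₁, lin a₂, lin a₃]
  have hM : M.det ≠ 0 := by
    intro h0
    obtain ⟨v, hv, hv0⟩ := Matrix.exists_mulVec_eq_zero_iff.mpr h0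
    apply hv
    refine hind v ?_ ?_ ?_
    · exact congrFun hv0 0
    · exact congrFun hv0 1
    · exact congrFun hv0 2
  have hMK : (M.map (algebraMap L (KS 2 L))).det ≠ 0 := by
    have h1 : (M.map (algebraMap L (KS 2 L))).det = algebraMap L (KS 2 L) M.det := by
      rw [RingHom.map_det, RingHom.mapMatrix_apply]
    rw [h1, Ne, _root_.map_eq_zero]
    exact hM
  -- independence of the images of `a₂`, `a₃`
  have hindK : ∀ α β : KS 2 L, α • lin (σ.ev (DT.ext 2 L 3 a₂)) + β • lin (σ.ev (DT.ext 2 L 3 a₃)) = 0 →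
      α = 0 ∧ β = 0 := by
    intro α β h0
    have h1 : Matrix.vecMul (α • lin (DT.ext 2 L 3 a₂) + β • lin (DT.ext 2 L 3 a₃)) σ.linMat = 0 := by
      rw [Matrix.add_vecMul, Matrix.smul_vecMul, Matrix.smul_vecMul, ← Pt.lin_ev', ← Pt.lin_ev', h0]
    obtain ⟨γ, hγ⟩ := Levels_ker hs _ h1
    have h2 : Matrix.vecMul ![-γ, α, β] (M.map (algebraMap L (KS 2 L))) = 0 := by
      funext j
      have h3 := congrFun hγ j
      rw [Pi.add_apply, Pi.smul_apply, Pi.smul_apply, Pi.smul_apply, smul_eq_mul, smul_eq_mul,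
        smul_eq_mul, DT.ext, lin_map, lin_map, lin_map] at h3
      rw [Matrix.vecMul, dotProduct, Fin.sum_univ_three, Pi.zero_apply]
      simp only [Matrix.map_apply, Matrix.cons_val_zero, Matrix.cons_val_one, Matrix.cons_val, M,
        Matrix.of_apply]
      linear_combination h3
    have h4 := Matrix.eq_zero_of_vecMul_eq_zero hMK h2
    exact ⟨by simpa using congrFun h4 1, by simpa using congrFun h4 2⟩
  set n₂ := lin (σ.ev (DT.ext 2 L 3 a₂)) with hn2
  set n₃ := lin (σ.ev (DT.ext 2 L 3 a₃)) with hn3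
  have hl2 : n₂ ≠ 0 := fun h0 => one_ne_zero (hindK 1 0 (by rw [h0]; simp)).1
  have hl3 : n₃ ≠ 0 := fun h0 => one_ne_zero (hindK 0 1 (by rw [h0]; simp)).2
  have hl1 : lin (σ.ev (DT.ext 2 L 3 a₁)) ≠ 0 := by
    refine lin_sect_ne_zero h10 h1l fun x y hxy => ?_
    obtain ⟨t, ht1, ht2⟩ := hind1
    have hy : y = 0 := by
      have h1 : ∑ j, (x • lin Ψ₁ + y • lin a₁) j * t j = 0 := by rw [hxy]; simp
      have h2 : ∑ j, (x • lin Ψ₁ + y • lin a₁) j * t j =
          x * ∑ j, lin Ψ₁ j * t j + y * ∑ j, lin a₁ j * t j := by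
        rw [Finset.mul_sum, Finset.mul_sum, ← Finset.sum_add_distrib]
        refine Finset.sum_congr rfl fun j _ => ?_
        rw [Pi.add_apply, Pi.smul_apply, Pi.smul_apply, smul_eq_mul, smul_eq_mul]
        ring
      rw [h2, ht1, mul_zero, zero_add] at h1
      exact (mul_eq_zero.1 h1).resolve_right ht2
    rw [hy, zero_smul, add_zero] at hxy
    exact ⟨(smul_eq_zero.1 hxy).resolve_right h1l, hy⟩
  have hδ : n₂ 0 * n₃ 1 - n₂ 1 * n₃ 0 ≠ 0 := by
    intro h0
    have h1 := hindK (n₃ 1) (-(n₂ 1)) (by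
      funext i
      fin_cases i
      · simp only [Fin.zero_eta, Pi.add_apply, Pi.smul_apply, smul_eq_mul, Pi.zero_apply]
        linear_combination h0
      · simp only [Fin.mk_one, Pi.add_apply, Pi.smul_apply, smul_eq_mul, Pi.zero_apply]
        ring)
    have h2 := hindK (n₃ 0) (-(n₂ 0)) (by
      funext i
      fin_cases i
      · simp only [Fin.zero_eta, Pi.add_apply, Pi.smul_apply, smul_eq_mul, Pi.zero_apply]
        ring
      · simp only [Fin.mk_one, Pi.add_apply, Pi.smul_apply, smul_eq_mul, Pi.zero_apply]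
        linear_combination -h0)
    apply hl3
    funext i
    fin_cases i
    · exact h2.1
    · exact h1.1
  -- the value of `Ψ₂`
  have hE : σ.ev (DT.ext 2 L 3 Ψ₂) - σ.ev (DT.ext 2 L 3 c) *
      ∏ i, ![σ.ev (DT.ext 2 L 3 a₁), σ.ev (DT.ext 2 L 3 a₂), σ.ev (DT.ext 2 L 3 a₃)] i ∈
      IsLocalRing.maximalIdeal (PS 2 (KS 2 L)) ^ (3 + 1) := by
    have h1 : DT.ext 2 L 3 (Ψ₂ - C τ * Ψ₁ - c * a₁ * a₂ * a₃) ∈
        IsLocalRing.maximalIdeal (PS 3 (KS 2 L)) ^ 4 := by
      rw [mem_maximalIdeal_pow_iff] at h ⊢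
      exact le_trans h (le_order_map _)
    have h2 := Pt.ev_mem_pow σ 4 _ h1
    have h3 : σ.ev (DT.ext 2 L 3 Ψ₁) = 0 := (hs.ev_eq_zero_iff _).2 dvd_rfl
    rw [map_sub, map_sub, map_mul, map_mul, map_mul, map_mul, map_sub, map_sub, map_mul, map_mul,
      map_mul, map_mul, h3, mul_zero, sub_zero] at h2
    rw [Fin.prod_univ_three]
    simp only [Matrix.cons_val_zero, Matrix.cons_val_one, Matrix.cons_val]
    rw [← mul_assoc, ← mul_assoc]
    exact h2
  have hc' : constantCoeff (σ.ev (DT.ext 2 L 3 c)) ≠ 0 := by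
    rw [Pt.constantCoeff_ev, DT.ext, constantCoeff_map, Ne, _root_.map_eq_zero]
    exact hc
  have hz : ∀ g : PS 3 L, constantCoeff g = 0 → constantCoeff (σ.ev (DT.ext 2 L 3 g)) = 0 := by
    intro g hg
    rw [Pt.constantCoeff_ev, DT.ext, constantCoeff_map, hg, map_zero]
  have hm0 : ∀ i, constantCoeff (![σ.ev (DT.ext 2 L 3 a₁), σ.ev (DT.ext 2 L 3 a₂),
      σ.ev (DT.ext 2 L 3 a₃)] i) = 0 := by
    intro i
    fin_cases i
    · exact hz _ ha1
    · exact hz _ ha2
    · exact hz _ ha3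
  have hml : ∀ i, lin (![σ.ev (DT.ext 2 L 3 a₁), σ.ev (DT.ext 2 L 3 a₂),
      σ.ev (DT.ext 2 L 3 a₃)] i) ≠ 0 := by
    intro i
    fin_cases i
    · exact hl1
    · exact hl2
    · exact hl3
  constructor
  · intro h0
    rw [h0, zero_sub, mem_maximalIdeal_pow_iff, order_neg, order_mul, Levels_order_unit hc',
      zero_add, order_prod] at hE
    have h1 : ∑ i, (![σ.ev (DT.ext 2 L 3 a₁), σ.ev (DT.ext 2 L 3 a₂),
      σ.ev (DT.ext 2 L 3 a₃)] i).order = ((3 : ℕ) : ℕ∞) := by
      rw [Finset.sum_congr rfl fun i _ => Levels_order_eq_one (hm0 i) (hml i)]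
      simp
    rw [h1] at hE
    have : 3 + 1 ≤ 3 := by exact_mod_cast hE
    omega
  · intro D n hD0 hdvd
    refine lin_eq_zero_of_dvd_pow _ D ![-(n₂ 1), n₂ 0] ![-(n₃ 1), n₃ 0] 3 ?_ _ _ hc' hm0 hml
      ⟨1, ?_⟩ ⟨2, ?_⟩ hE hD0 n hdvd
    · intro ℓ h1 h2
      rw [Fin.sum_univ_two] at h1 h2
      simp only [Matrix.cons_val_zero, Matrix.cons_val_one] at h1 h2
      have h3 : ℓ 0 * (n₂ 0 * n₃ 1 - n₂ 1 * n₃ 0) = 0 := by
        linear_combination n₃ 0 * h1 - n₂ 0 * h2
      have h4 : ℓ 1 * (n₂ 0 * n₃ 1 - n₂ 1 * n₃ 0) = 0 := by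
        linear_combination n₃ 1 * h1 - n₂ 1 * h2
      funext i
      fin_cases i
      · exact (mul_eq_zero.1 h3).resolve_right hδ
      · exact (mul_eq_zero.1 h4).resolve_right hδ
    · rw [Fin.sum_univ_two]
      simp only [Matrix.cons_val_zero, Matrix.cons_val_one]
      rw [← hn2]
      ring
    · rw [Fin.sum_univ_two]
      simp only [Matrix.cons_val_zero, Matrix.cons_val_one, Matrix.cons_val]
      rw [← hn3]
      ring

end DT
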