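import Pool.Agent.DT.SectA

/-!
# A linear change of coordinates makes a power series regular in the last variable

Let `e` be the order of `f` and `F` its homogeneous part of degree `e` (`MvPowerSeries.homogeneousComponent`, or
the finite sum of its monomials), a nonzero polynomial. `K` infinite: there is `v` with `F(v) ≠ 0`
(`MvPolynomial.funext`); if `e = 0` take any `v ≠ 0`; otherwise `v ≠ 0` automatically. Choose an invertible matrix
whose last column is `v` and let `a.val i = ∑_j A_ij X_j`; the coefficient of `X_n^e` in `a.ev f` is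
`F(v)`, the lower ones vanish since `a.ev f` has order `≥ e`. The inverse point is given by the inverse
matrix.
-/

universe u

open MvPowerSeries

namespace DT

private noncomputable def LinChange_chi {n : ℕ} {K : Type u} [Field K] :
    PS (n + 1) K →+* PowerSeries K where
  toFun h := PowerSeries.mk fun i => coeff (Finsupp.single (Fin.last n) i) h
  map_one' := by
    classical
    ext i
    rw [PowerSeries.coeff_mk, MvPowerSeries.coeff_one, PowerSeries.coeff_one]
    simp only [Finsupp.single_eq_zero]
  map_zero' := by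
    ext i
    rw [PowerSeries.coeff_mk]
    simp
  map_add' f g := by
    ext i
    simp only [PowerSeries.coeff_mk, map_add]
  map_mul' f g := by
    classical
    ext i
    rw [PowerSeries.coeff_mk, PowerSeries.coeff_mul, MvPowerSeries.coeff_mul,
      Finsupp.antidiagonal_single, Finset.sum_map]
    refine Finset.sum_congr rfl fun x _ => ?_
    simp only [PowerSeries.coeff_mk]
    rfl

private lemma LinChange_coeff_chi {n : ℕ} {K : Type u} [Field K] (h : PS (n + 1) K) (i : ℕ) :
    PowerSeries.coeff i (LinChange_chi h) = coeff (Finsupp.single (Fin.last n) i) h := by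
  simp [LinChange_chi, PowerSeries.coeff_mk]

private lemma LinChange_chi_C {n : ℕ} {K : Type u} [Field K] (c : K) :
    LinChange_chi (C c : PS (n + 1) K) = PowerSeries.C c := by
  classical
  ext i
  rw [LinChange_coeff_chi, MvPowerSeries.coeff_C, PowerSeries.coeff_C]
  simp only [Finsupp.single_eq_zero]

private lemma LinChange_chi_X {n : ℕ} {K : Type u} [Field K] (j : Fin (n + 1)) :
    LinChange_chi (X j : PS (n + 1) K) = if j = Fin.last n then PowerSeries.X else 0 := by
  classical
  ext i
  rw [LinChange_coeff_chi, MvPowerSeries.coeff_X]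
  by_cases hj : j = Fin.last n
  · subst hj
    rw [if_pos rfl, PowerSeries.coeff_X]
    simp only [(Finsupp.single_injective (Fin.last n)).eq_iff]
  · rw [if_neg hj, map_zero, if_neg]
    intro h
    have h1 := DFunLike.congr_fun h j
    rw [Finsupp.single_apply, Finsupp.single_apply, if_pos rfl, if_neg (Ne.symm hj)] at h1
    exact one_ne_zero h1.symm

/-- the polynomial of the terms of degree `e` -/
private noncomputable def LinChange_F {n : ℕ} {K : Type u} [Field K] (f : PS (n + 1) K) (e : ℕ) :
    MvPolynomial (Fin (n + 1)) K :=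
  ∑ α ∈ Finset.finsuppAntidiag Finset.univ e, MvPolynomial.monomial α (coeff α f)

private lemma LinChange_mem {n e : ℕ} {α : Fin (n + 1) →₀ ℕ} :
    α ∈ Finset.finsuppAntidiag Finset.univ e ↔ α.degree = e := by
  rw [Finset.mem_finsuppAntidiag]
  constructor
  · rintro ⟨h, -⟩
    rw [← h, Finsupp.degree_eq_sum]
  · intro h
    refine ⟨?_, Finset.subset_univ _⟩
    rw [← h, Finsupp.degree_eq_sum]

private lemma LinChange_coeff_F {n : ℕ} {K : Type u} [Field K] (f : PS (n + 1) K) (e : ℕ)
    (α : Fin (n + 1) →₀ ℕ) :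
    MvPolynomial.coeff α (LinChange_F f e) = if α.degree = e then coeff α f else 0 := by
  classical
  rw [LinChange_F, MvPolynomial.coeff_sum]
  simp only [MvPolynomial.coeff_monomial]
  rw [Finset.sum_ite_eq' (Finset.finsuppAntidiag Finset.univ e) α fun β => coeff β f]
  simp only [LinChange_mem]

/-- `χ` of a polynomial in the images of the variables -/
private lemma LinChange_chi_ev {n : ℕ} {K : Type u} [Field K] (a : Pt (n + 1) (n + 1) K)
    (v : Fin (n + 1) → K)
    (hv : ∀ i, LinChange_chi (a.val i) = PowerSeries.C (v i) * PowerSeries.X)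
    (f : PS (n + 1) K) (e : ℕ) :
    LinChange_chi (a.ev ((LinChange_F f e : MvPolynomial (Fin (n + 1)) K) : PS (n + 1) K)) =
      PowerSeries.C (MvPolynomial.eval v (LinChange_F f e)) * PowerSeries.X ^ e := by
  classical
  have h1 : ∀ G : MvPolynomial (Fin (n + 1)) K,
      LinChange_chi (a.ev (G : PS (n + 1) K)) =
        MvPolynomial.eval₂ (PowerSeries.C (R := K))
          (fun i => PowerSeries.C (v i) * PowerSeries.X) G := by
    intro G
    induction G using MvPolynomial.induction_on with
    | C c =>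
      rw [MvPolynomial.coe_C, Pt.ev_C, LinChange_chi_C, MvPolynomial.eval₂_C]
    | add p q hp hq =>
      rw [MvPolynomial.coe_add, map_add, map_add, hp, hq, MvPolynomial.eval₂_add]
    | mul_X p i hp =>
      rw [MvPolynomial.coe_mul, map_mul, map_mul, hp, MvPolynomial.coe_X, Pt.ev_X, hv,
        MvPolynomial.eval₂_mul, MvPolynomial.eval₂_X]
  rw [h1, LinChange_F, MvPolynomial.eval₂_sum, map_sum, map_sum, Finset.sum_mul]
  refine Finset.sum_congr rfl fun α hα => ?_
  rw [LinChange_mem, Finsupp.degree_eq_sum] at hα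
  rw [MvPolynomial.eval₂_monomial, MvPolynomial.eval_monomial, Finsupp.prod_fintype _ _ (by simp),
    Finsupp.prod_fintype _ _ (by simp)]
  simp only [mul_pow, Finset.prod_mul_distrib]
  rw [Finset.prod_pow_eq_pow_sum, hα, map_mul, map_prod, mul_assoc]
  simp only [map_pow]

/-- over an infinite field, a nonzero power series becomes regular in the last variable after a
linear change of coordinates -/
theorem exists_linear_change {n : ℕ} {K : Type u} [Field K] [Infinite K] (f : PS (n + 1) K)
    (hf : f ≠ 0) :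
    ∃ a b : Pt (n + 1) (n + 1) K, a.comp b = Pt.id _ _ ∧ b.comp a = Pt.id _ _ ∧
      ∃ e : ℕ, (e : ℕ∞) = f.order ∧
        (∀ i < e, coeff (Finsupp.single (Fin.last n) i) (a.ev f) = 0) ∧
        coeff (Finsupp.single (Fin.last n) e) (a.ev f) ≠ 0 := by
  classical
  obtain ⟨e, he⟩ : ∃ e : ℕ, (e : ℕ∞) = f.order := ⟨_, ne_zero_iff_order_finite.1 hf⟩
  have hF : LinChange_F f e ≠ 0 := by
    obtain ⟨d, hd, hd'⟩ := exists_coeff_ne_zero_and_order (ne_zero_iff_order_finite.1 hf)
    intro h0
    have h1 := LinChange_coeff_F f e d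
    rw [h0, MvPolynomial.coeff_zero, if_pos] at h1
    · exact hd h1.symm
    · rw [← he] at hd'
      exact_mod_cast hd'
  -- a vector
  obtain ⟨v, hv⟩ : ∃ v : Fin (n + 1) → K,
      MvPolynomial.eval v (LinChange_F f e * MvPolynomial.X 0) ≠ 0 := by
    by_contra hcon
    push Not at hcon
    have h1 : LinChange_F f e * MvPolynomial.X 0 = 0 :=
      MvPolynomial.funext fun v => by rw [hcon v, map_zero]
    exact (mul_ne_zero hF (MvPolynomial.X_ne_zero 0)) h1
  rw [map_mul, MvPolynomial.eval_X] at hv
  have hv0 : v 0 ≠ 0 := right_ne_zero_of_mul hv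
  have hFv : MvPolynomial.eval v (LinChange_F f e) ≠ 0 := left_ne_zero_of_mul hv
  let a : Pt (n + 1) (n + 1) K :=
    { val := Fin.cases (C (v 0) * X (Fin.last n)) fun i =>
        X (Fin.castSucc i) + C (v i.succ) * X (Fin.last n)
      cc := fun i => by
        refine Fin.cases ?_ (fun j => ?_) i
        · simp
        · simp }
  let b : Pt (n + 1) (n + 1) K :=
    { val := Fin.lastCases (C (v 0)⁻¹ * X 0) fun i =>
        X i.succ - C (v i.succ * (v 0)⁻¹) * X 0
      cc := fun i => by
        refine Fin.lastCases ?_ (fun j => ?_) i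
        · simp
        · simp }
  have ha0 : a.val 0 = C (v 0) * X (Fin.last n) := rfl
  have has : ∀ i : Fin n, a.val i.succ = X (Fin.castSucc i) + C (v i.succ) * X (Fin.last n) :=
    fun i => rfl
  have hbl : b.val (Fin.last n) = C (v 0)⁻¹ * X 0 := by
    simp only [b, Fin.lastCases_last]
  have hbs : ∀ i : Fin n, b.val (Fin.castSucc i) = X i.succ - C (v i.succ * (v 0)⁻¹) * X 0 :=
    fun i => by simp only [b, Fin.lastCases_castSucc]
  have hCC : (C (v 0) * C (v 0)⁻¹ : PS (n + 1) K) = 1 := by
    rw [← map_mul, mul_inv_cancel₀ hv0, map_one]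
  refine ⟨a, b, ?_, ?_, e, he, ?_⟩
  · apply Pt.ext
    intro i
    show b.ev (a.val i) = X i
    refine Fin.cases ?_ (fun j => ?_) i
    · rw [ha0, map_mul, Pt.ev_C, Pt.ev_X, hbl, ← mul_assoc, hCC, one_mul]
    · rw [has, map_add, map_mul, Pt.ev_C, Pt.ev_X, Pt.ev_X, hbl, hbs, map_mul]
      ring
  · apply Pt.ext
    intro i
    show a.ev (b.val i) = X i
    refine Fin.lastCases ?_ (fun j => ?_) i
    · rw [hbl, map_mul, Pt.ev_C, Pt.ev_X, ha0, ← mul_assoc, mul_comm (C (v 0)⁻¹), hCC, one_mul]
    · rw [hbs, map_sub, map_mul, Pt.ev_C, Pt.ev_X, Pt.ev_X, ha0, has, map_mul]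
      have h1 : (C (v j.succ) * C (v 0)⁻¹ * (C (v 0) * X (Fin.last n)) : PS (n + 1) K) =
          C (v j.succ) * (C (v 0) * C (v 0)⁻¹) * X (Fin.last n) := by ring
      rw [h1, hCC]
      ring
  -- the values of `χ`
  have hchi : ∀ i, LinChange_chi (a.val i) = PowerSeries.C (v i) * PowerSeries.X := by
    intro i
    refine Fin.cases ?_ (fun j => ?_) i
    · rw [ha0, map_mul, LinChange_chi_C, LinChange_chi_X, if_pos rfl]
    · rw [has, map_add, map_mul, LinChange_chi_C, LinChange_chi_X, LinChange_chi_X, if_pos rfl,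
        if_neg (Fin.castSucc_ne_last j), zero_add]
  set F := LinChange_F f e with hFdef
  set g : PS (n + 1) K := f - (F : PS (n + 1) K) with hg
  have hgo : ((e + 1 : ℕ) : ℕ∞) ≤ g.order := by
    refine nat_le_order fun d hd => ?_
    rw [hg, map_sub, MvPolynomial.coeff_coe, hFdef, LinChange_coeff_F]
    rcases Nat.lt_succ_iff_lt_or_eq.1 hd with h1 | h1
    · rw [if_neg h1.ne, sub_zero]
      refine coeff_of_lt_order ?_
      rw [← he]
      exact_mod_cast h1
    · rw [if_pos h1, sub_self]
  have hag : ((e + 1 : ℕ) : ℕ∞) ≤ (a.ev g).order :=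
    (mem_maximalIdeal_pow_iff _ _).1 (Pt.ev_mem_pow a _ _ ((mem_maximalIdeal_pow_iff _ _).2 hgo))
  have hcoef : ∀ i ≤ e, coeff (Finsupp.single (Fin.last n) i) (a.ev f) =
      PowerSeries.coeff i (PowerSeries.C (MvPolynomial.eval v F) * PowerSeries.X ^ e) := by
    intro i hi
    have h1 : f = (F : PS (n + 1) K) + g := by rw [hg]; ring
    have h2 : coeff (Finsupp.single (Fin.last n) i) (a.ev g) = 0 := by
      refine coeff_of_lt_order (lt_of_lt_of_le ?_ hag)
      rw [Finsupp.degree_single]
      exact_mod_cast Nat.lt_succ_of_le hi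
    have h3 : coeff (Finsupp.single (Fin.last n) i) (a.ev f) =
        coeff (Finsupp.single (Fin.last n) i) (a.ev (F : PS (n + 1) K)) := by
      conv_lhs => rw [h1]
      rw [map_add, map_add, h2, add_zero]
    rw [h3, ← LinChange_coeff_chi, hFdef, LinChange_chi_ev a v hchi f e]
  constructor
  · intro i hi
    rw [hcoef i hi.le, PowerSeries.coeff_C_mul, PowerSeries.coeff_X_pow, if_neg hi.ne, mul_zero]
  · rw [hcoef e le_rfl, PowerSeries.coeff_C_mul, PowerSeries.coeff_X_pow, if_pos rfl, mul_one]
    exact hFv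

end DT
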