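import Pool.Agent.DT.Defs
import Pool.Agent.DTZ.Ufd

/-!
# Points: local homomorphisms between power series rings, linear parts

Base API (all short).  Mathlib: `MvPowerSeries.subst`, `substAlgHom`, `subst_comp_subst_apply`, `map_subst`,
`constantCoeff_subst_eq_zero`, `subst_self`, `coeff_subst`, `le_order_subst`.
* `lin_ev` (chain rule): write `f = C (constantCoeff f) + ∑ lin f i • X_i + g` with `g ∈ 𝔪^2`, and `a.ev` maps
  `𝔪^2` to `𝔪^2`; or use `coeff_subst` (a finsum over exponents `d`; only `|d| = 1` contributes to the linear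
  coefficients).
* `eq_ev`: both sides agree on polynomials; for `f ∈ 𝔪^d` both values are in `𝔪^d` (`𝔪` is generated by the
  variables, whose images are in `𝔪`), and `f - (truncation) ∈ 𝔪^d`; a power series in all `𝔪^d` is `0`.
* `mem_maximalIdeal_iff`, `mem_maximalIdeal_pow_iff`: compare `Ufd_mem_max`, `Ufd_mem_pow` in
  `Pool/Agent/DTZ/Ufd.lean` (helper77), which may be imported.
-/

universe u

open MvPowerSeries

namespace DT

/-- power series in `n` variables -/
abbrev PS (n : ℕ) (K : Type u) : Type u := MvPowerSeries (Fin n) K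

/-- a local homomorphism `K[[X_0..X_{m-1}]] → K[[Y_0..Y_{n-1}]]`, given by the images of variables -/
structure Pt (m n : ℕ) (K : Type u) [Field K] where
  val : Fin m → PS n K
  cc : ∀ i, constantCoeff (val i) = 0

/-- evaluation (substitution) -/
noncomputable def Pt.ev {m n : ℕ} {K : Type u} [Field K] (a : Pt m n K) : PS m K →ₐ[K] PS n K :=
  substAlgHom (hasSubst_of_constantCoeff_zero a.cc)

/-- the linear part of a power series: the row of coefficients of the variables -/
noncomputable def lin {n : ℕ} {K : Type u} [Field K] (f : PS n K) : Fin n → K :=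
  fun j => coeff (Finsupp.single j 1) f

/-- the matrix of linear parts -/
noncomputable def Pt.linMat {m n : ℕ} {K : Type u} [Field K] (a : Pt m n K) :
    Matrix (Fin m) (Fin n) K := Matrix.of fun i j => lin (a.val i) j

section
variable {m n l : ℕ} {K : Type u} [Field K]

@[simp] lemma Pt.ev_X (a : Pt m n K) (i : Fin m) : a.ev (X i) = a.val i :=
  substAlgHom_X _ i

@[simp] lemma Pt.ev_C (a : Pt m n K) (c : K) : a.ev (C c) = C c := by
  have := a.ev.commutes c
  rwa [MvPowerSeries.algebraMap_apply, MvPowerSeries.algebraMap_apply] at this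

lemma Pt.ev_apply (a : Pt m n K) (f : PS m K) : a.ev f = subst a.val f := by
  simp [Pt.ev, substAlgHom_apply]

@[simp] lemma Pt.constantCoeff_ev (a : Pt m n K) (f : PS m K) :
    constantCoeff (a.ev f) = constantCoeff f := by
  have h1 : constantCoeff (f - C (constantCoeff f)) = 0 := by
    rw [map_sub, constantCoeff_C, sub_self]
  have h2 : constantCoeff (a.ev (f - C (constantCoeff f))) = 0 := by
    rw [Pt.ev_apply]
    exact constantCoeff_subst_eq_zero (hasSubst_of_constantCoeff_zero a.cc) a.cc h1
  rw [map_sub, Pt.ev_C, map_sub, constantCoeff_C, sub_eq_zero] at h2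
  exact h2

@[ext] lemma Pt.ext {a b : Pt m n K} (h : ∀ i, a.val i = b.val i) : a = b := by
  cases a; cases b; congr; funext i; exact h i

/-- composition: first `a`, then `b` -/
noncomputable def Pt.comp (a : Pt m n K) (b : Pt n l K) : Pt m l K where
  val i := b.ev (a.val i)
  cc i := by rw [Pt.constantCoeff_ev, a.cc]

lemma Pt.ev_comp (a : Pt m n K) (b : Pt n l K) (f : PS m K) :
    (a.comp b).ev f = b.ev (a.ev f) :=
  (substAlgHom_comp_substAlgHom_apply (R := K) (hasSubst_of_constantCoeff_zero a.cc)
    (hasSubst_of_constantCoeff_zero b.cc) f).symm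

/-- the identity -/
noncomputable def Pt.id (n : ℕ) (K : Type u) [Field K] : Pt n n K where
  val := X
  cc i := by simp

@[simp] lemma Pt.ev_id (f : PS n K) : (Pt.id n K).ev f = f := by
  rw [Pt.ev_apply]
  exact congrFun subst_self f

/-- base change along `ι : K → L` -/
noncomputable def Pt.map {L : Type u} [Field L] (ι : K →+* L) (a : Pt m n K) : Pt m n L where
  val i := MvPowerSeries.map ι (a.val i)
  cc i := by rw [constantCoeff_map, a.cc, map_zero]

lemma Pt.ev_map {L : Type u} [Field L] (ι : K →+* L) (a : Pt m n K) (f : PS m K) :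
    (a.map ι).ev (MvPowerSeries.map ι f) = MvPowerSeries.map ι (a.ev f) := by
  rw [Pt.ev_apply, Pt.ev_apply]
  exact (map_subst (hasSubst_of_constantCoeff_zero a.cc) f).symm

lemma Pt.map_comp {L : Type u} [Field L] (ι : K →+* L) (a : Pt m n K) (b : Pt n l K) :
    (a.comp b).map ι = (a.map ι).comp (b.map ι) := by
  ext1 i; exact (Pt.ev_map ι b (a.val i)).symm

lemma lin_add (f g : PS n K) : lin (f + g) = lin f + lin g := by
  funext j; simp [lin]

lemma lin_sub (f g : PS n K) : lin (f - g) = lin f - lin g := by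
  funext j; simp [lin]

lemma lin_neg (f : PS n K) : lin (-f) = - lin f := by
  funext j; simp [lin]

@[simp] lemma lin_X (i j : Fin n) : lin (X i : PS n K) j = if i = j then 1 else 0 := by
  classical
  rw [lin, coeff_X]
  refine if_congr ?_ rfl rfl
  rw [Finsupp.single_left_inj one_ne_zero]
  exact eq_comm

@[simp] lemma lin_C (c : K) : lin (C c : PS n K) = 0 := by
  classical
  funext j
  rw [lin, coeff_C, if_neg]
  · rfl
  · exact Finsupp.single_ne_zero.2 one_ne_zero

lemma lin_mul (f g : PS n K) :
    lin (f * g) = constantCoeff f • lin g + constantCoeff g • lin f := by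
  classical
  funext j
  rw [lin, coeff_mul, Finsupp.antidiagonal_single, Finset.sum_map]
  simp [Finset.Nat.antidiagonal_succ, lin, mul_comm]

lemma lin_mul_of_cc (f g : PS n K) (hg : constantCoeff g = 0) :
    lin (f * g) = constantCoeff f • lin g := by
  rw [lin_mul, hg, zero_smul, add_zero]

/-- every power series is a constant plus a combination of the variables -/
lemma exists_split (f : PS n K) :
    ∃ g : Fin n → PS n K, f = C (constantCoeff f) + ∑ i, X i * g i := by
  obtain ⟨g, hg, -⟩ := Pool.Agent.DTZ.Ufd_split 0 (f - C (constantCoeff f)) (fun d hd => by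
    have h : d = 0 := by
      rw [← Finsupp.degree_eq_zero_iff]
      omega
    subst h
    rw [coeff_zero_eq_constantCoeff_apply, map_sub, constantCoeff_C, sub_self])
  exact ⟨g, by rw [← hg]; ring⟩

lemma lin_sum {ι : Type*} (s : Finset ι) (F : ι → PS n K) (j : Fin n) :
    lin (∑ i ∈ s, F i) j = ∑ i ∈ s, lin (F i) j := by
  simp [lin]

/-- chain rule for linear parts -/
lemma Pt.lin_ev (a : Pt m n K) (f : PS m K) (j : Fin n) :
    lin (a.ev f) j = ∑ i, lin f i * lin (a.val i) j := by
  obtain ⟨g, hg⟩ := exists_split f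
  have h1 : ∀ i, lin f i = constantCoeff (g i) := by
    intro i
    conv_lhs => rw [hg]
    rw [lin_add, Pi.add_apply, lin_C, lin_sum]
    simp [lin_mul]
  have h2 : a.ev f = C (constantCoeff f) + ∑ i, a.val i * a.ev (g i) := by
    conv_lhs => rw [hg]
    rw [map_add, map_sum, Pt.ev_C]
    simp
  rw [h2, lin_add, Pi.add_apply, lin_C, lin_sum]
  simp only [Pi.zero_apply, zero_add]
  refine Finset.sum_congr rfl fun i _ => ?_
  rw [lin_mul, a.cc, h1, Pt.constantCoeff_ev]
  simp

lemma Pt.lin_ev' (a : Pt m n K) (f : PS m K) :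
    lin (a.ev f) = Matrix.vecMul (lin f) a.linMat := by
  funext j; rw [Pt.lin_ev]; rfl

lemma Pt.linMat_comp (a : Pt m n K) (b : Pt n l K) :
    (a.comp b).linMat = a.linMat * b.linMat := by
  ext i j; exact Pt.lin_ev b (a.val i) j

@[simp] lemma Pt.linMat_id : (Pt.id n K).linMat = 1 := by
  ext i j
  rw [Matrix.one_apply]
  exact lin_X i j

@[simp] lemma lin_map {L : Type u} [Field L] (ι : K →+* L) (f : PS n K) (j : Fin n) :
    lin (MvPowerSeries.map ι f) j = ι (lin f j) := by
  simp [lin]

/-- a homomorphism of `K`-algebras which maps the variables to nonunits is the evaluation at a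
point -/
lemma Pt.eq_ev (φ : PS m K →ₐ[K] PS n K) (h : ∀ i, constantCoeff (φ (X i)) = 0) (f : PS m K) :
    φ f = (Pt.mk (fun i => φ (X i)) h).ev f := by
  set a : Pt m n K := Pt.mk (fun i => φ (X i)) h with ha
  have key : ∀ (k : ℕ) (f : PS m K),
      φ f - a.ev f ∈ IsLocalRing.maximalIdeal (PS n K) ^ k := by
    intro k
    induction k with
    | zero => intro f; simp
    | succ k ih =>
      intro f
      obtain ⟨g, hg⟩ := exists_split f
      have hC : φ (C (constantCoeff f)) = C (constantCoeff f) := by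
        have := φ.commutes (constantCoeff f)
        rwa [MvPowerSeries.algebraMap_apply, MvPowerSeries.algebraMap_apply] at this
      have e : φ f - a.ev f = ∑ i, φ (X i) * (φ (g i) - a.ev (g i)) := by
        conv_lhs => rw [hg]
        rw [map_add, map_add, hC, Pt.ev_C, map_sum, map_sum, add_sub_add_left_eq_sub,
          ← Finset.sum_sub_distrib]
        refine Finset.sum_congr rfl fun i _ => ?_
        rw [map_mul, map_mul, Pt.ev_X, mul_sub]
      rw [e, pow_succ']
      refine Ideal.sum_mem _ fun i _ => Ideal.mul_mem_mul ?_ (ih (g i))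
      rw [Pool.Agent.DTZ.Ufd_mem_max]
      exact h i
  rw [← sub_eq_zero]
  ext d
  have h1 := (Pool.Agent.DTZ.Ufd_mem_pow (d.degree + 1) _).1 (key (d.degree + 1) f) d
    (Nat.lt_succ_self _)
  rw [h1]
  simp

lemma mem_maximalIdeal_iff (f : PS n K) :
    f ∈ IsLocalRing.maximalIdeal (PS n K) ↔ constantCoeff f = 0 :=
  Pool.Agent.DTZ.Ufd_mem_max f

lemma maximalIdeal_eq_span (n : ℕ) (K : Type u) [Field K] :
    IsLocalRing.maximalIdeal (PS n K) = Ideal.span (Set.range (X : Fin n → PS n K)) := by
  apply le_antisymm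
  · intro f hf
    rw [mem_maximalIdeal_iff] at hf
    obtain ⟨g, hg⟩ := exists_split f
    rw [hg, hf, map_zero, zero_add]
    exact Ideal.sum_mem _ fun i _ => Ideal.mul_mem_right _ _ (Ideal.subset_span ⟨i, rfl⟩)
  · rw [Ideal.span_le]
    rintro _ ⟨i, rfl⟩
    exact (mem_maximalIdeal_iff _).2 (constantCoeff_X i)

/-- `𝔪^d` is the set of power series of order at least `d` -/
lemma mem_maximalIdeal_pow_iff (d : ℕ) (f : PS n K) :
    f ∈ IsLocalRing.maximalIdeal (PS n K) ^ d ↔ (d : ℕ∞) ≤ f.order := by
  rw [Pool.Agent.DTZ.Ufd_mem_pow]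
  constructor
  · intro h
    exact nat_le_order h
  · intro h e he
    refine coeff_of_lt_order ?_
    exact lt_of_lt_of_le (by exact_mod_cast he) h

lemma Pt.ev_mem_pow (a : Pt m n K) (d : ℕ) (f : PS m K)
    (hf : f ∈ IsLocalRing.maximalIdeal (PS m K) ^ d) :
    a.ev f ∈ IsLocalRing.maximalIdeal (PS n K) ^ d := by
  have h1 : Ideal.map a.ev (IsLocalRing.maximalIdeal (PS m K) ^ d) ≤
      IsLocalRing.maximalIdeal (PS n K) ^ d := by
    rw [Ideal.map_pow]
    refine Ideal.pow_right_mono ?_ d
    rw [Ideal.map_le_iff_le_comap]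
    intro g hg
    rw [Ideal.mem_comap, mem_maximalIdeal_iff, Pt.constantCoeff_ev]
    exact (mem_maximalIdeal_iff g).1 hg
  exact h1 (Ideal.mem_map_of_mem _ hf)

/-- the generic point: the inclusion `A^* → K^*[[x]]` -/
noncomputable def gen (r : ℕ) (K : Type u) [Field K] : Pt r (r + 1) (KS r K) where
  val := xstar r K
  cc := xstar_constantCoeff r K

lemma phi_eq_ev (r : ℕ) (K : Type u) [Field K] : phi r K = (gen r K).ev := rfl

lemma lin_xstar (r : ℕ) (K : Type u) [Field K] (i : Fin r) (j : Fin (r + 1)) :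
    lin (xstar r K i) j = uu r K i ⟨Finsupp.single j 1, by simp⟩ := by
  rw [lin, coeff_xstar, dif_neg]

end

end DT
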