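import Pool.Agent.DT.IFT

/-!
# Sections, abstract properties

`IsSect σ h`: there is an automorphism `Φ` (inverse `Φ'`) of `L[[X_0..X_r]]` with `Φ(X_r) = h`, and `σ`
is `Φ'` followed by `X_r ↦ 0`.

Paper proofs.
* `IsSect.map`: base change everything (`Pt.map_comp`, `Pt.ev_map`).
* `ev_eq_zero_iff`: `g = Φ.ev (Φ'.ev g)`, `σ.ev g = (incl).ev (Φ'.ev g)`, and `(incl).ev f = 0` iff
  `X_r ∣ f` (kernel of `X_r ↦ 0`; compare coefficients), then apply `Φ.ev` (`Φ.ev X_r = h`).
* `ev_surjective`: `(incl).ev` is surjective (`(incl).ev (f in the first r variables) = f`; use the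
  substitution `X_i ↦ X_{castSucc i}`), `Φ'.ev` is bijective.
* `prime`: `h ∣ g ↔ σ.ev g = 0`, the target is a domain, `h ≠ 0` and `h` is not a unit because
  `σ.ev h = 0` and `σ.ev` is a surjective homomorphism onto a nonzero ring.
* `lin_ne_zero`: `Φ.linMat * Φ'.linMat = 1` and the last row of `Φ.linMat` is `lin h`.
* `prime_of_lin_ne_zero`: complete `lin h` to an invertible matrix whose last row is `lin h` (the other
  rows are linear forms `∑ a_ij X_j`), apply `exists_inverse`; this gives an `IsSect` over `K` itself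
  (`n = r + 1`; `n = 0` is impossible as `lin h ≠ 0`).
-/

universe u

open MvPowerSeries

namespace DT

/-- the point `X_i ↦ X_i` (`i < r`), `X_r ↦ 0` -/
noncomputable def incl (r : ℕ) (K : Type u) [Field K] : Pt (r + 1) r K where
  val := Fin.snoc (α := fun _ => PS r K) (fun i : Fin r => X i) 0
  cc i := by
    refine Fin.lastCases ?_ (fun j => ?_) i <;> simp

/-- `σ` parametrizes the smooth hypersurface `h = 0` -/
def IsSect {r : ℕ} {L : Type u} [Field L] (σ : Pt (r + 1) r L) (h : PS (r + 1) L) : Prop :=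
  ∃ Φ Φ' : Pt (r + 1) (r + 1) L, Φ.comp Φ' = Pt.id _ _ ∧ Φ'.comp Φ = Pt.id _ _ ∧
    Φ.val (Fin.last r) = h ∧ σ = Φ'.comp (incl r L)

/-- evaluation at `incl` kills the last variable -/
theorem incl_ev (r : ℕ) (K : Type u) [Field K] (f : PS (r + 1) K) :
    (incl r K).ev f = killCompl (Fin.castSuccEmb : Fin r ↪ Fin (r + 1)) f := by
  have hlast : killCompl (R := K) (Fin.castSuccEmb : Fin r ↪ Fin (r + 1)) (X (Fin.last r)) = 0 := by
    apply killCompl_X_eq_zero
    rintro ⟨i, hi⟩
    exact (Fin.castSucc_lt_last i).ne hi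
  have hcast : ∀ j : Fin r, killCompl (R := K) (Fin.castSuccEmb : Fin r ↪ Fin (r + 1))
      (X (Fin.castSucc j)) = X j := fun j => killCompl_X (e := Fin.castSuccEmb) j
  have hcc : ∀ i, constantCoeff (killCompl (R := K) (Fin.castSuccEmb : Fin r ↪ Fin (r + 1))
      (X i)) = 0 := by
    intro i
    refine Fin.lastCases ?_ (fun j => ?_) i
    · rw [hlast, map_zero]
    · rw [hcast, constantCoeff_X]
  rw [Pt.eq_ev (killCompl (R := K) (Fin.castSuccEmb : Fin r ↪ Fin (r + 1))) hcc f]
  congr 2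
  refine Pt.ext fun i => ?_
  refine Fin.lastCases ?_ (fun j => ?_) i
  · simp only [incl, Fin.snoc_last]
    exact hlast.symm
  · simp only [incl, Fin.snoc_castSucc]
    exact (hcast j).symm

/-- the kernel of the evaluation at `incl` -/
theorem incl_ev_eq_zero_iff {r : ℕ} {K : Type u} [Field K] (f : PS (r + 1) K) :
    (incl r K).ev f = 0 ↔ X (Fin.last r) ∣ f := by
  rw [incl_ev, X_dvd_iff]
  constructor
  · intro h0 m hm
    have h1 : m ∈ Set.range (Finsupp.embDomain (Fin.castSuccEmb : Fin r ↪ Fin (r + 1))) := by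
      rw [Finsupp.mem_range_embDomain_iff]
      intro i hi
      have hi' : m i ≠ 0 := Finsupp.mem_support_iff.mp hi
      have hne : i ≠ Fin.last r := fun h => hi' (h ▸ hm)
      obtain ⟨j, hj⟩ := Fin.exists_castSucc_eq.mpr hne
      exact ⟨j, hj⟩
    obtain ⟨x, rfl⟩ := h1
    rw [← coeff_killCompl, h0, map_zero]
  · intro h0
    ext x
    rw [coeff_killCompl, map_zero]
    apply h0
    apply Finsupp.embDomain_of_notMem_range
    rintro ⟨i, hi⟩
    exact (Fin.castSucc_lt_last i).ne hi

/-- the point `X_i ↦ X_i` -/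
noncomputable def emb (r : ℕ) (K : Type u) [Field K] : Pt r (r + 1) K where
  val := fun i => X (Fin.castSucc i)
  cc i := by simp

theorem incl_ev_emb (r : ℕ) (K : Type u) [Field K] (f : PS r K) :
    (incl r K).ev ((emb r K).ev f) = f := by
  rw [← Pt.ev_comp]
  have h : (emb r K).comp (incl r K) = Pt.id r K := by
    refine Pt.ext fun i => ?_
    change (incl r K).ev (X (Fin.castSucc i)) = X i
    rw [Pt.ev_X]
    simp only [incl, Fin.snoc_castSucc]
  rw [h, Pt.ev_id]

theorem incl_map {r : ℕ} {L M : Type u} [Field L] [Field M] (ι : L →+* M) :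
    (incl r L).map ι = incl r M := by
  refine Pt.ext fun i => ?_
  refine Fin.lastCases ?_ (fun j => ?_) i
  · simp only [incl, Pt.map, Fin.snoc_last, map_zero]
  · simp only [incl, Pt.map, Fin.snoc_castSucc, map_X]

theorem Pt.id_map {n : ℕ} {L M : Type u} [Field L] [Field M] (ι : L →+* M) :
    (Pt.id n L).map ι = Pt.id n M := by
  refine Pt.ext fun i => ?_
  change MvPowerSeries.map ι (X i) = X i
  rw [map_X]

section
variable {r : ℕ} {L : Type u} [Field L] {σ : Pt (r + 1) r L} {h : PS (r + 1) L}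

theorem IsSect.map {M : Type u} [Field M] (ι : L →+* M) (hs : IsSect σ h) :
    IsSect (σ.map ι) (MvPowerSeries.map ι h) := by
  obtain ⟨Φ, Φ', h1, h2, h3, h4⟩ := hs
  refine ⟨Φ.map ι, Φ'.map ι, ?_, ?_, ?_, ?_⟩
  · rw [← Pt.map_comp, h1, Pt.id_map]
  · rw [← Pt.map_comp, h2, Pt.id_map]
  · rw [← h3]
    rfl
  · rw [h4, Pt.map_comp, incl_map]

theorem IsSect.ev_eq_zero_iff (hs : IsSect σ h) (g : PS (r + 1) L) : σ.ev g = 0 ↔ h ∣ g := by
  obtain ⟨Φ, Φ', h1, h2, h3, h4⟩ := hs
  have hXh : Φ.ev (X (Fin.last r)) = h := by rw [Pt.ev_X, h3]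
  have hhX : Φ'.ev h = X (Fin.last r) := by
    rw [← hXh, ← Pt.ev_comp, h1, Pt.ev_id]
  rw [h4, Pt.ev_comp, incl_ev_eq_zero_iff]
  constructor
  · intro hd
    have hd2 := map_dvd Φ.ev hd
    rwa [hXh, ← Pt.ev_comp, h2, Pt.ev_id] at hd2
  · intro hd
    have hd2 := map_dvd Φ'.ev hd
    rwa [hhX] at hd2

theorem IsSect.ev_surjective (hs : IsSect σ h) : Function.Surjective σ.ev := by
  obtain ⟨Φ, Φ', h1, h2, h3, h4⟩ := hs
  intro f
  refine ⟨Φ.ev ((emb r L).ev f), ?_⟩
  rw [h4, Pt.ev_comp, ← Pt.ev_comp Φ Φ', h1, Pt.ev_id, incl_ev_emb]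

theorem IsSect.prime (hs : IsSect σ h) : Prime h := by
  have hcc : constantCoeff h = 0 := by
    obtain ⟨Φ, Φ', h1, h2, h3, h4⟩ := hs
    rw [← h3, Φ.cc]
  refine ⟨?_, ?_, ?_⟩
  · intro h0
    obtain ⟨Φ, Φ', h1, h2, h3, h4⟩ := hs
    have hXh : Φ.ev (X (Fin.last r)) = h := by rw [Pt.ev_X, h3]
    have hhX : Φ'.ev h = X (Fin.last r) := by
      rw [← hXh, ← Pt.ev_comp, h1, Pt.ev_id]
    rw [h0, map_zero] at hhX
    have h5 := congrArg (coeff (Finsupp.single (Fin.last r) 1)) hhX
    rw [map_zero, coeff_index_single_self_X] at h5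
    exact zero_ne_one h5
  · intro hu
    have := hu.map (constantCoeff (σ := Fin (r + 1)) (R := L))
    rw [hcc] at this
    exact not_isUnit_zero this
  · intro a b hab
    rw [← hs.ev_eq_zero_iff, map_mul, mul_eq_zero] at hab
    rwa [hs.ev_eq_zero_iff, hs.ev_eq_zero_iff] at hab

theorem IsSect.lin_ne_zero (hs : IsSect σ h) : lin h ≠ 0 := by
  obtain ⟨Φ, Φ', h1, h2, h3, h4⟩ := hs
  intro h0
  have h5 : Φ.linMat * Φ'.linMat = 1 := by rw [← Pt.linMat_comp, h1, Pt.linMat_id]
  have h6 := congrFun (congrFun h5 (Fin.last r)) (Fin.last r)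
  rw [Matrix.mul_apply, Matrix.one_apply_eq] at h6
  have h7 : ∀ j, Φ.linMat (Fin.last r) j = 0 := by
    intro j
    change lin (Φ.val (Fin.last r)) j = 0
    rw [h3, h0, Pi.zero_apply]
  rw [Finset.sum_eq_zero (fun j _ => by rw [h7 j, zero_mul])] at h6
  exact zero_ne_one h6

theorem IsSect.constantCoeff_eq_zero (hs : IsSect σ h) : constantCoeff h = 0 := by
  obtain ⟨Φ, Φ', h1, h2, h3, h4⟩ := hs
  rw [← h3, Φ.cc]

end

/-- a power series of order one is a prime element -/
theorem prime_of_lin_ne_zero {n : ℕ} {K : Type u} [Field K] (h : PS n K)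
    (h0 : constantCoeff h = 0) (hl : lin h ≠ 0) : Prime h := by
  cases n with
  | zero => exact absurd (Subsingleton.elim _ _) hl
  | succ r =>
    obtain ⟨j0, hj0⟩ : ∃ j, lin h j ≠ 0 := by
      by_contra hcon
      push Not at hcon
      exact hl (funext hcon)
    -- the change of coordinates
    let Φ : Pt (r + 1) (r + 1) K :=
      { val := Fin.snoc (α := fun _ => PS (r + 1) K) (fun i : Fin r => X (j0.succAbove i)) h
        cc := by
          intro i
          refine Fin.lastCases ?_ (fun j => ?_) i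
          · rw [Fin.snoc_last, h0]
          · rw [Fin.snoc_castSucc, constantCoeff_X] }
    have hval1 : Φ.val (Fin.last r) = h := by
      change Fin.snoc (α := fun _ => PS (r + 1) K) (fun i : Fin r => X (j0.succAbove i)) h
        (Fin.last r) = h
      rw [Fin.snoc_last]
    have hval2 : ∀ i : Fin r, Φ.val (Fin.castSucc i) = X (j0.succAbove i) := by
      intro i
      change Fin.snoc (α := fun _ => PS (r + 1) K) (fun i : Fin r => X (j0.succAbove i)) h
        (Fin.castSucc i) = X (j0.succAbove i)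
      rw [Fin.snoc_castSucc]
    have hdet : Φ.linMat.det ≠ 0 := by
      intro hd
      obtain ⟨v, hv, hv0⟩ := Matrix.exists_mulVec_eq_zero_iff.mpr hd
      have h1 : ∀ i : Fin r, v (j0.succAbove i) = 0 := by
        intro i
        have h2 := congrFun hv0 (Fin.castSucc i)
        rw [Matrix.mulVec, dotProduct, Pi.zero_apply] at h2
        rw [← h2, Finset.sum_eq_single (j0.succAbove i)]
        · change _ = lin (Φ.val (Fin.castSucc i)) (j0.succAbove i) * _
          rw [hval2, lin_X, if_pos rfl, one_mul]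
        · intro b _ hb
          change lin (Φ.val (Fin.castSucc i)) b * _ = 0
          rw [hval2, lin_X, if_neg (Ne.symm hb), zero_mul]
        · intro hb
          exact absurd (Finset.mem_univ _) hb
      have h3 := congrFun hv0 (Fin.last r)
      rw [Matrix.mulVec, dotProduct, Pi.zero_apply, Finset.sum_eq_single j0] at h3
      · change lin (Φ.val (Fin.last r)) j0 * v j0 = 0 at h3
        rw [hval1] at h3
        apply hv
        funext j
        rcases eq_or_ne j j0 with rfl | hj
        · exact (mul_eq_zero.mp h3).resolve_left hj0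
        · obtain ⟨i, rfl⟩ := Fin.exists_succAbove_eq hj
          exact h1 i
      · intro b _ hb
        obtain ⟨i, rfl⟩ := Fin.exists_succAbove_eq hb
        rw [h1 i, mul_zero]
      · intro hb
        exact absurd (Finset.mem_univ _) hb
    obtain ⟨Ψ, hΨ1, hΨ2⟩ := exists_inverse Φ hdet
    have hs : IsSect (Ψ.comp (incl r K)) h := ⟨Φ, Ψ, hΨ1, hΨ2, hval1, rfl⟩
    exact hs.prime

end DT
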