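import Pool.Agent.DT.LastVar
import Pool.Agent.DT.LinChange
import Pool.Agent.DT.Sect

/-!
# The Weierstrass polynomial of a generic projection

* `exists_coord`: the point `a = (x_0^*, …, x_{r-1}^*, X_r)` has linear matrix `genRows r K (lin X_r)`; inverse by
  `exists_inverse`. `a.ev (evalLast W) = atLast W` since `a.ev ∘ inl.ev = phi` (`Pt.comp`, `Pt.eq_ev`) and
  `Polynomial.hom_eval₂`.
* `exists_isDist`: let `e` = order of `f`, `F` its homogeneous part of degree `e`. `g = b.ev (ext f)` (with `a, b` from
  `exists_coord`): the coefficient of `X_r^i` in `g` vanishes for `i < e` and for `i = e` it is `F(v)` with `v` = last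
  column of `b.linMat`, a vector killed by all rows `lin (x_i^*)` and with `v_r = 1`; every vector killed by the
  rows is a multiple of `v` (`genRows_indep`), so `F(v) ≠ 0` by `exists_kernel_vector`. Then `exists_weierstrass`
  and apply `a.ev`.
* `IsWeier.eq_of_isDist`: `W - W'` has smaller degree than `W'` and its value is divisible by the value of `W'`;
  transport by `exists_coord` and use `IsDist.eq_zero_of_dvd`.
-/

universe u

open MvPowerSeries

namespace DT

section
variable {r : ℕ} {K : Type u} [Field K]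

/-- value at `x_r` of a polynomial over `A^*` -/
noncomputable def atLast (W : Polynomial (PS r (KS r K))) : PS (r + 1) (KS r K) :=
  W.eval₂ (phi r K).toRingHom (X (Fin.last r))


private noncomputable def Weier_chi {n : ℕ} {L : Type u} [Field L] :
    PS (n + 1) L →+* PowerSeries L where
  toFun h := PowerSeries.mk fun i => coeff (Finsupp.single (Fin.last n) i) h
  map_one' := by
    classical
    ext i
    rw [PowerSeries.coeff_mk, MvPowerSeries.coeff_one, PowerSeries.coeff_one]
    simp only [Finsupp.single_eq_zero]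
  map_zero' := by
    ext i
    rw [PowerSeries.coeff_mk]
    simp
  map_add' f g := by
    ext i
    simp only [PowerSeries.coeff_mk, map_add]
  map_mul' f g := by
    classical
    ext i
    rw [PowerSeries.coeff_mk, PowerSeries.coeff_mul, MvPowerSeries.coeff_mul,
      Finsupp.antidiagonal_single, Finset.sum_map]
    refine Finset.sum_congr rfl fun x _ => ?_
    simp only [PowerSeries.coeff_mk]
    rfl

private lemma Weier_coeff_chi {n : ℕ} {L : Type u} [Field L] (h : PS (n + 1) L) (i : ℕ) :
    PowerSeries.coeff i (Weier_chi h) = coeff (Finsupp.single (Fin.last n) i) h := by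
  simp [Weier_chi, PowerSeries.coeff_mk]

private lemma Weier_chi_C {n : ℕ} {L : Type u} [Field L] (c : L) :
    Weier_chi (C c : PS (n + 1) L) = PowerSeries.C c := by
  classical
  ext i
  rw [Weier_coeff_chi, MvPowerSeries.coeff_C, PowerSeries.coeff_C]
  simp only [Finsupp.single_eq_zero]

/-- the polynomial of the terms of degree `e` -/
private noncomputable def Weier_F {n : ℕ} {L : Type u} [Field L] (f : PS (n + 1) L) (e : ℕ) :
    MvPolynomial (Fin (n + 1)) L :=
  ∑ α ∈ Finset.finsuppAntidiag Finset.univ e, MvPolynomial.monomial α (coeff α f)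

private lemma Weier_mem {n e : ℕ} {α : Fin (n + 1) →₀ ℕ} :
    α ∈ Finset.finsuppAntidiag Finset.univ e ↔ α.degree = e := by
  rw [Finset.mem_finsuppAntidiag]
  constructor
  · rintro ⟨h, -⟩
    rw [← h, Finsupp.degree_eq_sum]
  · intro h
    refine ⟨?_, Finset.subset_univ _⟩
    rw [← h, Finsupp.degree_eq_sum]

private lemma Weier_coeff_F {n : ℕ} {L : Type u} [Field L] (f : PS (n + 1) L) (e : ℕ)
    (α : Fin (n + 1) →₀ ℕ) :
    MvPolynomial.coeff α (Weier_F f e) = if α.degree = e then coeff α f else 0 := by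
  classical
  rw [Weier_F, MvPolynomial.coeff_sum]
  simp only [MvPolynomial.coeff_monomial]
  rw [Finset.sum_ite_eq' (Finset.finsuppAntidiag Finset.univ e) α fun β => coeff β f]
  simp only [Weier_mem]

private lemma Weier_F_map {n : ℕ} {K L : Type u} [Field K] [Field L] (ι : K →+* L)
    (f : PS (n + 1) K) (e : ℕ) :
    Weier_F (MvPowerSeries.map ι f) e = MvPolynomial.map ι (Weier_F f e) := by
  ext α
  rw [MvPolynomial.coeff_map, Weier_coeff_F, Weier_coeff_F, MvPowerSeries.coeff_map]
  split_ifs
  · rfl
  · rw [map_zero]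

/-- homogeneity -/
private lemma Weier_F_smul {n : ℕ} {K : Type u} [Field K] {S : Type*} [CommRing S] (ι : K →+* S)
    (f : PS (n + 1) K) (e : ℕ) (c : S) (v : Fin (n + 1) → S) :
    MvPolynomial.eval₂ ι (fun i => c * v i) (Weier_F f e) =
      c ^ e * MvPolynomial.eval₂ ι v (Weier_F f e) := by
  classical
  rw [Weier_F, MvPolynomial.eval₂_sum, MvPolynomial.eval₂_sum, Finset.mul_sum]
  refine Finset.sum_congr rfl fun α hα => ?_
  rw [Weier_mem, Finsupp.degree_eq_sum] at hα
  rw [MvPolynomial.eval₂_monomial, MvPolynomial.eval₂_monomial, Finsupp.prod_fintype _ _ (by simp),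
    Finsupp.prod_fintype _ _ (by simp)]
  simp only [mul_pow, Finset.prod_mul_distrib]
  rw [Finset.prod_pow_eq_pow_sum, hα]
  ring

private lemma Weier_chi_ev {n : ℕ} {L : Type u} [Field L] (a : Pt (n + 1) (n + 1) L)
    (G : MvPolynomial (Fin (n + 1)) L) :
    Weier_chi (a.ev (G : PS (n + 1) L)) =
      MvPolynomial.eval₂ (PowerSeries.C (R := L)) (fun i => Weier_chi (a.val i)) G := by
  induction G using MvPolynomial.induction_on with
  | C c =>
    rw [MvPolynomial.coe_C, Pt.ev_C, Weier_chi_C, MvPolynomial.eval₂_C]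
  | add p q hp hq =>
    rw [MvPolynomial.coe_add, map_add, map_add, hp, hq, MvPolynomial.eval₂_add]
  | mul_X p i hp =>
    rw [MvPolynomial.coe_mul, map_mul, map_mul, hp, MvPolynomial.coe_X, Pt.ev_X,
      MvPolynomial.eval₂_mul, MvPolynomial.eval₂_X]

/-- the coefficients at the powers of the last variable up to the order -/
private lemma Weier_coeff_ev {n : ℕ} {L : Type u} [Field L] (a : Pt (n + 1) (n + 1) L)
    (f : PS (n + 1) L) (e : ℕ) (he : (e : ℕ∞) ≤ f.order) (i : ℕ) (hi : i ≤ e) :
    coeff (Finsupp.single (Fin.last n) i) (a.ev f) =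
      if i = e then MvPolynomial.eval (fun j => a.linMat j (Fin.last n)) (Weier_F f e) else 0 := by
  classical
  set F := Weier_F f e with hFdef
  set g : PS (n + 1) L := f - (F : PS (n + 1) L) with hg
  have hgo : ((e + 1 : ℕ) : ℕ∞) ≤ g.order := by
    refine nat_le_order fun d hd => ?_
    rw [hg, map_sub, MvPolynomial.coeff_coe, hFdef, Weier_coeff_F]
    rcases Nat.lt_succ_iff_lt_or_eq.1 hd with h1 | h1
    · rw [if_neg h1.ne, sub_zero]
      refine coeff_of_lt_order (lt_of_lt_of_le ?_ he)
      exact_mod_cast h1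
    · rw [if_pos h1, sub_self]
  have hag : ((e + 1 : ℕ) : ℕ∞) ≤ (a.ev g).order :=
    (mem_maximalIdeal_pow_iff _ _).1 (Pt.ev_mem_pow a _ _ ((mem_maximalIdeal_pow_iff _ _).2 hgo))
  have h1 : f = (F : PS (n + 1) L) + g := by rw [hg]; ring
  have h2 : coeff (Finsupp.single (Fin.last n) i) (a.ev g) = 0 := by
    refine coeff_of_lt_order (lt_of_lt_of_le ?_ hag)
    rw [Finsupp.degree_single]
    exact_mod_cast Nat.lt_succ_of_le hi
  have h3 : coeff (Finsupp.single (Fin.last n) i) (a.ev f) =
      coeff (Finsupp.single (Fin.last n) i) (a.ev (F : PS (n + 1) L)) := by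
    conv_lhs => rw [h1]
    rw [map_add, map_add, h2, add_zero]
  -- the values of `χ`
  have h4 : ∀ j, ∃ u : PowerSeries L, Weier_chi (a.val j) = PowerSeries.X * u := by
    intro j
    have : (PowerSeries.X : PowerSeries L) ∣ Weier_chi (a.val j) := by
      rw [PowerSeries.X_dvd_iff, ← PowerSeries.coeff_zero_eq_constantCoeff_apply, Weier_coeff_chi,
        Finsupp.single_zero, MvPowerSeries.coeff_zero_eq_constantCoeff_apply, a.cc]
    exact this
  choose u hu using h4
  have h5 : ∀ j, PowerSeries.constantCoeff (u j) = a.linMat j (Fin.last n) := by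
    intro j
    have h6 := congrArg (PowerSeries.coeff 1) (hu j)
    have h7 : PowerSeries.coeff 1 (PowerSeries.X * u j) = PowerSeries.coeff 0 (u j) :=
      PowerSeries.coeff_succ_X_mul 0 (u j)
    rw [Weier_coeff_chi, h7, PowerSeries.coeff_zero_eq_constantCoeff_apply] at h6
    rw [← h6]
    rfl
  rw [h3, ← Weier_coeff_chi, Weier_chi_ev]
  have h7 : MvPolynomial.eval₂ (PowerSeries.C (R := L)) (fun i => Weier_chi (a.val i)) F =
      PowerSeries.X ^ e * MvPolynomial.eval₂ (PowerSeries.C (R := L)) u F := by
    have h8 : (fun i => Weier_chi (a.val i)) = fun i => PowerSeries.X * u i := funext hu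
    rw [h8, hFdef, Weier_F_smul]
  rw [h7]
  split_ifs with hie
  · rw [hie, PowerSeries.coeff_X_pow_mul', if_pos le_rfl, Nat.sub_self,
      PowerSeries.coeff_zero_eq_constantCoeff_apply, MvPolynomial.hom_eval₂]
    have h9 : (PowerSeries.constantCoeff (R := L)).comp (PowerSeries.C (R := L)) = RingHom.id L := by
      ext c
      simp
    rw [h9]
    have h10 : (fun i => PowerSeries.constantCoeff (u i)) = fun j => a.linMat j (Fin.last n) :=
      funext h5
    change MvPolynomial.eval₂ (RingHom.id L) (fun i => PowerSeries.constantCoeff (u i)) F = _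
    rw [h10]
    rfl
  · rw [PowerSeries.coeff_X_pow_mul', if_neg (by omega)]

/-- the coordinate change, with its linear part -/
private theorem Weier_coord (r : ℕ) (K : Type u) [Field K] :
    ∃ a b : Pt (r + 1) (r + 1) (KS r K), a.comp b = Pt.id _ _ ∧ b.comp a = Pt.id _ _ ∧
      (∀ W : Polynomial (PS r (KS r K)), a.ev (evalLast W) = atLast W) ∧
      (∀ i : Fin r, a.val i.castSucc = xstar r K i) ∧ a.val (Fin.last r) = X (Fin.last r) := by
  classical
  let a : Pt (r + 1) (r + 1) (KS r K) :=
    { val := Fin.snoc (α := fun _ => PS (r + 1) (KS r K)) (xstar r K) (X (Fin.last r))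
      cc := by
        intro i
        refine Fin.lastCases ?_ (fun j => ?_) i
        · rw [Fin.snoc_last, constantCoeff_X]
        · rw [Fin.snoc_castSucc]
          exact xstar_constantCoeff r K j }
  have hlast : a.val (Fin.last r) = X (Fin.last r) :=
    Fin.snoc_last (α := fun _ => PS (r + 1) (KS r K)) _ _
  have hcast : ∀ i : Fin r, a.val i.castSucc = xstar r K i := fun i =>
    Fin.snoc_castSucc (α := fun _ => PS (r + 1) (KS r K)) _ _ i
  have hl : lin (X (Fin.last r) : PS (r + 1) K) ≠ 0 := by
    intro h0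
    have h1 := congrFun h0 (Fin.last r)
    rw [lin_X, if_pos rfl, Pi.zero_apply] at h1
    exact one_ne_zero h1
  have hmat : a.linMat = genRows r K (lin (X (Fin.last r) : PS (r + 1) K)) := by
    ext i j
    refine Fin.lastCases ?_ (fun i => ?_) i
    · rw [Pt.linMat, genRows, Matrix.of_apply, Matrix.of_apply, Fin.snoc_last, hlast, lin_X, lin_X]
      split_ifs
      · rw [map_one]
      · rw [map_zero]
    · rw [Pt.linMat, genRows, Matrix.of_apply, Matrix.of_apply, Fin.snoc_castSucc, hcast]
  obtain ⟨b, h1, h2⟩ := exists_inverse a (by rw [hmat]; exact det_genRows_ne_zero r K _ hl)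
  refine ⟨a, b, h1, h2, fun W => ?_, hcast, hlast⟩
  have h3 : (inl r (KS r K)).comp a = gen r K := by
    refine Pt.ext fun i => ?_
    change a.ev (X i.castSucc) = xstar r K i
    rw [Pt.ev_X, hcast]
  have h4 := Polynomial.hom_eval₂ W (inl r (KS r K)).ev.toRingHom a.ev.toRingHom (X (Fin.last r))
  have h5 : a.ev.toRingHom.comp (inl r (KS r K)).ev.toRingHom = (phi r K).toRingHom := by
    refine RingHom.ext fun x => ?_
    change a.ev ((inl r (KS r K)).ev x) = phi r K x
    rw [← Pt.ev_comp, h3, phi_eq_ev]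
  have h6 : a.ev.toRingHom (X (Fin.last r)) = X (Fin.last r) := by
    change a.ev (X (Fin.last r)) = _
    rw [Pt.ev_X, hlast]
  rw [h5, h6] at h4
  exact h4

/-- the coordinate change `(x_0^*, …, x_{r-1}^*, x_r)` (inverse to each other); `atLast` is then
the composition of `evalLast` and the coordinate change -/
theorem exists_coord (r : ℕ) (K : Type u) [Field K] :
    ∃ a b : Pt (r + 1) (r + 1) (KS r K), a.comp b = Pt.id _ _ ∧ b.comp a = Pt.id _ _ ∧
      (∀ W : Polynomial (PS r (KS r K)), a.ev (evalLast W) = atLast W) := by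
  obtain ⟨a, b, h1, h2, h3, -⟩ := Weier_coord r K
  exact ⟨a, b, h1, h2, h3⟩

/-- existence of the Weierstrass polynomial (with an associate relation) -/
theorem exists_isDist [Infinite K] (f : PS (r + 1) K) (hf : f ≠ 0) :
    ∃ W : Polynomial (PS r (KS r K)), IsDist W ∧ (W.natDegree : ℕ∞) = f.order ∧
      Associated (ext r K (r + 1) f) (atLast W) := by
  classical
  obtain ⟨a, b, hab, hba, hW, hcast, hlast⟩ := Weier_coord r K
  obtain ⟨e, he⟩ : ∃ e : ℕ, (e : ℕ∞) = f.order := ⟨_, ne_zero_iff_order_finite.1 hf⟩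
  have hF : Weier_F f e ≠ 0 := by
    obtain ⟨d, hd, hd'⟩ := exists_coeff_ne_zero_and_order (ne_zero_iff_order_finite.1 hf)
    intro h0
    have h1 := Weier_coeff_F f e d
    rw [h0, MvPolynomial.coeff_zero, if_pos] at h1
    · exact hd h1.symm
    · rw [← he] at hd'
      exact_mod_cast hd'
  obtain ⟨w, hw, hFw⟩ := exists_kernel_vector r K (Weier_F f e) hF
  set v : Fin (r + 1) → KS r K := fun j => b.linMat j (Fin.last r) with hv
  have hmul : a.linMat * b.linMat = 1 := by rw [← Pt.linMat_comp, hab, Pt.linMat_id]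
  have hmul' : b.linMat * a.linMat = 1 := by rw [← Pt.linMat_comp, hba, Pt.linMat_id]
  have hrow : ∀ i : Fin r, ∑ j, lin (xstar r K i) j * v j = 0 := by
    intro i
    have h1 := congrFun (congrFun hmul i.castSucc) (Fin.last r)
    rw [Matrix.mul_apply, Matrix.one_apply_ne (Fin.castSucc_lt_last i).ne] at h1
    rw [← h1]
    refine Finset.sum_congr rfl fun j _ => ?_
    rw [← hcast]
    rfl
  have hlin : ∀ j, a.linMat (Fin.last r) j = if Fin.last r = j then 1 else 0 := by
    intro j
    change lin (a.val (Fin.last r)) j = _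
    rw [hlast, lin_X]
  have hone : v (Fin.last r) = 1 := by
    have h1 := congrFun (congrFun hmul (Fin.last r)) (Fin.last r)
    rw [Matrix.mul_apply, Matrix.one_apply_eq] at h1
    simp only [hlin, ite_mul, one_mul, zero_mul, Finset.sum_ite_eq, Finset.mem_univ, if_true] at h1
    exact h1
  have hwv : w = fun j => w (Fin.last r) * v j := by
    have h1 : a.linMat.mulVec (w - w (Fin.last r) • v) = 0 := by
      funext i
      refine Fin.lastCases ?_ (fun i => ?_) i
      · rw [Matrix.mulVec, dotProduct]
        simp only [hlin, ite_mul, one_mul, zero_mul, Finset.sum_ite_eq, Finset.mem_univ, if_true]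
        rw [Pi.sub_apply, Pi.smul_apply, hone, smul_eq_mul, mul_one, sub_self]
        rfl
      · rw [Matrix.mulVec, dotProduct, Pi.zero_apply]
        have h2 : ∀ j, a.linMat i.castSucc j = lin (xstar r K i) j := by
          intro j
          rw [← hcast]
          rfl
        simp only [h2, Pi.sub_apply, Pi.smul_apply, smul_eq_mul, mul_sub, Finset.sum_sub_distrib]
        rw [hw i, zero_sub, neg_eq_zero]
        have h3 : ∀ j, lin (xstar r K i) j * (w (Fin.last r) * v j) =
            w (Fin.last r) * (lin (xstar r K i) j * v j) := fun j => by ring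
        simp only [h3]
        rw [← Finset.mul_sum, hrow i, mul_zero]
    have h2 := congrArg b.linMat.mulVec h1
    rw [Matrix.mulVec_mulVec, hmul', Matrix.one_mulVec, Matrix.mulVec_zero, sub_eq_zero] at h2
    exact h2
  have hFv : MvPolynomial.eval₂ (algebraMap K (KS r K)) v (Weier_F f e) ≠ 0 := by
    intro h0
    apply hFw
    rw [hwv, Weier_F_smul, h0, mul_zero]
  have hord : (e : ℕ∞) ≤ (ext r K (r + 1) f).order := by
    refine nat_le_order fun d hd => ?_
    rw [DT.ext, MvPowerSeries.coeff_map, coeff_of_lt_order, map_zero]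
    rw [← he]
    exact_mod_cast hd
  obtain ⟨W, hW1, hW2, hW3⟩ := exists_weierstrass (b.ev (ext r K (r + 1) f)) e
    (fun i hi => by
      rw [Weier_coeff_ev b _ e hord i hi.le, if_neg hi.ne])
    (by
      rw [Weier_coeff_ev b _ e hord e le_rfl, if_pos rfl, DT.ext, Weier_F_map,
        MvPolynomial.eval_map]
      exact hFv)
  refine ⟨W, hW1, by rw [hW2, he], ?_⟩
  have h1 := hW3.map a.ev
  rw [hW, ← Pt.ev_comp, hba, Pt.ev_id] at h1
  exact h1

theorem exists_isWeier [Infinite K] (f : PS (r + 1) K) (hf : f ≠ 0) :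
    ∃ W : Polynomial (PS r (KS r K)), IsWeier f W := by
  obtain ⟨W, h1, h2, h3⟩ := exists_isDist f hf
  exact ⟨W, h1.1, h2, h3.dvd⟩

private theorem Weier_atLast_sub (P Q : Polynomial (PS r (KS r K))) :
    atLast (P - Q) = atLast P - atLast Q := by
  rw [atLast, Polynomial.eval₂_sub]
  rfl

private theorem Weier_eq_zero {W : Polynomial (PS r (KS r K))} (hW : IsDist W)
    {R : Polynomial (PS r (KS r K))} (hR : R.degree < W.degree) (hd : atLast W ∣ atLast R) :
    R = 0 := by
  obtain ⟨a, b, hab, hba, hev⟩ := exists_coord r K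
  apply hW.eq_zero_of_dvd R hR
  have h1 := map_dvd b.ev hd
  rw [← hev, ← hev, ← Pt.ev_comp, ← Pt.ev_comp, hab, Pt.ev_id, Pt.ev_id] at h1
  exact h1

/-- the Weierstrass polynomial is unique -/
theorem IsWeier.eq_of_isDist {f : PS (r + 1) K} {W W' : Polynomial (PS r (KS r K))}
    (h : IsWeier f W) (h' : IsDist W') (hdeg : (W'.natDegree : ℕ∞) = f.order)
    (ha : Associated (ext r K (r + 1) f) (atLast W')) : W = W' := by
  rw [← sub_eq_zero]
  apply Weier_eq_zero h'
  · have h1 : W.natDegree = W'.natDegree := by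
      have := h.natDegree
      rw [← hdeg] at this
      exact_mod_cast this
    have h2 : W.degree = W'.degree := by
      rw [Polynomial.degree_eq_natDegree h.monic.ne_zero,
        Polynomial.degree_eq_natDegree h'.1.ne_zero, h1]
    rw [← h2]
    exact Polynomial.degree_sub_lt_left h2 h.monic.ne_zero (by
      rw [h.monic.leadingCoeff, h'.1.leadingCoeff])
  · rw [Weier_atLast_sub]
    exact dvd_sub (ha.symm.dvd.trans h.dvd) dvd_rfl

theorem IsWeier.isDist [Infinite K] {f : PS (r + 1) K} (hf : f ≠ 0)
    {W : Polynomial (PS r (KS r K))} (h : IsWeier f W) : IsDist W := by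
  obtain ⟨W', h1, h2, h3⟩ := exists_isDist f hf
  rw [h.eq_of_isDist h1 h2 h3]; exact h1

theorem IsWeier.associated [Infinite K] {f : PS (r + 1) K} (hf : f ≠ 0)
    {W : Polynomial (PS r (KS r K))} (h : IsWeier f W) :
    Associated (ext r K (r + 1) f) (atLast W) := by
  obtain ⟨W', h1, h2, h3⟩ := exists_isDist f hf
  rw [h.eq_of_isDist h1 h2 h3]; exact h3

/-- a polynomial over `A^*` of degree smaller than that of the Weierstrass polynomial whose value at
`x_r` is divisible by `f` is zero -/
theorem IsWeier.eq_zero_of_dvd [Infinite K] {f : PS (r + 1) K} (hf : f ≠ 0)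
    {W : Polynomial (PS r (KS r K))} (h : IsWeier f W) (R : Polynomial (PS r (KS r K)))
    (hR : R.degree < W.degree) (hd : ext r K (r + 1) f ∣ atLast R) : R = 0 :=
  Weier_eq_zero (h.isDist hf) hR ((h.associated hf).symm.dvd.trans hd)

end

end DT
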