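import Pool.Agent.DT.UFD
import Pool.Agent.DT.Discr
import Pool.Agent.DT.Weier

/-!
# Squarefreeness under extension of the field; nonvanishing of the discriminant

* `squarefree_map`: `n = 0`: fields. `n = m+1`: by `exists_linear_change` over `K` and `exists_weierstrass`,
  `a.ev f ~ evalLast P`, `P` distinguished over `PS m K`. `P` is squarefree in the polynomial ring (`IsDist.dvd_iff`,
  `IsDist.of_mul`: a square factor of a monic polynomial may be taken monic; a monic distinguished factor of positive
  degree is not a unit in the power series ring), so `P.discr ≠ 0` (`discr_ne_zero_of_squarefree`; `PS m K` is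
  a UFD so integrally closed), so the discriminant of `P.map` over `PS m L` is nonzero, so `P.map` is squarefree
  (`squarefree_of_discr_ne_zero`), so `evalLast (P.map)` is squarefree: if `q^2` divides it, `q` is, by
  `exists_weierstrass`, associated to a distinguished polynomial (regular in `X_m` because it divides a regular one),
  and use `IsDist.dvd_iff`.
* `IsWeier.discr_ne_zero`: `ext f ~ atLast W` is squarefree, so `W` is squarefree (as above), so its discriminant is
  nonzero.
-/

universe u

open MvPowerSeries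

namespace DT

private theorem SqfExt_ev {n : ℕ} {K : Type u} [Field K] {a b : Pt n n K}
    (h1 : a.comp b = Pt.id _ _) (h2 : b.comp a = Pt.id _ _) {f : PS n K} :
    Squarefree f ↔ Squarefree (a.ev f) := by
  have e1 : ∀ x, b.ev (a.ev x) = x := by
    intro x
    rw [← Pt.ev_comp, h1, Pt.ev_id]
  have e2 : ∀ x, a.ev (b.ev x) = x := by
    intro x
    rw [← Pt.ev_comp, h2, Pt.ev_id]
  constructor
  · intro h x hx
    have h3 : b.ev x * b.ev x ∣ f := by
      have h4 := map_dvd b.ev hx
      rwa [map_mul, e1] at h4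
    have h5 := (h _ h3).map a.ev
    rwa [e2] at h5
  · intro h x hx
    have h3 : a.ev x * a.ev x ∣ a.ev f := by
      have h4 := map_dvd a.ev hx
      rwa [map_mul] at h4
    have h5 := (h _ h3).map b.ev
    rwa [e1] at h5

private theorem SqfExt_evalLast_one {n : ℕ} {K : Type u} [Field K] :
    evalLast (1 : Polynomial (PS n K)) = 1 := by
  rw [evalLast, Polynomial.eval₂_one]

private theorem SqfExt_poly_unit {n : ℕ} {K : Type u} [Field K] {Q : Polynomial (PS n K)}
    (hQ : IsDist Q) (h : IsUnit (evalLast Q)) : IsUnit Q := by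
  have h1 : evalLast Q ∣ evalLast (1 : Polynomial (PS n K)) := by
    rw [SqfExt_evalLast_one]
    exact isUnit_iff_dvd_one.1 h
  exact isUnit_of_dvd_one ((hQ.dvd_iff 1).1 h1)

/-- squarefree distinguished polynomials -/
private theorem SqfExt_poly {n : ℕ} {K : Type u} [Field K] {P : Polynomial (PS n K)}
    (hP : IsDist P) (h : Squarefree (evalLast P)) : Squarefree P := by
  intro Q hQ
  obtain ⟨S, hS⟩ := hQ
  have hlc : IsUnit Q.leadingCoeff := by
    have h1 := congrArg Polynomial.leadingCoeff hS
    rw [hP.1.leadingCoeff, Polynomial.leadingCoeff_mul, Polynomial.leadingCoeff_mul] at h1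
    exact isUnit_of_dvd_one ⟨Q.leadingCoeff * S.leadingCoeff, by rw [h1]; ring⟩
  obtain ⟨u, hu⟩ := hlc
  have hQ0 : Q ≠ 0 := by
    rintro rfl
    rw [zero_mul, zero_mul] at hS
    exact hP.1.ne_zero hS
  set Q' : Polynomial (PS n K) := Polynomial.C ((u⁻¹ : (PS n K)ˣ) : PS n K) * Q with hQ'
  have hmon : Q'.Monic := by
    rw [Polynomial.Monic, hQ', Polynomial.leadingCoeff_mul, Polynomial.leadingCoeff_C, ← hu,
      Units.inv_mul]
  have hCu : (Polynomial.C (u : PS n K)) * Polynomial.C ((u⁻¹ : (PS n K)ˣ) : PS n K) = 1 := by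
    rw [← Polynomial.C_mul, Units.mul_inv, Polynomial.C_1]
  have hQQ : Q = Polynomial.C (u : PS n K) * Q' := by
    rw [hQ', ← mul_assoc, hCu, one_mul]
  have hdist : IsDist Q' := by
    have h2 : P = Q' * (Polynomial.C (u : PS n K) * (Q * S)) := by
      rw [hS]
      conv_lhs => rw [hQQ]
      conv_rhs => rw [hQQ]
      ring
    rw [h2] at hP
    exact hP.of_mul hmon
  have h3 : evalLast Q * evalLast Q ∣ evalLast P := by
    rw [hS, evalLast_mul (Q * Q) S, evalLast_mul Q Q]
    exact Dvd.intro _ rfl
  have h4 : IsUnit (evalLast Q) := h _ h3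
  have h5 : IsUnit (evalLast Q') := by
    rw [hQ', evalLast_mul]
    refine IsUnit.mul ?_ h4
    rw [evalLast, Polynomial.eval₂_C]
    exact (Units.isUnit u⁻¹).map (inl n K).ev.toRingHom
  have h6 : IsUnit Q' := SqfExt_poly_unit hdist h5
  rw [hQQ]
  exact (IsUnit.map Polynomial.C u.isUnit).mul h6

private theorem SqfExt_evalLast_map {n : ℕ} {K L : Type u} [Field K] [Field L] (ι : K →+* L)
    (P : Polynomial (PS n K)) :
    evalLast (P.map (MvPowerSeries.map ι)) = MvPowerSeries.map ι (evalLast P) := by
  have h1 : (inl n K).map ι = inl n L := by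
    ext1 i
    show MvPowerSeries.map ι (X i.castSucc) = X i.castSucc
    rw [MvPowerSeries.map_X]
  rw [evalLast, evalLast, Polynomial.hom_eval₂, Polynomial.eval₂_map, MvPowerSeries.map_X]
  congr 1
  ext1 x
  show (inl n L).ev (MvPowerSeries.map ι x) = MvPowerSeries.map ι ((inl n K).ev x)
  rw [← Pt.ev_map, h1]

/-- a divisor of a distinguished polynomial is regular in the last variable -/
private theorem SqfExt_regular {n : ℕ} {K : Type u} [Field K] {P : Polynomial (PS n K)}
    (hP : IsDist P) {q : PS (n + 1) K} (h : q ∣ evalLast P) :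
    ∃ e : ℕ, (∀ i < e, coeff (Finsupp.single (Fin.last n) i) q = 0) ∧
      coeff (Finsupp.single (Fin.last n) e) q ≠ 0 := by
  classical
  have hex : ∃ e : ℕ, coeff (Finsupp.single (Fin.last n) e) q ≠ 0 := by
    by_contra hcon
    push Not at hcon
    obtain ⟨s, hs⟩ := h
    have h1 : (lastEquiv n K q).map (constantCoeff (σ := Fin n) (R := K)) = 0 := by
      ext k
      rw [PowerSeries.coeff_map, constantCoeff_coeff_lastEquiv, hcon, map_zero]
    have h2 : (lastEquiv n K (evalLast P)).map (constantCoeff (σ := Fin n) (R := K)) = 0 := by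
      rw [hs, map_mul, map_mul, h1, zero_mul]
    rw [lastEquiv_evalLast] at h2
    have h3 := congrArg (PowerSeries.coeff P.natDegree) h2
    rw [PowerSeries.coeff_map, Polynomial.coeff_coe, Polynomial.coeff_natDegree,
      hP.1.leadingCoeff, map_one, map_zero] at h3
    exact one_ne_zero h3
  refine ⟨Nat.find hex, fun i hi => ?_, Nat.find_spec hex⟩
  have := Nat.find_min hex hi
  push Not at this
  exact this

/-- the power series of a squarefree distinguished polynomial is squarefree -/
private theorem SqfExt_series {n : ℕ} {K : Type u} [Field K] {P : Polynomial (PS n K)}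
    (hP : IsDist P) (h : Squarefree P) : Squarefree (evalLast P) := by
  intro q hq
  obtain ⟨e, he1, he2⟩ := SqfExt_regular hP (dvd_trans (Dvd.intro _ rfl) hq)
  obtain ⟨Q, hQ, -, hass⟩ := exists_weierstrass q e he1 he2
  have h1 : evalLast Q * evalLast Q ∣ evalLast P :=
    dvd_trans (mul_dvd_mul hass.symm.dvd hass.symm.dvd) hq
  have h2 : Q ∣ P := (hQ.dvd_iff P).1 (dvd_trans (Dvd.intro _ rfl) h1)
  obtain ⟨S, hS⟩ := h2
  have hne : evalLast Q ≠ 0 := by
    intro h0
    have h3 : evalLast Q ∣ evalLast (0 : Polynomial (PS n K)) := by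
      rw [evalLast, evalLast, Polynomial.eval₂_zero]
      exact dvd_zero _
    have h4 : evalLast P = 0 := by
      rw [hS, evalLast_mul, h0, zero_mul]
    have h5 := congrArg (lastEquiv n K) h4
    rw [lastEquiv_evalLast, map_zero] at h5
    exact hP.1.ne_zero (Polynomial.coe_eq_zero_iff.1 h5)
  rw [hS, evalLast_mul] at h1
  have h3 : evalLast Q ∣ evalLast S := (mul_dvd_mul_iff_left hne).1 h1
  have h4 : Q ∣ S := (hQ.dvd_iff S).1 h3
  have h5 : Q * Q ∣ P := by
    rw [hS]
    exact mul_dvd_mul_left Q h4
  have h6 : IsUnit Q := h Q h5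
  refine hass.symm.isUnit ?_
  rw [evalLast]
  exact h6.map (Polynomial.eval₂RingHom (inl n K).ev.toRingHom (X (Fin.last n)))

private theorem SqfExt_map_injective {n : ℕ} {K L : Type u} [Field K] [Field L] (ι : K →+* L) :
    Function.Injective (MvPowerSeries.map (σ := Fin n) ι) := by
  intro f g h
  ext d
  have h1 := congrArg (coeff d) h
  rw [coeff_map, coeff_map] at h1
  exact ι.injective h1

private theorem SqfExt_discr {n : ℕ} {K : Type u} [Field K] [CharZero K]
    {P : Polynomial (PS n K)} (hP : IsDist P) (h : Squarefree P) : P.discr ≠ 0 := by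
  have h1 : UniqueFactorizationMonoid (PS n K) := ufd_PS n K
  have h2 : CharZero (PS n K) := by
    refine charZero_of_injective_ringHom (f := (MvPowerSeries.C : K →+* PS n K)) ?_
    exact MvPowerSeries.C_injective
  have h3 : IsDomain (PS n K) := NoZeroDivisors.to_isDomain _
  exact discr_ne_zero_of_squarefree hP.1 h

theorem squarefree_map {n : ℕ} {K L : Type u} [Field K] [CharZero K] [Field L] (ι : K →+* L)
    (f : PS n K) (hf : f ≠ 0) (h : Squarefree f) : Squarefree (MvPowerSeries.map ι f) := by
  rcases n with _ | n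
  · have h1 : IsUnit f := by
      rw [MvPowerSeries.isUnit_iff_constantCoeff, isUnit_iff_ne_zero]
      intro h0
      apply hf
      ext d
      rw [Subsingleton.elim d 0, coeff_zero_eq_constantCoeff_apply, h0, map_zero]
    exact (h1.map (MvPowerSeries.map ι)).squarefree
  obtain ⟨a, b, hab, hba, e, -, he1, he2⟩ := exists_linear_change f hf
  obtain ⟨P, hP, -, hass⟩ := exists_weierstrass (a.ev f) e he1 he2
  have h1 : Squarefree (evalLast P) := (hass.squarefree_iff).1 ((SqfExt_ev hab hba).1 h)
  have h2 : P.discr ≠ 0 := SqfExt_discr hP (SqfExt_poly hP h1)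
  set P' : Polynomial (PS n L) := P.map (MvPowerSeries.map ι) with hP'def
  have hmon' : P'.Monic := hP.1.map _
  have hP' : IsDist P' := by
    refine ⟨hmon', fun i hi => ?_⟩
    rw [hP'def, hP.1.natDegree_map] at hi
    rw [hP'def, Polynomial.coeff_map, constantCoeff_map, hP.2 i hi, map_zero]
  have h3 : P'.discr ≠ 0 := by
    rw [hP'def, discr_map _ hP.1]
    intro h0
    apply h2
    apply SqfExt_map_injective ι
    rw [h0, map_zero]
  have hdom : IsDomain (PS n L) := NoZeroDivisors.to_isDomain _
  have h4 : Squarefree (evalLast P') := SqfExt_series hP' (squarefree_of_discr_ne_zero hmon' h3)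
  rw [hP'def, SqfExt_evalLast_map] at h4
  have h5 : Squarefree (MvPowerSeries.map ι (a.ev f)) :=
    ((hass.map (MvPowerSeries.map ι : PS (n + 1) K →+* PS (n + 1) L)).squarefree_iff).2 h4
  rw [← Pt.ev_map] at h5
  have hid : (Pt.id (n + 1) K).map ι = Pt.id (n + 1) L := by
    ext1 i
    show MvPowerSeries.map ι (X i) = X i
    rw [MvPowerSeries.map_X]
  refine (SqfExt_ev (a := a.map ι) (b := b.map ι) ?_ ?_).2 h5
  · rw [← Pt.map_comp, hab, hid]
  · rw [← Pt.map_comp, hba, hid]

theorem IsWeier.discr_ne_zero {r : ℕ} {K : Type u} [Field K] [CharZero K] {f : PS (r + 1) K}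
    (hf : f ≠ 0) (hsq : Squarefree f) {W : Polynomial (PS r (KS r K))} (h : IsWeier f W) :
    W.discr ≠ 0 := by
  have hd : IsDist W := h.isDist hf
  have hass := h.associated hf
  have h1 : Squarefree (ext r K (r + 1) f) := squarefree_map _ f hf hsq
  obtain ⟨a, b, hab, hba, hW⟩ := exists_coord r K
  have h2 : Squarefree (a.ev (evalLast W)) := by
    rw [hW]
    exact (hass.squarefree_iff).1 h1
  have h3 : Squarefree (evalLast W) := (SqfExt_ev hab hba).2 h2
  have h4 : CharZero (KS r K) :=
    charZero_of_injective_algebraMap (algebraMap K (KS r K)).injective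
  exact SqfExt_discr hd (SqfExt_poly hd h3)

end DT
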