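import Pool.Agent.DT.ExSqf
import Pool.Agent.DT.Laurent

/-!
# The automorphism `τ ↦ τ + s X_3` and the two equations over `k((τ))`

Seven variables `τ = X_0`, `s = X_1`, old `X_i` = `X_{i+1}`.
* `lau_eqn7`, `lau_theta_eqn7`: `lau` and `theta.ev` are ring homomorphisms; `lau_X_zero`, `lau_X_succ`
  (`X 4 = X (Fin.succ 3)` etc.), `Fin.prod_univ_three`.
* `theta_mem_PP`: `PP` is generated by `X_1, …, X_6` (`PP_eq_span`), fixed by `theta`; use also the inverse.
-/

universe u

open MvPowerSeries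

namespace DT

section
variable (k : Type u) [Field k]

/-- `X_0 ↦ X_0 + X_1 X_4` (`τ ↦ τ + s X_3`), the other variables are fixed -/
noncomputable def theta : Pt 7 7 k where
  val := Function.update X 0 (X 0 + X 1 * X 4)
  cc i := by
    by_cases h : i = 0
    · subst h; simp
    · simp [Function.update_of_ne h]

noncomputable def theta' : Pt 7 7 k where
  val := Function.update X 0 (X 0 - X 1 * X 4)
  cc i := by
    by_cases h : i = 0
    · subst h; simp
    · simp [Function.update_of_ne h]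

lemma theta_val_zero : (theta k).val 0 = X 0 + X 1 * X 4 := by simp [theta]
lemma theta_val {i : Fin 7} (h : i ≠ 0) : (theta k).val i = X i := by simp [theta, h]
lemma theta'_val_zero : (theta' k).val 0 = X 0 - X 1 * X 4 := by simp [theta']
lemma theta'_val {i : Fin 7} (h : i ≠ 0) : (theta' k).val i = X i := by simp [theta', h]

lemma theta_comp : (theta k).comp (theta' k) = Pt.id 7 k := by
  ext1 i
  change (theta' k).ev ((theta k).val i) = X i
  by_cases h : i = 0
  · subst h
    rw [theta_val_zero, map_add, map_mul, Pt.ev_X, Pt.ev_X, Pt.ev_X, theta'_val_zero,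
      theta'_val k (by decide), theta'_val k (by decide)]
    ring
  · rw [theta_val k h, Pt.ev_X, theta'_val k h]

lemma theta'_comp : (theta' k).comp (theta k) = Pt.id 7 k := by
  ext1 i
  change (theta k).ev ((theta' k).val i) = X i
  by_cases h : i = 0
  · subst h
    rw [theta'_val_zero, map_sub, map_mul, Pt.ev_X, Pt.ev_X, Pt.ev_X, theta_val_zero,
      theta_val k (by decide), theta_val k (by decide)]
    ring
  · rw [theta'_val k h, Pt.ev_X, theta_val k h]

lemma lau_X_one : lau 6 k (X 1) = X 0 := lau_X_succ 6 k 0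
lemma lau_X_two : lau 6 k (X 2) = X 1 := lau_X_succ 6 k 1
lemma lau_X_three : lau 6 k (X 3) = X 2 := lau_X_succ 6 k 2
lemma lau_X_four : lau 6 k (X 4) = X 3 := lau_X_succ 6 k 3
lemma lau_X_five : lau 6 k (X 5) = X 4 := lau_X_succ 6 k 4
lemma lau_X_six : lau 6 k (X 6) = X 5 := lau_X_succ 6 k 5

lemma lau_eqn7 : lau 6 k (eqn7 k) = eqn (tau k) 0 := by
  have h : ∀ j, lau 6 k (rho7 k j) = rho (tau k) 0 j := by
    intro j
    fin_cases j
    · simp [rho7, rho]
    · simp [rho7, rho]
    · simp [rho7, rho, lau_X_zero]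
  simp only [eqn7, eqn, map_mul, map_sub, map_pow, map_prod, lau_X_two, lau_X_three, lau_X_four,
    lau_X_five, lau_X_six, hp, hm, h]

lemma lau_theta_eqn7 : lau 6 k ((theta k).ev (eqn7 k)) = eqn (tau k) 1 := by
  have h : ∀ j, lau 6 k ((theta k).ev (rho7 k j)) = rho (tau k) 1 j := by
    intro j
    fin_cases j
    · simp [rho7, rho]
    · simp [rho7, rho]
    · simp [rho7, rho, lau_X_zero, theta_val_zero, lau_X_one, lau_X_four]
  have h2 := theta_val k (i := 2) (by decide)
  have h3 := theta_val k (i := 3) (by decide)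
  have h4 := theta_val k (i := 4) (by decide)
  have h5 := theta_val k (i := 5) (by decide)
  have h6 := theta_val k (i := 6) (by decide)
  simp only [eqn7, eqn, map_mul, map_sub, map_pow, map_prod, Pt.ev_X, h2, h3, h4, h5, h6,
    lau_X_two, lau_X_three, lau_X_four, lau_X_five, lau_X_six, hp, hm, h]

lemma eqn7_mem_PP : eqn7 k ∈ PP 6 k := by
  rw [PP, Ideal.mem_comap, lau_eqn7, mem_maximalIdeal_iff, eqn_cc]

lemma tau_ne_zero : tau k ≠ 0 := by
  simp [tau]

lemma tau_ne_one : tau k ≠ 1 := by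
  intro h
  have := congrArg (fun x => HahnSeries.coeff x 0) h
  simp [tau] at this

lemma theta_mem_aux (a : PS 7 k) (h : a ∈ PP 6 k) : (theta k).ev a ∈ PP 6 k := by
  have hle : PP 6 k ≤ (PP 6 k).comap (theta k).ev.toRingHom := by
    conv_lhs => rw [PP_eq_span]
    rw [Ideal.span_le]
    rintro _ ⟨i, rfl⟩
    rw [SetLike.mem_coe, Ideal.mem_comap]
    change (theta k).ev (X i.succ) ∈ _
    rw [Pt.ev_X, theta_val k (Fin.succ_ne_zero i), PP_eq_span]
    exact Ideal.subset_span ⟨i, rfl⟩
  exact hle h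

lemma theta'_mem_aux (a : PS 7 k) (h : a ∈ PP 6 k) : (theta' k).ev a ∈ PP 6 k := by
  have hle : PP 6 k ≤ (PP 6 k).comap (theta' k).ev.toRingHom := by
    conv_lhs => rw [PP_eq_span]
    rw [Ideal.span_le]
    rintro _ ⟨i, rfl⟩
    rw [SetLike.mem_coe, Ideal.mem_comap]
    change (theta' k).ev (X i.succ) ∈ _
    rw [Pt.ev_X, theta'_val k (Fin.succ_ne_zero i), PP_eq_span]
    exact Ideal.subset_span ⟨i, rfl⟩
  exact hle h

lemma theta_mem_PP (a : PS 7 k) : (theta k).ev a ∈ PP 6 k ↔ a ∈ PP 6 k := by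
  refine ⟨fun h => ?_, theta_mem_aux k a⟩
  have := theta'_mem_aux k _ h
  rwa [← Pt.ev_comp, theta_comp, Pt.ev_id] at this

end

end DT
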