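import Pool.Agent.DT.Example
import Pool.Agent.DT.Levels

/-!
# The tower of sections

* `HH_cc`, `lin_HH`: `lin_sect_ne_zero` with `lin_Gp`, `lin_Gm`, `lin_ep_em`.
* `xi_Gp`: `(sG).ev (ext Gp) = 0`, base change (`Pt.ev_map`), `MvPowerSeries.map_map`-type identities between `up` and the
  two `ext`s. `xi_Gm`: `(sG).ev (ext Gm) = HH`, and `(sH).ev (ext HH) = 0`.
* `xi_ker`: `(sH).ev ((sG.map).ev g) = 0` so `ext HH ∣ (sG.map).ev g`, write it as `HH' * a`, lift `a = (sG.map).ev b`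
  (`IsSect.map`, `IsSect.ev_surjective`); then `sG.map` kills `g - Gm' b`, which is divisible by `Gp'`.
* `xi_ww`: `(sG).ev (xstar 4 _ k) = X k` (`sect_xstar`) and base change.  `xi_yy`: `yy = gen.comp ww`,
  `(xi).ev ((ww).ev f) = (sH).ev f` and `sect_xstar` for `sH`.
-/

universe u

open MvPowerSeries

namespace DT

section
variable {K : Type u} [Field K]

/-- `K_4`, `K_3` -/
abbrev K4 (K : Type u) [Field K] : Type u := KS 4 (KS 5 K)

abbrev K3 (K : Type u) [Field K] : Type u := KS 3 (K4 K)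

/-- section of `G_+^ρ` (level 5 → 4) -/
noncomputable def sG (τ t : K) (j : Fin 3) : Pt 5 4 (K4 K) := sect (Gp τ t j)

/-- `H^ρ` -/
noncomputable def HH (τ t : K) (j : Fin 3) : PS 4 (K4 K) :=
  (sG τ t j).ev (ext 4 (KS 5 K) 5 (Gm τ t j))

/-- section of `H^ρ` (level 4 → 3) -/
noncomputable def sH (τ t : K) (j : Fin 3) : Pt 4 3 (K3 K) := sect (HH τ t j)

/-- `ξ^ρ`: the point of `Z` (over the ring of level 3) -/
noncomputable def xi (τ t : K) (j : Fin 3) : Pt 5 3 (K3 K) :=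
  ((sG τ t j).map (algebraMap (K4 K) (K3 K))).comp (sH τ t j)

/-- extension of coefficients from level 5 to level 3 -/
noncomputable def up (K : Type u) [Field K] : KS 5 K →+* K3 K :=
  (algebraMap (K4 K) (K3 K)).comp (algebraMap (KS 5 K) (K4 K))

private lemma Tower1_Gp (τ t : K) (j : Fin 3) : lin (Gp τ t j) ≠ 0 := by
  intro h
  rw [lin_Gp] at h
  have h1 := lin_ep_em (K := K) 1 0 (by rw [h, smul_zero, zero_smul, add_zero])
  exact one_ne_zero h1.1

private lemma Tower1_up (n : ℕ) (f : PS n (KS 5 K)) :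
    MvPowerSeries.map (up K) f =
      MvPowerSeries.map (algebraMap (K4 K) (K3 K)) (ext 4 (KS 5 K) n f) := by
  ext1 α
  rw [ext, coeff_map, coeff_map, coeff_map]
  rfl

lemma HH_cc (τ t : K) (j : Fin 3) : constantCoeff (HH τ t j) = 0 := by
  rw [HH, Pt.constantCoeff_ev, ext, constantCoeff_map, Gm_cc, map_zero]

lemma lin_HH (τ t : K) (j : Fin 3) : lin (HH τ t j) ≠ 0 := by
  refine lin_sect_ne_zero (Gp_cc τ t j) (Tower1_Gp τ t j) fun a b h => ?_
  rw [lin_Gp, lin_Gm] at h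
  exact lin_ep_em a b h

private lemma Tower1_sG (τ t : K) (j : Fin 3) :
    IsSect (sG τ t j) (ext 4 (KS 5 K) 5 (Gp τ t j)) :=
  sect_isSect (Gp_cc τ t j) (Tower1_Gp τ t j)

private lemma Tower1_sH (τ t : K) (j : Fin 3) :
    IsSect (sH τ t j) (ext 3 (K4 K) 4 (HH τ t j)) :=
  sect_isSect (HH_cc τ t j) (lin_HH τ t j)

private lemma Tower1_Gm (τ t : K) (j : Fin 3) :
    ((sG τ t j).map (algebraMap (K4 K) (K3 K))).ev (MvPowerSeries.map (up K) (Gm τ t j)) =
      ext 3 (K4 K) 4 (HH τ t j) := by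
  rw [Tower1_up, Pt.ev_map]
  rfl

/-- `ξ^ρ` kills `G_+^ρ` and `G_-^ρ` -/
lemma xi_Gp (τ t : K) (j : Fin 3) :
    (xi τ t j).ev (MvPowerSeries.map (up K) (Gp τ t j)) = 0 := by
  rw [xi, Pt.ev_comp, Tower1_up, Pt.ev_map,
    ((Tower1_sG τ t j).ev_eq_zero_iff _).2 dvd_rfl, map_zero, map_zero]

lemma xi_Gm (τ t : K) (j : Fin 3) :
    (xi τ t j).ev (MvPowerSeries.map (up K) (Gm τ t j)) = 0 := by
  rw [xi, Pt.ev_comp, Tower1_Gm, ((Tower1_sH τ t j).ev_eq_zero_iff _).2 dvd_rfl]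

/-- the kernel of `ξ^0` -/
lemma xi_ker (τ t : K) (j : Fin 3) (g : PS 5 (K3 K)) (hg : (xi τ t j).ev g = 0) :
    ∃ a b, g = MvPowerSeries.map (up K) (Gp τ t j) * a +
      MvPowerSeries.map (up K) (Gm τ t j) * b := by
  rw [xi, Pt.ev_comp, (Tower1_sH τ t j).ev_eq_zero_iff] at hg
  obtain ⟨a, ha⟩ := hg
  have hS := (Tower1_sG τ t j).map (algebraMap (K4 K) (K3 K))
  obtain ⟨b, hb⟩ := hS.ev_surjective a
  have h0 : ((sG τ t j).map (algebraMap (K4 K) (K3 K))).ev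
      (g - MvPowerSeries.map (up K) (Gm τ t j) * b) = 0 := by
    rw [map_sub, map_mul, Tower1_Gm, hb, ha, sub_self]
  rw [hS.ev_eq_zero_iff, ← Tower1_up] at h0
  obtain ⟨c, hc⟩ := h0
  exact ⟨c, b, by rw [← hc]; ring⟩

/-- the functions `w_k` on `Z`, over the field of level 3 -/
noncomputable def ww (K : Type u) [Field K] : Pt 4 5 (K3 K) :=
  (gen 4 (KS 5 K)).map (algebraMap (K4 K) (K3 K))

/-- the functions `y_i` on `Z` -/
noncomputable def yy (K : Type u) [Field K] : Pt 3 5 (K3 K) := (gen 3 (K4 K)).comp (ww K)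

lemma xi_ww (τ t : K) (j : Fin 3) (k : Fin 4) :
    (xi τ t j).ev ((ww K).val k) = (sH τ t j).val k := by
  have h1 : (ww K).val k =
      MvPowerSeries.map (algebraMap (K4 K) (K3 K)) (xstar 4 (KS 5 K) k) := rfl
  have h2 : (sG τ t j).ev (xstar 4 (KS 5 K) k) = X k :=
    sect_xstar (Gp_cc τ t j) (Tower1_Gp τ t j) k
  rw [h1, xi, Pt.ev_comp, Pt.ev_map, h2, map_X, Pt.ev_X]

private lemma Tower1_comp (τ t : K) (j : Fin 3) : (ww K).comp (xi τ t j) = sH τ t j := by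
  ext1 k
  exact xi_ww τ t j k

lemma xi_yy (τ t : K) (j i : Fin 3) : (xi τ t j).ev ((yy K).val i) = X i := by
  have h1 : (yy K).val i = (ww K).ev (xstar 3 (K4 K) i) := rfl
  rw [h1, ← Pt.ev_comp, Tower1_comp]
  exact sect_xstar (HH_cc τ t j) (lin_HH τ t j) i

lemma root_HH (τ t : K) (j : Fin 3) :
    root (HH τ t j) = (xi τ t j).ev ((ww K).val 3) := by
  rw [xi_ww]
  rfl

end

end DT
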