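import Pool.Agent.DT.Tower1
import Pool.Agent.DT.ExSqf

/-!
# Divisors of the critical hypersurfaces

* `Gp_dvd`: `X 3` and `hp j` divide `eqn`, `dvd_crit` with `h₁ = X 3`, `h₂ = hp j`, `p = Gp j` (prime:
  `prime_of_lin_ne_zero`). `Gm_dvd`: `h₁ = X 5`, `h₂ = hm j`.
* `crit1_sing`: `lin_eq_zero_of_two` for `Gp 0`, `Gm 0` (`HH 0 ≠ 0`).
* `HH_dvd`: `dvd_crit` for `crit (eqn τ 1)` (nonzero, squarefree: `crit_ne_zero`, `crit_squarefree`, `squarefree_eqn`) and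
  `Gp j`, `Gm j`.
-/

universe u

open MvPowerSeries

namespace DT

section
variable {K : Type u} [Field K] [CharZero K]

private lemma tw2_lin_sp : lin ((sp K).val 2) ≠ 0 := by
  intro h
  have h1 := lin_ep_em (K := K) 1 0 (by rw [h, smul_zero, zero_smul, add_zero])
  exact one_ne_zero h1.1

private lemma tw2_lin_sm : lin ((sm K).val 4) ≠ 0 := by
  intro h
  have h1 := lin_ep_em (K := K) 0 1 (by rw [h, smul_zero, zero_smul, add_zero])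
  exact one_ne_zero h1.2

private lemma tw2_lin_Gp (τ t : K) (j : Fin 3) : lin (Gp τ t j) ≠ 0 := by
  rw [lin_Gp]
  exact tw2_lin_sp

private lemma tw2_lin_Gm (τ t : K) (j : Fin 3) : lin (Gm τ t j) ≠ 0 := by
  rw [lin_Gm]
  exact tw2_lin_sm

private lemma tw2_ne_zero {n : ℕ} {L : Type u} [Field L] {f : PS n L} (h : lin f ≠ 0) : f ≠ 0 := by
  rintro rfl
  apply h
  funext j
  simp [lin]

private lemma tw2_X3_dvd (τ : K) : (X 3 : PS 6 K) ∣ eqn τ 1 := by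
  rw [eqn, mul_assoc]
  exact dvd_mul_right _ _

private lemma tw2_X5_dvd (τ : K) : (X 5 : PS 6 K) ∣ eqn τ 1 := by
  rw [eqn, mul_comm (X 3) (X 5), mul_assoc]
  exact dvd_mul_right _ _

private lemma tw2_hp_dvd (τ : K) (j : Fin 3) : hp τ 1 j ∣ eqn τ 1 := by
  rw [eqn]
  refine Dvd.dvd.mul_left ?_ _
  exact (dvd_mul_right _ _).trans (Finset.dvd_prod_of_mem (fun j => hp τ 1 j * hm τ 1 j) (Finset.mem_univ j))

private lemma tw2_hm_dvd (τ : K) (j : Fin 3) : hm τ 1 j ∣ eqn τ 1 := by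
  rw [eqn]
  refine Dvd.dvd.mul_left ?_ _
  exact (dvd_mul_left _ _).trans (Finset.dvd_prod_of_mem (fun j => hp τ 1 j * hm τ 1 j) (Finset.mem_univ j))

lemma Gp_dvd (τ : K) (h0 : τ ≠ 0) (h1 : τ ≠ 1) (j : Fin 3) : Gp τ 1 j ∣ crit (eqn τ 1) := by
  have hl2 : lin (hp τ 1 j) ≠ 0 := by
    rw [lin_hp]
    exact lin_X_ne_zero 2
  exact dvd_crit (h₁ := X 3) (h₂ := hp τ 1 j) (eqn_ne_zero τ 1) (squarefree_eqn τ 1 h0 h1)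
    (constantCoeff_X 3) (lin_X_ne_zero 3) (hp_cc τ 1 j) hl2 (tw2_X3_dvd τ) (tw2_hp_dvd τ j)
    (tw2_ne_zero (tw2_lin_Gp τ 1 j)) (prime_of_lin_ne_zero _ (Gp_cc τ 1 j) (tw2_lin_Gp τ 1 j))
    (dvd_refl _)

lemma Gm_dvd (τ : K) (h0 : τ ≠ 0) (h1 : τ ≠ 1) (j : Fin 3) : Gm τ 1 j ∣ crit (eqn τ 1) := by
  have hl2 : lin (hm τ 1 j) ≠ 0 := by
    rw [lin_hm]
    exact lin_X_ne_zero 4
  exact dvd_crit (h₁ := X 5) (h₂ := hm τ 1 j) (eqn_ne_zero τ 1) (squarefree_eqn τ 1 h0 h1)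
    (constantCoeff_X 5) (lin_X_ne_zero 5) (hm_cc τ 1 j) hl2 (tw2_X5_dvd τ) (tw2_hm_dvd τ j)
    (tw2_ne_zero (tw2_lin_Gm τ 1 j)) (prime_of_lin_ne_zero _ (Gm_cc τ 1 j) (tw2_lin_Gm τ 1 j))
    (dvd_refl _)

lemma crit1_sing (τ : K) (h0 : τ ≠ 0) (h1 : τ ≠ 1) :
    constantCoeff (crit (eqn τ 1)) = 0 ∧ lin (crit (eqn τ 1)) = 0 :=
  lin_eq_zero_of_two (h₁ := Gp τ 1 0) (h₂ := Gm τ 1 0) (Gp_cc τ 1 0) (tw2_lin_Gp τ 1 0)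
    (Gm_cc τ 1 0) (tw2_lin_Gm τ 1 0) (Gp_dvd τ h0 h1 0) (Gm_dvd τ h0 h1 0)
    (tw2_ne_zero (lin_HH τ 1 0))

lemma HH_dvd (τ : K) (h0 : τ ≠ 0) (h1 : τ ≠ 1) (j : Fin 3) :
    HH τ 1 j ∣ crit (crit (eqn τ 1)) :=
  dvd_crit (h₁ := Gp τ 1 j) (h₂ := Gm τ 1 j)
    (crit_ne_zero (eqn_ne_zero τ 1) (squarefree_eqn τ 1 h0 h1))
    (crit_squarefree (eqn_ne_zero τ 1) (squarefree_eqn τ 1 h0 h1))
    (Gp_cc τ 1 j) (tw2_lin_Gp τ 1 j) (Gm_cc τ 1 j) (tw2_lin_Gm τ 1 j) (Gp_dvd τ h0 h1 j)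
    (Gm_dvd τ h0 h1 j) (tw2_ne_zero (lin_HH τ 1 j))
    (prime_of_lin_ne_zero _ (HH_cc τ 1 j) (lin_HH τ 1 j)) (dvd_refl _)

end

end DT
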