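import Pool.Agent.DT.Theta

/-!
# The two coefficient fields of the completion

* `exists_pres_compl`: `exists_equiv_compl` gives `e : Compl O p ≃+* B`, `B = PS 6 L / (F)`; `i' = e⁻¹ ∘ mk ∘ C`,
  the presentation has `r = 5`, `f = F`, `toRing = e⁻¹ ∘ mk`.
* `exists_pres_one`: `O = PS 7 k / (eqn7)`, `g = lauQ 6 k (eqn7 k)`, rewriting `lau_eqn7`.
* `exists_pres_two`: `g = lauQ 6 k (theta.ev eqn7) ∘ (isomorphism of PS 7 k/(eqn7) with PS 7 k/(theta.ev eqn7) induced by
  theta)`; the four conditions are transported by this isomorphism (`theta_mem_PP`, `mk_mem_PQ`).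
-/

universe u

open MvPowerSeries

namespace DT

theorem exists_pres_compl {O : Type u} [CommRing O] (p : Ideal O) [p.IsPrime] {L : Type u} [Field L]
    (F : PS 6 L) (hF : F ≠ 0) (hsq : Squarefree F) (h0 : constantCoeff F = 0) (hl : lin F = 0)
    (g : O →+* (PS 6 L ⧸ Ideal.span {F}))
    (h1 : ∀ a, a ∉ p → IsUnit (g a))
    (h2 : ∀ a ∈ p, g a ∈ (IsLocalRing.maximalIdeal (PS 6 L)).map (Ideal.Quotient.mk (Ideal.span {F})))
    (h3 : ∀ (m : ℕ) (a : O),
      g a ∈ (IsLocalRing.maximalIdeal (PS 6 L)).map (Ideal.Quotient.mk (Ideal.span {F})) ^ m →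
      ∃ b, b ∉ p ∧ b * a ∈ p ^ m)
    (h4 : ∀ (m : ℕ) (x : PS 6 L ⧸ Ideal.span {F}), ∃ a b, b ∉ p ∧ g b * x - g a ∈
      (IsLocalRing.maximalIdeal (PS 6 L)).map (Ideal.Quotient.mk (Ideal.span {F})) ^ m) :
    ∃ (i' : L →+* Compl O p) (P : Pres i'), lin P.f = 0 ∧
      P.dtClosed = dt 5 L F (IsLocalRing.maximalIdeal (PS 6 L)) ∧
      ∀ a (c : L), g a = Ideal.Quotient.mk _ (C c) → toCompl O p a = i' c := by
  have := isAdicComplete_quot 6 L F
  obtain ⟨e, he⟩ := exists_equiv_compl p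
    ((IsLocalRing.maximalIdeal (PS 6 L)).map (Ideal.Quotient.mk (Ideal.span {F}))) g h1 h2 h3 h4
  let i' : L →+* Compl O p :=
    e.symm.toRingHom.comp ((Ideal.Quotient.mk (Ideal.span {F})).comp (C (σ := Fin 6) (R := L)))
  have hsurj : Function.Surjective (e.symm.toRingHom.comp (Ideal.Quotient.mk (Ideal.span {F}))) :=
    e.symm.surjective.comp Ideal.Quotient.mk_surjective
  have hker : RingHom.ker (e.symm.toRingHom.comp (Ideal.Quotient.mk (Ideal.span {F}))) =
      Ideal.span {F} := by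
    ext x
    rw [RingHom.mem_ker, RingHom.comp_apply]
    show e.symm (Ideal.Quotient.mk (Ideal.span {F}) x) = 0 ↔ _
    rw [map_eq_zero_iff e.symm e.symm.injective, Ideal.Quotient.eq_zero_iff_mem]
  let P : Pres i' :=
    { r := 5
      f := F
      ne_zero := hF
      not_isUnit := by
        rw [MvPowerSeries.isUnit_iff_constantCoeff, h0]
        exact not_isUnit_zero
      squarefree := hsq
      toRing := e.symm.toRingHom.comp (Ideal.Quotient.mk (Ideal.span {F}))
      surj := hsurj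
      ker := hker
      coef := fun c => rfl }
  refine ⟨i', P, hl, rfl, ?_⟩
  intro a c hac
  apply e.injective
  rw [he, hac]
  show _ = e (e.symm (Ideal.Quotient.mk (Ideal.span {F}) (C c)))
  rw [e.apply_symm_apply]

section
variable (k : Type u) [Field k]

/-- the ring of `V` -/
abbrev OV : Type u := PS 7 k ⧸ Ideal.span {eqn7 k}

/-- the coefficient field `k` of `OV` -/
noncomputable def iV : k →+* OV k := (Ideal.Quotient.mk _).comp (C (σ := Fin 7) (R := k))

/-- the point `R` -/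
noncomputable def pV : Ideal (OV k) := PQ 6 k (eqn7 k)

instance : (pV k).IsPrime := PQ_isPrime 6 k (eqn7 k) (eqn7_mem_PP k)

lemma TwoFields_comap_pV : (pV k).comap (Ideal.Quotient.mk (Ideal.span {eqn7 k})) = PP 6 k := by
  ext a
  rw [Ideal.mem_comap]
  exact mk_mem_PQ 6 k (eqn7 k) (eqn7_mem_PP k) a

lemma pV_not_isMaximal : ¬ (pV k).IsMaximal := by
  intro h
  have h1 : (PP 6 k).IsMaximal := by
    rw [← TwoFields_comap_pV]
    exact Ideal.comap_isMaximal_of_surjective _ Ideal.Quotient.mk_surjective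
  have h2 := IsLocalRing.eq_maximalIdeal h1
  apply X_zero_notMem_PP 6 k
  rw [h2, mem_maximalIdeal_iff]
  simp

theorem exists_pres_one :
    ∃ (i' : LaurentSeries k →+* Compl (OV k) (pV k)) (P : Pres i'), lin P.f = 0 ∧
      P.dtClosed = dt 5 (LaurentSeries k) (eqn (tau k) 0)
        (IsLocalRing.maximalIdeal (PS 6 (LaurentSeries k))) ∧
      ∀ c : k, toCompl (OV k) (pV k) (iV k c) ∈ i'.range := by
  have hE := eqn7_mem_PP k
  obtain ⟨i', P, hl, hd, hr⟩ := exists_pres_compl (pV k) (lau 6 k (eqn7 k))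
    (by rw [lau_eqn7]; exact eqn_ne_zero _ _)
    (by rw [lau_eqn7]; exact squarefree_eqn _ _ (tau_ne_zero k) (tau_ne_one k))
    (by rw [lau_eqn7]; exact eqn_cc _ _)
    (by rw [lau_eqn7]; exact lin_eqn _ _)
    (lauQ 6 k (eqn7 k))
    (fun a ha => lauQ_isUnit 6 k (eqn7 k) hE a ha)
    (fun a ha => lauQ_mem 6 k (eqn7 k) hE a ha)
    (fun m a ha => lauQ_mem_pow 6 k (eqn7 k) hE m a ha)
    (fun m x => lauQ_approx 6 k (eqn7 k) hE m x)
  refine ⟨i', P, hl, ?_, ?_⟩
  · rw [hd, lau_eqn7]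
  · intro c
    refine ⟨HahnSeries.C c, (hr (iV k c) (HahnSeries.C c) ?_).symm⟩
    rw [← lau_C]
    rfl

lemma TwoFields_theta_theta' (a : PS 7 k) : (theta k).ev ((theta' k).ev a) = a := by
  rw [← Pt.ev_comp, theta'_comp, Pt.ev_id]

lemma TwoFields_theta'_theta (a : PS 7 k) : (theta' k).ev ((theta k).ev a) = a := by
  rw [← Pt.ev_comp, theta_comp, Pt.ev_id]

/-- `theta` as an automorphism of the power series ring -/
noncomputable def TwoFields_thE : PS 7 k ≃+* PS 7 k :=
  RingEquiv.ofRingHom (theta k).ev.toRingHom (theta' k).ev.toRingHom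
    (RingHom.ext fun a => TwoFields_theta_theta' k a) (RingHom.ext fun a => TwoFields_theta'_theta k a)

lemma TwoFields_thE_apply (a : PS 7 k) : TwoFields_thE k a = (theta k).ev a := rfl

/-- the induced isomorphism of the hypersurface rings -/
noncomputable def TwoFields_phi : OV k ≃+* (PS 7 k ⧸ Ideal.span {(theta k).ev (eqn7 k)}) :=
  Ideal.quotientEquiv _ _ (TwoFields_thE k) (by
    rw [Ideal.map_span, Set.image_singleton]
    rfl)

lemma TwoFields_phi_mk (a : PS 7 k) :
    TwoFields_phi k (Ideal.Quotient.mk (Ideal.span {eqn7 k}) a) =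
      Ideal.Quotient.mk (Ideal.span {(theta k).ev (eqn7 k)}) ((theta k).ev a) := rfl

lemma TwoFields_theta_eqn7_mem : (theta k).ev (eqn7 k) ∈ PP 6 k :=
  (theta_mem_PP k _).2 (eqn7_mem_PP k)

lemma TwoFields_phi_mem (x : OV k) :
    TwoFields_phi k x ∈ PQ 6 k ((theta k).ev (eqn7 k)) ↔ x ∈ pV k := by
  obtain ⟨a, rfl⟩ := Ideal.Quotient.mk_surjective x
  rw [TwoFields_phi_mk, mk_mem_PQ 6 k _ (TwoFields_theta_eqn7_mem k), theta_mem_PP]
  exact (mk_mem_PQ 6 k (eqn7 k) (eqn7_mem_PP k) a).symm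

lemma TwoFields_map_phi :
    (pV k).map (TwoFields_phi k) = PQ 6 k ((theta k).ev (eqn7 k)) := by
  ext y
  rw [Ideal.mem_map_of_equiv]
  constructor
  · rintro ⟨x, hx, rfl⟩
    exact (TwoFields_phi_mem k x).2 hx
  · intro hy
    refine ⟨(TwoFields_phi k).symm y, ?_, (TwoFields_phi k).apply_symm_apply y⟩
    rw [← TwoFields_phi_mem, (TwoFields_phi k).apply_symm_apply]
    exact hy

lemma TwoFields_phi_mem_pow (m : ℕ) (x : OV k)
    (h : TwoFields_phi k x ∈ PQ 6 k ((theta k).ev (eqn7 k)) ^ m) : x ∈ pV k ^ m := by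
  rw [← TwoFields_map_phi, ← Ideal.map_pow, Ideal.mem_map_of_equiv] at h
  obtain ⟨z, hz, hzx⟩ := h
  rwa [← (TwoFields_phi k).injective hzx]

theorem exists_pres_two :
    ∃ (i' : LaurentSeries k →+* Compl (OV k) (pV k)) (P : Pres i'), lin P.f = 0 ∧
      P.dtClosed = dt 5 (LaurentSeries k) (eqn (tau k) 1)
        (IsLocalRing.maximalIdeal (PS 6 (LaurentSeries k))) ∧
      ∀ c : k, toCompl (OV k) (pV k) (iV k c) ∈ i'.range := by
  have hE := TwoFields_theta_eqn7_mem k
  obtain ⟨i', P, hl, hd, hr⟩ := exists_pres_compl (pV k) (lau 6 k ((theta k).ev (eqn7 k)))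
    (by rw [lau_theta_eqn7]; exact eqn_ne_zero _ _)
    (by rw [lau_theta_eqn7]; exact squarefree_eqn _ _ (tau_ne_zero k) (tau_ne_one k))
    (by rw [lau_theta_eqn7]; exact eqn_cc _ _)
    (by rw [lau_theta_eqn7]; exact lin_eqn _ _)
    ((lauQ 6 k ((theta k).ev (eqn7 k))).comp (TwoFields_phi k : OV k →+* _))
    (fun a ha => lauQ_isUnit 6 k _ hE (TwoFields_phi k a)
      (fun h => ha ((TwoFields_phi_mem k a).1 h)))
    (fun a ha => lauQ_mem 6 k _ hE (TwoFields_phi k a) ((TwoFields_phi_mem k a).2 ha))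
    (fun m a ha => by
      obtain ⟨b, hb, hba⟩ := lauQ_mem_pow 6 k _ hE m (TwoFields_phi k a) ha
      refine ⟨(TwoFields_phi k).symm b, fun h => hb ?_, TwoFields_phi_mem_pow k m _ ?_⟩
      · rw [← TwoFields_phi_mem, (TwoFields_phi k).apply_symm_apply] at h
        exact h
      · rw [map_mul, (TwoFields_phi k).apply_symm_apply]
        exact hba)
    (fun m x => by
      obtain ⟨a, b, hb, hab⟩ := lauQ_approx 6 k _ hE m x
      refine ⟨(TwoFields_phi k).symm a, (TwoFields_phi k).symm b, fun h => hb ?_, ?_⟩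
      · rw [← TwoFields_phi_mem, (TwoFields_phi k).apply_symm_apply] at h
        exact h
      · show lauQ 6 k _ (TwoFields_phi k ((TwoFields_phi k).symm b)) * x -
          lauQ 6 k _ (TwoFields_phi k ((TwoFields_phi k).symm a)) ∈ _
        rw [(TwoFields_phi k).apply_symm_apply, (TwoFields_phi k).apply_symm_apply]
        exact hab)
  refine ⟨i', P, hl, ?_, ?_⟩
  · rw [hd, lau_theta_eqn7]
  · intro c
    refine ⟨HahnSeries.C c, (hr (iV k c) (HahnSeries.C c) ?_).symm⟩
    rw [← lau_C]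
    show lauQ 6 k _ (TwoFields_phi k (Ideal.Quotient.mk (Ideal.span {eqn7 k}) (C c))) = _
    rw [TwoFields_phi_mk, Pt.ev_C]
    rfl

/-- the presentation of `V` by seven variables -/
theorem exists_presV : ∃ P : Pres (iV k), lin P.f = 0 :=
  ⟨{ r := 6
     f := eqn7 k
     ne_zero := eqn7_ne_zero
     not_isUnit := by
       rw [MvPowerSeries.isUnit_iff_constantCoeff, eqn7_cc]
       exact not_isUnit_zero
     squarefree := squarefree_eqn7
     toRing := Ideal.Quotient.mk (Ideal.span {eqn7 k})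
     surj := Ideal.Quotient.mk_surjective
     ker := Ideal.mk_ker
     coef := fun c => rfl }, lin_eqn7⟩

end

end DT
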