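import Pool.Agent.DT.LastVar
import Pool.Agent.DTZ.Ufd

/-!
# Power series rings over an infinite field are factorial

`exists_sqfPart`: in a UFD let `Δ` be the product of the distinct irreducible factors of `d` (one of each class of
associates: `Multiset.toFinset` of the image of `UniqueFactorizationMonoid.factors d` in `Associates`, or
`UniqueFactorizationMonoid.radical`, or induction on the factorization).
-/

universe u

open MvPowerSeries

namespace DT

theorem ufd_PS (n : ℕ) (K : Type u) [Field K] [Infinite K] :
    UniqueFactorizationMonoid (PS n K) :=
  Pool.Agent.DTZ.Ufd_main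

theorem exists_sqfPart {n : ℕ} {K : Type u} [Field K] [Infinite K] (d : PS n K) (hd : d ≠ 0) :
    ∃ Δ : PS n K, IsSqfPart Δ d := by
  have h1 : UniqueFactorizationMonoid (PS n K) := ufd_PS n K
  let _ : StrongNormalizationMonoid (PS n K) := UniqueFactorizationMonoid.strongNormalizationMonoid
  exact ⟨UniqueFactorizationMonoid.radical d, UniqueFactorizationMonoid.squarefree_radical,
    UniqueFactorizationMonoid.radical_dvd_self,
    UniqueFactorizationMonoid.exists_dvd_radical_self_pow hd⟩

end DT
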